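import Mathlib

/-!
# Derivations and algebraic extensions of domains of finite type
-/

set_option autoImplicit false
set_option linter.unusedSectionVars false
set_option linter.style.haveILetI false

namespace Pool.Agent.H40LT

open Module

section

variable {F R : Type*} [Field F] [CharZero F] [CommRing R] [IsDomain R] [Algebra F R]

/-- a derivation with values in the field of fractions gives a derivation of the algebra -/
theorem der_of_frac [Algebra.FiniteType F R] (D₀ : Derivation F R (FractionRing R)) (h0 : D₀ ≠ 0) :
    ∃ D : Derivation F R R, D ≠ 0 ∧ ∀ r, D₀ r = 0 → D r = 0 := by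
  classical
  obtain ⟨s, hs⟩ := (inferInstance : Algebra.FiniteType F R).out
  obtain ⟨b, hb⟩ := IsLocalization.exist_integer_multiples_of_finset (nonZeroDivisors R) (s.image D₀)
  have hb' : ∀ r : R, ∃ c : R, algebraMap R (FractionRing R) c = (b : R) • D₀ r := by
    let T : Subalgebra F R :=
      { carrier := {r | ∃ c : R, algebraMap R (FractionRing R) c = (b : R) • D₀ r}
        mul_mem' := by
          rintro x y ⟨c, hc⟩ ⟨d, hd⟩
          refine ⟨x * d + y * c, ?_⟩
          rw [Derivation.leibniz, map_add, map_mul, map_mul, hc, hd, smul_add, smul_comm (b : R) x,
            smul_comm (b : R) y]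
          simp [Algebra.smul_def]
        add_mem' := by
          rintro x y ⟨c, hc⟩ ⟨d, hd⟩
          exact ⟨c + d, by rw [map_add, map_add, hc, hd, smul_add]⟩
        algebraMap_mem' := fun c => ⟨0, by rw [Derivation.map_algebraMap, smul_zero, map_zero]⟩ }
    have h1 : T = ⊤ := by
      rw [eq_top_iff, ← hs]
      refine Algebra.adjoin_le fun x hx => ?_
      obtain ⟨c, hc⟩ := hb (D₀ x) (Finset.mem_image_of_mem _ hx)
      exact ⟨c, hc⟩
    intro r
    have h2 : r ∈ T := by rw [h1]; trivial
    exact h2
  choose f hf using hb'
  have hinj : Function.Injective (algebraMap R (FractionRing R)) := IsFractionRing.injective _ _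
  let L : R →ₗ[F] R :=
    { toFun := f
      map_add' := fun x y => hinj (by rw [hf, map_add, map_add, hf, hf, smul_add])
      map_smul' := fun c x => hinj (by
        rw [hf, Derivation.map_smul, RingHom.id_apply, Algebra.smul_def c (f x), map_mul, hf,
          ← IsScalarTower.algebraMap_apply, smul_comm, Algebra.smul_def c]) }
  let D : Derivation F R R := Derivation.mk' L (by
    intro x y
    apply hinj
    change algebraMap R (FractionRing R) (f (x * y)) = algebraMap R (FractionRing R) (x • f y + y • f x)
    rw [hf, Derivation.leibniz, map_add, smul_eq_mul, smul_eq_mul, map_mul, map_mul, hf, hf, smul_add,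
      smul_comm (b : R) x, smul_comm (b : R) y]
    simp [Algebra.smul_def])
  have hD : ∀ r, algebraMap R (FractionRing R) (D r) = (b : R) • D₀ r := hf
  have hb0 : algebraMap R (FractionRing R) (b : R) ≠ 0 := by
    rw [Ne, map_eq_zero_iff _ hinj]
    exact nonZeroDivisors.coe_ne_zero b
  refine ⟨D, ?_, ?_⟩
  · intro h
    apply h0
    ext r
    have h1 := hD r
    rw [h, Derivation.zero_apply, map_zero, Algebra.smul_def] at h1
    rcases mul_eq_zero.mp h1.symm with h2 | h2
    · exact absurd h2 hb0
    · exact h2
  · intro r hr
    apply hinj
    rw [hD, hr, smul_zero, map_zero]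

/-- if no derivation other than zero vanishes on `A` then the algebra is algebraic over `A` -/
theorem algebraic_of_der [Algebra.FiniteType F R] (A : Subalgebra F R)
    (h : ∀ D : Derivation F R R, (∀ a ∈ A, D a = 0) → D = 0) : Algebra.IsAlgebraic A R := by
  classical
  letI : Algebra (FractionRing A) (FractionRing R) := FractionRing.liftAlgebra A (FractionRing R)
  haveI : IsScalarTower A (FractionRing A) (FractionRing R) := FractionRing.isScalarTower_liftAlgebra A (FractionRing R)
  haveI : CharZero (FractionRing A) := by
    have h1 : Function.Injective (algebraMap F (FractionRing A)) := (algebraMap F (FractionRing A)).injective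
    exact charZero_of_injective_algebraMap h1
  haveI : Algebra.FiniteType A R := Algebra.FiniteType.of_restrictScalars_finiteType F A R
  haveI : Algebra.EssFiniteType A R := inferInstance
  haveI : Algebra.EssFiniteType R (FractionRing R) := Algebra.EssFiniteType.of_isLocalization _ (nonZeroDivisors R)
  haveI : Algebra.EssFiniteType A (FractionRing R) := Algebra.EssFiniteType.comp A R (FractionRing R)
  haveI : Algebra.EssFiniteType (FractionRing A) (FractionRing R) :=
    Algebra.EssFiniteType.of_comp A (FractionRing A) (FractionRing R)
  -- the module of differentials is zero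
  have hsub : Subsingleton (Ω[FractionRing R⁄FractionRing A]) := by
    by_contra hne
    rw [not_subsingleton_iff_nontrivial] at hne
    obtain ⟨D₁, hD₁⟩ : ∃ D₁ : Derivation (FractionRing A) (FractionRing R) (FractionRing R), D₁ ≠ 0 := by
      obtain ⟨ω, hω⟩ := exists_ne (0 : Ω[FractionRing R⁄FractionRing A])
      obtain ⟨f, hf⟩ : ∃ f : Ω[FractionRing R⁄FractionRing A] →ₗ[FractionRing R] FractionRing R, f ω ≠ 0 := by
        by_contra hcon
        push Not at hcon
        exact hω ((Module.forall_dual_apply_eq_zero_iff (FractionRing R) ω).mp hcon)
      refine ⟨f.compDer (KaehlerDifferential.D (FractionRing A) (FractionRing R)), fun h1 => hf ?_⟩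
      have h2 : ω ∈ Submodule.span (FractionRing R)
          (Set.range (KaehlerDifferential.D (FractionRing A) (FractionRing R))) := by
        rw [KaehlerDifferential.span_range_derivation]
        trivial
      have h3 : f = 0 := by
        apply LinearMap.ext
        intro z
        have h4 : z ∈ Submodule.span (FractionRing R)
            (Set.range (KaehlerDifferential.D (FractionRing A) (FractionRing R))) := by
          rw [KaehlerDifferential.span_range_derivation]
          trivial
        induction h4 using Submodule.span_induction with
        | mem x hx =>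
          obtain ⟨y, rfl⟩ := hx
          exact congrArg (fun d : Derivation (FractionRing A) (FractionRing R) (FractionRing R) => d y) h1
        | zero => rw [map_zero, map_zero]
        | add x y _ _ hx hy => rw [map_add, hx, hy, map_add]
        | smul a x _ hx => rw [map_smul, hx, map_smul]
      rw [h3, LinearMap.zero_apply]
    have hFA : ∀ c : F, algebraMap (FractionRing A) (FractionRing R) (algebraMap F (FractionRing A) c) =
        algebraMap R (FractionRing R) (algebraMap F R c) := by
      intro c
      have h1 : algebraMap F (FractionRing A) c = algebraMap A (FractionRing A) (algebraMap F A c) :=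
        IsScalarTower.algebraMap_apply F A (FractionRing A) c
      rw [h1, ← IsScalarTower.algebraMap_apply A (FractionRing A) (FractionRing R)]
      rfl
    let D₂ : Derivation F R (FractionRing R) := Derivation.mk'
      { toFun := fun r => D₁ (algebraMap R (FractionRing R) r)
        map_add' := fun x y => by rw [map_add, map_add]
        map_smul' := fun c x => by
          have h1 : algebraMap R (FractionRing R) (c • x) =
              (algebraMap F (FractionRing A) c) • algebraMap R (FractionRing R) x := by
            rw [Algebra.smul_def, Algebra.smul_def, map_mul, hFA]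
          rw [h1, Derivation.map_smul, RingHom.id_apply]
          rw [Algebra.smul_def, Algebra.smul_def, hFA]
          rfl } (by
        intro x y
        change D₁ (algebraMap R (FractionRing R) (x * y)) = x • D₁ (algebraMap R (FractionRing R) y) +
          y • D₁ (algebraMap R (FractionRing R) x)
        rw [map_mul, Derivation.leibniz]
        simp [Algebra.smul_def])
    have hD₂ : ∀ r, D₂ r = D₁ (algebraMap R (FractionRing R) r) := fun r => rfl
    have hD₂0 : D₂ ≠ 0 := by
      intro h0
      apply hD₁
      ext z
      obtain ⟨x, y, hy, rfl⟩ := IsFractionRing.div_surjective (A := R) z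
      have hy0 : algebraMap R (FractionRing R) y ≠ 0 := by
        rw [Ne, map_eq_zero_iff _ (IsFractionRing.injective R (FractionRing R))]
        exact nonZeroDivisors.ne_zero hy
      have h1 : D₁ (algebraMap R (FractionRing R) x) = 0 := by rw [← hD₂, h0]; rfl
      have h2 : D₁ (algebraMap R (FractionRing R) y) = 0 := by rw [← hD₂, h0]; rfl
      have h3 := D₁.leibniz (algebraMap R (FractionRing R) x / algebraMap R (FractionRing R) y)
        (algebraMap R (FractionRing R) y)
      rw [div_mul_cancel₀ _ hy0, h1, h2, smul_zero, zero_add] at h3
      rcases smul_eq_zero.mp h3.symm with h4 | h4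
      · exact absurd h4 hy0
      · rw [h4]
        rfl
    obtain ⟨D, hD, hD'⟩ := der_of_frac D₂ hD₂0
    refine hD (h D fun a ha => hD' a ?_)
    rw [hD₂]
    have h1 : algebraMap R (FractionRing R) a = algebraMap (FractionRing A) (FractionRing R)
        (algebraMap A (FractionRing A) ⟨a, ha⟩) := by
      rw [← IsScalarTower.algebraMap_apply A (FractionRing A) (FractionRing R),
        IsScalarTower.algebraMap_apply A R (FractionRing R)]
      rfl
    rw [h1, Derivation.map_algebraMap]
  haveI : Algebra.FormallyUnramified (FractionRing A) (FractionRing R) := ⟨hsub⟩
  have hsep : Algebra.IsSeparable (FractionRing A) (FractionRing R) :=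
    (Algebra.FormallyUnramified.iff_isSeparable (FractionRing A) (FractionRing R)).mp inferInstance
  have halg : Algebra.IsAlgebraic (FractionRing A) (FractionRing R) := inferInstance
  have halg2 : Algebra.IsAlgebraic A (FractionRing R) := (IsFractionRing.comap_isAlgebraic_iff
    (A := A) (K := FractionRing A) (C := FractionRing R)).mpr halg
  constructor
  intro r
  have h1 := halg2.isAlgebraic (algebraMap R (FractionRing R) r)
  exact (isAlgebraic_algebraMap_iff (IsFractionRing.injective R (FractionRing R))).mp h1

end

end Pool.Agent.H40LT
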