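import Mathlib
import Pool.Agent.H40GO.Coef
import Pool.Agent.H40LT.Alg

/-!
# Derivations of algebras of representative functions
-/

set_option autoImplicit false
set_option linter.unusedSectionVars false
set_option linter.style.haveILetI false

namespace Pool.Agent.H40LT

open Module Matrix Pool.Agent.H40GO

section Linv

variable {F : Type*} [Field F] {Γ : Type*} [Group Γ] {R : Subalgebra F (Γ → F)} (hR : ∀ r ∈ R, Comul R r)

/-- the point derivation at the unit element given by a derivation and an element -/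
def pd (D : Derivation F R R) (γ : Γ) : R →ₗ[F] F where
  toFun r := ((D ⟨lt γ⁻¹ (r : Γ → F), (hR r r.2).lt_mem γ⁻¹⟩ : R) : Γ → F) γ
  map_add' r s := by
    have h1 : (⟨lt γ⁻¹ ((r + s : R) : Γ → F), (hR _ (r + s).2).lt_mem γ⁻¹⟩ : R) =
        ⟨lt γ⁻¹ (r : Γ → F), (hR r r.2).lt_mem γ⁻¹⟩ + ⟨lt γ⁻¹ (s : Γ → F), (hR s s.2).lt_mem γ⁻¹⟩ := rfl
    rw [h1, map_add]
    rfl
  map_smul' c r := by
    have h1 : (⟨lt γ⁻¹ ((c • r : R) : Γ → F), (hR _ (c • r).2).lt_mem γ⁻¹⟩ : R) =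
        c • ⟨lt γ⁻¹ (r : Γ → F), (hR r r.2).lt_mem γ⁻¹⟩ := rfl
    rw [h1, Derivation.map_smul]
    rfl

theorem pd_apply (D : Derivation F R R) (γ : Γ) (r : R) :
    pd hR D γ r = ((D ⟨lt γ⁻¹ (r : Γ → F), (hR r r.2).lt_mem γ⁻¹⟩ : R) : Γ → F) γ := rfl

theorem pd_mul (D : Derivation F R R) (γ : Γ) (r s : R) :
    pd hR D γ (r * s) = (r : Γ → F) 1 * pd hR D γ s + (s : Γ → F) 1 * pd hR D γ r := by
  rw [pd_apply, pd_apply, pd_apply]
  have h1 : (⟨lt γ⁻¹ ((r * s : R) : Γ → F), (hR _ (r * s).2).lt_mem γ⁻¹⟩ : R) =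
      ⟨lt γ⁻¹ (r : Γ → F), (hR r r.2).lt_mem γ⁻¹⟩ * ⟨lt γ⁻¹ (s : Γ → F), (hR s s.2).lt_mem γ⁻¹⟩ := rfl
  rw [h1, Derivation.leibniz]
  change (r : Γ → F) (γ⁻¹ * γ) * _ + (s : Γ → F) (γ⁻¹ * γ) * _ = _
  rw [inv_mul_cancel]

theorem linv_mem (d : R →ₗ[F] F) (r : R) :
    (fun x => d ⟨lt x (r : Γ → F), (hR r r.2).lt_mem x⟩) ∈ R := by
  obtain ⟨n, u, w, hu, hw, h⟩ := hR r r.2
  have h1 : (fun x => d ⟨lt x (r : Γ → F), (hR r r.2).lt_mem x⟩) = ∑ k, (d ⟨w k, hw k⟩) • u k := by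
    funext x
    have h3 : (⟨lt x (r : Γ → F), (hR r r.2).lt_mem x⟩ : R) = ∑ k, u k x • (⟨w k, hw k⟩ : R) := by
      apply Subtype.ext
      ext z
      simp [h]
    rw [h3, map_sum]
    simp only [map_smul, smul_eq_mul, Finset.sum_apply, Pi.smul_apply]
    exact Finset.sum_congr rfl fun k _ => mul_comm _ _
  rw [h1]
  exact R.sum_mem fun k _ => R.smul_mem (hu k) _

/-- the left invariant derivation with given value at the unit element -/
def linv (d : R →ₗ[F] F) (hd : ∀ r s : R, d (r * s) = (r : Γ → F) 1 * d s + (s : Γ → F) 1 * d r) :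
    Derivation F R R :=
  Derivation.mk'
    { toFun := fun r => ⟨fun x => d ⟨lt x (r : Γ → F), (hR r r.2).lt_mem x⟩, linv_mem hR d r⟩
      map_add' := fun r s => by
        apply Subtype.ext
        funext x
        exact map_add d (⟨lt x (r : Γ → F), (hR r r.2).lt_mem x⟩ : R) ⟨lt x (s : Γ → F), (hR s s.2).lt_mem x⟩
      map_smul' := fun c r => by
        apply Subtype.ext
        funext x
        exact map_smul d c (⟨lt x (r : Γ → F), (hR r r.2).lt_mem x⟩ : R) } (by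
    intro r s
    apply Subtype.ext
    funext x
    have h1 := hd (⟨lt x (r : Γ → F), (hR r r.2).lt_mem x⟩ : R) ⟨lt x (s : Γ → F), (hR s s.2).lt_mem x⟩
    have h2 : (⟨lt x (r : Γ → F), (hR r r.2).lt_mem x⟩ : R).1 1 = (r : Γ → F) x :=
      congrArg (r : Γ → F) (mul_one x)
    have h3 : (⟨lt x (s : Γ → F), (hR s s.2).lt_mem x⟩ : R).1 1 = (s : Γ → F) x :=
      congrArg (s : Γ → F) (mul_one x)
    rw [h2, h3] at h1
    exact h1)

theorem linv_apply (d : R →ₗ[F] F) (hd : ∀ r s : R, d (r * s) = (r : Γ → F) 1 * d s + (s : Γ → F) 1 * d r)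
    (r : R) (x : Γ) : (linv hR d hd r : Γ → F) x = d ⟨lt x (r : Γ → F), (hR r r.2).lt_mem x⟩ := rfl

theorem lt_entry {k : Type*} [Fintype k] [DecidableEq k] (V : Γ →* Matrix k k F)
    (hV : ∀ i j, (fun x => V x i j) ∈ R) (x : Γ) (i j : k) (h : lt x (fun z => V z i j) ∈ R) :
    (⟨lt x (fun z => V z i j), h⟩ : R) = ∑ l, V x i l • (⟨fun z => V z l j, hV l j⟩ : R) := by
  apply Subtype.ext
  funext z
  change V (x * z) i j = _
  rw [map_mul, Matrix.mul_apply]
  simp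

end Linv

section Coef

variable {F : Type*} [Field F] {Γ : Type*} [Group Γ] {m n : Type*} [Fintype m] [DecidableEq m]
  [Fintype n] [DecidableEq n]

/-- a derivation is determined by its values on the matrix coefficients -/
theorem der_eq_zero (W : Γ →* Matrix m m F) (D : Derivation F (coefAlg W 1) (coefAlg W 1))
    (h : ∀ i j, D (matA (coefAlg W 1) W (mem1 W 1) i j) = 0) : D = 0 := by
  obtain ⟨M, hM⟩ : ∃ M, M = matA (coefAlg W 1) W (mem1 W 1) := ⟨_, rfl⟩
  obtain ⟨M', hM'⟩ : ∃ M', M' = matA (coefAlg W 1) (fun x => W x⁻¹) (mem2 W 1) := ⟨_, rfl⟩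
  have hMM : M * M' = 1 := by
    ext i j x
    have h1 : ((M * M') i j : Γ → F) x = (W x * W x⁻¹) i j := by
      rw [hM, hM', Matrix.mul_apply, Matrix.mul_apply]
      simp [matA]
    rw [h1, ← map_mul, mul_inv_cancel, map_one]
    by_cases hij : i = j
    · subst hij; simp
    · simp [Matrix.one_apply_ne hij]
  have hMM' : M' * M = 1 := by
    rw [mul_eq_one_comm]
    exact hMM
  have h1 : ∀ i j, D (M' i j) = 0 := by
    have h2 : M * M'.map D = 0 := by
      ext i j : 2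
      have h3 : (M * M') i j = (1 : Matrix m m (coefAlg W 1)) i j := by rw [hMM]
      have h4 : D ((M * M') i j) = D ((1 : Matrix m m (coefAlg W 1)) i j) := by rw [h3]
      have h5 : D ((1 : Matrix m m (coefAlg W 1)) i j) = 0 := by
        by_cases hij : i = j
        · subst hij
          rw [Matrix.one_apply_eq]
          exact D.map_one_eq_zero
        · rw [Matrix.one_apply_ne hij, map_zero]
      rw [h5, Matrix.mul_apply, map_sum] at h4
      rw [Matrix.mul_apply, Matrix.zero_apply, ← h4]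
      refine congrArg Subtype.val (Finset.sum_congr rfl fun k _ => ?_)
      rw [D.leibniz, hM, h, smul_zero, add_zero]
      rfl
    have h3 : M'.map D = 0 := by
      calc M'.map D = (M' * M) * M'.map D := by rw [hMM', one_mul]
        _ = 0 := by rw [mul_assoc, h2, mul_zero]
    intro i j
    exact congrFun (congrFun h3 i) j
  have key : ∀ r ∈ Algebra.adjoin F (coefSet W 1), ∀ hr : r ∈ coefAlg W 1, D ⟨r, hr⟩ = 0 := by
    intro r hr
    induction hr using Algebra.adjoin_induction with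
    | mem x hx =>
      intro h'
      rcases hx with (⟨⟨i, j⟩, rfl⟩ | ⟨⟨i, j⟩, rfl⟩) | (rfl | rfl)
      · exact h i j
      · have h2 := h1 i j
        rw [hM'] at h2
        exact h2
      · exact D.map_one_eq_zero
      · exact D.map_one_eq_zero
    | algebraMap c =>
      intro h'
      exact D.map_algebraMap c
    | add x z hx' hz' hx hz =>
      intro h'
      have h1 : (⟨x + z, h'⟩ : coefAlg W 1) = ⟨x, hx'⟩ + ⟨z, hz'⟩ := rfl
      rw [h1, map_add, hx hx', hz hz', add_zero]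
    | mul x z hx' hz' hx hz =>
      intro h'
      have h1 : (⟨x * z, h'⟩ : coefAlg W 1) = ⟨x, hx'⟩ * ⟨z, hz'⟩ := rfl
      rw [h1, Derivation.leibniz, hx hx', hz hz', smul_zero, smul_zero, add_zero]
  ext ⟨r, hr⟩ : 1
  exact key r hr hr

/-- the direct sum of two representations -/
def dsum (W : Γ →* Matrix m m F) (ρ : Γ →* Matrix n n F) : Γ →* Matrix (m ⊕ n) (m ⊕ n) F where
  toFun x := Matrix.fromBlocks (W x) 0 0 (ρ x)
  map_one' := by rw [map_one, map_one, Matrix.fromBlocks_one]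
  map_mul' x y := by
    rw [Matrix.fromBlocks_multiply, map_mul, map_mul]
    simp

theorem dsum_inl (W : Γ →* Matrix m m F) (ρ : Γ →* Matrix n n F) (x : Γ) (i j : m) :
    dsum W ρ x (Sum.inl i) (Sum.inl j) = W x i j := rfl

theorem dsum_inr (W : Γ →* Matrix m m F) (ρ : Γ →* Matrix n n F) (x : Γ) (i j : n) :
    dsum W ρ x (Sum.inr i) (Sum.inr j) = ρ x i j := rfl

variable (W : Γ →* Matrix m m F) (ρ : Γ →* Matrix n n F)

/-- the algebra generated by the coefficients of `W`, `ρ` and of their duals -/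
abbrev RR : Subalgebra F (Γ → F) := coefAlg (dsum W ρ) 1

theorem memW (i j : m) : (fun x => W x i j) ∈ RR W ρ := mem1 (dsum W ρ) 1 (Sum.inl i) (Sum.inl j)

theorem memW' (i j : m) : (fun x => W x⁻¹ i j) ∈ RR W ρ := mem2 (dsum W ρ) 1 (Sum.inl i) (Sum.inl j)

theorem memρ (i j : n) : (fun x => ρ x i j) ∈ RR W ρ := mem1 (dsum W ρ) 1 (Sum.inr i) (Sum.inr j)

theorem memρ' (i j : n) : (fun x => ρ x⁻¹ i j) ∈ RR W ρ := mem2 (dsum W ρ) 1 (Sum.inr i) (Sum.inr j)

theorem coefAlg_le_RR : coefAlg W 1 ≤ RR W ρ := by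
  refine Algebra.adjoin_le ?_
  rintro s ((⟨⟨i, j⟩, rfl⟩ | ⟨⟨i, j⟩, rfl⟩) | (rfl | rfl))
  · exact memW W ρ i j
  · exact memW' W ρ i j
  · exact (RR W ρ).one_mem
  · exact (RR W ρ).one_mem

/-- the matrix of functions `W` -/
def Wm : Matrix m m (RR W ρ) := matA (RR W ρ) W (memW W ρ)

/-- the matrix of functions `ρ` -/
def ρm : Matrix n n (RR W ρ) := matA (RR W ρ) ρ (memρ W ρ)

theorem Wm_apply (i j : m) (x : Γ) : (Wm W ρ i j : Γ → F) x = W x i j := rfl

theorem ρm_apply (i j : n) (x : Γ) : (ρm W ρ i j : Γ → F) x = ρ x i j := rfl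

theorem RR_comul : ∀ r ∈ RR W ρ, Comul (RR W ρ) r := (coefAlg_hopf (dsum W ρ) 1).comul

/-- `X` is tangent to the kernel -/
def IsTan (X : Matrix n n F) : Prop :=
  ∃ D : Derivation F (RR W ρ) (RR W ρ), (∀ i j, D (Wm W ρ i j) = 0) ∧
    (ρm W ρ).map D = ρm W ρ * X.map (algebraMap F (RR W ρ))

theorem isTan_zero : IsTan W ρ 0 := by
  refine ⟨0, fun i j => rfl, ?_⟩
  ext i j x
  simp

theorem IsTan.add {X Y : Matrix n n F} (hX : IsTan W ρ X) (hY : IsTan W ρ Y) : IsTan W ρ (X + Y) := by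
  obtain ⟨D, hD, hD'⟩ := hX
  obtain ⟨E, hE, hE'⟩ := hY
  refine ⟨D + E, fun i j => ?_, ?_⟩
  · rw [Derivation.add_apply, hD, hE, add_zero]
  · have h1 : (ρm W ρ).map (D + E : Derivation F (RR W ρ) (RR W ρ)) = (ρm W ρ).map D + (ρm W ρ).map E := rfl
    have h2 : (X + Y).map (algebraMap F (RR W ρ)) = X.map (algebraMap F (RR W ρ)) + Y.map (algebraMap F (RR W ρ)) :=
      Matrix.map_add _ (map_add _) _ _
    rw [h1, hD', hE', h2, mul_add]

theorem IsTan.smul {X : Matrix n n F} (c : F) (hX : IsTan W ρ X) : IsTan W ρ (c • X) := by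
  obtain ⟨D, hD, hD'⟩ := hX
  refine ⟨c • D, fun i j => ?_, ?_⟩
  · rw [Derivation.smul_apply, hD, smul_zero]
  · have h1 : (ρm W ρ).map (c • D : Derivation F (RR W ρ) (RR W ρ)) = c • (ρm W ρ).map D := rfl
    have h2 : (c • X).map (algebraMap F (RR W ρ)) = c • X.map (algebraMap F (RR W ρ)) := by
      ext i j x
      rfl
    rw [h1, hD', h2, Matrix.mul_smul]

theorem IsTan.lie {X Y : Matrix n n F} (hX : IsTan W ρ X) (hY : IsTan W ρ Y) : IsTan W ρ (X * Y - Y * X) := by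
  obtain ⟨D, hD, hD'⟩ := hX
  obtain ⟨E, hE, hE'⟩ := hY
  have key : ∀ (D E : Derivation F (RR W ρ) (RR W ρ)) (X Y : Matrix n n F)
      (_ : (ρm W ρ).map D = ρm W ρ * X.map (algebraMap F (RR W ρ)))
      (_ : (ρm W ρ).map E = ρm W ρ * Y.map (algebraMap F (RR W ρ))) (i j : n),
      D (E (ρm W ρ i j)) = (ρm W ρ * (X * Y).map (algebraMap F (RR W ρ))) i j := by
    intro D E X Y hD hE i j
    have h1 : E (ρm W ρ i j) = (ρm W ρ * Y.map (algebraMap F (RR W ρ))) i j := by rw [← hE]; rfl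
    rw [h1, Matrix.mul_apply, map_sum]
    have h2 : ∀ l, D (ρm W ρ i l * (Y.map (algebraMap F (RR W ρ))) l j) =
        (ρm W ρ * X.map (algebraMap F (RR W ρ))) i l * (Y.map (algebraMap F (RR W ρ))) l j := by
      intro l
      rw [Derivation.leibniz, Matrix.map_apply, Derivation.map_algebraMap, smul_zero, zero_add, ← hD, smul_eq_mul,
        mul_comm]
      rfl
    rw [Finset.sum_congr rfl fun l _ => h2 l, ← Matrix.mul_apply, mul_assoc, Matrix.map_mul]
  refine ⟨⁅D, E⁆, fun i j => ?_, ?_⟩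
  · rw [Derivation.commutator_apply, hD, hE, map_zero, map_zero, sub_zero]
  · ext i j : 2
    rw [Matrix.map_apply, Derivation.commutator_apply, key D E X Y hD' hE', key E D Y X hE' hD']
    have h2 : (X * Y - Y * X).map (algebraMap F (RR W ρ)) =
        (X * Y).map (algebraMap F (RR W ρ)) - (Y * X).map (algebraMap F (RR W ρ)) :=
      Matrix.map_sub _ (map_sub _) _ _
    rw [h2, mul_sub]
    rfl

/-- a derivation gives tangent vectors -/
theorem tan_of_der (D : Derivation F (RR W ρ) (RR W ρ)) (hD : ∀ i j, D (Wm W ρ i j) = 0) (γ : Γ) :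
    IsTan W ρ (ρ γ⁻¹ * Matrix.of fun i j => (D (ρm W ρ i j) : Γ → F) γ) := by
  have hR := RR_comul W ρ
  refine ⟨linv hR (pd hR D γ) (pd_mul hR D γ), ?_, ?_⟩
  · intro i j
    apply Subtype.ext
    funext x
    rw [linv_apply]
    have h1 : (⟨lt x (Wm W ρ i j : Γ → F), (hR _ (Wm W ρ i j).2).lt_mem x⟩ : RR W ρ) =
        ∑ k, W x i k • Wm W ρ k j := lt_entry W (memW W ρ) x i j _
    rw [h1, map_sum]
    refine Finset.sum_eq_zero fun k _ => ?_
    rw [map_smul, pd_apply]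
    have h2 : (⟨lt γ⁻¹ (Wm W ρ k j : Γ → F), (hR _ (Wm W ρ k j).2).lt_mem γ⁻¹⟩ : RR W ρ) =
        ∑ l, W γ⁻¹ k l • Wm W ρ l j := lt_entry W (memW W ρ) γ⁻¹ k j _
    have h3 : D (∑ l, W γ⁻¹ k l • Wm W ρ l j) = 0 := by
      rw [map_sum]
      refine Finset.sum_eq_zero fun l _ => ?_
      rw [Derivation.map_smul, hD, smul_zero]
    rw [h2, h3]
    exact smul_zero _
  · ext i j x
    rw [Matrix.map_apply, linv_apply]
    have h1 : (⟨lt x (ρm W ρ i j : Γ → F), (hR _ (ρm W ρ i j).2).lt_mem x⟩ : RR W ρ) =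
        ∑ k, ρ x i k • ρm W ρ k j := lt_entry ρ (memρ W ρ) x i j _
    have h4 : ∀ k, pd hR D γ (ρm W ρ k j) =
        (ρ γ⁻¹ * Matrix.of fun i j => (D (ρm W ρ i j) : Γ → F) γ) k j := by
      intro k
      rw [pd_apply]
      have h2 : (⟨lt γ⁻¹ (ρm W ρ k j : Γ → F), (hR _ (ρm W ρ k j).2).lt_mem γ⁻¹⟩ : RR W ρ) =
          ∑ l, ρ γ⁻¹ k l • ρm W ρ l j := lt_entry ρ (memρ W ρ) γ⁻¹ k j _
      rw [h2, map_sum, Matrix.mul_apply]
      simp [Derivation.map_smul]
    rw [h1, map_sum, Matrix.mul_apply]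
    have h5 : ((∑ k, ρm W ρ i k * ((ρ γ⁻¹ * Matrix.of fun i j => (D (ρm W ρ i j) : Γ → F) γ).map
        (algebraMap F (RR W ρ))) k j : RR W ρ) : Γ → F) x =
        ∑ k, ρ x i k * (ρ γ⁻¹ * Matrix.of fun i j => (D (ρm W ρ i j) : Γ → F) γ) k j := by
      rw [AddSubmonoidClass.coe_finsetSum, Finset.sum_apply]
      exact Finset.sum_congr rfl fun k _ => rfl
    rw [h5]
    refine Finset.sum_congr rfl fun k _ => ?_
    rw [map_smul, h4, smul_eq_mul]

/-- **No tangent vector implies algebraic.** -/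
theorem algebraic_of_tan [CharZero F] [IsDomain (RR W ρ)] (h : ∀ X, IsTan W ρ X → X = 0) :
    Algebra.IsAlgebraic ((coefAlg W 1).comap (RR W ρ).val) (RR W ρ) := by
  haveI : Algebra.FiniteType F (RR W ρ) := (RR W ρ).fg_iff_finiteType.mp (coefAlg_hopf (dsum W ρ) 1).fg
  refine algebraic_of_der _ fun D hD => ?_
  have hDW : ∀ i j, D (Wm W ρ i j) = 0 := fun i j => hD _ (mem1 W 1 i j)
  have hDρ : ∀ i j, D (ρm W ρ i j) = 0 := by
    intro i j
    apply Subtype.ext
    funext γ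
    have h1 := h _ (tan_of_der W ρ D hDW γ)
    have h2 : (Matrix.of fun i j => (D (ρm W ρ i j) : Γ → F) γ) = 0 := by
      have h3 : ρ γ * ρ γ⁻¹ = 1 := by rw [← map_mul, mul_inv_cancel, map_one]
      calc (Matrix.of fun i j => (D (ρm W ρ i j) : Γ → F) γ) =
          (ρ γ * ρ γ⁻¹) * (Matrix.of fun i j => (D (ρm W ρ i j) : Γ → F) γ) := by rw [h3, one_mul]
        _ = 0 := by rw [mul_assoc, h1, mul_zero]
    exact congrFun (congrFun h2 i) j
  apply der_eq_zero (dsum W ρ) D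
  rintro (i | i) (j | j)
  · exact hDW i j
  · exact D.map_zero
  · exact D.map_zero
  · exact hDρ i j

end Coef

end Pool.Agent.H40LT
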