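import Mathlib
import Pool.Agent.H40LT.Der

/-!
# A subgroup of finite index on which the algebra of coefficients is a domain
-/

set_option autoImplicit false
set_option linter.unusedSectionVars false
set_option linter.style.haveILetI false

namespace Pool.Agent.H40LT

open Module Matrix Pool.Agent.H40GO

section

variable {G : Type*} [Field G] {Γ : Type*} [Group Γ]

/-- left translation -/
def ltR {R : Subalgebra G (Γ → G)} (hR : ∀ r ∈ R, Comul R r) (g : Γ) : R →ₐ[G] R where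
  toFun r := ⟨lt g (r : Γ → G), (hR r r.2).lt_mem g⟩
  map_one' := rfl
  map_mul' _ _ := rfl
  map_zero' := rfl
  map_add' _ _ := rfl
  commutes' _ := rfl

theorem ltR_apply {R : Subalgebra G (Γ → G)} (hR : ∀ r ∈ R, Comul R r) (g : Γ) (r : R) (x : Γ) :
    (ltR hR g r : Γ → G) x = (r : Γ → G) (g * x) := rfl

theorem ltR_mul {R : Subalgebra G (Γ → G)} (hR : ∀ r ∈ R, Comul R r) (g h : Γ) (r : R) :
    ltR hR (g * h) r = ltR hR h (ltR hR g r) := by
  apply Subtype.ext
  funext x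
  rw [ltR_apply, ltR_apply, ltR_apply, mul_assoc]

theorem ltR_one {R : Subalgebra G (Γ → G)} (hR : ∀ r ∈ R, Comul R r) (r : R) : ltR hR 1 r = r := by
  apply Subtype.ext
  funext x
  rw [ltR_apply, one_mul]

theorem ltR_surj {R : Subalgebra G (Γ → G)} (hR : ∀ r ∈ R, Comul R r) (g : Γ) :
    Function.Surjective (ltR hR g) := by
  intro r
  refine ⟨ltR hR g⁻¹ r, ?_⟩
  rw [← ltR_mul, inv_mul_cancel, ltR_one]

theorem ltR_inj {R : Subalgebra G (Γ → G)} (hR : ∀ r ∈ R, Comul R r) (g : Γ) :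
    Function.Injective (ltR hR g) := by
  intro r s h
  rw [← ltR_one hR r, ← ltR_one hR s, ← mul_inv_cancel g, ltR_mul, ltR_mul, h]

/-- **Connectivity.** There is a normal subgroup of finite index on which the algebra is a domain. -/
theorem exists_conn [TopologicalSpace Γ] [IsTopologicalGroup Γ] {R : Subalgebra G (Γ → G)}
    (hR : ∀ r ∈ R, Comul R r) (hfg : R.FG) :
    ∃ Δ : Subgroup Γ, Δ.Normal ∧ Δ.FiniteIndex ∧
      (∀ r ∈ R, ∀ s ∈ R, (∀ x ∈ Δ, r x * s x = 0) → (∀ x ∈ Δ, r x = 0) ∨ (∀ x ∈ Δ, s x = 0)) ∧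
      ((∀ s ∈ R, IsOpen {x | s x ≠ 0}) → IsOpen (Δ : Set Γ)) := by
  classical
  haveI : Algebra.FiniteType G R := R.fg_iff_finiteType.mp hfg
  haveI : IsNoetherianRing R := Algebra.FiniteType.isNoetherianRing G R
  letI : MulAction Γ (Ideal R) :=
    { smul := fun g P => P.comap (ltR hR g : R →+* R)
      one_smul := fun P => by
        ext r
        change ltR hR 1 r ∈ P ↔ r ∈ P
        rw [ltR_one]
      mul_smul := fun g h P => by
        ext r
        change ltR hR (g * h) r ∈ P ↔ ltR hR h (ltR hR g r) ∈ P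
        rw [ltR_mul] }
  have hsm : ∀ (g : Γ) (P : Ideal R) (r : R), r ∈ g • P ↔ ltR hR g r ∈ P := fun g P r => Iff.rfl
  have hmin : ∀ (g : Γ) (P : Ideal R), P ∈ minimalPrimes R → g • P ∈ minimalPrimes R := by
    intro g P hP
    have h1 := Ideal.minimalPrimes_comap_of_surjective (f := (ltR hR g : R →+* R)) (ltR_surj hR g) hP
    have h2 : (⊥ : Ideal R).comap (ltR hR g : R →+* R) = ⊥ := by
      rw [eq_bot_iff]
      intro r hr
      rw [Ideal.mem_comap, Ideal.mem_bot] at hr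
      rw [Ideal.mem_bot]
      exact (map_eq_zero_iff _ (ltR_inj hR g)).mp hr
    rw [h2] at h1
    exact h1
  -- the component of the unit element
  haveI hker : (RingHom.ker (ev R 1 : R →+* G)).IsPrime := RingHom.ker_isPrime _
  obtain ⟨P₀, hP₀, hle⟩ := Ideal.exists_minimalPrimes_le (I := ⊥) (J := RingHom.ker (ev R 1 : R →+* G)) bot_le
  haveI hprime : P₀.IsPrime := hP₀.1.1
  have hle' : ∀ r ∈ P₀, (r : Γ → G) 1 = 0 := fun r hr => hle hr
  have hfinmin : (minimalPrimes R).Finite := minimalPrimes.finite_of_isNoetherianRing R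
  obtain ⟨Δ₀, hΔ₀⟩ : ∃ Δ₀ : Subgroup Γ, Δ₀ = MulAction.stabilizer Γ P₀ := ⟨_, rfl⟩
  have hmem : ∀ g, g ∈ Δ₀ ↔ g • P₀ = P₀ := by
    intro g
    rw [hΔ₀, MulAction.mem_stabilizer_iff]
  haveI hfin : Δ₀.FiniteIndex := by
    constructor
    rw [hΔ₀, MulAction.index_stabilizer]
    have h1 : (MulAction.orbit Γ P₀).Finite := by
      refine hfinmin.subset ?_
      rintro _ ⟨g, rfl⟩
      exact hmin g P₀ hP₀
    exact ((Set.ncard_pos h1).mpr (MulAction.nonempty_orbit P₀)).ne'
  -- a function which vanishes outside of the subgroup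
  obtain ⟨s, hs, hs0⟩ : ∃ s : R, (∀ P ∈ minimalPrimes R, P ≠ P₀ → s ∈ P) ∧ s ∉ P₀ := by
    by_contra hcon
    push Not at hcon
    have h1 : ((hfinmin.toFinset.erase P₀).inf id) ≤ P₀ := by
      intro s hs
      apply hcon
      intro P hP hne
      have h2 : (hfinmin.toFinset.erase P₀).inf id ≤ id P := Finset.inf_le (by
        rw [Finset.mem_erase, Set.Finite.mem_toFinset]
        exact ⟨hne, hP⟩)
      exact h2 hs
    obtain ⟨P, hP, hPle⟩ := (Ideal.IsPrime.inf_le' hprime).mp h1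
    rw [Finset.mem_erase, Set.Finite.mem_toFinset] at hP
    have h3 : P₀ ≤ P := hP₀.2 hP.2.1 hPle
    exact hP.1 (le_antisymm hPle h3)
  have hsΔ : ∀ x, x ∉ Δ₀ → (s : Γ → G) x = 0 := by
    intro x hx
    rw [hmem] at hx
    have h1 := hs _ (hmin x P₀ hP₀) hx
    rw [hsm] at h1
    have h2 := hle' _ h1
    rwa [ltR_apply, mul_one] at h2
  have h0 : ∀ r : R, r ∈ P₀ ↔ ∀ x ∈ Δ₀, (r : Γ → G) x = 0 := by
    intro r
    constructor
    · intro hr x hx
      rw [hmem] at hx
      rw [← hx, hsm] at hr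
      have h2 := hle' _ hr
      rwa [ltR_apply, mul_one] at h2
    · intro hr
      have h1 : r * s = 0 := by
        apply Subtype.ext
        funext x
        change (r : Γ → G) x * (s : Γ → G) x = 0
        by_cases hx : x ∈ Δ₀
        · rw [hr x hx, zero_mul]
        · rw [hsΔ x hx, mul_zero]
      have h2 : r * s ∈ P₀ := by rw [h1]; exact P₀.zero_mem
      rcases hprime.mem_or_mem h2 with h3 | h3
      · exact h3
      · exact absurd h3 hs0
  have hcore : ∀ r : R, (∀ x ∈ Δ₀.normalCore, (r : Γ → G) x = 0) → r ∈ P₀ := by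
    intro r hr
    haveI : Fintype (Γ ⧸ Δ₀.normalCore) := Fintype.ofFinite _
    let f : Γ ⧸ Δ₀.normalCore → R := fun q => if q.out ∈ Δ₀ then ltR hR (q.out)⁻¹ r else 1
    have h1 : ∏ q, f q ∈ P₀ := by
      rw [h0]
      intro x hx
      have h2 : (QuotientGroup.mk x : Γ ⧸ Δ₀.normalCore).out⁻¹ * x ∈ Δ₀.normalCore := by
        rw [← QuotientGroup.eq]
        exact QuotientGroup.out_eq' _
      have h3 : (QuotientGroup.mk x : Γ ⧸ Δ₀.normalCore).out ∈ Δ₀ := by
        have h4 := Δ₀.mul_mem hx (Δ₀.inv_mem (Δ₀.normalCore_le h2))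
        rwa [_root_.mul_inv_rev, inv_inv, mul_inv_cancel_left] at h4
      have h4 : ((f (QuotientGroup.mk x) : R) : Γ → G) x = 0 := by
        change (((if (QuotientGroup.mk x : Γ ⧸ Δ₀.normalCore).out ∈ Δ₀ then
          ltR hR ((QuotientGroup.mk x : Γ ⧸ Δ₀.normalCore).out)⁻¹ r else 1 : R)) : Γ → G) x = 0
        rw [if_pos h3, ltR_apply]
        exact hr _ h2
      have h5 : ((∏ q, f q : R) : Γ → G) x = ∏ q, (f q : Γ → G) x := by
        rw [SubmonoidClass.coe_finsetProd, Finset.prod_apply]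
      rw [h5]
      exact Finset.prod_eq_zero (Finset.mem_univ _) h4
    obtain ⟨q, -, hq⟩ := (Ideal.IsPrime.prod_mem_iff (p := P₀)).mp h1
    by_cases hq' : q.out ∈ Δ₀
    · have h2 : f q = ltR hR (q.out)⁻¹ r := if_pos hq'
      rw [h2, h0] at hq
      rw [h0]
      intro x hx
      have h3 := hq (q.out * x) (Δ₀.mul_mem hq' hx)
      rwa [ltR_apply, inv_mul_cancel_left] at h3
    · have h2 : f q = 1 := if_neg hq'
      rw [h2] at hq
      exact absurd ((Ideal.eq_top_iff_one _).mpr hq) hprime.ne_top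
  refine ⟨Δ₀.normalCore, inferInstance, inferInstance, ?_, ?_⟩
  · intro r hr t ht h
    have h1 : (⟨r, hr⟩ : R) * ⟨t, ht⟩ ∈ P₀ := hcore _ fun x hx => h x hx
    rcases hprime.mem_or_mem h1 with h2 | h2
    · left
      intro x hx
      exact (h0 _).1 h2 x (Δ₀.normalCore_le hx)
    · right
      intro x hx
      exact (h0 _).1 h2 x (Δ₀.normalCore_le hx)
  · intro hop
    obtain ⟨x₀, hx₀, hx₀'⟩ : ∃ x ∈ Δ₀, (s : Γ → G) x ≠ 0 := by
      by_contra hcon
      push Not at hcon
      exact hs0 ((h0 s).2 hcon)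
    have h1 : IsOpen (Δ₀ : Set Γ) := by
      refine Subgroup.isOpen_of_mem_nhds Δ₀ (g := x₀) ?_
      refine Filter.mem_of_superset ((hop s s.2).mem_nhds hx₀') ?_
      intro x hx
      by_contra hcon
      exact hx (hsΔ x hcon)
    have h2 : IsClosed (Δ₀ : Set Γ) := Δ₀.isClosed_of_isOpen h1
    exact Subgroup.isOpen_of_isClosed_of_finiteIndex _ (Δ₀.normalCore_isClosed h2)

end

end Pool.Agent.H40LT
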