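import Mathlib

/-!
# The zero weight space of a module without invariants has at most a third of its dimension
-/

set_option autoImplicit false

namespace Pool.Agent.H40LT

open LieAlgebra LieModule Module

theorem sum_finrank_le {K M ι : Type*} [Field K] [AddCommGroup M] [Module K M] [FiniteDimensional K M] [Fintype ι]
    (p : ι → Submodule K M) (h : iSupIndep p) : ∑ i, finrank K (p i) ≤ finrank K M := by
  classical
  have h1 := LinearMap.finrank_le_finrank_of_injective (h.dfinsupp_lsum_injective)
  refine le_trans (le_of_eq ?_) h1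
  have h2 := Module.finrank_directSum K (fun i => p i)
  rw [← h2]
  rfl

section Root

variable {K L M : Type*} [Field K] [CharZero K] [LieRing L] [LieAlgebra K L] [FiniteDimensional K L]
  [IsKilling K L] (H : LieSubalgebra K L) [H.IsCartanSubalgebra] [IsTriangularizable K H L]
  [AddCommGroup M] [Module K M] [LieRingModule L M] [LieModule K L M] [FiniteDimensional K M]

/-- a vector of weight zero killed by one of the two root vectors for every pair of opposite roots, and by the Cartan
subalgebra, is an invariant -/
theorem inv_of_half (P : Weight K H L → Prop) (hP : ∀ α : Weight K H L, α.IsNonZero → P α ∨ P (-α)) (v : M)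
    (h0 : ∀ x : H, ⁅x, v⁆ = 0)
    (h1 : ∀ α : Weight K H L, α.IsNonZero → P α → ∀ x ∈ rootSpace H α, ⁅x, v⁆ = 0) (x : L) : ⁅x, v⁆ = 0 := by
  by_cases hv : v = 0
  · rw [hv, lie_zero]
  have key : ∀ α : Weight K H L, α.IsNonZero → P α → ∀ x ∈ rootSpace H (-α), ⁅x, v⁆ = 0 := by
    intro α hα hPα x hx
    obtain ⟨h, e, f, ht, he, hf⟩ := IsKilling.exists_isSl2Triple_of_weight_isNonZero hα
    have hh : ⁅h, v⁆ = 0 := by
      rw [ht.h_eq_coroot hα he hf]
      exact h0 _
    have P' : ht.HasPrimitiveVectorWith v (0 : K) :=
      { ne_zero := hv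
        lie_h := by rw [hh, zero_smul]
        lie_e := h1 α hα hPα e he }
    have hfv : ⁅f, v⁆ = 0 := by
      have := P'.pow_toEnd_f_eq_zero_of_eq_nat (n := 0) (by simp)
      simpa using this
    have hfin : finrank K (rootSpace H (-α)) = 1 := by
      have := IsKilling.finrank_rootSpace_eq_one (-α) (by simpa using hα)
      simpa using this
    obtain ⟨c, hc⟩ := (finrank_eq_one_iff_of_nonzero' (⟨f, hf⟩ : rootSpace H (-α))
      (by simpa [LieSubmodule.mk_eq_zero] using ht.f_ne_zero)).mp hfin ⟨x, hx⟩
    have hx' : x = c • f := by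
      have := congrArg Subtype.val hc
      simpa using this.symm
    rw [hx', smul_lie, hfv, smul_zero]
  have hall : ∀ α : Weight K H L, ∀ x ∈ rootSpace H α, ⁅x, v⁆ = 0 := by
    intro α x hx
    by_cases hα : α.IsNonZero
    · rcases hP α hα with h | h
      · exact h1 α hα h x hx
      · refine key (-α) (by simpa using hα) h x ?_
        have h5 : (-((-α : Weight K H L) : H → K)) = (α : H → K) := by
          rw [Weight.coe_neg, neg_neg]
        rw [h5]
        exact hx
    · have h2 : α.IsZero := by simpa [Weight.IsNonZero] using hα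
      have h3 : x ∈ rootSpace H (0 : H → K) := by
        rw [← h2.eq]
        exact hx
      rw [rootSpace_zero_eq] at h3
      have h4 : x ∈ H := by simpa using h3
      exact h0 ⟨x, h4⟩
  have htop : (⨆ α : Weight K H L, (rootSpace H α : LieSubmodule K H L)) = ⊤ := iSup_genWeightSpace_eq_top' K H L
  have hx : x ∈ (⨆ α : Weight K H L, (rootSpace H α : LieSubmodule K H L)) := by
    rw [htop]
    trivial
  induction hx using LieSubmodule.iSup_induction' with
  | mem α x hx => exact hall α x hx
  | zero => rw [zero_lie]
  | add x y _ _ hx hy => rw [add_lie, hx, hy, add_zero]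

/-- **The zero weight space has at most a third of the dimension.** -/
theorem three_le (hinv : ∀ v : M, (∀ x : L, ⁅x, v⁆ = 0) → v = 0) :
    3 * finrank K (genWeightSpace M (0 : H → K)) ≤ finrank K M := by
  classical
  -- one root of every pair
  let f : Weight K H L ≃ Fin (Fintype.card (Weight K H L)) := Fintype.equivFin _
  -- the root vectors
  have hex : ∀ α : Weight K H L, ∃ e : L, e ∈ rootSpace H α ∧
      (α.IsNonZero → ∀ x ∈ rootSpace H α, ∃ c : K, x = c • e) := by
    intro α
    by_cases hα : α.IsNonZero
    · have hfin := IsKilling.finrank_rootSpace_eq_one α hα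
      obtain ⟨⟨e, he⟩, h0, h1⟩ := finrank_eq_one_iff'.mp hfin
      refine ⟨e, he, fun _ x hx => ?_⟩
      obtain ⟨c, hc⟩ := h1 ⟨x, hx⟩
      exact ⟨c, by have := congrArg Subtype.val hc; simpa using this.symm⟩
    · exact ⟨0, zero_mem _, fun h => absurd h hα⟩
  choose e he1 he2 using hex
  have key : ∀ S : Finset (Weight K H L), (∀ α ∈ S, α.IsNonZero) →
      (∀ α : Weight K H L, α.IsNonZero → α ∈ S ∨ -α ∈ S) →
      finrank K (genWeightSpace M (0 : H → K)) ≤ ∑ α ∈ S, finrank K (genWeightSpace M (α : H → K)) := by
    intro S hS0 hS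
    let T : genWeightSpace M (0 : H → K) →ₗ[K] (∀ α : S, genWeightSpace M ((α : Weight K H L) : H → K)) :=
      LinearMap.pi fun α =>
        { toFun := fun v => ⟨⁅e α, (v : M)⁆, by
            have := lie_mem_genWeightSpace_of_mem_genWeightSpace (he1 α) v.2
            rwa [add_zero] at this⟩
          map_add' := fun v w => by
            apply Subtype.ext
            simp
          map_smul' := fun c v => by
            apply Subtype.ext
            simp }
    have hT : LinearMap.ker T = ⊥ := by
      -- the kernel as a Lie submodule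
      let N : LieSubmodule K H M :=
        { carrier := {v | v ∈ genWeightSpace M (0 : H → K) ∧ ∀ α ∈ S, ⁅e α, v⁆ = 0}
          add_mem' := by
            rintro v w ⟨hv1, hv2⟩ ⟨hw1, hw2⟩
            exact ⟨add_mem hv1 hw1, fun α hα => by rw [lie_add, hv2 α hα, hw2 α hα, add_zero]⟩
          zero_mem' := ⟨zero_mem _, fun α _ => lie_zero _⟩
          smul_mem' := by
            rintro c v ⟨hv1, hv2⟩
            exact ⟨(genWeightSpace M (0 : H → K)).toSubmodule.smul_mem c hv1,
              fun α hα => by rw [lie_smul, hv2 α hα, smul_zero]⟩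
          lie_mem := by
            rintro x v ⟨hv1, hv2⟩
            refine ⟨(genWeightSpace M (0 : H → K)).lie_mem hv1, fun α hα => ?_⟩
            have h1 : ⁅e α, ⁅(x : L), v⁆⁆ = ⁅⁅e α, (x : L)⁆, v⁆ + ⁅(x : L), ⁅e α, v⁆⁆ := leibniz_lie _ _ _
            have h2 : ⁅(x : L), e α⁆ ∈ rootSpace H α := (rootSpace H α).lie_mem (x := x) (he1 α)
            obtain ⟨c, hc⟩ := he2 α (hS0 α hα) _ h2
            have h3 : ⁅e α, (x : L)⁆ = (-c) • e α := by rw [← lie_skew, hc, neg_smul]
            change ⁅e α, ⁅(x : L), v⁆⁆ = 0
            rw [h1, h3, smul_lie, hv2 α hα, smul_zero, lie_zero, add_zero] }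
      have hN : N = ⊥ := by
        by_contra hne
        have hnt : Nontrivial N := (LieSubmodule.nontrivial_iff_ne_bot K H M).mpr hne
        have hle : N ≤ genWeightSpace M (0 : H → K) := fun v hv => hv.1
        have hnil : IsNilpotent H N := by
          rw [LieModule.isNilpotent_iff_forall' (R := K)]
          intro x
          rw [Module.End.isNilpotent_iff_of_finite]
          rintro ⟨v, hv⟩
          have h1 := (mem_genWeightSpace M (0 : H → K) v).mp (hle hv) x
          obtain ⟨k, hk⟩ := h1
          refine ⟨k, ?_⟩
          apply Subtype.ext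
          rw [Pi.zero_apply, zero_smul, sub_zero] at hk
          have h2 : ∀ (j : ℕ) (w : N), (((toEnd K H N x) ^ j) w : M) = ((toEnd K H M x) ^ j) (w : M) := by
            intro j
            induction j with
            | zero => intro w; rfl
            | succ j ih =>
              intro w
              rw [pow_succ, pow_succ, Module.End.mul_apply, Module.End.mul_apply, ih]
              rfl
          rw [h2]
          exact hk
        obtain ⟨⟨v, hv⟩, hv0, hv1⟩ : ∃ v : N, v ≠ 0 ∧ ∀ x : H, ⁅x, v⁆ = 0 := by
          have := LieModule.nontrivial_max_triv_of_isNilpotent K H N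
          obtain ⟨⟨v, hv⟩, hv0⟩ := exists_ne (0 : maxTrivSubmodule K H N)
          refine ⟨v, fun h => hv0 (Subtype.ext h), fun x => ?_⟩
          exact (mem_maxTrivSubmodule K H N v).mp hv x
        apply hv0
        apply Subtype.ext
        refine hinv v (inv_of_half H (fun α => α ∈ S) hS v (fun x => ?_) fun α hα hαS x hx => ?_)
        · have := congrArg Subtype.val (hv1 x)
          exact this
        · obtain ⟨c, hc⟩ := he2 α hα x hx
          rw [hc, smul_lie, hv.2 α hαS, smul_zero]
      rw [eq_bot_iff]
      rintro ⟨v, hv⟩ hv'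
      have h1 : v ∈ N := by
        refine ⟨hv, fun α hα => ?_⟩
        have h2 := congrFun (LinearMap.mem_ker.mp hv') ⟨α, hα⟩
        exact congrArg Subtype.val h2
      rw [hN] at h1
      have h2 : v = 0 := by simpa using h1
      simp [h2]
    have h1 := LinearMap.finrank_le_finrank_of_injective (LinearMap.ker_eq_bot.mp hT)
    rw [Module.finrank_pi_fintype] at h1
    refine h1.trans (le_of_eq ?_)
    rw [← Finset.sum_coe_sort S (fun α => finrank K (genWeightSpace M (α : H → K)))]
  -- the two halves
  obtain ⟨S, hS⟩ : ∃ S : Finset (Weight K H L), S = Finset.univ.filter fun α => α.IsNonZero ∧ f α < f (-α) :=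
    ⟨_, rfl⟩
  obtain ⟨S', hS'⟩ : ∃ S' : Finset (Weight K H L), S' = Finset.univ.filter fun α => α.IsNonZero ∧ f (-α) < f α :=
    ⟨_, rfl⟩
  have hne : ∀ α : Weight K H L, α.IsNonZero → f α ≠ f (-α) := by
    intro α hα h
    have h1 : α = -α := f.injective h
    apply hα
    have h2 : (α : H → K) = -(α : H → K) := by
      conv_lhs => rw [h1]
      rw [Weight.coe_neg]
    funext x
    have h3 := congrFun h2 x
    rw [Pi.neg_apply] at h3
    have h4 : (2 : K) * α x = 0 := by linear_combination h3
    simpa using h4
  have k1 := key S (by intro α hα; rw [hS] at hα; simp at hα; exact hα.1) (by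
    intro α hα
    rcases lt_or_gt_of_ne (hne α hα) with h | h
    · left
      rw [hS, Finset.mem_filter]
      exact ⟨Finset.mem_univ _, hα, h⟩
    · right
      rw [hS, Finset.mem_filter]
      exact ⟨Finset.mem_univ _, by simpa using hα, by rw [neg_neg]; exact h⟩)
  have k2 := key S' (by intro α hα; rw [hS'] at hα; simp at hα; exact hα.1) (by
    intro α hα
    rcases lt_or_gt_of_ne (hne α hα) with h | h
    · right
      rw [hS', Finset.mem_filter]
      exact ⟨Finset.mem_univ _, by simpa using hα, by rw [neg_neg]; exact h⟩
    · left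
      rw [hS', Finset.mem_filter]
      exact ⟨Finset.mem_univ _, hα, h⟩)
  have hdisj : Disjoint S S' := by
    rw [Finset.disjoint_left]
    intro α h1 h2
    rw [hS, Finset.mem_filter] at h1
    rw [hS', Finset.mem_filter] at h2
    exact lt_asymm h1.2.2 h2.2.2
  -- the weights
  obtain ⟨T, hT⟩ : ∃ T : Finset (Weight K H L), T = S ∪ S' := ⟨_, rfl⟩
  have hT0 : ∀ α ∈ T, α.IsNonZero := by
    intro α hα
    rw [hT, Finset.mem_union, hS, hS', Finset.mem_filter, Finset.mem_filter] at hα
    rcases hα with h | h
    · exact h.2.1
    · exact h.2.1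
  let g : Option T → (H → K) := fun o => o.elim 0 fun α => ((α : Weight K H L) : H → K)
  have hg : Function.Injective g := by
    intro a b hab
    cases a with
    | none =>
      cases b with
      | none => rfl
      | some b => exact absurd hab.symm (hT0 b b.2)
    | some a =>
      cases b with
      | none => exact absurd hab (hT0 a a.2)
      | some b =>
        congr 1
        apply Subtype.ext
        exact DFunLike.coe_injective hab
  have hind := (iSupIndep_genWeightSpace K H M).comp hg
  have hind' : iSupIndep fun o : Option T => (genWeightSpace M (g o)).toSubmodule := by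
    rw [← LieSubmodule.iSupIndep_toSubmodule] at hind
    exact hind
  have h3 := sum_finrank_le _ hind'
  rw [Fintype.sum_option] at h3
  have h4 : ∑ α : T, finrank K (genWeightSpace M (g (some α))).toSubmodule =
      ∑ α ∈ S, finrank K (genWeightSpace M (α : H → K)) + ∑ α ∈ S', finrank K (genWeightSpace M (α : H → K)) := by
    rw [← Finset.sum_union hdisj, ← hT, ← Finset.sum_coe_sort T]
    rfl
  rw [h4] at h3
  have h5 : finrank K (genWeightSpace M (g none)).toSubmodule = finrank K (genWeightSpace M (0 : H → K)) := rfl
  rw [h5] at h3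
  omega

end Root

end Pool.Agent.H40LT
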