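import Mathlib
import Pool.Agent.H40LT.Root

/-!
# Lie algebras of endomorphisms normalised by an irreducible group, with many eigenvalues zero
-/

set_option autoImplicit false
set_option linter.unusedSectionVars false

namespace Pool.Agent.H40LT

open LieAlgebra LieModule Module

attribute [local instance 100] LieRing.ofAssociativeRing

/-- an element of a nilpotent Lie algebra on which all nonzero weights are nonzero -/
theorem exists_regular (K H M : Type*) [Field K] [CharZero K] [LieRing H] [LieAlgebra K H]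
    [LieRing.IsNilpotent H] [AddCommGroup M] [Module K M] [LieRingModule H M] [LieModule K H M]
    [FiniteDimensional K M] [IsTriangularizable K H M] : ∃ x : H,
      finrank K (genWeightSpace M (0 : H → K)) = (toEnd K H M x).charpoly.rootMultiplicity 0 := by
  obtain ⟨x, hx⟩ : ∃ x : H, ∀ χ : {χ : Weight K H M // χ.IsNonZero}, (χ : Weight K H M) x ≠ 0 := by
    obtain ⟨x, hx⟩ := Module.Dual.exists_forall_ne_zero_of_forall_exists
      (fun χ : {χ : Weight K H M // χ.IsNonZero} => ((χ : Weight K H M) : H →ₗ[K] K)) (by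
        rintro ⟨χ, hχ⟩
        by_contra hcon
        push Not at hcon
        apply hχ
        funext y
        exact hcon y)
    exact ⟨x, hx⟩
  refine ⟨x, ?_⟩
  rw [← LinearMap.finrank_maxGenEigenspace_eq]
  have h1 : genWeightSpaceOf M (0 : K) x ≤ genWeightSpace M (0 : H → K) := by
    refine (eq_iSup_inf_genWeightSpace (K := K) (L := H) (M := M) (genWeightSpaceOf M (0 : K) x)).le.trans ?_
    refine iSup_le fun χ => ?_
    by_cases hχ : χ.IsNonZero
    · have h2 := hx ⟨χ, hχ⟩
      have h3 : Disjoint (genWeightSpaceOf M (0 : K) x) (genWeightSpace M (χ : H → K)) :=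
        Disjoint.mono_right (genWeightSpace_le_genWeightSpaceOf M x χ) (disjoint_genWeightSpaceOf K H M h2.symm)
      rw [h3.eq_bot]
      exact bot_le
    · have h2 : χ.IsZero := by simpa [Weight.IsNonZero] using hχ
      rw [h2.eq]
      exact inf_le_right
  have h2 : genWeightSpace M (0 : H → K) = genWeightSpaceOf M (0 : K) x :=
    le_antisymm (genWeightSpace_le_genWeightSpaceOf M x 0) h1
  rw [h2]
  rfl

section Main

variable {K V Γ : Type*} [Field K] [CharZero K] [AddCommGroup V] [Module K V]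
  [FiniteDimensional K V] [Group Γ]

/-- irreducible -/
def IrrEnd (ρ : Γ →* Module.End K V) : Prop :=
  ∀ U : Submodule K V, (∀ g, ∀ u ∈ U, ρ g u ∈ U) → U = ⊥ ∨ U = ⊤

theorem inv_stable (ρ : Γ →* Module.End K V) (A : Set (Module.End K V))
    (hst : ∀ g, ∀ X ∈ A, ρ g * X * ρ g⁻¹ ∈ A) (g : Γ) (v : V) (hv : ∀ X ∈ A, X v = 0) : ∀ X ∈ A, X (ρ g v) = 0 := by
  intro X hX
  have h1 := hv _ (hst g⁻¹ X hX)
  rw [inv_inv] at h1
  have h2 : ρ g ((ρ g⁻¹ * X * ρ g) v) = X (ρ g v) := by
    rw [← Module.End.mul_apply, ← mul_assoc, ← mul_assoc, ← map_mul, mul_inv_cancel, map_one, one_mul]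
    rfl
  rw [← h2, h1, map_zero]

theorem eq_zero_of_inv (ρ : Γ →* Module.End K V) (hirr : IrrEnd ρ) (A : Set (Module.End K V))
    (hst : ∀ g, ∀ X ∈ A, ρ g * X * ρ g⁻¹ ∈ A) (v : V) (hv0 : v ≠ 0) (hv : ∀ X ∈ A, X v = 0) : ∀ X ∈ A, X = 0 := by
  let U : Submodule K V :=
    { carrier := {v | ∀ X ∈ A, X v = 0}
      add_mem' := fun {a b} ha hb X hX => by rw [map_add, ha X hX, hb X hX, add_zero]
      zero_mem' := fun X _ => map_zero X
      smul_mem' := fun c a ha X hX => by rw [map_smul, ha X hX, smul_zero] }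
  rcases hirr U (fun g u hu => inv_stable ρ A hst g u hu) with h | h
  · exfalso
    have h1 : v ∈ U := hv
    rw [h] at h1
    exact hv0 (by simpa using h1)
  · intro X hX
    ext w
    have h1 : w ∈ U := by rw [h]; trivial
    exact h1 X hX

/-- the abelian case -/
theorem ab_eq_zero [IsAlgClosed K] (ρ : Γ →* Module.End K V) (hirr : IrrEnd ρ) (A : LieSubalgebra K (Module.End K V))
    [IsLieAbelian A] (hst : ∀ g, ∀ X ∈ A, ρ g * X * ρ g⁻¹ ∈ A) (h0 : ∀ X ∈ A, X.charpoly.rootMultiplicity 0 ≠ 0) :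
    ∀ X ∈ A, X = 0 := by
  obtain ⟨x, hx⟩ := exists_regular K A V
  have h1 : finrank K (genWeightSpace V (0 : A → K)) ≠ 0 := by
    rw [hx]
    exact h0 x x.2
  have h2 : Nontrivial (genWeightSpace V (0 : A → K)) := by
    by_contra h
    rw [not_nontrivial_iff_subsingleton] at h
    exact h1 Module.finrank_zero_of_subsingleton
  have h3 : LieModule.IsNilpotent A (genWeightSpace V (0 : A → K)) := inferInstance
  have h4 := LieModule.nontrivial_max_triv_of_isNilpotent K A (genWeightSpace V (0 : A → K))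
  obtain ⟨⟨v, hv⟩, hv0⟩ := exists_ne (0 : maxTrivSubmodule K A (genWeightSpace V (0 : A → K)))
  refine eq_zero_of_inv ρ hirr (A : Set (Module.End K V)) hst (v : V) ?_ ?_
  · intro h
    exact hv0 (Subtype.ext (Subtype.ext h))
  · intro X hX
    have h5 := (mem_maxTrivSubmodule K A (genWeightSpace V (0 : A → K)) v).mp hv ⟨X, hX⟩
    exact congrArg Subtype.val h5

/-- conjugation -/
def conjL (ρ : Γ →* Module.End K V) (L : LieSubalgebra K (Module.End K V))
    (hst : ∀ g, ∀ X ∈ L, ρ g * X * ρ g⁻¹ ∈ L) (g : Γ) : L →ₗ⁅K⁆ L where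
  toFun X := ⟨ρ g * X * ρ g⁻¹, hst g X X.2⟩
  map_add' X Y := by
    apply Subtype.ext
    simp [mul_add, add_mul]
  map_smul' c X := by
    apply Subtype.ext
    simp
  map_lie' := by
    intro X Y
    apply Subtype.ext
    have h1 : ρ g⁻¹ * ρ g = 1 := by rw [← map_mul, inv_mul_cancel, map_one]
    have h2 : ∀ A B : Module.End K V, (ρ g * A * ρ g⁻¹) * (ρ g * B * ρ g⁻¹) = ρ g * (A * B) * ρ g⁻¹ := by
      intro A B
      calc (ρ g * A * ρ g⁻¹) * (ρ g * B * ρ g⁻¹) = ρ g * A * (ρ g⁻¹ * ρ g) * B * ρ g⁻¹ := by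
            simp only [mul_assoc]
        _ = _ := by rw [h1]; simp only [mul_assoc, one_mul]
    change ρ g * ⁅(X : Module.End K V), (Y : Module.End K V)⁆ * ρ g⁻¹ =
      ⁅ρ g * (X : Module.End K V) * ρ g⁻¹, ρ g * (Y : Module.End K V) * ρ g⁻¹⁆
    rw [LieRing.of_associative_ring_bracket, LieRing.of_associative_ring_bracket, h2, h2, mul_sub, sub_mul]

variable (ρ : Γ →* Module.End K V) (L : LieSubalgebra K (Module.End K V))
    (hst : ∀ g, ∀ X ∈ L, ρ g * X * ρ g⁻¹ ∈ L)

theorem conjL_inv (g : Γ) (X : L) : conjL ρ L hst g⁻¹ (conjL ρ L hst g X) = X := by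
  apply Subtype.ext
  change ρ g⁻¹ * (ρ g * X * ρ g⁻¹) * ρ g⁻¹⁻¹ = X
  have h1 : ρ g⁻¹ * ρ g = 1 := by rw [← map_mul, inv_mul_cancel, map_one]
  calc ρ g⁻¹ * (ρ g * X * ρ g⁻¹) * ρ g⁻¹⁻¹ = (ρ g⁻¹ * ρ g) * X * (ρ g⁻¹ * ρ g) := by
        rw [inv_inv]
        simp only [mul_assoc]
    _ = _ := by rw [h1, one_mul, mul_one]

theorem conjL_inj (g : Γ) : Function.Injective (conjL ρ L hst g) := by
  intro X Y h
  rw [← conjL_inv ρ L hst g X, h, conjL_inv]

theorem radical_stable (g : Γ) (X : L) (hX : X ∈ radical K L) : conjL ρ L hst g X ∈ radical K L := by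
  have h1 : IsSolvable (LieIdeal.comap (conjL ρ L hst g⁻¹) (radical K L)) := by
    let f : LieIdeal.comap (conjL ρ L hst g⁻¹) (radical K L) →ₗ⁅K⁆ radical K L :=
      { toFun := fun Y => ⟨conjL ρ L hst g⁻¹ Y, by
          have := Y.2
          rwa [LieIdeal.mem_comap] at this⟩
        map_add' := fun Y Z => by
          apply Subtype.ext
          simp
        map_smul' := fun c Y => by
          apply Subtype.ext
          simp
        map_lie' := fun {Y Z} => by
          apply Subtype.ext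
          exact LieHom.map_lie (conjL ρ L hst g⁻¹) Y Z }
    have hf : Function.Injective f := by
      intro Y Z h
      apply Subtype.ext
      exact conjL_inj ρ L hst g⁻¹ (congrArg Subtype.val h)
    exact hf.lieAlgebra_isSolvable
  rw [LieIdeal.solvable_iff_le_radical] at h1
  apply h1
  rw [LieIdeal.mem_comap, conjL_inv]
  exact hX

theorem derived_stable (k : ℕ) (g : Γ) :
    (derivedSeriesOfIdeal K L k (radical K L)).map (conjL ρ L hst g) ≤ derivedSeriesOfIdeal K L k (radical K L) := by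
  induction k with
  | zero =>
    rw [LieIdeal.map_le_iff_le_comap]
    intro X hX
    rw [LieIdeal.mem_comap]
    exact radical_stable ρ L hst g X hX
  | succ k ih =>
    rw [derivedSeriesOfIdeal_succ]
    exact (LieIdeal.map_bracket_le _).trans (LieSubmodule.mono_lie ih ih)

theorem derivedAb_stable (g : Γ) (X : L) (hX : X ∈ derivedAbelianOfIdeal (radical K L)) :
    conjL ρ L hst g X ∈ derivedAbelianOfIdeal (radical K L) := by
  unfold derivedAbelianOfIdeal at hX ⊢
  split at hX
  · rename_i h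
    have : X = 0 := by simpa using hX
    rw [this, map_zero]
    exact zero_mem _
  · rename_i k h
    have h1 := derived_stable ρ L hst k g
    rw [LieIdeal.map_le_iff_le_comap] at h1
    have h2 := h1 hX
    rwa [LieIdeal.mem_comap] at h2

include hst in
/-- **Main lemma on Lie algebras.** A Lie algebra of endomorphisms which is normalised by an irreducible group, all of
whose elements have the eigenvalue zero with multiplicity more than a third of the dimension, is zero. -/
theorem lie_eq_zero [IsAlgClosed K] (hirr : IrrEnd ρ) (m : ℕ) (hm : finrank K V < 3 * m)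
    (h0 : ∀ X ∈ L, m ≤ X.charpoly.rootMultiplicity 0) : ∀ X ∈ L, X = 0 := by
  have hm0 : 0 < m := by omega
  -- the radical
  have hrad : radical K L = ⊥ := by
    rw [← abelian_of_solvable_ideal_eq_bot_iff (radical K L)]
    let A : LieSubalgebra K (Module.End K V) :=
      { carrier := {X | ∃ h : X ∈ L, (⟨X, h⟩ : L) ∈ derivedAbelianOfIdeal (radical K L)}
        add_mem' := by
          rintro X Y ⟨hX, hX'⟩ ⟨hY, hY'⟩
          exact ⟨add_mem hX hY, add_mem hX' hY'⟩
        zero_mem' := ⟨zero_mem _, zero_mem _⟩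
        smul_mem' := by
          rintro c X ⟨hX, hX'⟩
          exact ⟨L.smul_mem c hX, (derivedAbelianOfIdeal (radical K L)).toSubmodule.smul_mem c hX'⟩
        lie_mem' := by
          rintro X Y ⟨hX, hX'⟩ ⟨hY, hY'⟩
          exact ⟨L.lie_mem hX hY, LieSubmodule.lie_mem _ (x := (⟨X, hX⟩ : L)) hY'⟩ }
    have hA : IsLieAbelian A := by
      constructor
      rintro ⟨X, hX, hX'⟩ ⟨Y, hY, hY'⟩
      have h1 := (abelian_derivedAbelianOfIdeal (radical K L)).trivial
        (⟨⟨X, hX⟩, hX'⟩ : derivedAbelianOfIdeal (radical K L)) ⟨⟨Y, hY⟩, hY'⟩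
      apply Subtype.ext
      exact congrArg (fun z : derivedAbelianOfIdeal (radical K L) => ((z : L) : Module.End K V)) h1
    have hA0 := ab_eq_zero ρ hirr A (by
      rintro g X ⟨hX, hX'⟩
      exact ⟨hst g X hX, derivedAb_stable ρ L hst g ⟨X, hX⟩ hX'⟩) (by
      rintro X ⟨hX, -⟩
      have := h0 X hX
      omega)
    rw [eq_bot_iff]
    rintro ⟨X, hX⟩ hX'
    have h1 := hA0 X ⟨hX, hX'⟩
    have h2 : (⟨X, hX⟩ : L) = 0 := Subtype.ext h1
    rw [h2]
    exact zero_mem _
  have htr : HasTrivialRadical K L := ⟨hrad⟩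
  have hK : IsKilling K L := inferInstance
  -- the invariants
  intro X₀ hX₀
  by_contra hX₀0
  have hinv : ∀ v : V, (∀ x : L, ⁅x, v⁆ = 0) → v = 0 := by
    intro v hv
    by_contra hv0
    exact hX₀0 (eq_zero_of_inv ρ hirr (L : Set (Module.End K V)) hst v hv0 (fun X hX => hv ⟨X, hX⟩) X₀ hX₀)
  obtain ⟨y, hy⟩ := exists_isCartanSubalgebra_engel K L
  have h1 := three_le (LieSubalgebra.engel K y) (M := V) hinv
  obtain ⟨x, hx⟩ := exists_regular K (LieSubalgebra.engel K y) V
  rw [hx] at h1
  have h2 := h0 ((x : L) : Module.End K V) (x : L).2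
  have h3 : (toEnd K (LieSubalgebra.engel K y) V x) = ((x : L) : Module.End K V) := rfl
  rw [h3] at h1
  omega

end Main

end Pool.Agent.H40LT
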