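import Mathlib
import Pool.Agent.H40LT.Lie

/-!
# The main lemma on Lie algebras over an arbitrary field of characteristic zero
-/

set_option autoImplicit false
set_option linter.unusedSectionVars false
set_option linter.style.haveILetI false

namespace Pool.Agent.H40LT

open LieAlgebra LieModule Module TensorProduct

attribute [local instance 100] LieRing.ofAssociativeRing

section BC

variable (K A L M : Type*) [Field K] [Field A] [Algebra K A] [LieRing L] [LieAlgebra K L] [FiniteDimensional K L]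
  [AddCommGroup M] [Module K M] [LieRingModule L M] [LieModule K L M] [FiniteDimensional K M]

theorem isKilling_baseChange [IsKilling K L] : IsKilling A (A ⊗[K] L) := by
  have hnd : (killingForm A (A ⊗[K] L)).Nondegenerate := by
    have h1 := IsKilling.killingForm_nondegenerate K L
    rw [LinearMap.BilinForm.nondegenerate_iff_det_ne_zero (Module.finBasis K L)] at h1
    rw [LinearMap.BilinForm.nondegenerate_iff_det_ne_zero
      (Algebra.TensorProduct.basis A (Module.finBasis K L))]
    have h2 : LinearMap.BilinForm.toMatrix (Algebra.TensorProduct.basis A (Module.finBasis K L))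
        (killingForm A (A ⊗[K] L)) = (LinearMap.BilinForm.toMatrix (Module.finBasis K L) (killingForm K L)).map
        (algebraMap K A) := by
      ext i j
      rw [Matrix.map_apply, LinearMap.BilinForm.toMatrix_apply, LinearMap.BilinForm.toMatrix_apply,
        Algebra.TensorProduct.basis_apply, Algebra.TensorProduct.basis_apply]
      unfold killingForm
      rw [traceForm_baseChange, LinearMap.BilinForm.baseChange_tmul, one_mul, Algebra.algebraMap_eq_smul_one]
    have h3 : ((LinearMap.BilinForm.toMatrix (Module.finBasis K L) (killingForm K L)).map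
        (algebraMap K A)).det = algebraMap K A (LinearMap.BilinForm.toMatrix (Module.finBasis K L)
          (killingForm K L)).det := (RingHom.map_det (algebraMap K A) _).symm
    rw [h2, h3, Ne, map_eq_zero]
    exact h1
  constructor
  ext x'
  simp_rw [LieIdeal.mem_killingCompl, LieModule.traceForm_comm]
  refine ⟨fun hx' ↦ ?_, fun hx y _ ↦ hx ▸ LinearMap.map_zero₂ (killingForm A (A ⊗[K] L)) y⟩
  exact hnd.1 x' fun y => hx' y trivial

variable {K A L M}

/-- the components of an element of the base change -/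
noncomputable def comp {ι : Type*} [DecidableEq ι] (β : Basis ι K A) (i : ι) : A ⊗[K] M →ₗ[K] M :=
  (Finsupp.lapply i) ∘ₗ (TensorProduct.equivFinsuppOfBasisLeft β : A ⊗[K] M ≃ₗ[K] ι →₀ M).toLinearMap

theorem comp_end {ι : Type*} [DecidableEq ι] (β : Basis ι K A) (i : ι) (X : Module.End K M) (v : A ⊗[K] M) :
    comp β i (X.baseChange A v) = X (comp β i v) := by
  induction v using TensorProduct.induction_on with
  | zero => simp
  | add x y hx hy => rw [map_add, map_add, map_add, map_add, hx, hy]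
  | tmul a m =>
    rw [LinearMap.baseChange_tmul]
    unfold comp
    simp

theorem exists_inv_of_baseChange (S : Set (Module.End K M)) (v : A ⊗[K] M) (hv0 : v ≠ 0)
    (hv : ∀ X ∈ S, X.baseChange A v = 0) : ∃ u : M, u ≠ 0 ∧ ∀ X ∈ S, X u = 0 := by
  classical
  obtain ⟨i, hi⟩ : ∃ i, comp (Basis.ofVectorSpace K A) i v ≠ 0 := by
    by_contra hcon
    push Not at hcon
    apply hv0
    apply (TensorProduct.equivFinsuppOfBasisLeft (Basis.ofVectorSpace K A) : A ⊗[K] M ≃ₗ[K] _ →₀ M).injective
    rw [map_zero]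
    ext i
    have h1 := hcon i
    simpa [comp] using h1
  refine ⟨_, hi, fun X hX => ?_⟩
  rw [← comp_end, hv X hX, map_zero]

theorem toEnd_eq (x : A ⊗[K] L) : toEnd A (A ⊗[K] L) (A ⊗[K] M) x =
    (LinearMap.tensorProduct K A M M ∘ₗ
      LinearMap.baseChange A ((toEnd K L M : L →ₗ⁅K⁆ Module.End K M) : L →ₗ[K] Module.End K M)) x := by
  induction x using TensorProduct.induction_on with
  | zero => rw [map_zero, map_zero]
  | add x y hx hy => rw [map_add, map_add, hx, hy]
  | tmul a l =>
    apply TensorProduct.AlgebraTensorModule.curry_injective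
    ext m
    change ⁅a ⊗ₜ[K] l, (1 : A) ⊗ₜ[K] m⁆ = a • ((1 : A) ⊗ₜ[K] ⁅l, m⁆)
    rw [LieAlgebra.ExtendScalars.bracket_tmul, mul_one, TensorProduct.smul_tmul', smul_eq_mul, mul_one]

theorem le_mult_iff {S : Type*} [Field S] {p : Polynomial S} (hp : p ≠ 0) (m : ℕ) :
    m ≤ p.rootMultiplicity 0 ↔ ∀ j < m, p.coeff j = 0 := by
  rw [Polynomial.le_rootMultiplicity_iff hp, map_zero, sub_zero, Polynomial.X_pow_dvd_iff]

/-- the multiplicity of the eigenvalue zero after base change -/
theorem mult_baseChange [CharZero K] (m : ℕ)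
    (h : ∀ x : L, m ≤ (toEnd K L M x).charpoly.rootMultiplicity 0) (x : A ⊗[K] L) :
    m ≤ (toEnd A (A ⊗[K] L) (A ⊗[K] M) x).charpoly.rootMultiplicity 0 := by
  classical
  obtain ⟨φ, hφ⟩ : ∃ φ : L →ₗ[K] Module.End K M, φ = ((toEnd K L M : L →ₗ⁅K⁆ Module.End K M) : L →ₗ[K] Module.End K M) :=
    ⟨_, rfl⟩
  obtain ⟨b, -⟩ : ∃ b : Basis (Fin (finrank K L)) K L, b = Module.finBasis K L := ⟨_, rfl⟩
  obtain ⟨b', -⟩ : ∃ b : Basis (Fin (finrank K M)) K M, b = Module.finBasis K M := ⟨_, rfl⟩
  have h1 : ∀ j < m, (LinearMap.polyCharpolyAux φ b b').coeff j = 0 := by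
    intro j hj
    apply MvPolynomial.funext
    intro t
    rw [map_zero]
    have h2 := LinearMap.polyCharpolyAux_map_eval φ b b' t
    have h3 := congrArg (fun p => Polynomial.coeff p j) h2
    simp only [Polynomial.coeff_map] at h3
    have h4 : (φ (b.repr.symm (Finsupp.equivFunOnFinite.symm t))).charpoly.coeff j = 0 := by
      rw [hφ]
      exact (le_mult_iff (LinearMap.charpoly_monic _).ne_zero m).mp
        (h (b.repr.symm (Finsupp.equivFunOnFinite.symm t))) j hj
    exact h3.trans h4
  rw [toEnd_eq, le_mult_iff (LinearMap.charpoly_monic _).ne_zero]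
  intro j hj
  obtain ⟨t, ht⟩ : ∃ t : Fin (finrank K L) → A, x =
      (Algebra.TensorProduct.basis A b).repr.symm (Finsupp.equivFunOnFinite.symm t) := by
    refine ⟨Finsupp.equivFunOnFinite ((Algebra.TensorProduct.basis A b).repr x), ?_⟩
    simp
  have h2 := LinearMap.polyCharpolyAux_map_aeval φ b b' A t
  have h3 := congrArg (fun p => Polynomial.coeff p j) h2
  simp only [Polynomial.coeff_map, h1 j hj, map_zero] at h3
  rw [ht, ← hφ]
  exact h3.symm

end BC

section Main

variable {K V Γ : Type*} [Field K] [CharZero K] [AddCommGroup V] [Module K V] [FiniteDimensional K V] [Group Γ]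

/-- the abelian case -/
theorem ab_eq_zero' (ρ : Γ →* Module.End K V) (hirr : IrrEnd ρ) (A : LieSubalgebra K (Module.End K V))
    [IsLieAbelian A] (hst : ∀ g, ∀ X ∈ A, ρ g * X * ρ g⁻¹ ∈ A) (h0 : ∀ X ∈ A, X.charpoly.rootMultiplicity 0 ≠ 0) :
    ∀ X ∈ A, X = 0 := by
  let E := AlgebraicClosure K
  haveI hE : CharZero E := charZero_of_injective_algebraMap (algebraMap K E).injective
  haveI hn : LieRing.IsNilpotent (E ⊗[K] A) := LieModule.instIsNilpotentTensor K E A A
  obtain ⟨x, hx⟩ := exists_regular E (E ⊗[K] A) (E ⊗[K] V)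
  have h1 : finrank E (genWeightSpace (E ⊗[K] V) (0 : E ⊗[K] A → E)) ≠ 0 := by
    rw [hx]
    have h2 := mult_baseChange (A := E) (L := A) (M := V) 1 (fun x => by
      have := h0 x x.2
      exact Nat.one_le_iff_ne_zero.mpr this) x
    omega
  have h2 : Nontrivial (genWeightSpace (E ⊗[K] V) (0 : E ⊗[K] A → E)) := by
    by_contra h
    rw [not_nontrivial_iff_subsingleton] at h
    exact h1 Module.finrank_zero_of_subsingleton
  have h3 : LieModule.IsNilpotent (E ⊗[K] A) (genWeightSpace (E ⊗[K] V) (0 : E ⊗[K] A → E)) := inferInstance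
  have h4 := LieModule.nontrivial_max_triv_of_isNilpotent E (E ⊗[K] A)
    (genWeightSpace (E ⊗[K] V) (0 : E ⊗[K] A → E))
  obtain ⟨⟨v, hv⟩, hv0⟩ := exists_ne (0 : maxTrivSubmodule E (E ⊗[K] A)
    (genWeightSpace (E ⊗[K] V) (0 : E ⊗[K] A → E)))
  obtain ⟨u, hu0, hu⟩ := exists_inv_of_baseChange (A := E) (A.carrier : Set (Module.End K V)) (v : E ⊗[K] V) (by
    intro h
    exact hv0 (Subtype.ext (Subtype.ext h))) (by
    intro X hX
    have h5 := (mem_maxTrivSubmodule E (E ⊗[K] A) (genWeightSpace (E ⊗[K] V) (0 : E ⊗[K] A → E)) v).mp hv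
      ((1 : E) ⊗ₜ[K] (⟨X, hX⟩ : A))
    have h6 := congrArg Subtype.val h5
    have h7 := LieModule.toEnd_baseChange E (L := A) (M := V) (R := K) (⟨X, hX⟩ : A)
    have h8 := congrArg (fun f : Module.End E (E ⊗[K] V) => f (v : E ⊗[K] V)) h7
    exact h8.symm.trans h6)
  exact eq_zero_of_inv ρ hirr (A : Set (Module.End K V)) hst u hu0 hu

/-- **Main lemma on Lie algebras.** A Lie algebra of endomorphisms which is normalised by an irreducible group, all of
whose elements have the eigenvalue zero with multiplicity more than a third of the dimension, is zero. -/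
theorem lie_eq_zero' (ρ : Γ →* Module.End K V) (L : LieSubalgebra K (Module.End K V))
    (hst : ∀ g, ∀ X ∈ L, ρ g * X * ρ g⁻¹ ∈ L) (hirr : IrrEnd ρ) (m : ℕ) (hm : finrank K V < 3 * m)
    (h0 : ∀ X ∈ L, m ≤ X.charpoly.rootMultiplicity 0) : ∀ X ∈ L, X = 0 := by
  have hm0 : 0 < m := by omega
  -- the radical
  have hrad : radical K L = ⊥ := by
    rw [← abelian_of_solvable_ideal_eq_bot_iff (radical K L)]
    let A : LieSubalgebra K (Module.End K V) :=
      { carrier := {X | ∃ h : X ∈ L, (⟨X, h⟩ : L) ∈ derivedAbelianOfIdeal (radical K L)}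
        add_mem' := by
          rintro X Y ⟨hX, hX'⟩ ⟨hY, hY'⟩
          exact ⟨add_mem hX hY, add_mem hX' hY'⟩
        zero_mem' := ⟨zero_mem _, zero_mem _⟩
        smul_mem' := by
          rintro c X ⟨hX, hX'⟩
          exact ⟨L.smul_mem c hX, (derivedAbelianOfIdeal (radical K L)).toSubmodule.smul_mem c hX'⟩
        lie_mem' := by
          rintro X Y ⟨hX, hX'⟩ ⟨hY, hY'⟩
          exact ⟨L.lie_mem hX hY, LieSubmodule.lie_mem _ (x := (⟨X, hX⟩ : L)) hY'⟩ }
    have hA : IsLieAbelian A := by
      constructor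
      rintro ⟨X, hX, hX'⟩ ⟨Y, hY, hY'⟩
      have h1 := (abelian_derivedAbelianOfIdeal (radical K L)).trivial
        (⟨⟨X, hX⟩, hX'⟩ : derivedAbelianOfIdeal (radical K L)) ⟨⟨Y, hY⟩, hY'⟩
      apply Subtype.ext
      exact congrArg (fun z : derivedAbelianOfIdeal (radical K L) => ((z : L) : Module.End K V)) h1
    have hA0 := ab_eq_zero' ρ hirr A (by
      rintro g X ⟨hX, hX'⟩
      exact ⟨hst g X hX, derivedAb_stable ρ L hst g ⟨X, hX⟩ hX'⟩) (by
      rintro X ⟨hX, -⟩
      have := h0 X hX
      omega)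
    rw [eq_bot_iff]
    rintro ⟨X, hX⟩ hX'
    have h1 := hA0 X ⟨hX, hX'⟩
    have h2 : (⟨X, hX⟩ : L) = 0 := Subtype.ext h1
    rw [h2]
    exact zero_mem _
  have htr : HasTrivialRadical K L := ⟨hrad⟩
  have hK : IsKilling K L := inferInstance
  -- the invariants
  intro X₀ hX₀
  by_contra hX₀0
  let E := AlgebraicClosure K
  haveI hE : CharZero E := charZero_of_injective_algebraMap (algebraMap K E).injective
  haveI hKE : IsKilling E (E ⊗[K] L) := isKilling_baseChange K E L
  have hinv : ∀ v : E ⊗[K] V, (∀ x : E ⊗[K] L, ⁅x, v⁆ = 0) → v = 0 := by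
    intro v hv
    by_contra hv0
    obtain ⟨u, hu0, hu⟩ := exists_inv_of_baseChange (A := E) (L.carrier : Set (Module.End K V)) v hv0 (by
      intro X hX
      have h7 := LieModule.toEnd_baseChange E (L := L) (M := V) (R := K) (⟨X, hX⟩ : L)
      have h8 := congrArg (fun f : Module.End E (E ⊗[K] V) => f v) h7
      exact h8.symm.trans (hv _))
    exact hX₀0 (eq_zero_of_inv ρ hirr (L : Set (Module.End K V)) hst u hu0 hu X₀ hX₀)
  obtain ⟨y, hy⟩ := exists_isCartanSubalgebra_engel E (E ⊗[K] L)
  have h1 := three_le (LieSubalgebra.engel E y) (M := E ⊗[K] V) hinv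
  obtain ⟨x, hx⟩ := exists_regular E (LieSubalgebra.engel E y) (E ⊗[K] V)
  rw [hx] at h1
  have h2 := mult_baseChange (A := E) (L := L) (M := V) m (fun x => h0 x x.2) (x : E ⊗[K] L)
  have h3 : (toEnd E (LieSubalgebra.engel E y) (E ⊗[K] V) x) = toEnd E (E ⊗[K] L) (E ⊗[K] V) (x : E ⊗[K] L) := rfl
  rw [h3] at h1
  have h4 : finrank E (E ⊗[K] V) = finrank K V := Module.finrank_baseChange
  rw [h4] at h1
  omega

end Main

end Pool.Agent.H40LT
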