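import Mathlib
import Pool.Agent.H40GO.Coef

/-!
# One-parameter subgroups of derivations, and the multiplicity of the eigenvalue zero
-/

set_option autoImplicit false
set_option linter.unusedSectionVars false

namespace Pool.Agent.H40LT

open Module Matrix Polynomial

section MZ

/-- the first `m` coefficients of the characteristic polynomial vanish -/
def MZ {S n : Type*} [CommRing S] [Fintype n] [DecidableEq n] (m : ℕ) (M : Matrix n n S) : Prop :=
  ∀ j < m, M.charpoly.coeff j = 0

variable {S T n : Type*} [CommRing S] [CommRing T] [Fintype n] [DecidableEq n]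

theorem MZ.map (f : S →+* T) {m : ℕ} {M : Matrix n n S} (h : MZ m M) : MZ m (M.map f) := by
  intro j hj
  rw [Matrix.charpoly_map, Polynomial.coeff_map, h j hj, map_zero]

theorem MZ.of_map (f : S →+* T) (hf : Function.Injective f) {m : ℕ} {M : Matrix n n S} (h : MZ m (M.map f)) :
    MZ m M := by
  intro j hj
  have := h j hj
  rw [Matrix.charpoly_map, Polynomial.coeff_map] at this
  exact (map_eq_zero_iff f hf).mp this

variable {K : Type*} [Field K]

theorem mz_iff {m : ℕ} (M : Matrix n n K) : MZ m M ↔ m ≤ M.charpoly.rootMultiplicity 0 := by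
  rw [Polynomial.le_rootMultiplicity_iff (Matrix.charpoly_monic M).ne_zero, map_zero, sub_zero,
    Polynomial.X_pow_dvd_iff]
  rfl

theorem mz_iff_finrank {m : ℕ} (M : Matrix n n K) :
    MZ m M ↔ m ≤ finrank K (Module.End.maxGenEigenspace (Matrix.toLin' M) 0) := by
  rw [mz_iff, LinearMap.finrank_maxGenEigenspace_eq, Matrix.charpoly_toLin']

theorem mem_max {V : Type*} [AddCommGroup V] [Module K V] (f : Module.End K V) (v : V) :
    v ∈ f.maxGenEigenspace 0 ↔ ∃ k : ℕ, (f ^ k) v = 0 := by
  rw [Module.End.mem_maxGenEigenspace]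
  simp

theorem mz_smul {m : ℕ} (M : Matrix n n K) (c : K) (hc : c ≠ 0) : MZ m (c • M) ↔ MZ m M := by
  rw [mz_iff_finrank, mz_iff_finrank]
  have h : Module.End.maxGenEigenspace (Matrix.toLin' (c • M)) 0 = Module.End.maxGenEigenspace (Matrix.toLin' M) 0 := by
    ext v
    rw [mem_max, mem_max]
    refine exists_congr fun k => ?_
    rw [map_smul, _root_.smul_pow, LinearMap.smul_apply, smul_eq_zero]
    simp [hc]
  rw [h]

theorem mz_pow {m : ℕ} (M : Matrix n n K) (k : ℕ) (hk : k ≠ 0) : MZ m (M ^ k) ↔ MZ m M := by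
  rw [mz_iff_finrank, mz_iff_finrank]
  have h : Module.End.maxGenEigenspace (Matrix.toLin' (M ^ k)) 0 = Module.End.maxGenEigenspace (Matrix.toLin' M) 0 := by
    ext v
    rw [mem_max, mem_max, Matrix.toLin'_pow]
    constructor
    · rintro ⟨l, hl⟩
      exact ⟨k * l, by rw [pow_mul]; exact hl⟩
    · rintro ⟨l, hl⟩
      refine ⟨l, ?_⟩
      rw [← pow_mul]
      have : k * l = (k * l - l) + l := by
        have : l ≤ k * l := Nat.le_mul_of_pos_left l (Nat.pos_of_ne_zero hk)
        omega
      rw [this, pow_add, Module.End.mul_apply, hl, map_zero]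
  rw [h]

theorem mz_one {m : ℕ} (h : MZ m (1 : Matrix n n K)) : m = 0 := by
  by_contra hm
  have h1 := h 0 (Nat.pos_of_ne_zero hm)
  rw [Matrix.charpoly_one, Polynomial.coeff_zero_eq_eval_zero] at h1
  simp at h1

end MZ

section Exp

variable {F R : Type*} [Field F] [CharZero F] [CommRing R] [Algebra F R] (D : Derivation F R R)

/-- the coefficients of the exponential of a derivation -/
noncomputable def ek (k : ℕ) (r : R) : R := ((k.factorial : F)⁻¹) • (D : R → R)^[k] r

theorem ek_zero (r : R) : ek D 0 r = r := by simp [ek]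

theorem D_ek (k : ℕ) (r : R) : D (ek D k r) = ((k + 1 : ℕ) : F) • ek D (k + 1) r := by
  unfold ek
  rw [Derivation.map_smul, Function.iterate_succ_apply', smul_smul, Nat.factorial_succ]
  congr 1
  have h1 : ((k + 1 : ℕ) : F) ≠ 0 := by exact_mod_cast Nat.succ_ne_zero k
  have h2 : (k.factorial : F) ≠ 0 := by exact_mod_cast Nat.factorial_ne_zero k
  push_cast
  push_cast at h1
  field_simp

theorem ek_add (k : ℕ) (r s : R) : ek D k (r + s) = ek D k r + ek D k s := by
  have h : ∀ (k : ℕ) (r s : R), (D : R → R)^[k] (r + s) = (D : R → R)^[k] r + (D : R → R)^[k] s := by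
    intro k
    induction k with
    | zero => intro r s; rfl
    | succ k ih => intro r s; rw [Function.iterate_succ_apply, map_add, ih]; rfl
  unfold ek
  rw [h, smul_add]

theorem ek_mul (k : ℕ) (r s : R) : ek D k (r * s) =
    ∑ p ∈ Finset.HasAntidiagonal.antidiagonal k, ek D p.1 r * ek D p.2 s := by
  induction k with
  | zero => simp [ek_zero]
  | succ k ih =>
    have h1 : ((k + 1 : ℕ) : F) ≠ 0 := by exact_mod_cast Nat.succ_ne_zero k
    have h2 := D_ek D k (r * s)
    rw [ih, map_sum] at h2
    have h3 : ∀ p ∈ Finset.HasAntidiagonal.antidiagonal k, D (ek D p.1 r * ek D p.2 s) =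
        ((p.1 + 1 : ℕ) : F) • (ek D (p.1 + 1) r * ek D p.2 s) +
          ((p.2 + 1 : ℕ) : F) • (ek D p.1 r * ek D (p.2 + 1) s) := by
      intro p _
      rw [Derivation.leibniz, D_ek, D_ek, smul_eq_mul, smul_eq_mul, mul_smul_comm, mul_smul_comm, add_comm,
        mul_comm (ek D p.2 s)]
    rw [Finset.sum_congr rfl h3, Finset.sum_add_distrib] at h2
    have h4 : ∑ p ∈ Finset.HasAntidiagonal.antidiagonal (k + 1), ((p.1 : ℕ) : F) • (ek D p.1 r * ek D p.2 s) =
        ∑ p ∈ Finset.HasAntidiagonal.antidiagonal k, ((p.1 + 1 : ℕ) : F) • (ek D (p.1 + 1) r * ek D p.2 s) := by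
      rw [Finset.Nat.sum_antidiagonal_succ]
      simp
    have h5 : ∑ p ∈ Finset.HasAntidiagonal.antidiagonal (k + 1), ((p.2 : ℕ) : F) • (ek D p.1 r * ek D p.2 s) =
        ∑ p ∈ Finset.HasAntidiagonal.antidiagonal k, ((p.2 + 1 : ℕ) : F) • (ek D p.1 r * ek D (p.2 + 1) s) := by
      rw [Finset.Nat.sum_antidiagonal_succ']
      simp
    rw [← h4, ← h5, ← Finset.sum_add_distrib] at h2
    have h6 : ∀ p ∈ Finset.HasAntidiagonal.antidiagonal (k + 1), ((p.1 : ℕ) : F) • (ek D p.1 r * ek D p.2 s) +
        ((p.2 : ℕ) : F) • (ek D p.1 r * ek D p.2 s) = ((k + 1 : ℕ) : F) • (ek D p.1 r * ek D p.2 s) := by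
      intro p hp
      rw [← add_smul, ← Nat.cast_add, Finset.HasAntidiagonal.mem_antidiagonal.mp hp]
    rw [Finset.sum_congr rfl h6, ← Finset.smul_sum] at h2
    exact (smul_right_injective R h1 h2).symm

/-- the exponential of a derivation -/
noncomputable def expD : R →+* PowerSeries R where
  toFun r := PowerSeries.mk fun k => ek D k r
  map_one' := by
    ext k
    rw [PowerSeries.coeff_mk, PowerSeries.coeff_one]
    cases k with
    | zero => simp [ek_zero]
    | succ k =>
      have h : ∀ k : ℕ, (D : R → R)^[k] 0 = 0 := by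
        intro k
        induction k with
        | zero => rfl
        | succ k ih => rw [Function.iterate_succ_apply, map_zero, ih]
      simp [ek, h]
  map_mul' r s := by
    ext k
    rw [PowerSeries.coeff_mk, PowerSeries.coeff_mul, ek_mul]
    simp
  map_zero' := by
    ext k
    have h : ∀ k : ℕ, (D : R → R)^[k] 0 = 0 := by
      intro k
      induction k with
      | zero => rfl
      | succ k ih => rw [Function.iterate_succ_apply, map_zero, ih]
    simp [ek, h]
  map_add' r s := by
    ext k
    simp [ek_add]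

variable {n m : Type*} [Fintype n] [DecidableEq n] [Fintype m] [DecidableEq m]

theorem iter_mat (ρ : Matrix n n R) (X : Matrix n n F) (hρ : ρ.map D = ρ * X.map (algebraMap F R)) (k : ℕ) (i j : n) :
    (D : R → R)^[k] (ρ i j) = (ρ * (X ^ k).map (algebraMap F R)) i j := by
  induction k generalizing i j with
  | zero => simp
  | succ k ih =>
    rw [Function.iterate_succ_apply', ih, Matrix.mul_apply, map_sum]
    have h1 : ∀ l, D (ρ i l) = (ρ * X.map (algebraMap F R)) i l := fun l => by rw [← hρ]; rfl
    have h2 : ∀ l, D (ρ i l * ((X ^ k).map (algebraMap F R)) l j) =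
        (ρ * X.map (algebraMap F R)) i l * ((X ^ k).map (algebraMap F R)) l j := by
      intro l
      rw [Derivation.leibniz, Matrix.map_apply, Derivation.map_algebraMap, smul_zero, zero_add, h1, smul_eq_mul,
        mul_comm]
    rw [Finset.sum_congr rfl fun l _ => h2 l, ← Matrix.mul_apply, mul_assoc, pow_succ', Matrix.map_mul]

/-- **The exponential trick.** -/
theorem exp_mz (ε : R →ₐ[F] F) (W : Matrix m m R) (hW : ∀ i j, D (W i j) = 0) (hW1 : W.map ε = 1)
    (ρ : Matrix n n R) (X : Matrix n n F) (hρ : ρ.map D = ρ * X.map (algebraMap F R)) (hρ1 : ρ.map ε = 1) (N k : ℕ)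
    (hk : k ≠ 0) (h : MZ N (Polynomial.aeval (ρ ^ k) (W ^ k).charpoly)) : MZ N X := by
  obtain ⟨φ, hφ⟩ : ∃ φ : R →+* PowerSeries F, φ = (PowerSeries.map (ε : R →+* F)).comp (expD D) := ⟨_, rfl⟩
  have hc : ∀ k r, PowerSeries.coeff k (φ r) = ((k.factorial : F)⁻¹) * ε ((D : R → R)^[k] r) := by
    intro k r
    rw [hφ]
    change PowerSeries.coeff k (PowerSeries.map (ε : R →+* F) (PowerSeries.mk fun k => ek D k r)) = _
    rw [PowerSeries.coeff_map, PowerSeries.coeff_mk]
    change ε (ek D k r) = _
    unfold ek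
    rw [map_smul, smul_eq_mul]
  -- the image of `W`
  have hWφ : W.map φ = 1 := by
    ext i j k
    rw [Matrix.map_apply, hc]
    have h1 := congrFun (congrFun hW1 i) j
    rw [Matrix.map_apply] at h1
    cases k with
    | zero =>
      rw [Function.iterate_zero, id_eq, h1]
      by_cases hij : i = j
      · subst hij; simp
      · simp [Matrix.one_apply_ne hij]
    | succ k =>
      have h0 : ∀ k : ℕ, (D : R → R)^[k] 0 = 0 := by
        intro k
        induction k with
        | zero => rfl
        | succ k ih => rw [Function.iterate_succ_apply, map_zero, ih]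
      rw [Function.iterate_succ_apply, hW, h0, map_zero, mul_zero]
      by_cases hij : i = j
      · subst hij; simp [PowerSeries.coeff_one]
      · simp [Matrix.one_apply_ne hij]
  -- the image of `ρ`
  obtain ⟨E, hE⟩ : ∃ E : Matrix n n (PowerSeries F), E = ρ.map φ := ⟨_, rfl⟩
  obtain ⟨Y, hY⟩ : ∃ Y : Matrix n n (PowerSeries F), Y = Matrix.of fun i j =>
      PowerSeries.mk fun k => (((k + 1).factorial : F)⁻¹) * (X ^ (k + 1)) i j := ⟨_, rfl⟩
  have hρk : ∀ k i j, ε ((D : R → R)^[k] (ρ i j)) = (X ^ k) i j := by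
    intro k i j
    rw [iter_mat D ρ X hρ]
    have h1 : ε ((ρ * (X ^ k).map (algebraMap F R)) i j) = ((ρ * (X ^ k).map (algebraMap F R)).map ε) i j := rfl
    have h2 : (ρ * (X ^ k).map (algebraMap F R)).map ε = X ^ k := by
      have h3 : (ρ * (X ^ k).map (algebraMap F R)).map ε = ρ.map ε * ((X ^ k).map (algebraMap F R)).map ε := by
        exact Matrix.map_mul (f := (ε : R →+* F))
      rw [h3, hρ1, one_mul]
      ext i j
      simp
    rw [h1, h2]
  have hEY : E - 1 = (PowerSeries.X : PowerSeries F) • Y := by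
    ext i j k
    rw [Matrix.sub_apply, Matrix.smul_apply, smul_eq_mul, hE, hY, Matrix.map_apply, Matrix.of_apply, map_sub, hc, hρk]
    cases k with
    | zero =>
      rw [PowerSeries.coeff_zero_X_mul, pow_zero]
      by_cases hij : i = j
      · subst hij; simp
      · simp [Matrix.one_apply_ne hij]
    | succ k =>
      rw [PowerSeries.coeff_succ_X_mul, PowerSeries.coeff_mk]
      by_cases hij : i = j
      · subst hij; simp [PowerSeries.coeff_one]
      · simp [Matrix.one_apply_ne hij]
  obtain ⟨S, hS⟩ : ∃ S : Matrix n n (PowerSeries F), S = ∑ i ∈ Finset.range k, E ^ i := ⟨_, rfl⟩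
  have hEk : E ^ k - 1 = (PowerSeries.X : PowerSeries F) • (Y * S) := by
    rw [← Matrix.smul_mul, ← hEY, hS, mul_geom_sum]
  -- transport
  have h1 : MZ N ((E ^ k - 1) ^ Fintype.card m) := by
    have h2 := h.map φ
    have h3 : (Polynomial.aeval (ρ ^ k) (W ^ k).charpoly).map φ = (E ^ k - 1) ^ Fintype.card m := by
      have h4 := Pool.Agent.H40GO.mapMatrix_aeval φ (ρ ^ k) (W ^ k).charpoly
      have h5 : (Polynomial.aeval (ρ ^ k) (W ^ k).charpoly).map φ =
        φ.mapMatrix (Polynomial.aeval (ρ ^ k) (W ^ k).charpoly) := rfl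
      have h6 : (W ^ k).map φ = 1 := by
        have h7 : (W ^ k).map φ = φ.mapMatrix (W ^ k) := rfl
        have h8 : φ.mapMatrix W = 1 := hWφ
        rw [h7, map_pow, h8, one_pow]
      rw [h5, h4, ← Matrix.charpoly_map, h6, Matrix.charpoly_one, hE, map_pow, map_sub, Polynomial.aeval_X, map_one,
        map_pow]
      rfl
    rwa [h3] at h2
  -- the field of fractions
  have hinj : Function.Injective (algebraMap (PowerSeries F) (FractionRing (PowerSeries F))) :=
    IsFractionRing.injective _ _
  have h2 := h1.map (algebraMap (PowerSeries F) (FractionRing (PowerSeries F)))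
  by_cases hm0 : Fintype.card m = 0
  · rw [hm0, pow_zero, Matrix.map_one _ (map_zero _) (map_one _)] at h2
    rw [mz_one h2]
    intro j hj
    exact absurd hj (Nat.not_lt_zero j)
  · have h3 : ((E ^ k - 1) ^ Fintype.card m).map (algebraMap (PowerSeries F) (FractionRing (PowerSeries F))) =
        ((algebraMap (PowerSeries F) (FractionRing (PowerSeries F)) PowerSeries.X) •
          (Y * S).map (algebraMap (PowerSeries F) (FractionRing (PowerSeries F)))) ^ Fintype.card m := by
      have h4 : ∀ Z : Matrix n n (PowerSeries F), Z.map (algebraMap (PowerSeries F) (FractionRing (PowerSeries F))) =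
        (algebraMap (PowerSeries F) (FractionRing (PowerSeries F))).mapMatrix Z := fun _ => rfl
      rw [h4, map_pow, hEk, ← h4]
      congr 1
      ext i j
      simp only [Matrix.map_apply, Matrix.smul_apply, smul_eq_mul, map_mul]
    rw [h3, mz_pow _ _ hm0, mz_smul _ _ (by
      intro h0
      exact PowerSeries.X_ne_zero ((map_eq_zero_iff _ hinj).mp h0))] at h2
    have h4 : MZ N (Y * S) := h2.of_map _ hinj
    have h5 := h4.map (PowerSeries.constantCoeff (R := F))
    have h6 : Y.map (PowerSeries.constantCoeff (R := F)) = X := by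
      ext i j
      rw [hY, Matrix.map_apply, Matrix.of_apply, ← PowerSeries.coeff_zero_eq_constantCoeff_apply, PowerSeries.coeff_mk]
      simp
    have h7 : S.map (PowerSeries.constantCoeff (R := F)) = (k : F) • 1 := by
      have h8 : (PowerSeries.constantCoeff (R := F)).mapMatrix E = 1 := by
        have h9 : (PowerSeries.constantCoeff (R := F)).mapMatrix (E - 1) = 0 := by
          rw [hEY]
          ext i j
          simp
        rw [map_sub, map_one] at h9
        exact sub_eq_zero.mp h9
      have h10 : S.map (PowerSeries.constantCoeff (R := F)) = (PowerSeries.constantCoeff (R := F)).mapMatrix S := rfl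
      rw [h10, hS, map_sum]
      simp only [map_pow, h8, one_pow, Finset.sum_const, Finset.card_range]
      rw [Nat.cast_smul_eq_nsmul]
    have h8 : (Y * S).map (PowerSeries.constantCoeff (R := F)) = (k : F) • X := by
      rw [Matrix.map_mul, h6, h7, Matrix.mul_smul, mul_one]
    rw [h8, mz_smul _ _ (Nat.cast_ne_zero.mpr hk)] at h5
    exact h5

end Exp

end Pool.Agent.H40LT
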