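import Mathlib
import Pool.Agent.H40LT.Der
import Pool.Agent.H40LT.Exp
import Pool.Agent.H40LT.Lie

/-!
# Tangent vectors: stability under conjugation, and multiplicity of the eigenvalue zero
-/

set_option autoImplicit false
set_option linter.unusedSectionVars false
set_option linter.style.haveILetI false

namespace Pool.Agent.H40LT

open Module Matrix Pool.Agent.H40GO

section Comp

variable {F : Type*} [Field F] {Γ : Type*} [Group Γ]

/-- composition with an endomorphism of the group -/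
def cmp (φ : Γ →* Γ) : (Γ → F) →ₐ[F] (Γ → F) where
  toFun f x := f (φ x)
  map_one' := rfl
  map_mul' _ _ := rfl
  map_zero' := rfl
  map_add' _ _ := rfl
  commutes' _ := rfl

variable {m n : Type*} [Fintype m] [DecidableEq m] [Fintype n] [DecidableEq n]

theorem cmp_mem (W : Γ →* Matrix m m F) (φ : Γ →* Γ) (P Q : Matrix m m F) (h : ∀ x, W (φ x) = P * W x * Q)
    (f : Γ → F) (hf : f ∈ coefAlg W 1) : cmp φ f ∈ coefAlg W 1 := by
  have key : coefAlg W 1 ≤ (coefAlg W 1).comap (cmp φ) := by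
    refine Algebra.adjoin_le ?_
    rintro s ((⟨⟨i, j⟩, rfl⟩ | ⟨⟨i, j⟩, rfl⟩) | (rfl | rfl))
    · change (fun x => W (φ x) i j) ∈ coefAlg W 1
      have h1 : (fun x => W (φ x) i j) = ∑ l, ∑ k, (P i k * Q l j) • (fun x => W x k l) := by
        funext x
        rw [h, Matrix.mul_apply, Finset.sum_apply]
        refine Finset.sum_congr rfl fun l _ => ?_
        rw [Matrix.mul_apply, Finset.sum_apply, Finset.sum_mul]
        refine Finset.sum_congr rfl fun k _ => ?_
        rw [Pi.smul_apply, smul_eq_mul]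
        ring
      rw [h1]
      exact Subalgebra.sum_mem _ fun l _ => Subalgebra.sum_mem _ fun k _ =>
        Subalgebra.smul_mem _ (mem1 W 1 k l) _
    · change (fun x => W (φ x)⁻¹ i j) ∈ coefAlg W 1
      have h1 : (fun x => W (φ x)⁻¹ i j) = ∑ l, ∑ k, (P i k * Q l j) • (fun x => W x⁻¹ k l) := by
        funext x
        rw [← map_inv, h, Matrix.mul_apply, Finset.sum_apply]
        refine Finset.sum_congr rfl fun l _ => ?_
        rw [Matrix.mul_apply, Finset.sum_apply, Finset.sum_mul]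
        refine Finset.sum_congr rfl fun k _ => ?_
        rw [Pi.smul_apply, smul_eq_mul]
        ring
      rw [h1]
      exact Subalgebra.sum_mem _ fun l _ => Subalgebra.sum_mem _ fun k _ =>
        Subalgebra.smul_mem _ (mem2 W 1 k l) _
    · exact (coefAlg W 1).one_mem
    · exact (coefAlg W 1).one_mem
  exact key hf

/-- composition with an endomorphism of the group, on the algebra of coefficients -/
def cR (W : Γ →* Matrix m m F) (φ : Γ →* Γ) (P Q : Matrix m m F) (h : ∀ x, W (φ x) = P * W x * Q) :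
    coefAlg W 1 →ₐ[F] coefAlg W 1 where
  toFun r := ⟨cmp φ r, cmp_mem W φ P Q h r r.2⟩
  map_one' := rfl
  map_mul' _ _ := rfl
  map_zero' := rfl
  map_add' _ _ := rfl
  commutes' _ := rfl

theorem cR_apply (W : Γ →* Matrix m m F) (φ : Γ →* Γ) (P Q : Matrix m m F) (h : ∀ x, W (φ x) = P * W x * Q)
    (r : coefAlg W 1) (x : Γ) : (cR W φ P Q h r : Γ → F) x = (r : Γ → F) (φ x) := rfl

variable (W : Γ →* Matrix m m F) (ρ : Γ →* Matrix n n F)

theorem dsum_conj (φ : Γ →* Γ) (P Q : Matrix n n F) (hρ : ∀ x, ρ (φ x) = P * ρ x * Q)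
    (P' Q' : Matrix m m F) (hW : ∀ x, W (φ x) = P' * W x * Q') (x : Γ) :
    dsum W ρ (φ x) = Matrix.fromBlocks P' 0 0 P * dsum W ρ x * Matrix.fromBlocks Q' 0 0 Q := by
  change Matrix.fromBlocks (W (φ x)) 0 0 (ρ (φ x)) = Matrix.fromBlocks P' 0 0 P * Matrix.fromBlocks (W x) 0 0 (ρ x) *
    Matrix.fromBlocks Q' 0 0 Q
  rw [Matrix.fromBlocks_multiply, Matrix.fromBlocks_multiply, hρ, hW]
  simp

/-- constant matrices -/
theorem map_D_mul {k : Type*} [Fintype k] {R : Type*} [CommRing R] [Algebra F R] (D : Derivation F R R)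
    (P Q : Matrix k k F) (M : Matrix k k R) :
    (P.map (algebraMap F R) * M * Q.map (algebraMap F R)).map D =
      P.map (algebraMap F R) * M.map D * Q.map (algebraMap F R) := by
  ext i j
  rw [Matrix.map_apply, Matrix.mul_apply, Matrix.mul_apply, map_sum]
  refine Finset.sum_congr rfl fun l _ => ?_
  rw [Matrix.map_apply, Derivation.leibniz, Derivation.map_algebraMap, smul_zero, zero_add, Matrix.mul_apply,
    Matrix.mul_apply, map_sum, smul_eq_mul, mul_comm]
  congr 1
  refine Finset.sum_congr rfl fun k _ => ?_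
  rw [Matrix.map_apply, Derivation.leibniz, Derivation.map_algebraMap, smul_zero, add_zero]
  rfl

theorem tan_conj (φ : Γ ≃* Γ) (P Q : Matrix n n F) (hPQ : P * Q = 1) (hρ : ∀ x, ρ (φ x) = P * ρ x * Q)
    (P' Q' : Matrix m m F) (hPQ' : P' * Q' = 1) (hW : ∀ x, W (φ x) = P' * W x * Q') (X : Matrix n n F)
    (hX : IsTan W ρ X) : IsTan W ρ (Q * X * P) := by
  have hQP : Q * P = 1 := mul_eq_one_comm.mp hPQ
  have hQP' : Q' * P' = 1 := mul_eq_one_comm.mp hPQ'
  have hρ' : ∀ x, ρ (φ.symm x) = Q * ρ x * P := by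
    intro x
    have h1 := hρ (φ.symm x)
    rw [MulEquiv.apply_symm_apply] at h1
    rw [h1]
    calc ρ (φ.symm x) = (Q * P) * ρ (φ.symm x) * (Q * P) := by rw [hQP, one_mul, mul_one]
      _ = _ := by simp only [mul_assoc]
  have hW' : ∀ x, W (φ.symm x) = Q' * W x * P' := by
    intro x
    have h1 := hW (φ.symm x)
    rw [MulEquiv.apply_symm_apply] at h1
    rw [h1]
    calc W (φ.symm x) = (Q' * P') * W (φ.symm x) * (Q' * P') := by rw [hQP', one_mul, mul_one]
      _ = _ := by simp only [mul_assoc]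
  obtain ⟨D, hD, hD'⟩ := hX
  obtain ⟨c, hc⟩ : ∃ c : RR W ρ →ₐ[F] RR W ρ, ∀ (r : RR W ρ) (x : Γ), (c r : Γ → F) x = (r : Γ → F) (φ x) :=
    ⟨cR (dsum W ρ) φ.toMonoidHom _ _ (dsum_conj W ρ φ.toMonoidHom P Q hρ P' Q' hW), fun r x => rfl⟩
  obtain ⟨e, he⟩ : ∃ e : RR W ρ →ₐ[F] RR W ρ, ∀ (r : RR W ρ) (x : Γ), (e r : Γ → F) x = (r : Γ → F) (φ.symm x) :=
    ⟨cR (dsum W ρ) φ.symm.toMonoidHom _ _ (dsum_conj W ρ φ.symm.toMonoidHom Q P hρ' Q' P' hW'), fun r x => rfl⟩
  have hce : ∀ r, c (e r) = r := by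
    intro r
    apply Subtype.ext
    funext x
    rw [hc, he, MulEquiv.symm_apply_apply]
  let D' : Derivation F (RR W ρ) (RR W ρ) := Derivation.mk'
    { toFun := fun r => c (D (e r))
      map_add' := fun r s => by rw [map_add, map_add, map_add]
      map_smul' := fun a r => by rw [map_smul, Derivation.map_smul, map_smul, RingHom.id_apply] } (by
    intro r s
    change c (D (e (r * s))) = r * c (D (e s)) + s * c (D (e r))
    rw [map_mul, Derivation.leibniz, map_add, smul_eq_mul, smul_eq_mul, map_mul, map_mul, hce, hce])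
  have hD'a : ∀ r, D' r = c (D (e r)) := fun r => rfl
  have heW : (Wm W ρ).map e = Q'.map (algebraMap F (RR W ρ)) * Wm W ρ * P'.map (algebraMap F (RR W ρ)) := by
    ext i j x
    have h1 : (((Q'.map (algebraMap F (RR W ρ)) * Wm W ρ * P'.map (algebraMap F (RR W ρ))) i j : RR W ρ) : Γ → F) x =
        (Q' * W x * P') i j := by
      rw [Matrix.mul_apply, Matrix.mul_apply, AddSubmonoidClass.coe_finsetSum, Finset.sum_apply]
      refine Finset.sum_congr rfl fun l _ => ?_
      rw [Matrix.mul_apply, Matrix.mul_apply]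
      have h2 : ∀ a b : RR W ρ, ((a * b : RR W ρ) : Γ → F) x = (a : Γ → F) x * (b : Γ → F) x := fun _ _ => rfl
      rw [h2, AddSubmonoidClass.coe_finsetSum, Finset.sum_apply]
      rfl
    rw [h1, ← hW', Matrix.map_apply, he, Wm_apply]
  have heρ : (ρm W ρ).map e = Q.map (algebraMap F (RR W ρ)) * ρm W ρ * P.map (algebraMap F (RR W ρ)) := by
    ext i j x
    have h1 : (((Q.map (algebraMap F (RR W ρ)) * ρm W ρ * P.map (algebraMap F (RR W ρ))) i j : RR W ρ) : Γ → F) x =
        (Q * ρ x * P) i j := by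
      rw [Matrix.mul_apply, Matrix.mul_apply, AddSubmonoidClass.coe_finsetSum, Finset.sum_apply]
      refine Finset.sum_congr rfl fun l _ => ?_
      rw [Matrix.mul_apply, Matrix.mul_apply]
      have h2 : ∀ a b : RR W ρ, ((a * b : RR W ρ) : Γ → F) x = (a : Γ → F) x * (b : Γ → F) x := fun _ _ => rfl
      rw [h2, AddSubmonoidClass.coe_finsetSum, Finset.sum_apply]
      rfl
    rw [h1, ← hρ', Matrix.map_apply, he, ρm_apply]
  have hcρ : (ρm W ρ).map c = P.map (algebraMap F (RR W ρ)) * ρm W ρ * Q.map (algebraMap F (RR W ρ)) := by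
    ext i j x
    have h1 : (((P.map (algebraMap F (RR W ρ)) * ρm W ρ * Q.map (algebraMap F (RR W ρ))) i j : RR W ρ) : Γ → F) x =
        (P * ρ x * Q) i j := by
      rw [Matrix.mul_apply, Matrix.mul_apply, AddSubmonoidClass.coe_finsetSum, Finset.sum_apply]
      refine Finset.sum_congr rfl fun l _ => ?_
      rw [Matrix.mul_apply, Matrix.mul_apply]
      have h2 : ∀ a b : RR W ρ, ((a * b : RR W ρ) : Γ → F) x = (a : Γ → F) x * (b : Γ → F) x := fun _ _ => rfl
      rw [h2, AddSubmonoidClass.coe_finsetSum, Finset.sum_apply]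
      rfl
    rw [h1, ← hρ, Matrix.map_apply, hc, ρm_apply]
  refine ⟨D', ?_, ?_⟩
  · intro i j
    rw [hD'a]
    have h1 : D (e (Wm W ρ i j)) = ((Wm W ρ).map e).map D i j := rfl
    have h2 : (Wm W ρ).map D = 0 := by
      ext i j : 2
      exact congrArg Subtype.val (hD i j)
    rw [h1, heW, map_D_mul, h2, mul_zero, zero_mul]
    exact map_zero c
  · have h1 : (ρm W ρ).map D' = (((ρm W ρ).map e).map D).map c := rfl
    have h3 : ∀ M N : Matrix n n (RR W ρ), (M * N).map c = M.map c * N.map c := fun M N =>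
      Matrix.map_mul (f := (c : RR W ρ →+* RR W ρ))
    have h4 : ∀ Z : Matrix n n F, (Z.map (algebraMap F (RR W ρ))).map c = Z.map (algebraMap F (RR W ρ)) := by
      intro Z
      ext i j : 2
      exact congrArg Subtype.val (c.commutes (Z i j))
    have h5 : ∀ Z Z' : Matrix n n F, Z.map (algebraMap F (RR W ρ)) * Z'.map (algebraMap F (RR W ρ)) =
        (Z * Z').map (algebraMap F (RR W ρ)) := fun Z Z' => (Matrix.map_mul).symm
    have h6 : Q.map (algebraMap F (RR W ρ)) * P.map (algebraMap F (RR W ρ)) = 1 := by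
      rw [h5, hQP, Matrix.map_one _ (map_zero _) (map_one _)]
    rw [h1, heρ, map_D_mul, hD', h3, h3, h3, h4, h4, h4, hcρ, ← h5, ← h5]
    calc Q.map (algebraMap F (RR W ρ)) * (P.map (algebraMap F (RR W ρ)) * ρm W ρ * Q.map (algebraMap F (RR W ρ)) *
          X.map (algebraMap F (RR W ρ))) * P.map (algebraMap F (RR W ρ)) =
        (Q.map (algebraMap F (RR W ρ)) * P.map (algebraMap F (RR W ρ))) * (ρm W ρ * (Q.map (algebraMap F (RR W ρ)) *
          X.map (algebraMap F (RR W ρ)) * P.map (algebraMap F (RR W ρ)))) := by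
          simp only [mul_assoc]
      _ = _ := by rw [h6, one_mul]

/-- the eigenvalue zero of a tangent vector -/
theorem tan_mz [CharZero F] (N k : ℕ) (hk : k ≠ 0)
    (h : ∀ x, MZ N (Polynomial.aeval (ρ x ^ k) (W x ^ k).charpoly)) (X : Matrix n n F) (hX : IsTan W ρ X) :
    MZ N X := by
  obtain ⟨D, hD, hD'⟩ := hX
  have h1 : ∀ x, ((ev (RR W ρ) x : RR W ρ →ₐ[F] F) : RR W ρ →+* F).mapMatrix (Wm W ρ) = W x := fun x =>
    matA_ev _ W _ x
  have h2 : ∀ x, ((ev (RR W ρ) x : RR W ρ →ₐ[F] F) : RR W ρ →+* F).mapMatrix (ρm W ρ) = ρ x := fun x =>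
    matA_ev _ ρ _ x
  refine exp_mz D (ev (RR W ρ) 1) (Wm W ρ) hD ?_ (ρm W ρ) X hD' ?_ N k hk ?_
  · exact (h1 1).trans (map_one W)
  · exact (h2 1).trans (map_one ρ)
  · intro j hj
    apply Subtype.ext
    funext x
    have h3 := h x j hj
    have h4 : ((ev (RR W ρ) x : RR W ρ →ₐ[F] F) : RR W ρ →+* F)
        ((Polynomial.aeval (ρm W ρ ^ k) (Wm W ρ ^ k).charpoly).charpoly.coeff j) =
        (Polynomial.aeval (ρ x ^ k) (W x ^ k).charpoly).charpoly.coeff j := by
      rw [← Polynomial.coeff_map, ← Matrix.charpoly_map]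
      have h5 := mapMatrix_aeval ((ev (RR W ρ) x : RR W ρ →ₐ[F] F) : RR W ρ →+* F) (ρm W ρ ^ k)
        (Wm W ρ ^ k).charpoly
      rw [← Matrix.charpoly_map, map_pow, h2] at h5
      have h6 : (Wm W ρ ^ k).map ((ev (RR W ρ) x : RR W ρ →ₐ[F] F) : RR W ρ →+* F) = W x ^ k := by
        have h7 : (Wm W ρ ^ k).map ((ev (RR W ρ) x : RR W ρ →ₐ[F] F) : RR W ρ →+* F) =
          ((ev (RR W ρ) x : RR W ρ →ₐ[F] F) : RR W ρ →+* F).mapMatrix (Wm W ρ ^ k) := rfl
        rw [h7, map_pow, h1]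
      rw [h6] at h5
      rw [← h5]
      rfl
    exact h4.trans h3

end Comp

end Pool.Agent.H40LT
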