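import Mathlib
import Pool.Agent.H40LT.Tan
import Pool.Agent.H40LT.LieF
import Pool.Agent.H40GO.Int

/-!
# Absence of tangent vectors
-/

set_option autoImplicit false
set_option linter.unusedSectionVars false
set_option linter.style.haveILetI false

namespace Pool.Agent.H40LT

open Module Matrix Pool.Agent.H40GO

attribute [local instance 100] LieRing.ofAssociativeRing

section

variable {F : Type*} [Field F] [CharZero F] {Γ : Type*} [Group Γ] {m n : Type*} [Fintype m] [DecidableEq m]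
  [Fintype n] [DecidableEq n]

/-- the Lie algebra of tangent vectors -/
def tanL (W : Γ →* Matrix m m F) (ρ : Γ →* Matrix n n F) : LieSubalgebra F (Module.End F (n → F)) where
  carrier := {X | IsTan W ρ (LinearMap.toMatrix' X)}
  add_mem' := by
    intro X Y hX hY
    change IsTan W ρ (LinearMap.toMatrix' (X + Y))
    rw [map_add]
    exact hX.add W ρ hY
  zero_mem' := by
    change IsTan W ρ (LinearMap.toMatrix' 0)
    rw [map_zero]
    exact isTan_zero W ρ
  smul_mem' := by
    intro c X hX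
    change IsTan W ρ (LinearMap.toMatrix' (c • X))
    rw [map_smul]
    exact hX.smul W ρ c
  lie_mem' := by
    intro X Y hX hY
    change IsTan W ρ (LinearMap.toMatrix' (X * Y - Y * X))
    rw [map_sub, LinearMap.toMatrix'_mul, LinearMap.toMatrix'_mul]
    exact IsTan.lie W ρ hX hY

/-- the representation by endomorphisms -/
noncomputable def toEnd' (ρ : Γ →* Matrix n n F) : Γ →* Module.End F (n → F) :=
  ((Matrix.toLinAlgEquiv' : Matrix n n F ≃ₐ[F] Module.End F (n → F)) : Matrix n n F →* Module.End F (n → F)).comp ρ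

theorem toEnd'_apply (ρ : Γ →* Matrix n n F) (g : Γ) (v : n → F) : toEnd' ρ g v = ρ g *ᵥ v := rfl

theorem irrEnd_of_irr (ρ : Γ →* Matrix n n F) (hirr : Irr ρ) : IrrEnd (toEnd' ρ) := fun U hU => hirr.2 U hU

/-- **No tangent vectors** -/
theorem tan_eq_zero (Δ : Subgroup Γ) [hΔ : Δ.Normal] (W : Γ →* Matrix m m F)
    (ρ : Γ →* Matrix n n F) (hirr : Irr ρ) (N k : ℕ) (hk : k ≠ 0) (hN : Fintype.card n < 3 * N)
    (h : ∀ x ∈ Δ, MZ N (Polynomial.aeval (ρ x ^ k) (W x ^ k).charpoly)) (X : Matrix n n F)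
    (hX : IsTan (W.comp Δ.subtype) (ρ.comp Δ.subtype) X) : X = 0 := by
  have h1 := lie_eq_zero' (toEnd' ρ) (tanL (W.comp Δ.subtype) (ρ.comp Δ.subtype)) (by
    intro g Y hY
    change IsTan _ _ (LinearMap.toMatrix' (toEnd' ρ g * Y * toEnd' ρ g⁻¹))
    rw [LinearMap.toMatrix'_mul, LinearMap.toMatrix'_mul]
    have h2 : ∀ g, LinearMap.toMatrix' (toEnd' ρ g) = ρ g := fun g => LinearMap.toMatrix'_toLin' (ρ g)
    rw [h2, h2]
    refine tan_conj (W.comp Δ.subtype) (ρ.comp Δ.subtype) (MulAut.conjNormal g⁻¹) (ρ g⁻¹) (ρ g) ?_ ?_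
      (W g⁻¹) (W g) ?_ ?_ _ hY
    · rw [← map_mul, inv_mul_cancel, map_one]
    · intro x
      change ρ ((MulAut.conjNormal g⁻¹ x : Δ) : Γ) = _
      rw [MulAut.conjNormal_apply, inv_inv, map_mul, map_mul]
      rfl
    · rw [← map_mul, inv_mul_cancel, map_one]
    · intro x
      change W ((MulAut.conjNormal g⁻¹ x : Δ) : Γ) = _
      rw [MulAut.conjNormal_apply, inv_inv, map_mul, map_mul]
      rfl) (irrEnd_of_irr ρ hirr) N (by rwa [Module.finrank_fintype_fun_eq_card]) (by
    intro Y hY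
    have h3 := tan_mz (W.comp Δ.subtype) (ρ.comp Δ.subtype) N k hk (fun x => h x x.2) _ hY
    rw [mz_iff] at h3
    rwa [← Matrix.charpoly_toLin', Matrix.toLin'_toMatrix'] at h3) (Matrix.toLin' X) (by
    change IsTan _ _ (LinearMap.toMatrix' (Matrix.toLin' X))
    rwa [LinearMap.toMatrix'_toLin'])
  have h4 := congrArg LinearMap.toMatrix' h1
  rwa [LinearMap.toMatrix'_toLin', map_zero] at h4

end

end Pool.Agent.H40LT
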