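import Mathlib
import Pool.Agent.H40LT.TanZero
import Pool.Agent.H40LT.Conn
import Pool.Agent.H40GO.Geo

/-!
# Integrality of the matrix coefficients
-/

set_option autoImplicit false
set_option linter.unusedSectionVars false
set_option linter.style.haveILetI false

namespace Pool.Agent.H40LT

open Module Matrix Pool.Agent.H40GO

section Res

variable {G : Type*} [Field G] {Γ : Type*} [Group Γ] {k : Type*} [Fintype k] [DecidableEq k]

theorem res_surj (U : Γ →* Matrix k k G) (Δ : Subgroup Γ) (f : Δ → G) (hf : f ∈ coefAlg (U.comp Δ.subtype) 1) :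
    ∃ f' ∈ coefAlg U 1, ∀ x : Δ, f x = f' x := by
  induction hf using Algebra.adjoin_induction with
  | mem f hf =>
    rcases hf with (⟨⟨i, j⟩, rfl⟩ | ⟨⟨i, j⟩, rfl⟩) | (rfl | rfl)
    · exact ⟨_, mem1 U 1 i j, fun x => rfl⟩
    · exact ⟨_, mem2 U 1 i j, fun x => rfl⟩
    · exact ⟨1, (coefAlg U 1).one_mem, fun x => rfl⟩
    · exact ⟨1, (coefAlg U 1).one_mem, fun x => rfl⟩
  | algebraMap c => exact ⟨_, (coefAlg U 1).algebraMap_mem c, fun x => rfl⟩
  | add f g _ _ hf hg =>
    obtain ⟨f', hf', h1⟩ := hf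
    obtain ⟨g', hg', h2⟩ := hg
    exact ⟨f' + g', (coefAlg U 1).add_mem hf' hg', fun x => by rw [Pi.add_apply, Pi.add_apply, h1, h2]⟩
  | mul f g _ _ hf hg =>
    obtain ⟨f', hf', h1⟩ := hf
    obtain ⟨g', hg', h2⟩ := hg
    exact ⟨f' * g', (coefAlg U 1).mul_mem hf' hg', fun x => by rw [Pi.mul_apply, Pi.mul_apply, h1, h2]⟩

theorem res_mem (U : Γ →* Matrix k k G) (Δ : Subgroup Γ) (f : Γ → G) (hf : f ∈ coefAlg U 1) :
    (fun x : Δ => f x) ∈ coefAlg (U.comp Δ.subtype) 1 := by
  induction hf using Algebra.adjoin_induction with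
  | mem f hf =>
    rcases hf with (⟨⟨i, j⟩, rfl⟩ | ⟨⟨i, j⟩, rfl⟩) | (rfl | rfl)
    · exact mem1 (U.comp Δ.subtype) 1 i j
    · exact mem2 (U.comp Δ.subtype) 1 i j
    · exact (coefAlg (U.comp Δ.subtype) 1).one_mem
    · exact (coefAlg (U.comp Δ.subtype) 1).one_mem
  | algebraMap c => exact (coefAlg (U.comp Δ.subtype) 1).algebraMap_mem c
  | add f g _ _ hf hg => exact (coefAlg (U.comp Δ.subtype) 1).add_mem hf hg
  | mul f g _ _ hf hg => exact (coefAlg (U.comp Δ.subtype) 1).mul_mem hf hg

theorem res_domain (U : Γ →* Matrix k k G) (Δ : Subgroup Γ)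
    (h : ∀ r ∈ coefAlg U 1, ∀ s ∈ coefAlg U 1, (∀ x ∈ Δ, r x * s x = 0) →
      (∀ x ∈ Δ, r x = 0) ∨ (∀ x ∈ Δ, s x = 0)) : IsDomain (coefAlg (U.comp Δ.subtype) 1) := by
  haveI : NoZeroDivisors (coefAlg (U.comp Δ.subtype) 1) := by
    constructor
    rintro ⟨a, ha⟩ ⟨b, hb⟩ hab
    obtain ⟨a', ha', h1⟩ := res_surj U Δ a ha
    obtain ⟨b', hb', h2⟩ := res_surj U Δ b hb
    rcases h a' ha' b' hb' (fun x hx => by
      have h3 := congrFun (congrArg Subtype.val hab) ⟨x, hx⟩
      change a ⟨x, hx⟩ * b ⟨x, hx⟩ = 0 at h3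
      rwa [h1, h2] at h3) with h3 | h3
    · left
      apply Subtype.ext
      funext x
      change a x = 0
      rw [h1]
      exact h3 x x.2
    · right
      apply Subtype.ext
      funext x
      change b x = 0
      rw [h2]
      exact h3 x x.2
  haveI : Nontrivial (coefAlg (U.comp Δ.subtype) 1) := by
    refine ⟨⟨0, 1, fun h1 => ?_⟩⟩
    have h2 := congrFun (congrArg Subtype.val h1) 1
    exact zero_ne_one h2
  exact NoZeroDivisors.to_isDomain _

end Res

section Ext

variable {F : Type*} [Field F] {G : Type*} [Field G] [Algebra F G] {Γ : Type*} [Group Γ]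
  {k m n : Type*} [Fintype k] [DecidableEq k] [Fintype m] [DecidableEq m] [Fintype n] [DecidableEq n]

theorem bc_mem (U : Γ →* Matrix k k F) (f : Γ → F) (hf : f ∈ coefAlg U 1) :
    (fun x => algebraMap F G (f x)) ∈ coefAlg (bc G U) 1 := by
  induction hf using Algebra.adjoin_induction with
  | mem f hf =>
    rcases hf with (⟨⟨i, j⟩, rfl⟩ | ⟨⟨i, j⟩, rfl⟩) | (rfl | rfl)
    · exact mem1 (bc G U) 1 i j
    · exact mem2 (bc G U) 1 i j
    · have h1 : (fun x : Γ => algebraMap F G ((1 : Γ →* F) x)) = 1 := by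
        funext x
        exact map_one _
      rw [h1]
      exact (coefAlg (bc G U) 1).one_mem
    · have h1 : (fun x : Γ => algebraMap F G ((1 : Γ →* F) x⁻¹)) = 1 := by
        funext x
        exact map_one _
      rw [h1]
      exact (coefAlg (bc G U) 1).one_mem
  | algebraMap c => exact (coefAlg (bc G U) 1).algebraMap_mem (algebraMap F G c)
  | add f g _ _ hf hg =>
    have h1 : (fun x => algebraMap F G ((f + g) x)) = (fun x => algebraMap F G (f x)) + fun x => algebraMap F G (g x) := by
      funext x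
      exact map_add _ _ _
    rw [h1]
    exact (coefAlg (bc G U) 1).add_mem hf hg
  | mul f g _ _ hf hg =>
    have h1 : (fun x => algebraMap F G ((f * g) x)) = (fun x => algebraMap F G (f x)) * fun x => algebraMap F G (g x) := by
      funext x
      exact map_mul _ _ _
    rw [h1]
    exact (coefAlg (bc G U) 1).mul_mem hf hg

/-- extension of scalars for functions -/
def bcf (F G : Type*) [Field F] [Field G] [Algebra F G] (Γ : Type*) : (Γ → F) →+* (Γ → G) where
  toFun f x := algebraMap F G (f x)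
  map_one' := by funext x; exact map_one _
  map_mul' f g := by funext x; exact map_mul _ _ _
  map_zero' := by funext x; exact map_zero _
  map_add' f g := by funext x; exact map_add _ _ _

theorem bcf_apply (f : Γ → F) (x : Γ) : bcf F G Γ f x = algebraMap F G (f x) := rfl

theorem bcf_inj : Function.Injective (bcf F G Γ) := by
  intro f g h
  funext x
  exact (algebraMap F G).injective (congrFun h x)

theorem dsum_bc (W : Γ →* Matrix m m F) (ρ : Γ →* Matrix n n F) :
    bc G (dsum W ρ) = dsum (bc G W) (bc G ρ) := by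
  ext x i j
  rcases i with i | i <;> rcases j with j | j
  · rfl
  · exact map_zero (algebraMap F G)
  · exact map_zero (algebraMap F G)
  · rfl

theorem domain_of_bc (W : Γ →* Matrix m m F) (ρ : Γ →* Matrix n n F)
    [IsDomain (RR (bc G W) (bc G ρ))] : IsDomain (RR W ρ) := by
  haveI : NoZeroDivisors (RR W ρ) := by
    constructor
    rintro ⟨a, ha⟩ ⟨b, hb⟩ hab
    have ha' := bc_mem (G := G) _ a ha
    have hb' := bc_mem (G := G) _ b hb
    rw [dsum_bc] at ha' hb'
    have h1 : (⟨_, ha'⟩ : RR (bc G W) (bc G ρ)) * ⟨_, hb'⟩ = 0 := by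
      apply Subtype.ext
      funext x
      have h2 := congrFun (congrArg Subtype.val hab) x
      change algebraMap F G (a x) * algebraMap F G (b x) = 0
      rw [← map_mul]
      exact (congrArg (algebraMap F G) h2).trans (map_zero _)
    rcases mul_eq_zero.mp h1 with h2 | h2
    · left
      apply Subtype.ext
      funext x
      have h3 := congrFun (congrArg Subtype.val h2) x
      exact (map_eq_zero (algebraMap F G)).mp h3
    · right
      apply Subtype.ext
      funext x
      have h3 := congrFun (congrArg Subtype.val h2) x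
      exact (map_eq_zero (algebraMap F G)).mp h3
  haveI : Nontrivial (RR W ρ) := by
    refine ⟨⟨0, 1, fun h1 => ?_⟩⟩
    have h2 := congrFun (congrArg Subtype.val h1) 1
    exact zero_ne_one h2
  exact NoZeroDivisors.to_isDomain _

/-- the left translates of an integral function are integral -/
theorem isIntegral_lt {A : Subalgebra G (Γ → G)} (hA : ∀ a ∈ A, Comul A a) {f : Γ → G}
    (hf : IsIntegral A f) (g : Γ) : IsIntegral A (lt g f) := by
  obtain ⟨p, hp1, hp2⟩ := hf
  let s : A →+* A :=
    { toFun := fun a => ⟨lt g (a : Γ → G), (hA a a.2).lt_mem g⟩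
      map_one' := rfl
      map_mul' := fun _ _ => rfl
      map_zero' := rfl
      map_add' := fun _ _ => rfl }
  refine ⟨p.map s, hp1.map s, ?_⟩
  rw [Polynomial.eval₂_map]
  have h1 := Polynomial.hom_eval₂ p (algebraMap A (Γ → G)) ((lt g : (Γ → G) →ₐ[G] (Γ → G)) : (Γ → G) →+* (Γ → G)) f
  rw [hp2, map_zero] at h1
  exact h1.symm

/-- **Integrality of the matrix coefficients** -/
theorem integral_of_algebraic [IsAlgClosed G] (W : Γ →* Matrix m m F) (ρ : Γ →* Matrix n n F)
    [IsDomain (RR W ρ)] (h : Algebra.IsAlgebraic ((coefAlg W 1).comap (RR W ρ).val) (RR W ρ)) (i j : n) :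
    IsIntegral (coefAlg (bc G W) 1) (fun x => bc G ρ x i j) := by
  classical
  obtain ⟨A, hA⟩ : ∃ A, A = coefAlg (bc G W) 1 := ⟨_, rfl⟩
  have hopf : Hopf A := by rw [hA]; exact coefAlg_hopf (bc G W) 1
  have h1 : ∀ p : n × n, ∃ y : Γ → F, y ∈ coefAlg W 1 ∧ y ≠ 0 ∧
      IsIntegral A (bcf F G Γ y * fun x => bc G ρ x p.1 p.2) := by
    intro p
    obtain ⟨y, hy0, hy⟩ := (h.isAlgebraic (ρm W ρ p.1 p.2)).exists_integral_multiple
    refine ⟨((y : RR W ρ) : Γ → F), y.2, ?_, ?_⟩
    · intro h0
      exact hy0 (Subtype.ext (Subtype.ext h0))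
    · let φ : ((coefAlg W 1).comap (RR W ρ).val) →+* A :=
        { toFun := fun a => ⟨bcf F G Γ ((a : RR W ρ) : Γ → F), by
            rw [hA]
            exact bc_mem W _ a.2⟩
          map_one' := by
            apply Subtype.ext
            exact map_one (bcf F G Γ)
          map_mul' := fun a b => by
            apply Subtype.ext
            exact map_mul (bcf F G Γ) _ _
          map_zero' := by
            apply Subtype.ext
            exact map_zero (bcf F G Γ)
          map_add' := fun a b => by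
            apply Subtype.ext
            exact map_add (bcf F G Γ) _ _ }
      have h2 := IsIntegral.map_of_comp_eq φ ((bcf F G Γ).comp ((RR W ρ).val : RR W ρ →+* (Γ → F)))
        (by ext a x; rfl) hy
      have h3 : ((bcf F G Γ).comp ((RR W ρ).val : RR W ρ →+* (Γ → F))) (y • ρm W ρ p.1 p.2) =
          bcf F G Γ ((y : RR W ρ) : Γ → F) * fun x => bc G ρ x p.1 p.2 := by
        funext x
        exact map_mul (algebraMap F G) (((y : RR W ρ) : Γ → F) x) (ρ x p.1 p.2)
      rw [h3] at h2
      exact h2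
  choose y hyA hy0 hy using h1
  obtain ⟨a, ha⟩ : ∃ a : Γ → F, a = ∏ p, y p := ⟨_, rfl⟩
  have haA : a ∈ coefAlg W 1 := by
    rw [ha]
    exact Subalgebra.prod_mem _ fun p _ => hyA p
  have ha0 : a ≠ 0 := by
    intro h0
    have h2 : (∏ p, (⟨y p, coefAlg_le_RR W ρ (hyA p)⟩ : RR W ρ)) = 0 := by
      apply Subtype.ext
      rw [SubmonoidClass.coe_finsetProd]
      exact ha.symm.trans h0
    obtain ⟨p, -, hp⟩ := Finset.prod_eq_zero_iff.mp h2
    exact hy0 p (congrArg Subtype.val hp)
  have hint : ∀ i j, IsIntegral A (bcf F G Γ a * fun x => bc G ρ x i j) := by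
    intro i j
    have h2 : bcf F G Γ a * (fun x => bc G ρ x i j) =
        (bcf F G Γ (∏ p ∈ Finset.univ.erase (i, j), y p)) * (bcf F G Γ (y (i, j)) * fun x => bc G ρ x i j) := by
      rw [← mul_assoc, ← map_mul, ha, Finset.prod_erase_mul _ _ (Finset.mem_univ _)]
    rw [h2]
    refine IsIntegral.mul ?_ (hy (i, j))
    have h3 : bcf F G Γ (∏ p ∈ Finset.univ.erase (i, j), y p) ∈ A := by
      rw [hA]
      exact bc_mem W _ (Subalgebra.prod_mem _ fun p _ => hyA p)
    exact isIntegral_algebraMap (A := Γ → G) (x := (⟨_, h3⟩ : A))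
  let J : Ideal A :=
    { carrier := {b | ∀ i j, IsIntegral A ((b : Γ → G) * fun x => bc G ρ x i j)}
      add_mem' := by
        intro b c hb hc i j
        have h2 : ((b + c : A) : Γ → G) * (fun x => bc G ρ x i j) =
            (b : Γ → G) * (fun x => bc G ρ x i j) + (c : Γ → G) * (fun x => bc G ρ x i j) := by
          rw [← add_mul]
          rfl
        rw [h2]
        exact (hb i j).add (hc i j)
      zero_mem' := by
        intro i j
        have h2 : ((0 : A) : Γ → G) * (fun x => bc G ρ x i j) = 0 := zero_mul _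
        rw [h2]
        exact isIntegral_zero
      smul_mem' := by
        intro c b hb i j
        have h2 : ((c • b : A) : Γ → G) * (fun x => bc G ρ x i j) =
            (c : Γ → G) * ((b : Γ → G) * (fun x => bc G ρ x i j)) := by
          rw [← mul_assoc]
          rfl
        rw [h2]
        exact IsIntegral.mul (isIntegral_algebraMap (A := Γ → G) (x := c)) (hb i j) }
  have hJ : J = ⊤ := by
    refine hopf.ideal_eq_top J ?_ ⟨⟨bcf F G Γ a, by rw [hA]; exact bc_mem W _ haA⟩, hint, ?_⟩
    · intro b hb g hg l j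
      have h2 : ∀ i, IsIntegral A (lt g ((b : Γ → G) * fun x => bc G ρ x i j)) := fun i =>
        isIntegral_lt hopf.comul (hb i j) g
      have h3 : lt g (b : Γ → G) * (fun x => bc G ρ x l j) =
          ∑ i, algebraMap G (Γ → G) (bc G ρ g⁻¹ l i) * lt g ((b : Γ → G) * fun x => bc G ρ x i j) := by
        funext x
        rw [Finset.sum_apply]
        change (b : Γ → G) (g * x) * bc G ρ x l j =
          ∑ i, bc G ρ g⁻¹ l i * ((b : Γ → G) (g * x) * bc G ρ (g * x) i j)
        have h4 : bc G ρ x l j = ∑ i, bc G ρ g⁻¹ l i * bc G ρ (g * x) i j := by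
          rw [← Matrix.mul_apply, ← map_mul, inv_mul_cancel_left]
        rw [h4, Finset.mul_sum]
        exact Finset.sum_congr rfl fun i _ => by ring
      change IsIntegral A (lt g (b : Γ → G) * (fun x => bc G ρ x l j))
      rw [h3]
      refine IsIntegral.sum _ fun i _ => IsIntegral.mul ?_ (h2 i)
      exact isIntegral_algebraMap (A := Γ → G) (x := (algebraMap G A (bc G ρ g⁻¹ l i)))
    · intro h0
      apply ha0
      apply bcf_inj (F := F) (G := G)
      rw [map_zero]
      exact h0
  have h1J : (1 : A) ∈ J := by rw [hJ]; trivial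
  have h2 := h1J i j
  have h3 : ((1 : A) : Γ → G) * (fun x => bc G ρ x i j) = fun x => bc G ρ x i j := one_mul _
  rw [h3] at h2
  rw [← hA]
  exact h2

end Ext

end Pool.Agent.H40LT
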