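import Mathlib
import Pool.Agent.H40LT.Integ

/-!
# Points over the unit element
-/

set_option autoImplicit false
set_option linter.unusedSectionVars false
set_option linter.style.haveILetI false

namespace Pool.Agent.H40LT

open Module Matrix Pool.Agent.H40GO

section

variable {G : Type*} [Field G] {Γ : Type*} [Group Γ] {m n : Type*} [Fintype m] [DecidableEq m] [Fintype n]
  [DecidableEq n] (W : Γ →* Matrix m m G) (ρ : Γ →* Matrix n n G)

/-- the point `y` is over the unit element -/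
def Pt (y : RR W ρ →ₐ[G] G) : Prop := ∀ a (ha : a ∈ coefAlg W 1), y ⟨a, coefAlg_le_RR W ρ ha⟩ = a 1

/-- the matrix of the point `y` -/
def pm (y : RR W ρ →ₐ[G] G) : Matrix n n G := Matrix.of fun i j => y (ρm W ρ i j)

theorem pt_one : Pt W ρ (ev (RR W ρ) 1) := fun _ _ => rfl

theorem pm_one : pm W ρ (ev (RR W ρ) 1) = 1 := by
  have h1 : pm W ρ (ev (RR W ρ) 1) = ρ 1 := by
    ext i j
    rfl
  rw [h1, map_one]

theorem pt_W (y : RR W ρ →ₐ[G] G) (hy : Pt W ρ y) : (y : RR W ρ →+* G).mapMatrix (Wm W ρ) = 1 := by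
  ext i j
  have h1 := hy _ (mem1 W 1 i j)
  change y (Wm W ρ i j) = _
  refine h1.trans ?_
  rw [map_one]

/-- an element of a ring which is the inverse of an element of `B` and integral over `B` is in `B` -/
theorem inv_mem_of_integral {S : Type*} [CommRing S] [Algebra G S] {A B : Subalgebra G S} (hAB : A ≤ B) (u v : S)
    (huv : u * v = 1) (hu : u ∈ B) (hv : IsIntegral A v) : v ∈ B := by
  obtain ⟨p, hp, hpv⟩ := hv
  rw [Polynomial.eval₂_eq_sum_range, Finset.sum_range_succ, hp.coeff_natDegree, map_one, one_mul] at hpv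
  rcases Nat.eq_zero_or_pos p.natDegree with hd | hd
  · rw [hd] at hpv
    have h1 : (1 : S) = 0 := by simpa using hpv
    have h2 : v = 0 := by rw [← one_mul v, h1, zero_mul]
    rw [h2]
    exact B.zero_mem
  · obtain ⟨d, hd'⟩ := Nat.exists_eq_succ_of_ne_zero hd.ne'
    rw [hd'] at hpv
    have h1 : v = -∑ i ∈ Finset.range (d + 1), algebraMap A S (p.coeff i) * u ^ (d - i) := by
      have h2 : ∀ i ∈ Finset.range (d + 1), algebraMap A S (p.coeff i) * v ^ i * u ^ d =
          algebraMap A S (p.coeff i) * u ^ (d - i) := by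
        intro i hi
        have h3 : u ^ d = u ^ i * u ^ (d - i) := by
          rw [← pow_add]
          congr 1
          have := Finset.mem_range.mp hi
          omega
        rw [h3, mul_assoc, ← mul_assoc (v ^ i), ← mul_pow, mul_comm v u, huv, one_pow, one_mul]
      have h4 : v ^ (d + 1) * u ^ d = v := by
        rw [pow_succ, mul_comm (v ^ d), mul_assoc, ← mul_pow, mul_comm v u, huv, one_pow, mul_one]
      have h5 := congrArg (fun z => z * u ^ d) hpv
      simp only [add_mul, zero_mul, Finset.sum_mul] at h5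
      rw [Finset.sum_congr rfl h2] at h5
      have h6 : v ^ d.succ * u ^ d = v := h4
      rw [h6] at h5
      exact eq_neg_of_add_eq_zero_right h5
    rw [h1]
    refine B.neg_mem (B.sum_mem fun i _ => B.mul_mem ?_ (B.pow_mem hu _))
    exact hAB (p.coeff i).2

/-- if the matrix coefficients are integral then the inverses are in the algebra generated by the coefficients -/
theorem RR_le (hint : ∀ i j, IsIntegral (coefAlg W 1) (fun x => ρ x i j)) (B : Subalgebra G (Γ → G))
    (hAB : coefAlg W 1 ≤ B) (hρB : ∀ i j, (fun x => ρ x i j) ∈ B) : RR W ρ ≤ B := by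
  have hdet : (fun x => (ρ x).det) ∈ B := by
    have h1 : (fun x => (ρ x).det) = (((matA B ρ hρB).det : B) : Γ → G) := by
      funext x
      have h2 := RingHom.map_det ((ev B x : B →ₐ[G] G) : B →+* G) (matA B ρ hρB)
      rw [matA_ev] at h2
      exact h2.symm
    rw [h1]
    exact Subtype.prop _
  have hint' : ∀ i j, IsIntegral (coefAlg W 1) (fun x => ρ x⁻¹ i j) := by
    intro i j
    obtain ⟨p, hp1, hp2⟩ := hint i j
    let s : coefAlg W 1 →+* coefAlg W 1 :=
      { toFun := fun a => ⟨iv (a : Γ → G), (coefAlg_hopf W 1).inv a a.2⟩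
        map_one' := rfl
        map_mul' := fun _ _ => rfl
        map_zero' := rfl
        map_add' := fun _ _ => rfl }
    refine ⟨p.map s, hp1.map s, ?_⟩
    rw [Polynomial.eval₂_map]
    have h1 := Polynomial.hom_eval₂ p (algebraMap (coefAlg W 1) (Γ → G))
      ((iv : (Γ → G) →ₐ[G] (Γ → G)) : (Γ → G) →+* (Γ → G)) (fun x => ρ x i j)
    rw [hp2, map_zero] at h1
    exact h1.symm
  have hdet' : IsIntegral (coefAlg W 1) (fun x => (ρ x⁻¹).det) := by
    have h1 : (fun x => (ρ x⁻¹).det) = (Matrix.of fun i j => (fun x : Γ => ρ x⁻¹ i j)).det := by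
      funext x
      have h2 := RingHom.map_det (Pi.evalRingHom (fun _ : Γ => G) x) (Matrix.of fun i j => (fun x : Γ => ρ x⁻¹ i j))
      exact h2.symm
    rw [h1]
    exact IsIntegral.det fun i j => hint' i j
  have hdB : (fun x => (ρ x⁻¹).det) ∈ B := by
    refine inv_mem_of_integral hAB (fun x => (ρ x).det) _ ?_ hdet hdet'
    funext x
    change (ρ x).det * (ρ x⁻¹).det = 1
    rw [← Matrix.det_mul, ← map_mul, mul_inv_cancel, map_one, Matrix.det_one]
  have hinvB : ∀ i j, (fun x => ρ x⁻¹ i j) ∈ B := by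
    intro i j
    have h1 : (fun x => ρ x⁻¹ i j) = (fun x => (ρ x⁻¹).det) * (((matA B ρ hρB).adjugate i j : B) : Γ → G) := by
      funext x
      have h2 := RingHom.map_adjugate ((ev B x : B →ₐ[G] G) : B →+* G) (matA B ρ hρB)
      rw [matA_ev] at h2
      have h3 : (((matA B ρ hρB).adjugate i j : B) : Γ → G) x = (ρ x).adjugate i j := congrFun (congrFun h2 i) j
      rw [Pi.mul_apply, h3]
      have h4 : ρ x⁻¹ = (ρ x⁻¹).det • (ρ x).adjugate := by
        have h5 : ρ x⁻¹ * ρ x = 1 := by rw [← map_mul, inv_mul_cancel, map_one]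
        calc ρ x⁻¹ = ((ρ x⁻¹).det * (ρ x).det) • ρ x⁻¹ := by
              rw [← Matrix.det_mul, h5, Matrix.det_one, one_smul]
          _ = (ρ x⁻¹).det • (ρ x⁻¹ * (ρ x * (ρ x).adjugate)) := by
              rw [Matrix.mul_adjugate, Matrix.mul_smul, mul_one, smul_smul]
          _ = _ := by rw [← mul_assoc, h5, one_mul]
      exact congrFun (congrFun h4 i) j
    rw [h1]
    exact B.mul_mem hdB (Subtype.prop _)
  refine Algebra.adjoin_le ?_
  rintro s ((⟨⟨i, j⟩, rfl⟩ | ⟨⟨i, j⟩, rfl⟩) | (rfl | rfl))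
  · rcases i with i | i <;> rcases j with j | j
    · exact hAB (mem1 W 1 i j)
    · exact B.zero_mem
    · exact B.zero_mem
    · exact hρB i j
  · rcases i with i | i <;> rcases j with j | j
    · exact hAB (mem2 W 1 i j)
    · exact B.zero_mem
    · exact B.zero_mem
    · exact hinvB i j
  · exact B.one_mem
  · exact B.one_mem

/-- the entries of the matrices of points are in finite sets -/
theorem pts_finite (hint : ∀ i j, IsIntegral (coefAlg W 1) (fun x => ρ x i j)) :
    ∃ T : n → n → Finset G, ∀ y, Pt W ρ y → ∀ i j, pm W ρ y i j ∈ T i j := by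
  classical
  have hroots : ∀ i j, ∃ T : Finset G, ∀ z : RR W ρ →ₐ[G] G, Pt W ρ z → z (ρm W ρ i j) ∈ T := by
    intro i j
    obtain ⟨p, hp1, hp2⟩ := hint i j
    let ev1 : coefAlg W 1 →+* G := (ev (coefAlg W 1) 1 : coefAlg W 1 →+* G)
    have hpm : (p.map ev1) ≠ 0 := (hp1.map ev1).ne_zero
    refine ⟨(p.map ev1).roots.toFinset, fun z hz => ?_⟩
    rw [Multiset.mem_toFinset, Polynomial.mem_roots hpm, Polynomial.IsRoot.def, Polynomial.eval_map]
    let incl : coefAlg W 1 →+* RR W ρ := (Subalgebra.inclusion (coefAlg_le_RR W ρ) : coefAlg W 1 →ₐ[G] RR W ρ)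
    have h1 : Polynomial.eval₂ incl (ρm W ρ i j) p = 0 := by
      apply Subtype.ext
      have h2 := Polynomial.hom_eval₂ p incl ((RR W ρ).val : RR W ρ →+* (Γ → G)) (ρm W ρ i j)
      have h3 : ((RR W ρ).val : RR W ρ →+* (Γ → G)).comp incl = algebraMap (coefAlg W 1) (Γ → G) := rfl
      rw [h3] at h2
      exact h2.trans hp2
    have h4 := Polynomial.hom_eval₂ p incl (z : RR W ρ →+* G) (ρm W ρ i j)
    rw [h1, map_zero] at h4
    have h5 : (z : RR W ρ →+* G).comp incl = ev1 := by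
      ext a
      exact hz a a.2
    rw [h5] at h4
    exact h4.symm
  choose T hT using hroots
  exact ⟨T, fun y hy i j => hT i j y hy⟩

/-- the product of two points -/
theorem pm_mul (y z : RR W ρ →ₐ[G] G) (hy : Pt W ρ y) (hz : Pt W ρ z) :
    ∃ w, Pt W ρ w ∧ pm W ρ w = pm W ρ y * pm W ρ z := by
  have hR := RR_comul W ρ
  refine ⟨conv hR y z, ?_, ?_⟩
  · intro a ha
    rw [conv_apply]
    have h1 : (⟨fun x => z ⟨lt x a, (hR a (coefAlg_le_RR W ρ ha)).lt_mem x⟩,
        conv_mem hR z ⟨a, coefAlg_le_RR W ρ ha⟩⟩ : RR W ρ) = ⟨a, coefAlg_le_RR W ρ ha⟩ := by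
      apply Subtype.ext
      funext x
      have h2 := hz (lt x a) (((coefAlg_hopf W 1).comul a ha).lt_mem x)
      rw [lt_apply, mul_one] at h2
      exact h2
    rw [h1]
    exact hy a ha
  · ext i j
    change conv hR y z (ρm W ρ i j) = _
    rw [conv_apply, Matrix.mul_apply]
    have h1 : (⟨fun x => z ⟨lt x (ρm W ρ i j : Γ → G), (hR _ (ρm W ρ i j).2).lt_mem x⟩,
        conv_mem hR z (ρm W ρ i j)⟩ : RR W ρ) = ∑ k, (z (ρm W ρ k j)) • (ρm W ρ i k) := by
      apply Subtype.ext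
      funext x
      have h2 : (⟨lt x (ρm W ρ i j : Γ → G), (hR _ (ρm W ρ i j).2).lt_mem x⟩ : RR W ρ) =
          ∑ k, (ρ x i k) • ρm W ρ k j := lt_entry ρ (memρ W ρ) x i j _
      change z _ = _
      rw [h2, map_sum]
      simp only [map_smul, smul_eq_mul]
      have h5 : ((∑ k, (z (ρm W ρ k j)) • (ρm W ρ i k) : RR W ρ) : Γ → G) x =
          ∑ k, (z (ρm W ρ k j)) * ρ x i k := by
        rw [AddSubmonoidClass.coe_finsetSum, Finset.sum_apply]
        rfl
      rw [h5]
      exact Finset.sum_congr rfl fun k _ => mul_comm _ _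
    rw [h1, map_sum]
    simp only [map_smul, smul_eq_mul]
    exact Finset.sum_congr rfl fun k _ => mul_comm _ _

/-- the matrix of a point is invertible -/
theorem pm_isUnit (y : RR W ρ →ₐ[G] G) : IsUnit (pm W ρ y) := by
  have h1 : ρm W ρ * matA (RR W ρ) (fun x => ρ x⁻¹) (memρ' W ρ) = 1 := by
    ext i j x
    have h1 : ((ρm W ρ * matA (RR W ρ) (fun x => ρ x⁻¹) (memρ' W ρ)) i j : Γ → G) x = (ρ x * ρ x⁻¹) i j := by
      rw [Matrix.mul_apply, Matrix.mul_apply, AddSubmonoidClass.coe_finsetSum, Finset.sum_apply]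
      rfl
    rw [h1, ← map_mul, mul_inv_cancel, map_one]
    by_cases hij : i = j
    · subst hij; simp
    · simp [Matrix.one_apply_ne hij]
  have h2 := congrArg (y : RR W ρ →+* G).mapMatrix h1
  rw [map_mul, map_one] at h2
  exact IsUnit.of_mul_eq_one _ h2

/-- the matrix of a point has finite order -/
theorem pm_order (hint : ∀ i j, IsIntegral (coefAlg W 1) (fun x => ρ x i j)) (y : RR W ρ →ₐ[G] G) (hy : Pt W ρ y) :
    ∃ e : ℕ, e ≠ 0 ∧ pm W ρ y ^ e = 1 := by
  obtain ⟨T, hT⟩ := pts_finite W ρ hint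
  have hpow : ∀ k : ℕ, ∃ z, Pt W ρ z ∧ pm W ρ z = pm W ρ y ^ k := by
    intro k
    induction k with
    | zero => exact ⟨_, pt_one W ρ, by rw [pm_one, pow_zero]⟩
    | succ k ih =>
      obtain ⟨z, hz, hz'⟩ := ih
      obtain ⟨w, hw, hw'⟩ := pm_mul W ρ z y hz hy
      exact ⟨w, hw, by rw [hw', hz', pow_succ]⟩
  have hfinite : (Set.range fun k : ℕ => pm W ρ y ^ k).Finite := by
    refine (Set.Finite.subset (s := {M : Matrix n n G | ∀ i j, M i j ∈ T i j}) ?_ ?_)
    · exact Set.Finite.pi' (t := fun i => {g : n → G | ∀ j, g j ∈ T i j})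
        fun i => Set.Finite.pi' (t := fun j => (T i j : Set G)) fun j => (T i j).finite_toSet
    · rintro _ ⟨k, rfl⟩
      intro i j
      obtain ⟨z, hz1, hz2⟩ := hpow k
      have h2 := hT z hz1 i j
      rw [hz2] at h2
      exact h2
  have h1 : ¬ Function.Injective (fun k : ℕ => pm W ρ y ^ k) := fun hi =>
    (Set.infinite_range_of_injective hi) hfinite
  obtain ⟨k, l, hkl, hne⟩ : ∃ k l : ℕ, pm W ρ y ^ k = pm W ρ y ^ l ∧ k < l := by
    by_contra hcon
    push Not at hcon
    apply h1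
    intro a b hab
    by_contra hne
    rcases lt_or_gt_of_ne hne with h2 | h2
    · exact absurd (hcon a b hab) (not_le.mpr h2)
    · exact absurd (hcon b a hab.symm) (not_le.mpr h2)
  obtain ⟨d, rfl⟩ := Nat.exists_eq_add_of_lt hne
  refine ⟨d + 1, Nat.succ_ne_zero d, ?_⟩
  have h3 : pm W ρ y ^ k * pm W ρ y ^ (d + 1) = pm W ρ y ^ k * 1 := by
    rw [← pow_add, mul_one, hkl]
    congr 1
  exact ((pm_isUnit W ρ y).pow k).mul_left_cancel h3

/-- conjugates of points -/
theorem pm_conj (φ : Γ →* Γ) (P Q : Matrix n n G) (hρ : ∀ x, ρ (φ x) = P * ρ x * Q)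
    (P' Q' : Matrix m m G) (hW : ∀ x, W (φ x) = P' * W x * Q') (y : RR W ρ →ₐ[G] G) (hy : Pt W ρ y) :
    ∃ z, Pt W ρ z ∧ pm W ρ z = P * pm W ρ y * Q := by
  refine ⟨y.comp (cR (dsum W ρ) φ _ _ (dsum_conj W ρ φ P Q hρ P' Q' hW)), ?_, ?_⟩
  · intro a ha
    have h1 := hy _ (cmp_mem W φ P' Q' hW a ha)
    have h2 : cmp φ a 1 = a 1 := congrArg a (map_one φ)
    rw [h2] at h1
    exact h1
  · have hcρ : (ρm W ρ).map (cR (dsum W ρ) φ _ _ (dsum_conj W ρ φ P Q hρ P' Q' hW)) =
        P.map (algebraMap G (RR W ρ)) * ρm W ρ * Q.map (algebraMap G (RR W ρ)) := by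
      ext i j x
      have h1 : (((P.map (algebraMap G (RR W ρ)) * ρm W ρ * Q.map (algebraMap G (RR W ρ))) i j : RR W ρ) : Γ → G) x =
          (P * ρ x * Q) i j := by
        rw [Matrix.mul_apply, Matrix.mul_apply, AddSubmonoidClass.coe_finsetSum, Finset.sum_apply]
        refine Finset.sum_congr rfl fun l _ => ?_
        rw [Matrix.mul_apply, Matrix.mul_apply]
        have h2 : ∀ a b : RR W ρ, ((a * b : RR W ρ) : Γ → G) x = (a : Γ → G) x * (b : Γ → G) x := fun _ _ => rfl
        rw [h2, AddSubmonoidClass.coe_finsetSum, Finset.sum_apply]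
        rfl
      rw [h1, ← hρ]
      rfl
    have h1 : pm W ρ (y.comp (cR (dsum W ρ) φ _ _ (dsum_conj W ρ φ P Q hρ P' Q' hW))) =
        (y : RR W ρ →+* G).mapMatrix ((ρm W ρ).map (cR (dsum W ρ) φ _ _ (dsum_conj W ρ φ P Q hρ P' Q' hW))) := rfl
    have h2 : ∀ Z : Matrix n n G, (y : RR W ρ →+* G).mapMatrix (Z.map (algebraMap G (RR W ρ))) = Z := by
      intro Z
      ext i j
      exact y.commutes (Z i j)
    rw [h1, hcρ, map_mul, map_mul, h2, h2]
    rfl

/-- on a domain, the matrices of points commute with the representation -/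
theorem pm_comm [IsDomain (RR W ρ)] (hint : ∀ i j, IsIntegral (coefAlg W 1) (fun x => ρ x i j))
    (y : RR W ρ →ₐ[G] G) (hy : Pt W ρ y) (g : Γ) : pm W ρ y * ρ g = ρ g * pm W ρ y := by
  obtain ⟨T, hT⟩ := pts_finite W ρ hint
  have h1 : ∀ i j, ∀ x : Γ, (ρ x⁻¹ * pm W ρ y * ρ x) i j ∈ T i j := by
    intro i j x
    obtain ⟨z, hz, hz'⟩ := pm_conj W ρ (MulAut.conj x⁻¹).toMonoidHom (ρ x⁻¹) (ρ x) (fun z => by
      change ρ (x⁻¹ * z * x⁻¹⁻¹) = _
      rw [map_mul, map_mul, inv_inv]) (W x⁻¹) (W x) (fun z => by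
      change W (x⁻¹ * z * x⁻¹⁻¹) = _
      rw [map_mul, map_mul, inv_inv]) y hy
    rw [← hz']
    exact hT z hz i j
  have h2 : ∀ i j, (fun x => (ρ x⁻¹ * pm W ρ y * ρ x) i j) ∈ RR W ρ := by
    intro i j
    have h3 : (fun x => (ρ x⁻¹ * pm W ρ y * ρ x) i j) =
        ∑ l, ∑ k, (pm W ρ y k l) • ((fun x => ρ x⁻¹ i k) * (fun x => ρ x l j)) := by
      funext x
      rw [Matrix.mul_apply, Finset.sum_apply]
      refine Finset.sum_congr rfl fun l _ => ?_
      rw [Matrix.mul_apply, Finset.sum_apply, Finset.sum_mul]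
      refine Finset.sum_congr rfl fun k _ => ?_
      rw [Pi.smul_apply, smul_eq_mul, Pi.mul_apply]
      ring
    rw [h3]
    exact Subalgebra.sum_mem _ fun l _ => Subalgebra.sum_mem _ fun k _ =>
      Subalgebra.smul_mem _ (Subalgebra.mul_mem _ (memρ' W ρ i k) (memρ W ρ l j)) _
  have h3 : ρ g⁻¹ * pm W ρ y * ρ g = pm W ρ y := by
    ext i j
    have h4 : ∏ t ∈ T i j, ((⟨_, h2 i j⟩ : RR W ρ) - algebraMap G (RR W ρ) t) = 0 := by
      apply Subtype.ext
      funext x
      rw [SubmonoidClass.coe_finsetProd, Finset.prod_apply]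
      refine Finset.prod_eq_zero (h1 i j x) ?_
      exact sub_self _
    obtain ⟨t, -, ht⟩ := Finset.prod_eq_zero_iff.mp h4
    have h5 : ∀ x, (ρ x⁻¹ * pm W ρ y * ρ x) i j = t := by
      intro x
      have h6 := congrFun (congrArg Subtype.val ht) x
      exact sub_eq_zero.mp h6
    have h6 := h5 1
    rw [inv_one, map_one, one_mul, mul_one] at h6
    rw [h5 g, h6]
  calc pm W ρ y * ρ g = (ρ g * ρ g⁻¹) * (pm W ρ y * ρ g) := by
        rw [← map_mul, mul_inv_cancel, map_one, one_mul]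
    _ = ρ g * (ρ g⁻¹ * pm W ρ y * ρ g) := by simp only [mul_assoc]
    _ = _ := by rw [h3]

end

end Pool.Agent.H40LT
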