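import Mathlib
import Pool.Agent.H40LT.Pts
import Pool.Agent.H40GO.Main

/-!
# The points over the unit element are trivial
-/

set_option autoImplicit false
set_option linter.unusedSectionVars false
set_option linter.style.haveILetI false

namespace Pool.Agent.H40LT

open Module Matrix Pool.Agent.H40GO

section Idem

variable {G : Type*} [Field G] [CharZero G] {n : Type*} [Fintype n] [DecidableEq n]

/-- the projection onto the nontrivial eigenspaces of a matrix of finite order -/
theorem idem (h : Matrix n n G) (e : ℕ) (he : e ≠ 0) (h1 : h ^ e = 1) :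
    ∃ f s : Matrix n n G, f = (h - 1) * s ∧ Commute (h - 1) s ∧ f * f = f ∧ f * (h - 1) = h - 1 := by
  have he' : (e : G) ≠ 0 := Nat.cast_ne_zero.mpr he
  obtain ⟨q, hq⟩ : ∃ q : Matrix n n G, q = (e : G)⁻¹ • ∑ i ∈ Finset.range e, h ^ i := ⟨_, rfl⟩
  have hq1 : q * (h - 1) = 0 := by
    rw [hq, Matrix.smul_mul, geom_sum_mul, h1, sub_self, smul_zero]
  have hqh : q * h = q := by
    rw [mul_sub, mul_one] at hq1
    exact sub_eq_zero.mp hq1
  have hqi : ∀ i : ℕ, q * h ^ i = q := by
    intro i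
    induction i with
    | zero => rw [pow_zero, mul_one]
    | succ i ih => rw [pow_succ, ← mul_assoc, ih, hqh]
  have hqq : q * q = q := by
    nth_rw 2 [hq]
    rw [Matrix.mul_smul, Finset.mul_sum, Finset.sum_congr rfl fun i _ => hqi i, Finset.sum_const, Finset.card_range,
      ← Nat.cast_smul_eq_nsmul G, smul_smul, inv_mul_cancel₀ he', one_smul]
  refine ⟨1 - q, -((e : G)⁻¹ • ∑ i ∈ Finset.range e, ∑ j ∈ Finset.range i, h ^ j), ?_, ?_, ?_, ?_⟩
  · rw [mul_neg, Matrix.mul_smul, Finset.mul_sum]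
    have h2 : ∀ i ∈ Finset.range e, (h - 1) * ∑ j ∈ Finset.range i, h ^ j = h ^ i - 1 := fun i _ => mul_geom_sum h i
    rw [Finset.sum_congr rfl h2, Finset.sum_sub_distrib, Finset.sum_const, Finset.card_range, smul_sub, ← hq,
      ← Nat.cast_smul_eq_nsmul G, smul_smul, inv_mul_cancel₀ he', one_smul]
    abel
  · refine Commute.neg_right ?_
    refine Commute.smul_right ?_ _
    refine Commute.sum_right _ _ _ fun i _ => Commute.sum_right _ _ _ fun j _ => ?_
    exact (Commute.sub_left (Commute.pow_right (Commute.refl h) j) (Commute.one_left _))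
  · have h2 : (1 - q) * (1 - q) = 1 - q - q + q * q := by noncomm_ring
    rw [h2, hqq]
    abel
  · rw [sub_mul, hq1, sub_zero, one_mul]

/-- the determinant used in the main argument -/
theorem det_idem_ne (h : Matrix n n G) (f s : Matrix n n G) (hf : f = (h - 1) * s) (hc : Commute (h - 1) s)
    (hff : f * f = f) (m : ℕ) : ((h - 1) ^ m * f + (1 - f)).det ≠ 0 := by
  have hcf : Commute f s := by
    rw [hf]
    exact hc.mul_left (Commute.refl s)
  have hfm : ∀ m : ℕ, f ^ m * f = f := by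
    intro m
    induction m with
    | zero => rw [pow_zero, one_mul]
    | succ m ih => rw [pow_succ, mul_assoc, hff, ih]
  have key : ((h - 1) ^ m * f + (1 - f)) * (s ^ m * f + (1 - f)) = 1 := by
    have h1 : f * (1 - f) = 0 := by rw [mul_sub, mul_one, hff, sub_self]
    have h2 : (1 - f) * f = 0 := by rw [sub_mul, one_mul, hff, sub_self]
    have h3 : (1 - f) * (1 - f) = 1 - f := by rw [sub_mul, one_mul, h1, sub_zero]
    have h4 : (1 - f) * (s ^ m * f) = 0 := by
      have h5 : Commute (1 - f) (s ^ m) := (Commute.sub_left (Commute.one_left _) hcf).pow_right m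
      rw [← mul_assoc, h5.eq, mul_assoc, h2, mul_zero]
    have h5 : (h - 1) ^ m * f * (s ^ m * f) = f := by
      have h6 : f * (s ^ m * f) = s ^ m * f := by
        have h7 : Commute f (s ^ m) := hcf.pow_right m
        rw [← mul_assoc, h7.eq, mul_assoc, hff]
      rw [mul_assoc, h6, ← mul_assoc, ← hc.mul_pow, ← hf, hfm]
    rw [add_mul, mul_add, mul_add, h5, h4, h3, mul_assoc, h1, mul_zero]
    abel
  intro h0
  have h1 := congrArg Matrix.det key
  rw [Matrix.det_mul, h0, zero_mul, Matrix.det_one] at h1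
  exact zero_ne_one h1

end Idem

section Roots

variable {G : Type*} [Field G] [IsAlgClosed G] {n m : Type*} [Fintype n] [DecidableEq n] [Fintype m] [DecidableEq m]

theorem root_pow (M : Matrix n n G) (k : ℕ) (lam : G) (h : (M ^ k).charpoly.IsRoot lam) :
    ∃ μ, M.charpoly.IsRoot μ ∧ μ ^ k = lam := by
  obtain ⟨v, hv0, hv⟩ := (isRoot_iff _ _).1 h
  have h1 : (Polynomial.aeval M (Polynomial.X ^ k - Polynomial.C lam)).det = 0 := by
    rw [← Matrix.exists_mulVec_eq_zero_iff]
    refine ⟨v, hv0, ?_⟩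
    rw [map_sub, map_pow, Polynomial.aeval_X, Polynomial.aeval_C, Matrix.sub_mulVec, hv,
      Algebra.algebraMap_eq_smul_one, Matrix.smul_mulVec, Matrix.one_mulVec, sub_self]
  obtain ⟨μ, h2, h3⟩ := common_root M _ h1
  refine ⟨μ, h2, ?_⟩
  rw [Polynomial.IsRoot.def, Polynomial.eval_sub, Polynomial.eval_pow, Polynomial.eval_X, Polynomial.eval_C] at h3
  exact sub_eq_zero.mp h3

theorem det_aeval_of_root (M : Matrix n n G) (q : Polynomial G) (mu : G) (h1 : M.charpoly.IsRoot mu)
    (h2 : q.IsRoot mu) : (Polynomial.aeval M q).det = 0 := by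
  rw [det_aeval_iff]
  rintro ⟨a, b, hab⟩
  have h3 := congrArg (Polynomial.eval mu) hab
  rw [Polynomial.eval_add, Polynomial.eval_mul, Polynomial.eval_mul, h1.eq_zero, h2.eq_zero, mul_zero, mul_zero,
    add_zero, Polynomial.eval_one] at h3
  exact zero_ne_one h3

/-- **The roots of unity disappear on a connected group.** -/
theorem det_of_pow {Γ : Type*} [Group Γ] (W : Γ →* Matrix m m G) (ρ : Γ →* Matrix n n G) [IsDomain (RR W ρ)]
    (k : ℕ) (hk : k ≠ 0) (h : ∀ x, (Polynomial.aeval (ρ x ^ k) (W x ^ k).charpoly).det = 0) (x : Γ) :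
    (Polynomial.aeval (ρ x) (W x).charpoly).det = 0 := by
  classical
  have hW : ∀ x, ((ev (RR W ρ) x : RR W ρ →ₐ[G] G) : RR W ρ →+* G).mapMatrix (Wm W ρ) = W x := fun x =>
    matA_ev _ W _ x
  have hρ : ∀ x, ((ev (RR W ρ) x : RR W ρ →ₐ[G] G) : RR W ρ →+* G).mapMatrix (ρm W ρ) = ρ x := fun x =>
    matA_ev _ ρ _ x
  let D : G → RR W ρ := fun z => (Polynomial.aeval (ρm W ρ) ((algebraMap G (RR W ρ) z) • Wm W ρ).charpoly).det
  have hD : ∀ z x, (D z : Γ → G) x = (Polynomial.aeval (ρ x) (z • W x).charpoly).det := by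
    intro z x
    have h1 := RingHom.map_det ((ev (RR W ρ) x : RR W ρ →ₐ[G] G) : RR W ρ →+* G)
      (Polynomial.aeval (ρm W ρ) ((algebraMap G (RR W ρ) z) • Wm W ρ).charpoly)
    rw [mapMatrix_aeval, hρ, ← Matrix.charpoly_map] at h1
    have h2 : ((algebraMap G (RR W ρ) z) • Wm W ρ).map ((ev (RR W ρ) x : RR W ρ →ₐ[G] G) : RR W ρ →+* G) =
        z • W x := by
      ext i j
      rfl
    rw [h2] at h1
    exact h1
  have hprod : ∏ z ∈ (Polynomial.nthRoots k (1 : G)).toFinset, D z = 0 := by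
    apply Subtype.ext
    funext y
    rw [SubmonoidClass.coe_finsetProd, Finset.prod_apply]
    obtain ⟨lam, hl1, hl2⟩ := common_root _ _ (h y)
    obtain ⟨μ, hμ, hμk⟩ := root_pow _ _ _ hl1
    obtain ⟨ν, hν, hνk⟩ := root_pow _ _ _ hl2
    obtain ⟨z, hz, hzμ⟩ : ∃ z : G, z ^ k = 1 ∧ μ = z * ν := by
      by_cases h0 : ν = 0
      · refine ⟨1, one_pow k, ?_⟩
        have h1 : μ ^ k = 0 := by rw [hμk, ← hνk, h0, zero_pow hk]
        rw [h0, mul_zero]
        exact eq_zero_of_pow_eq_zero h1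
      · refine ⟨μ / ν, ?_, (div_mul_cancel₀ _ h0).symm⟩
        rw [div_pow, hμk, hνk]
        apply div_self
        rw [← hνk]
        exact pow_ne_zero _ h0
    refine Finset.prod_eq_zero (i := z) ?_ ?_
    · rw [Multiset.mem_toFinset, Polynomial.mem_nthRoots (Nat.pos_of_ne_zero hk)]
      exact hz
    · rw [hD]
      refine det_aeval_of_root _ _ μ hμ ?_
      obtain ⟨v, hv0, hv⟩ := (isRoot_iff _ _).1 hν
      refine (isRoot_iff _ _).2 ⟨v, hv0, ?_⟩
      rw [Matrix.smul_mulVec, hv, smul_smul, hzμ]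
  obtain ⟨z, hz, hDz⟩ := Finset.prod_eq_zero_iff.mp hprod
  have hz1 : z = 1 := by
    have h1 := hD z 1
    rw [hDz, map_one, map_one] at h1
    obtain ⟨lam, hl1, hl2⟩ := common_root _ _ h1.symm
    obtain ⟨v, hv0, hv⟩ := (isRoot_iff _ _).1 hl1
    obtain ⟨u, hu0, hu⟩ := (isRoot_iff _ _).1 hl2
    rw [Matrix.one_mulVec] at hv
    rw [Matrix.smul_mulVec, Matrix.one_mulVec] at hu
    obtain ⟨i, hi⟩ : ∃ i, v i ≠ 0 := by
      by_contra hcon
      push Not at hcon
      exact hv0 (funext hcon)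
    obtain ⟨j, hj⟩ : ∃ j, u j ≠ 0 := by
      by_contra hcon
      push Not at hcon
      exact hu0 (funext hcon)
    have h2 := congrFun hv i
    have h3 := congrFun hu j
    rw [Pi.smul_apply, smul_eq_mul] at h2 h3
    have h4 : lam = 1 := by
      have h5 : (lam - 1) * v i = 0 := by rw [sub_mul, one_mul, ← h2, sub_self]
      rcases mul_eq_zero.mp h5 with h6 | h6
      · exact sub_eq_zero.mp h6
      · exact absurd h6 hi
    rw [h4, Pi.smul_apply, smul_eq_mul] at h3
    exact mul_right_cancel₀ hj h3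
  have h1 := hD z x
  rw [hDz, hz1, one_smul] at h1
  exact h1.symm

end Roots

end Pool.Agent.H40LT
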