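import Mathlib
import Pool.Agent.H40LT.Cent

/-!
# The points over the unit element are trivial, on a connected normal subgroup
-/

set_option autoImplicit false
set_option linter.unusedSectionVars false
set_option linter.style.haveILetI false

namespace Pool.Agent.H40LT

open Module Matrix Pool.Agent.H40GO

theorem commute_aeval {R : Type*} [CommRing R] {n : Type*} [Fintype n] [DecidableEq n] (M h : Matrix n n R)
    (hc : Commute M h) (p : Polynomial R) : Commute (Polynomial.aeval M p) h := by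
  induction p using Polynomial.induction_on' with
  | add p q hp hq => rw [map_add]; exact hp.add_left hq
  | monomial k a =>
    rw [← Polynomial.C_mul_X_pow_eq_monomial, map_mul, map_pow, Polynomial.aeval_X, Polynomial.aeval_C]
    have h1 : Commute (algebraMap R (Matrix n n R) a) h := Algebra.commutes a h
    exact h1.mul_left (hc.pow_left k)

section

variable {F : Type*} [Field F] {G : Type*} [Field G] [Algebra F G] [IsAlgClosed G] [CharZero G] {Γ : Type*} [Group Γ]
  {m n : Type*} [Fintype m] [DecidableEq m] [Fintype n] [DecidableEq n]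

/-- a nonzero vector of functions fixed by all points -/
theorem fixed_fun (W : Γ →* Matrix m m F) (ρ : Γ →* Matrix n n F) [IsDomain (RR (bc G W) (bc G ρ))]
    (hint : ∀ i j, IsIntegral (coefAlg (bc G W) 1) (fun x => bc G ρ x i j)) (k : ℕ) (hk : k ≠ 0)
    (h : ∀ x, (Polynomial.aeval (bc G ρ x ^ k) (bc G W x ^ k).charpoly).det = 0) :
    ∃ v : n → F, v ≠ 0 ∧ ∀ y, Pt (bc G W) (bc G ρ) y →
      pm (bc G W) (bc G ρ) y *ᵥ (fun i => algebraMap F G (v i)) = fun i => algebraMap F G (v i) := by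
  have hdom : IsDomain (RR W ρ) := domain_of_bc (G := G) W ρ
  have h1 := det_of_pow (bc G W) (bc G ρ) k hk h
  have hW : ∀ x, ((ev (RR W ρ) x : RR W ρ →ₐ[F] F) : RR W ρ →+* F).mapMatrix (Wm W ρ) = W x := fun x =>
    matA_ev _ W _ x
  have hρ : ∀ x, ((ev (RR W ρ) x : RR W ρ →ₐ[F] F) : RR W ρ →+* F).mapMatrix (ρm W ρ) = ρ x := fun x =>
    matA_ev _ ρ _ x
  have hWG : ∀ x, ((ev (RR (bc G W) (bc G ρ)) x : RR (bc G W) (bc G ρ) →ₐ[G] G) :
      RR (bc G W) (bc G ρ) →+* G).mapMatrix (Wm (bc G W) (bc G ρ)) = bc G W x := fun x =>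
    matA_ev _ (bc G W) _ x
  have hρG : ∀ x, ((ev (RR (bc G W) (bc G ρ)) x : RR (bc G W) (bc G ρ) →ₐ[G] G) :
      RR (bc G W) (bc G ρ) →+* G).mapMatrix (ρm (bc G W) (bc G ρ)) = bc G ρ x := fun x =>
    matA_ev _ (bc G ρ) _ x
  -- the matrix over `F`
  obtain ⟨Q, hQ⟩ : ∃ Q, Q = Polynomial.aeval (ρm W ρ) (Wm W ρ).charpoly := ⟨_, rfl⟩
  have hQx : ∀ x, ((ev (RR W ρ) x : RR W ρ →ₐ[F] F) : RR W ρ →+* F).mapMatrix Q =
      Polynomial.aeval (ρ x) (W x).charpoly := by
    intro x
    have h2 := mapMatrix_aeval ((ev (RR W ρ) x : RR W ρ →ₐ[F] F) : RR W ρ →+* F) (ρm W ρ) (Wm W ρ).charpoly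
    rw [hρ, ← Matrix.charpoly_map] at h2
    rw [hQ, h2, ← hW x]
    rfl
  have hbcx : ∀ x, (algebraMap F G).mapMatrix (Polynomial.aeval (ρ x) (W x).charpoly) =
      Polynomial.aeval (bc G ρ x) (bc G W x).charpoly := by
    intro x
    rw [mapMatrix_aeval, ← Matrix.charpoly_map]
    rfl
  have hQdet : Q.det = 0 := by
    apply Subtype.ext
    funext x
    have h2 := RingHom.map_det ((ev (RR W ρ) x : RR W ρ →ₐ[F] F) : RR W ρ →+* F) Q
    rw [hQx] at h2
    have h3 : (Polynomial.aeval (ρ x) (W x).charpoly).det = 0 := by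
      apply (algebraMap F G).injective
      rw [RingHom.map_det, hbcx, h1, map_zero]
    rw [h3] at h2
    exact h2
  obtain ⟨w, hw0, hw⟩ := Matrix.exists_mulVec_eq_zero_iff.mpr hQdet
  obtain ⟨i₀, hi₀⟩ : ∃ i, w i ≠ 0 := by
    by_contra hcon
    push Not at hcon
    exact hw0 (funext hcon)
  obtain ⟨x₀, hx₀⟩ : ∃ x, (w i₀ : Γ → F) x ≠ 0 := by
    by_contra hcon
    push Not at hcon
    exact hi₀ (Subtype.ext (funext hcon))
  refine ⟨fun i => (w i : Γ → F) x₀, fun h0 => hx₀ (congrFun h0 i₀), ?_⟩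
  intro y hy
  obtain ⟨H, hH⟩ : ∃ H, H = pm (bc G W) (bc G ρ) y := ⟨_, rfl⟩
  rw [← hH]
  obtain ⟨e, he, hHe⟩ := pm_order (bc G W) (bc G ρ) hint y hy
  rw [← hH] at hHe
  obtain ⟨f, s, hf, hc, hff, hfh⟩ := idem H e he hHe
  -- over `G`
  have hmem : ∀ i, bcf F G Γ (w i : Γ → F) ∈ RR (bc G W) (bc G ρ) := by
    intro i
    have h2 := bc_mem (G := G) (dsum W ρ) _ (w i).2
    rw [dsum_bc] at h2
    exact h2
  obtain ⟨wR, hwR⟩ : ∃ wR : n → RR (bc G W) (bc G ρ), ∀ i x, (wR i : Γ → G) x = algebraMap F G ((w i : Γ → F) x) :=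
    ⟨fun i => ⟨_, hmem i⟩, fun i x => rfl⟩
  obtain ⟨Q', hQ'⟩ : ∃ Q', Q' = Polynomial.aeval (ρm (bc G W) (bc G ρ)) (Wm (bc G W) (bc G ρ)).charpoly := ⟨_, rfl⟩
  have hevmul : ∀ (x : Γ) (M : Matrix n n (RR (bc G W) (bc G ρ))) (v : n → RR (bc G W) (bc G ρ)) (i : n),
      ((M *ᵥ v) i : Γ → G) x = (((ev (RR (bc G W) (bc G ρ)) x : RR (bc G W) (bc G ρ) →ₐ[G] G) :
      RR (bc G W) (bc G ρ) →+* G).mapMatrix M *ᵥ fun i => (v i : Γ → G) x) i := by
    intro x M v i
    rw [Matrix.mulVec, Matrix.mulVec, dotProduct, dotProduct, AddSubmonoidClass.coe_finsetSum, Finset.sum_apply]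
    rfl
  have hevmulF : ∀ (x : Γ) (M : Matrix n n (RR W ρ)) (v : n → RR W ρ) (i : n),
      ((M *ᵥ v) i : Γ → F) x = (((ev (RR W ρ) x : RR W ρ →ₐ[F] F) :
      RR W ρ →+* F).mapMatrix M *ᵥ fun i => (v i : Γ → F) x) i := by
    intro x M v i
    rw [Matrix.mulVec, Matrix.mulVec, dotProduct, dotProduct, AddSubmonoidClass.coe_finsetSum, Finset.sum_apply]
    rfl
  have hQw : Q' *ᵥ wR = 0 := by
    funext i
    apply Subtype.ext
    funext x
    rw [hevmul]
    have h2 : ((ev (RR (bc G W) (bc G ρ)) x : RR (bc G W) (bc G ρ) →ₐ[G] G) :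
      RR (bc G W) (bc G ρ) →+* G).mapMatrix Q' = (algebraMap F G).mapMatrix (Polynomial.aeval (ρ x) (W x).charpoly) := by
      have h3 := mapMatrix_aeval ((ev (RR (bc G W) (bc G ρ)) x : RR (bc G W) (bc G ρ) →ₐ[G] G) :
        RR (bc G W) (bc G ρ) →+* G) (ρm (bc G W) (bc G ρ)) (Wm (bc G W) (bc G ρ)).charpoly
      rw [hρG, ← Matrix.charpoly_map] at h3
      rw [hQ', h3, hbcx, ← hWG x]
      rfl
    have h3 : (fun i => (wR i : Γ → G) x) = fun i => algebraMap F G ((w i : Γ → F) x) := by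
      funext i
      exact hwR i x
    rw [h2, h3]
    have h4 : ((algebraMap F G).mapMatrix (Polynomial.aeval (ρ x) (W x).charpoly) *ᵥ
        fun i => algebraMap F G ((w i : Γ → F) x)) i =
        algebraMap F G ((Polynomial.aeval (ρ x) (W x).charpoly *ᵥ fun i => (w i : Γ → F) x) i) := by
      rw [Matrix.mulVec, Matrix.mulVec, dotProduct, dotProduct, map_sum]
      exact Finset.sum_congr rfl fun j _ => (map_mul (algebraMap F G) _ _).symm
    rw [h4, ← hQx, ← hevmulF, hw]
    exact map_zero _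
  -- constants
  obtain ⟨C, hC⟩ : ∃ C : Matrix n n G →+* Matrix n n (RR (bc G W) (bc G ρ)),
      C = (algebraMap G (RR (bc G W) (bc G ρ))).mapMatrix := ⟨_, rfl⟩
  have hCx : ∀ (x : Γ) (M : Matrix n n G), ((ev (RR (bc G W) (bc G ρ)) x : RR (bc G W) (bc G ρ) →ₐ[G] G) :
      RR (bc G W) (bc G ρ) →+* G).mapMatrix (C M) = M := by
    intro x M
    rw [hC]
    ext i j
    rfl
  have hcom : Commute (ρm (bc G W) (bc G ρ)) (C H) := by
    have key : ∀ x, ((ev (RR (bc G W) (bc G ρ)) x : RR (bc G W) (bc G ρ) →ₐ[G] G) :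
      RR (bc G W) (bc G ρ) →+* G).mapMatrix (ρm (bc G W) (bc G ρ) * C H) =
      ((ev (RR (bc G W) (bc G ρ)) x : RR (bc G W) (bc G ρ) →ₐ[G] G) :
      RR (bc G W) (bc G ρ) →+* G).mapMatrix (C H * ρm (bc G W) (bc G ρ)) := by
      intro x
      rw [map_mul, map_mul, hCx, hρG, hH]
      exact (pm_comm (bc G W) (bc G ρ) hint y hy x).symm
    ext i j x
    exact congrFun (congrFun (key x) i) j
  have hcomQ : Commute Q' (C H) := by
    rw [hQ']
    exact commute_aeval _ _ hcom _
  obtain ⟨w', hw'⟩ : ∃ w' : n → RR (bc G W) (bc G ρ), w' = C (H - 1) *ᵥ wR := ⟨_, rfl⟩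
  have hw'0 : w' = 0 := by
    by_contra hne
    have h2 : Q' *ᵥ w' = 0 := by
      have h3 : Commute Q' (C (H - 1)) := by
        rw [map_sub, map_one]
        exact hcomQ.sub_right (Commute.one_right _)
      rw [hw', Matrix.mulVec_mulVec, h3.eq, ← Matrix.mulVec_mulVec, hQw, Matrix.mulVec_zero]
    have h3 : C f *ᵥ w' = w' := by
      rw [hw', Matrix.mulVec_mulVec, ← map_mul, hfh]
    have h4 : (Q' * C f + (1 - C f)) *ᵥ w' = 0 := by
      rw [Matrix.add_mulVec, ← Matrix.mulVec_mulVec, h3, h2, Matrix.sub_mulVec, h3, Matrix.one_mulVec, sub_self,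
        add_zero]
    have h5 : (Q' * C f + (1 - C f)).det = 0 := Matrix.exists_mulVec_eq_zero_iff.mp ⟨w', hne, h4⟩
    have h6 := congrArg y h5
    have h7 := RingHom.map_det (y : RR (bc G W) (bc G ρ) →+* G) (Q' * C f + (1 - C f))
    have h8 : (y : RR (bc G W) (bc G ρ) →+* G).mapMatrix (Q' * C f + (1 - C f)) =
        (H - 1) ^ Fintype.card m * f + (1 - f) := by
      have h9 : ∀ M : Matrix n n G, (y : RR (bc G W) (bc G ρ) →+* G).mapMatrix (C M) = M := by
        intro M
        rw [hC]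
        ext i j
        exact y.commutes (M i j)
      have h10 : (y : RR (bc G W) (bc G ρ) →+* G).mapMatrix Q' = (H - 1) ^ Fintype.card m := by
        have h11 : (y : RR (bc G W) (bc G ρ) →+* G).mapMatrix (Wm (bc G W) (bc G ρ)) = 1 :=
          pt_W (bc G W) (bc G ρ) y hy
        have h12 : (y : RR (bc G W) (bc G ρ) →+* G).mapMatrix (ρm (bc G W) (bc G ρ)) = H := by
          rw [hH]
          rfl
        have h13 : (Wm (bc G W) (bc G ρ)).map (y : RR (bc G W) (bc G ρ) →+* G) = 1 := h11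
        rw [hQ', mapMatrix_aeval, h12, ← Matrix.charpoly_map, h13, Matrix.charpoly_one, map_pow, map_sub,
          Polynomial.aeval_X, map_one]
      rw [map_add, map_mul, map_sub, map_one, h9, h10]
    rw [h8] at h7
    rw [map_zero] at h6
    exact det_idem_ne H f s hf hc hff _ (h7.symm.trans h6)
  have h2 : ∀ i, ((C (H - 1) *ᵥ wR) i : Γ → G) x₀ = 0 := by
    intro i
    rw [← hw', hw'0]
    rfl
  have h3 : (H - 1) *ᵥ (fun i => algebraMap F G ((w i : Γ → F) x₀)) = 0 := by
    funext i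
    have h4 := h2 i
    rw [hevmul, hCx] at h4
    have h5 : (fun i => (wR i : Γ → G) x₀) = fun i => algebraMap F G ((w i : Γ → F) x₀) := by
      funext i
      exact hwR i x₀
    rw [h5] at h4
    exact h4
  rw [Matrix.sub_mulVec, Matrix.one_mulVec] at h3
  exact sub_eq_zero.mp h3

/-- **The points are trivial.** -/
theorem pm_eq_one (Δ : Subgroup Γ) [hΔ : Δ.Normal] (W : Γ →* Matrix m m F) (ρ : Γ →* Matrix n n F) (hirr : Irr ρ)
    [IsDomain (RR (bc G (W.comp Δ.subtype)) (bc G (ρ.comp Δ.subtype)))]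
    (hint : ∀ i j, IsIntegral (coefAlg (bc G (W.comp Δ.subtype)) 1) (fun x => bc G (ρ.comp Δ.subtype) x i j))
    (k : ℕ) (hk : k ≠ 0)
    (h : ∀ x ∈ Δ, (Polynomial.aeval (bc G ρ x ^ k) (bc G W x ^ k).charpoly).det = 0)
    (y : RR (bc G (W.comp Δ.subtype)) (bc G (ρ.comp Δ.subtype)) →ₐ[G] G)
    (hy : Pt (bc G (W.comp Δ.subtype)) (bc G (ρ.comp Δ.subtype)) y) :
    pm (bc G (W.comp Δ.subtype)) (bc G (ρ.comp Δ.subtype)) y = 1 := by
  obtain ⟨v, hv0, hv⟩ := fixed_fun (G := G) (W.comp Δ.subtype) (ρ.comp Δ.subtype) hint k hk fun x => h x x.2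
  let U : Submodule F (n → F) :=
    { carrier := {u | ∀ y, Pt (bc G (W.comp Δ.subtype)) (bc G (ρ.comp Δ.subtype)) y →
        pm (bc G (W.comp Δ.subtype)) (bc G (ρ.comp Δ.subtype)) y *ᵥ (fun i => algebraMap F G (u i)) =
          fun i => algebraMap F G (u i)}
      add_mem' := by
        intro a b ha hb y hy
        have h1 : (fun i => algebraMap F G ((a + b) i)) = (fun i => algebraMap F G (a i)) +
            fun i => algebraMap F G (b i) := by
          funext i
          exact map_add _ _ _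
        rw [h1, Matrix.mulVec_add, ha y hy, hb y hy]
      zero_mem' := by
        intro y hy
        have h1 : (fun i : n => algebraMap F G ((0 : n → F) i)) = 0 := by
          funext i
          exact map_zero _
        rw [h1, Matrix.mulVec_zero]
      smul_mem' := by
        intro c a ha y hy
        have h1 : (fun i => algebraMap F G ((c • a) i)) = algebraMap F G c • fun i => algebraMap F G (a i) := by
          funext i
          exact map_mul _ _ _
        rw [h1, Matrix.mulVec_smul, ha y hy] }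
  have hU : U = ⊤ := by
    rcases hirr.2 U (by
      intro g u hu y hy
      obtain ⟨z, hz, hz'⟩ := pm_conj (bc G (W.comp Δ.subtype)) (bc G (ρ.comp Δ.subtype))
        (MulAut.conjNormal g⁻¹ : Δ ≃* Δ).toMonoidHom (bc G ρ g⁻¹) (bc G ρ g) (by
          intro x
          change bc G ρ ((MulAut.conjNormal g⁻¹ x : Δ) : Γ) = _
          rw [MulAut.conjNormal_apply, inv_inv, map_mul, map_mul]
          rfl) (bc G W g⁻¹) (bc G W g) (by
          intro x
          change bc G W ((MulAut.conjNormal g⁻¹ x : Δ) : Γ) = _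
          rw [MulAut.conjNormal_apply, inv_inv, map_mul, map_mul]
          rfl) y hy
      have h1 := hu z hz
      rw [hz'] at h1
      have h2 : (fun i => algebraMap F G ((ρ g *ᵥ u) i)) = bc G ρ g *ᵥ fun i => algebraMap F G (u i) := by
        funext i
        rw [Matrix.mulVec, Matrix.mulVec, dotProduct, dotProduct, map_sum]
        exact Finset.sum_congr rfl fun j _ => map_mul _ _ _
      rw [h2]
      have h3 : bc G ρ g * bc G ρ g⁻¹ = 1 := by rw [← map_mul, mul_inv_cancel, map_one]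
      have h4 := congrArg (fun z => bc G ρ g *ᵥ z) h1
      simp only [Matrix.mulVec_mulVec] at h4
      rw [← mul_assoc, ← mul_assoc, h3, one_mul] at h4
      rw [Matrix.mulVec_mulVec]
      exact h4) with h1 | h1
    · exfalso
      have h2 : v ∈ U := hv
      rw [h1] at h2
      exact hv0 h2
    · exact h1
  ext i j
  have h1 : (Pi.single j 1 : n → F) ∈ U := by rw [hU]; trivial
  have h2 := congrFun (h1 y hy) i
  have h3 : (fun i => algebraMap F G ((Pi.single j 1 : n → F) i)) = Pi.single j 1 := by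
    funext l
    by_cases hl : l = j
    · subst hl
      simp
    · simp [Pi.single_eq_of_ne hl]
  have h4 := congrFun h3 i
  have h5 : (pm (bc G (W.comp Δ.subtype)) (bc G (ρ.comp Δ.subtype)) y *ᵥ (Pi.single j 1)) i = (Pi.single j 1 : n → G) i := by
    rw [← h3]
    exact h2
  rw [Matrix.mulVec_single_one] at h5
  rw [Matrix.one_apply, ← Pi.single_apply]
  exact h5

end

end Pool.Agent.H40LT
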