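import Mathlib
import Pool.Agent.H40LT.Cent2
import Pool.Agent.H40GO.Dim2

/-!
# The main algebraic theorem: more than a third of the eigenvalues
-/

set_option autoImplicit false
set_option linter.unusedSectionVars false
set_option linter.style.haveILetI false

namespace Pool.Agent.H40LT

open Module Matrix Pool.Agent.H40GO

section

variable {F : Type*} [Field F] [CharZero F] {G : Type*} [Field G] [Algebra F G] [IsAlgClosed G]
  {Γ : Type*} [Group Γ] {m n : Type*} [Fintype m] [DecidableEq m] [Fintype n] [DecidableEq n]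

theorem mz_det {S : Type*} [CommRing S] (M : Matrix n n S) {N : ℕ} (hN : 0 < N) (h : MZ N M) : M.det = 0 := by
  rw [Matrix.det_eq_sign_charpoly_coeff, h 0 hN, mul_zero]

/-- **Main algebraic theorem.** If for all `x` at least `N` eigenvalues of `ρ x ^ k`, with `3 N > n`, are eigenvalues
of `W x ^ k`, then the matrix coefficients of `ρ` on a subgroup of finite index are polynomials in those of `W`. -/
theorem core [TopologicalSpace Γ] [IsTopologicalGroup Γ] (W : Γ →* Matrix m m F) (ρ : Γ →* Matrix n n F)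
    (hirr : Irr ρ) (N k : ℕ) (hk : k ≠ 0) (hN : Fintype.card n < 3 * N)
    (h : ∀ x, MZ N (Polynomial.aeval (ρ x ^ k) (W x ^ k).charpoly)) :
    ∃ Δ : Subgroup Γ, Δ.Normal ∧ Δ.FiniteIndex ∧
      (∀ i j, (fun x => bc G (ρ.comp Δ.subtype) x i j) ∈ coefAlg (bc G (W.comp Δ.subtype)) 1) ∧
      ((∀ s ∈ coefAlg (bc G (dsum W ρ)) 1, IsOpen {x | s x ≠ 0}) → IsOpen (Δ : Set Γ)) := by
  haveI : CharZero G := charZero_of_injective_algebraMap (algebraMap F G).injective
  have hopf := coefAlg_hopf (bc G (dsum W ρ)) 1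
  obtain ⟨Δ, hΔ1, hΔ2, hΔ3, hΔ4⟩ := exists_conn hopf.comul hopf.fg
  refine ⟨Δ, hΔ1, hΔ2, ?_, hΔ4⟩
  have hN0 : 0 < N := by omega
  have hdom : IsDomain (RR (bc G (W.comp Δ.subtype)) (bc G (ρ.comp Δ.subtype))) := by
    have h1 := res_domain (bc G (dsum W ρ)) Δ hΔ3
    have h2 : (bc G (dsum W ρ)).comp Δ.subtype = dsum (bc G (W.comp Δ.subtype)) (bc G (ρ.comp Δ.subtype)) := by
      rw [← dsum_bc]
      rfl
    rw [h2] at h1
    exact h1
  have hdomF : IsDomain (RR (W.comp Δ.subtype) (ρ.comp Δ.subtype)) := domain_of_bc (G := G) _ _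
  have htan := tan_eq_zero Δ W ρ hirr N k hk hN fun x _ => h x
  have halg := algebraic_of_tan (W.comp Δ.subtype) (ρ.comp Δ.subtype) htan
  have hint := integral_of_algebraic (G := G) (W.comp Δ.subtype) (ρ.comp Δ.subtype) halg
  have hone := pm_eq_one (G := G) Δ W ρ hirr hint k hk (by
    intro x _
    have h1 := (h x).map (algebraMap F G)
    have h2 : (Polynomial.aeval (ρ x ^ k) (W x ^ k).charpoly).map (algebraMap F G) =
        Polynomial.aeval (bc G ρ x ^ k) (bc G W x ^ k).charpoly := by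
      have h3 := mapMatrix_aeval (algebraMap F G) (ρ x ^ k) (W x ^ k).charpoly
      rw [← Matrix.charpoly_map, map_pow] at h3
      have h4 : (W x ^ k).map (algebraMap F G) = bc G W x ^ k := by
        have h5 : (W x ^ k).map (algebraMap F G) = (algebraMap F G).mapMatrix (W x ^ k) := rfl
        rw [h5, map_pow]
        rfl
      rw [h4] at h3
      exact h3
    rw [h2] at h1
    exact mz_det _ hN0 h1)
  refine coeff_mem (coefAlg_hopf _ 1) (bc G (ρ.comp Δ.subtype)) hint ?_
  intro B hAB hρB y hy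
  have hle := RR_le (bc G (W.comp Δ.subtype)) (bc G (ρ.comp Δ.subtype)) hint B hAB hρB
  have h1 := hone (y.comp (Subalgebra.inclusion hle)) (fun a ha => hy a ha)
  have h2 : (Matrix.of fun i j => y ⟨fun x => bc G (ρ.comp Δ.subtype) x i j, hρB i j⟩) =
      pm (bc G (W.comp Δ.subtype)) (bc G (ρ.comp Δ.subtype)) (y.comp (Subalgebra.inclusion hle)) := rfl
  rw [h2, h1, sub_self]
  exact IsNilpotent.zero

end

end Pool.Agent.H40LT
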