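import Mathlib
import Pool.Agent.H40LT.Core

/-!
# From a subgroup of finite index to the group: Artin representations
-/

set_option autoImplicit false
set_option linter.unusedSectionVars false
set_option linter.style.haveILetI false

namespace Pool.Agent.H40LT

open Module Matrix Pool.Agent.H40GO

section

variable {F : Type*} [Field F] {G : Type*} [Field G] [Algebra F G]
  {Γ : Type*} [Group Γ] {m n : Type*} [Fintype m] [DecidableEq m] [Fintype n] [DecidableEq n]

open scoped Classical in
/-- the permutation representation on the cosets -/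
noncomputable def permRep (F : Type*) [Field F] (Δ : Subgroup Γ) {d : ℕ} (e : Γ ⧸ Δ ≃ Fin d) :
    Γ →* Matrix (Fin d) (Fin d) F where
  toFun x := Matrix.of fun s t => if x • e.symm t = e.symm s then 1 else 0
  map_one' := by
    ext s t
    rw [Matrix.of_apply, one_smul, Matrix.one_apply]
    by_cases h : s = t
    · subst h
      simp
    · rw [if_neg h, if_neg]
      intro h1
      exact h (e.symm.injective h1).symm
  map_mul' x y := by
    ext s t
    rw [Matrix.of_apply, Matrix.mul_apply]
    simp only [Matrix.of_apply]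
    rw [Finset.sum_eq_single (e (y • e.symm t))]
    · rw [if_pos (e.symm_apply_apply _).symm, mul_one, e.symm_apply_apply, mul_smul]
    · intro b _ hb
      have h1 : ¬ (y • e.symm t = e.symm b) := by
        intro h2
        apply hb
        rw [h2, Equiv.apply_symm_apply]
      rw [if_neg h1, mul_zero]
    · intro h
      exact absurd (Finset.mem_univ _) h

/-- the tensor product of two representations -/
def tprod {I J : Type*} [Fintype I] [DecidableEq I] [Fintype J] [DecidableEq J] (T : Γ →* Matrix I I F)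
    (θ : Γ →* Matrix J J F) : Γ →* Matrix (I × J) (I × J) F where
  toFun x := Matrix.kroneckerMap (· * ·) (T x) (θ x)
  map_one' := by
    rw [map_one, map_one]
    exact Matrix.one_kronecker_one
  map_mul' x y := by
    rw [map_mul, map_mul]
    exact Matrix.mul_kronecker_mul _ _ _ _

theorem tprod_apply {I J : Type*} [Fintype I] [DecidableEq I] [Fintype J] [DecidableEq J] (T : Γ →* Matrix I I F)
    (θ : Γ →* Matrix J J F) (x : Γ) (p q : I × J) : tprod T θ x p q = T x p.1 q.1 * θ x p.2 q.2 := rfl

open scoped Classical in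
theorem permRep_apply (Δ : Subgroup Γ) {d : ℕ} (e : Γ ⧸ Δ ≃ Fin d) (x : Γ) (s t : Fin d) :
    permRep F Δ e x s t = if x • e.symm t = e.symm s then 1 else 0 := rfl

theorem permRep_finite (Δ : Subgroup Γ) {d : ℕ} (e : Γ ⧸ Δ ≃ Fin d) : (Set.range (permRep F Δ e)).Finite := by
  classical
  refine Set.Finite.subset (s := {M : Matrix (Fin d) (Fin d) F | ∀ i j, M i j ∈ ({0, 1} : Set F)}) ?_ ?_
  · exact Set.Finite.pi' (t := fun i => {g : Fin d → F | ∀ j, g j ∈ ({0, 1} : Set F)})
      fun i => Set.Finite.pi' (t := fun j => ({0, 1} : Set F)) fun j => Set.toFinite _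
  · rintro _ ⟨x, rfl⟩
    intro i j
    rw [permRep_apply]
    split
    · exact Or.inr rfl
    · exact Or.inl rfl

theorem permRep_continuous [TopologicalSpace Γ] [IsTopologicalGroup Γ] [TopologicalSpace F] (Δ : Subgroup Γ)
    (hΔ : IsOpen (Δ : Set Γ)) [Δ.Normal] {d : ℕ} (e : Γ ⧸ Δ ≃ Fin d) : Continuous (permRep F Δ e) := by
  classical
  rw [continuous_def]
  intro U _
  rw [isOpen_iff_mem_nhds]
  intro x hx
  have h1 : {y : Γ | x⁻¹ * y ∈ Δ} ∈ nhds x := by
    have h2 : IsOpen {y : Γ | x⁻¹ * y ∈ Δ} := hΔ.preimage (continuous_const_mul x⁻¹)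
    refine h2.mem_nhds ?_
    change x⁻¹ * x ∈ Δ
    rw [inv_mul_cancel]
    exact Δ.one_mem
  refine Filter.mem_of_superset h1 ?_
  intro y hy
  rw [Set.mem_preimage] at hx ⊢
  have h2 : permRep F Δ e y = permRep F Δ e x := by
    ext s t
    rw [permRep_apply, permRep_apply]
    have h3 : y • e.symm t = x • e.symm t := by
      obtain ⟨g, hg⟩ := QuotientGroup.mk_surjective (e.symm t)
      rw [← hg]
      change (QuotientGroup.mk (y * g) : Γ ⧸ Δ) = QuotientGroup.mk (x * g)
      rw [QuotientGroup.eq]
      have h4 := (inferInstance : Δ.Normal).conj_mem _ (Δ.inv_mem hy) g⁻¹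
      rw [inv_inv] at h4
      convert h4 using 1
      group
    rw [h3]
  rw [h2]
  exact hx

/-- **From a subgroup of finite index to the group.** -/
theorem subQuot_of_res [CharZero F] (V : Γ →* Matrix m m F) (ρ : Γ →* Matrix n n F) (hirr : Irr ρ) (Δ : Subgroup Γ)
    {d : ℕ} (e : Γ ⧸ Δ ≃ Fin d)
    (h : ∀ i j, (fun x => bc G (ρ.comp Δ.subtype) x i j) ∈ coefAlg (bc G (V.comp Δ.subtype)) 1) :
    ∃ a b, SubQuot (tprod (tens V 1 a b 0) (permRep F Δ e)) ρ := by
  classical
  obtain ⟨S, hS⟩ : ∃ S : Set (Γ → F), S = {f : Γ → F | ∃ (s : ℕ × ℕ)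
      (p q : ((Fin s.1 → m) × (Fin s.2 → m)) × Fin d),
        f = fun x => tprod (tens V 1 s.1 s.2 0) (permRep F Δ e) x p q} := ⟨_, rfl⟩
  obtain ⟨X, hX⟩ : ∃ X : Submodule G (Γ → G), X = Submodule.span G ((fun (s : Γ → F) (x : Γ) =>
    algebraMap F G (s x)) '' S) := ⟨_, rfl⟩
  have h1 : ∀ f ∈ tensSpan (bc G V) 1, ∀ s t : Fin d,
      (fun x => f x * algebraMap F G (permRep F Δ e x s t)) ∈ X := by
    intro f hf s t
    induction hf using Submodule.span_induction with
    | mem f hf =>
      obtain ⟨⟨a, b, c⟩, p, q, rfl⟩ := hf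
      rw [hX]
      apply Submodule.subset_span
      refine ⟨fun x => tprod (tens V 1 a b 0) (permRep F Δ e) x (p, s) (q, t), ?_, ?_⟩
      · rw [hS]
        exact ⟨(a, b), (p, s), (q, t), rfl⟩
      · funext x
        have h3 : tens V (1 : Γ →* F) a b c = tens V (1 : Γ →* F) a b 0 := by
          ext x p q
          simp [tens, _root_.one_zpow]
        change algebraMap F G (tens V 1 a b 0 x p q * permRep F Δ e x s t) = tens (bc G V) 1 a b c x p q * _
        rw [tens_bc, map_mul, h3]
    | zero =>
      have h3 : (fun x => (0 : Γ → G) x * algebraMap F G (permRep F Δ e x s t)) = 0 := by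
        funext x
        exact zero_mul _
      rw [h3]
      exact X.zero_mem
    | add f g hf' hg' hf hg =>
      have h3 : (fun x => (f + g) x * algebraMap F G (permRep F Δ e x s t)) =
          (fun x => f x * algebraMap F G (permRep F Δ e x s t)) +
            fun x => g x * algebraMap F G (permRep F Δ e x s t) := by
        funext x
        exact add_mul _ _ _
      rw [h3]
      exact X.add_mem hf hg
    | smul c f _ hf =>
      have h3 : (fun x => (c • f) x * algebraMap F G (permRep F Δ e x s t)) =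
          c • (fun x => f x * algebraMap F G (permRep F Δ e x s t)) := by
        funext x
        exact mul_assoc _ _ _
      rw [h3]
      exact X.smul_mem _ hf
  -- the coefficients on the subgroup
  have h2 : ∀ i j, ∃ f ∈ coefAlg (bc G V) 1, ∀ x ∈ Δ, bc G ρ x i j = f x := by
    intro i j
    obtain ⟨f, hf, hf'⟩ := res_surj (bc G V) Δ _ (h i j)
    exact ⟨f, hf, fun x hx => hf' ⟨x, hx⟩⟩
  choose a ha ha' using h2
  have h3 : ∀ i j, (fun x => algebraMap F G (ρ x i j)) =
      ∑ s : Fin d, ∑ k, bc G ρ (e.symm s).out i k •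
        (fun x => lt ((e.symm s).out)⁻¹ (a k j) x * algebraMap F G (permRep F Δ e x s (e (QuotientGroup.mk 1)))) := by
    intro i j
    funext x
    rw [Finset.sum_apply, Finset.sum_eq_single (e (QuotientGroup.mk x))]
    · rw [Finset.sum_apply]
      have h4 : (QuotientGroup.mk x : Γ ⧸ Δ).out⁻¹ * x ∈ Δ := by
        rw [← QuotientGroup.eq]
        exact QuotientGroup.out_eq' _
      have h5 : bc G ρ x i j = ∑ k, bc G ρ (QuotientGroup.mk x : Γ ⧸ Δ).out i k *
          bc G ρ ((QuotientGroup.mk x : Γ ⧸ Δ).out⁻¹ * x) k j := by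
        rw [← Matrix.mul_apply, ← map_mul, mul_inv_cancel_left]
      refine h5.trans (Finset.sum_congr rfl fun k _ => ?_)
      rw [Pi.smul_apply, smul_eq_mul, e.symm_apply_apply, lt_apply, ← ha' _ _ _ h4]
      have h6 : permRep F Δ e x (e (QuotientGroup.mk x)) (e (QuotientGroup.mk 1)) = 1 := by
        rw [permRep_apply, e.symm_apply_apply, e.symm_apply_apply, if_pos]
        change (QuotientGroup.mk (x * 1) : Γ ⧸ Δ) = _
        rw [mul_one]
      rw [h6, map_one, mul_one]
    · intro s _ hs
      rw [Finset.sum_apply]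
      refine Finset.sum_eq_zero fun k _ => ?_
      have h6 : permRep F Δ e x s (e (QuotientGroup.mk 1)) = 0 := by
        rw [permRep_apply, e.symm_apply_apply, if_neg]
        intro h7
        apply hs
        have h8 : (QuotientGroup.mk (x * 1) : Γ ⧸ Δ) = e.symm s := h7
        rw [← mul_one x, h8, e.apply_symm_apply]
      rw [Pi.smul_apply, h6, map_zero, mul_zero, smul_zero]
    · intro h
      exact absurd (Finset.mem_univ _) h
  have h4 : ∀ i j, (fun x => algebraMap F G (ρ x i j)) ∈ X := by
    intro i j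
    rw [h3]
    refine X.sum_mem fun s _ => X.sum_mem fun k _ => X.smul_mem _ ?_
    refine h1 _ ?_ _ _
    exact coefAlg_le_tensSpan (bc G V) 1 _ (((coefAlg_hopf (bc G V) 1).comul _ (ha k j)).lt_mem _)
  have h5 : ∀ i j, (fun x => ρ x i j) ∈ Submodule.span F S := by
    intro i j
    apply descent (G := G)
    have h6 := h4 i j
    rw [hX] at h6
    exact h6
  rw [hS] at h5
  obtain ⟨s, hs⟩ := subQuot_of_mem (ι := ℕ × ℕ) (fun s => ((Fin s.1 → m) × (Fin s.2 → m)) × Fin d)
    (fun s => tprod (tens V 1 s.1 s.2 0) (permRep F Δ e)) ρ hirr h5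
  exact ⟨s.1, s.2, hs⟩

end

end Pool.Agent.H40LT
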