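import Mathlib
import Pool.Agent.H40LT.Back

/-!
# Counting eigenvalues
-/

set_option autoImplicit false
set_option linter.unusedSectionVars false
set_option linter.style.haveILetI false

namespace Pool.Agent.H40LT

open Module Matrix Pool.Agent.H40GO

section Count

variable {G : Type*} [Field G] {n : Type*} [Fintype n] [DecidableEq n]

theorem toLin'_aeval (M : Matrix n n G) (q : Polynomial G) :
    Matrix.toLin' (Polynomial.aeval M q) = Polynomial.aeval (Matrix.toLin' M) q :=
  (Polynomial.aeval_algHom_apply
        ((Matrix.toLinAlgEquiv' : Matrix n n G ≃ₐ[G] Module.End G (n → G)) : Matrix n n G →ₐ[G] Module.End G (n → G))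
        M q).symm

open scoped Classical in
/-- **Counting.** If `q` vanishes at `N` eigenvalues of `M`, counted with multiplicity, then `q(M)` has the eigenvalue
zero with multiplicity at least `N`. -/
theorem count_mz (M : Matrix n n G) (q : Polynomial G) (N : ℕ)
    (h : N ≤ Multiset.card (M.charpoly.roots.filter fun z => q.eval z = 0)) : MZ N (Polynomial.aeval M q) := by
  rw [mz_iff_finrank]
  refine h.trans ?_
  obtain ⟨f, hf⟩ : ∃ f : Module.End G (n → G), f = Matrix.toLin' M := ⟨_, rfl⟩
  obtain ⟨Z, hZ⟩ : ∃ Z : Multiset G, Z = M.charpoly.roots.filter fun z => q.eval z = 0 := ⟨_, rfl⟩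
  rw [← hZ, ← Multiset.toFinset_sum_count_eq]
  have h1 : ∀ z ∈ Z.toFinset, Z.count z = finrank G (f.maxGenEigenspace z) := by
    intro z hz
    rw [Multiset.mem_toFinset, hZ, Multiset.mem_filter] at hz
    rw [LinearMap.finrank_maxGenEigenspace_eq, hf, Matrix.charpoly_toLin', hZ,
      Multiset.count_filter_of_pos (p := fun z => q.eval z = 0) hz.2,
      Polynomial.count_roots]
  rw [Finset.sum_congr rfl h1, ← Finset.sum_coe_sort]
  have hind : iSupIndep (fun z : Z.toFinset => f.maxGenEigenspace (z : G)) :=
    (Module.End.independent_maxGenEigenspace f).comp Subtype.val_injective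
  have h2 : ∑ z : Z.toFinset, finrank G (f.maxGenEigenspace (z : G)) =
      finrank G (⨆ z : Z.toFinset, f.maxGenEigenspace (z : G) : Submodule G (n → G)) := by
    have h3 := LinearMap.finrank_range_of_inj hind.dfinsupp_lsum_injective
    rw [← Submodule.iSup_eq_range_dfinsupp_lsum] at h3
    rw [h3]
    have h4 := Module.finrank_directSum G (fun z : Z.toFinset => f.maxGenEigenspace (z : G))
    rw [← h4]
    rfl
  rw [h2]
  apply Submodule.finrank_mono
  refine iSup_le fun z => ?_
  intro v hv
  have hz : (z : G) ∈ M.charpoly.roots.filter fun z => q.eval z = 0 := hZ ▸ (Multiset.mem_toFinset.mp z.2)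
  rw [Multiset.mem_filter] at hz
  rw [Module.End.mem_maxGenEigenspace] at hv
  obtain ⟨k, hk⟩ := hv
  rw [mem_max]
  refine ⟨k, ?_⟩
  obtain ⟨r, hr⟩ := Polynomial.dvd_iff_isRoot.mpr hz.2
  rw [toLin'_aeval, ← hf, ← map_pow, hr, mul_pow, mul_comm, map_mul, map_pow, map_pow, Module.End.mul_apply]
  have h5 : Polynomial.aeval f (Polynomial.X - Polynomial.C (z : G)) = f - (z : G) • 1 := by
    rw [map_sub, Polynomial.aeval_X, Polynomial.aeval_C, Algebra.algebraMap_eq_smul_one]
  rw [h5, hk, map_zero]

end Count

end Pool.Agent.H40LT
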