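import Mathlib
import Pool.Agent.H40LT.Count

/-!
# Eigenvalues which are monomials up to roots of unity
-/

set_option autoImplicit false
set_option linter.unusedSectionVars false
set_option linter.style.haveILetI false

namespace Pool.Agent.H40LT

open Module Matrix Pool.Agent.H40GO

section

variable {F : Type*} [Field F] {G : Type*} [Field G] [Algebra F G]
  {Γ : Type*} [Group Γ] {m n : Type*} [Fintype m] [DecidableEq m] [Fintype n] [DecidableEq n]

/-- `z` is the product of a root of unity of order at most `B` and of a monomial of degree at most `B` in the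
eigenvalues of `V x` -/
def Good (V : Γ →* Matrix m m G) (B : ℕ) (x : Γ) (z : G) : Prop :=
  ∃ ζ w : G, (∃ d : ℕ, 0 < d ∧ d ≤ B ∧ ζ ^ d = 1) ∧ z = ζ * w ∧ (bigPoly V B x).IsRoot w

theorem bigRep_bc (V : Γ →* Matrix m m F) (B : ℕ) : bc G (bigRep V B) = bigRep (bc G V) B := by
  ext x ⟨ab, q⟩ ⟨cd, r⟩
  by_cases hab : ab = cd
  · subst hab
    change algebraMap F G (Matrix.blockDiagonal' (fun ab : Fin (B + 1) × Fin (B + 1) =>
      tens V (1 : Γ →* F) ab.1 ab.2 0 x) ⟨ab, q⟩ ⟨ab, r⟩) =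
      Matrix.blockDiagonal' (fun ab : Fin (B + 1) × Fin (B + 1) => tens (bc G V) (1 : Γ →* G) ab.1 ab.2 0 x)
        ⟨ab, q⟩ ⟨ab, r⟩
    rw [Matrix.blockDiagonal'_apply_eq, Matrix.blockDiagonal'_apply_eq, tens_bc]
  · change algebraMap F G (Matrix.blockDiagonal' (fun ab : Fin (B + 1) × Fin (B + 1) =>
      tens V (1 : Γ →* F) ab.1 ab.2 0 x) ⟨ab, q⟩ ⟨cd, r⟩) =
      Matrix.blockDiagonal' (fun ab : Fin (B + 1) × Fin (B + 1) => tens (bc G V) (1 : Γ →* G) ab.1 ab.2 0 x)
        ⟨ab, q⟩ ⟨cd, r⟩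
    rw [Matrix.blockDiagonal'_apply_ne _ _ _ hab, Matrix.blockDiagonal'_apply_ne _ _ _ hab, map_zero]

theorem eig_pow (M : Matrix n n G) (z : G) (k : ℕ) (h : M.charpoly.IsRoot z) : (M ^ k).charpoly.IsRoot (z ^ k) := by
  obtain ⟨v, hv0, hv⟩ := (isRoot_iff _ _).1 h
  refine (isRoot_iff _ _).2 ⟨v, hv0, ?_⟩
  induction k with
  | zero => rw [pow_zero, pow_zero, Matrix.one_mulVec, one_smul]
  | succ k ih => rw [pow_succ, ← Matrix.mulVec_mulVec, hv, Matrix.mulVec_smul, ih, smul_smul, pow_succ, mul_comm]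

theorem good_root (V : Γ →* Matrix m m G) (B : ℕ) (x : Γ) (z : G) (h : Good V B x z) :
    (bigRep V B x ^ B.factorial).charpoly.IsRoot (z ^ B.factorial) := by
  obtain ⟨ζ, w, ⟨d, hd0, hdB, hζ⟩, rfl, hw⟩ := h
  have h1 : ζ ^ B.factorial = 1 := by
    obtain ⟨c, hc⟩ := Nat.dvd_factorial hd0 hdB
    rw [hc, pow_mul, hζ, one_pow]
  rw [mul_pow, h1, one_mul]
  apply eig_pow
  unfold bigPoly at hw
  rw [Polynomial.IsRoot.def, Polynomial.eval_prod, Finset.prod_eq_zero_iff] at hw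
  obtain ⟨⟨a, b⟩, hab, h2⟩ := hw
  rw [Finset.mem_product, Finset.mem_range, Finset.mem_range] at hab
  rw [← Polynomial.IsRoot.def, eig_iff] at h2
  rw [eig_iff]
  exact eig_bigRep V B x (⟨a, hab.1⟩, ⟨b, hab.2⟩) w h2

open scoped Classical in
theorem good_mz (V : Γ →* Matrix m m F) (ρ : Γ →* Matrix n n F) (B N : ℕ) (x : Γ)
    (h : N ≤ Multiset.card ((bc G ρ x).charpoly.roots.filter (Good (bc G V) B x))) :
    MZ N (Polynomial.aeval (ρ x ^ B.factorial) (bigRep V B x ^ B.factorial).charpoly) := by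
  apply MZ.of_map (algebraMap F G) (algebraMap F G).injective
  have h2 : (Polynomial.aeval (ρ x ^ B.factorial) (bigRep V B x ^ B.factorial).charpoly).map (algebraMap F G) =
      Polynomial.aeval (bc G ρ x) ((bigRep (bc G V) B x ^ B.factorial).charpoly.comp
        (Polynomial.X ^ B.factorial)) := by
    have h3 := mapMatrix_aeval (algebraMap F G) (ρ x ^ B.factorial) (bigRep V B x ^ B.factorial).charpoly
    rw [← Matrix.charpoly_map, map_pow] at h3
    have h4 : (bigRep V B x ^ B.factorial).map (algebraMap F G) = bigRep (bc G V) B x ^ B.factorial := by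
      have h5 : (bigRep V B x ^ B.factorial).map (algebraMap F G) =
        (algebraMap F G).mapMatrix (bigRep V B x ^ B.factorial) := rfl
      rw [h5, map_pow, ← bigRep_bc]
      rfl
    rw [h4] at h3
    rw [Polynomial.aeval_comp, map_pow, Polynomial.aeval_X]
    exact h3
  rw [h2]
  apply count_mz
  refine h.trans (Multiset.card_le_card (Multiset.monotone_filter_right _ ?_))
  intro z hz
  have h3 := good_root (bc G V) B x z hz
  rw [Polynomial.eval_comp, Polynomial.eval_pow, Polynomial.eval_X]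
  exact h3

theorem bigRep_comp (V : Γ →* Matrix m m G) (B : ℕ) (Δ : Subgroup Γ) :
    (bigRep V B).comp Δ.subtype = bigRep (V.comp Δ.subtype) B := rfl

/-- **Algebraic theorem, for monomials.** -/
theorem third_alg [IsAlgClosed G] [CharZero F] [TopologicalSpace Γ] [IsTopologicalGroup Γ] (V : Γ →* Matrix m m F)
    (ρ : Γ →* Matrix n n F) (hirr : Irr ρ) (B N k : ℕ) (hk : k ≠ 0) (hN : Fintype.card n < 3 * N)
    (h : ∀ x, MZ N (Polynomial.aeval (ρ x ^ k) (bigRep V B x ^ k).charpoly)) :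
    ∃ Δ : Subgroup Γ, Δ.Normal ∧ Δ.FiniteIndex ∧
      (∀ i j, (fun x => bc G (ρ.comp Δ.subtype) x i j) ∈ coefAlg (bc G (V.comp Δ.subtype)) 1) ∧
      ((∀ s ∈ coefAlg (bc G (dsum (bigRep V B) ρ)) 1, IsOpen {x | s x ≠ 0}) → IsOpen (Δ : Set Γ)) := by
  obtain ⟨Δ, h1, h2, h3, h4⟩ := core (G := G) (bigRep V B) ρ hirr N k hk hN h
  refine ⟨Δ, h1, h2, fun i j => ?_, h4⟩
  have h5 := h3 i j
  rw [bigRep_comp, bigRep_bc] at h5
  exact coefAlg_bigRep_le _ B h5

end

end Pool.Agent.H40LT
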