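import Mathlib
import Pool.Agent.H40LT.Good

/-!
# Galois representations with more than a third of the Frobenius eigenvalues monomial
-/

set_option autoImplicit false
set_option linter.unusedSectionVars false
set_option linter.style.haveILetI false

namespace Pool.Agent.H40LT

open Module Matrix Pool.Agent.H40GO NumberField IsDedekindDomain Filter Topology Pool.Agent.W401.Cheb

section Alg

variable {G : Type*} [Field G] {Γ : Type*} [Group Γ] {m n : Type*} [Fintype m] [DecidableEq m] [Fintype n]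
  [DecidableEq n]

theorem ev_coeff (W : Γ →* Matrix m m G) (ρ : Γ →* Matrix n n G) (k j : ℕ) (x : Γ) :
    (((Polynomial.aeval (ρm W ρ ^ k) (Wm W ρ ^ k).charpoly).charpoly.coeff j : RR W ρ) : Γ → G) x =
      (Polynomial.aeval (ρ x ^ k) (W x ^ k).charpoly).charpoly.coeff j := by
  have h1 : ∀ x, ((ev (RR W ρ) x : RR W ρ →ₐ[G] G) : RR W ρ →+* G).mapMatrix (Wm W ρ) = W x := fun x =>
    matA_ev _ W _ x
  have h2 : ∀ x, ((ev (RR W ρ) x : RR W ρ →ₐ[G] G) : RR W ρ →+* G).mapMatrix (ρm W ρ) = ρ x := fun x =>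
    matA_ev _ ρ _ x
  have h4 : ((ev (RR W ρ) x : RR W ρ →ₐ[G] G) : RR W ρ →+* G)
      ((Polynomial.aeval (ρm W ρ ^ k) (Wm W ρ ^ k).charpoly).charpoly.coeff j) =
      (Polynomial.aeval (ρ x ^ k) (W x ^ k).charpoly).charpoly.coeff j := by
    rw [← Polynomial.coeff_map, ← Matrix.charpoly_map]
    have h5 := mapMatrix_aeval ((ev (RR W ρ) x : RR W ρ →ₐ[G] G) : RR W ρ →+* G) (ρm W ρ ^ k)
      (Wm W ρ ^ k).charpoly
    rw [← Matrix.charpoly_map, map_pow, h2] at h5
    have h6 : (Wm W ρ ^ k).map ((ev (RR W ρ) x : RR W ρ →ₐ[G] G) : RR W ρ →+* G) = W x ^ k := by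
      have h7 : (Wm W ρ ^ k).map ((ev (RR W ρ) x : RR W ρ →ₐ[G] G) : RR W ρ →+* G) =
        ((ev (RR W ρ) x : RR W ρ →ₐ[G] G) : RR W ρ →+* G).mapMatrix (Wm W ρ ^ k) := rfl
      rw [h7, map_pow, h1]
    rw [h6] at h5
    rw [← h5]
    rfl
  exact h4

theorem aeval_conj (P P' M : Matrix n n G) (hP : P' * P = 1) (p : Polynomial G) :
    Polynomial.aeval (P * M * P') p = P * Polynomial.aeval M p * P' := by
  have hP' : P * P' = 1 := mul_eq_one_comm.mp hP
  have hpow : ∀ k : ℕ, (P * M * P') ^ k = P * M ^ k * P' := by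
    intro k
    induction k with
    | zero => rw [pow_zero, pow_zero, mul_one, hP']
    | succ k ih =>
      rw [pow_succ, ih, pow_succ]
      calc P * M ^ k * P' * (P * M * P') = P * M ^ k * (P' * P) * M * P' := by simp only [mul_assoc]
        _ = _ := by rw [hP, mul_one]; simp only [mul_assoc]
  induction p using Polynomial.induction_on' with
  | add p q hp hq => rw [map_add, map_add, hp, hq, mul_add, add_mul]
  | monomial k a =>
    rw [Polynomial.aeval_monomial, Polynomial.aeval_monomial, hpow, Algebra.algebraMap_eq_smul_one]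
    simp

theorem mz_conj (W : Γ →* Matrix m m G) (ρ : Γ →* Matrix n n G) (N k : ℕ) (σ τ : Γ)
    (h : MZ N (Polynomial.aeval (ρ σ ^ k) (W σ ^ k).charpoly)) :
    MZ N (Polynomial.aeval (ρ (τ * σ * τ⁻¹) ^ k) (W (τ * σ * τ⁻¹) ^ k).charpoly) := by
  have h1 : (τ * σ * τ⁻¹) ^ k = τ * σ ^ k * τ⁻¹ := by
    rw [conj_pow]
  have h2 : (W (τ * σ * τ⁻¹) ^ k).charpoly = (W σ ^ k).charpoly := by
    rw [← map_pow, h1, charpoly_conj, map_pow]
  have h3 : ρ (τ * σ * τ⁻¹) ^ k = ρ τ * ρ σ ^ k * ρ τ⁻¹ := by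
    rw [← map_pow, h1, map_mul, map_mul, map_pow]
  have h4 : ρ τ⁻¹ * ρ τ = 1 := by rw [← map_mul, inv_mul_cancel, map_one]
  have h5 : ρ τ * ρ τ⁻¹ = 1 := by rw [← map_mul, mul_inv_cancel, map_one]
  rw [h2, h3, aeval_conj _ _ _ h4]
  intro j hj
  have h6 := Matrix.charpoly_units_conj (⟨ρ τ, ρ τ⁻¹, h5, h4⟩ : (Matrix n n G)ˣ)
    (Polynomial.aeval (ρ σ ^ k) (W σ ^ k).charpoly)
  rw [← Matrix.coe_units_inv] at h6
  have h7 : (ρ τ * Polynomial.aeval (ρ σ ^ k) (W σ ^ k).charpoly * ρ τ⁻¹).charpoly =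
      (Polynomial.aeval (ρ σ ^ k) (W σ ^ k).charpoly).charpoly := h6
  rw [h7]
  exact h j hj

variable [TopologicalSpace Γ] [IsTopologicalGroup Γ] [TopologicalSpace G] [IsTopologicalRing G]

theorem cont_coefAlg {k : Type*} [Fintype k] [DecidableEq k] (U : Γ →* Matrix k k G) (hU : Continuous U)
    (f : Γ → G) (hf : f ∈ coefAlg U 1) : Continuous f := by
  induction hf using Algebra.adjoin_induction with
  | mem f hf =>
    rcases hf with (⟨⟨i, j⟩, rfl⟩ | ⟨⟨i, j⟩, rfl⟩) | (rfl | rfl)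
    · exact hU.matrix_elem i j
    · exact (hU.comp continuous_inv).matrix_elem i j
    · exact continuous_const
    · exact continuous_const
  | algebraMap c => exact continuous_const
  | add f g _ _ hf hg => exact hf.add hg
  | mul f g _ _ hf hg => exact hf.mul hg

theorem cont_dsum (W : Γ →* Matrix m m G) (ρ : Γ →* Matrix n n G) (hW : Continuous W) (hρ : Continuous ρ) :
    Continuous (dsum W ρ) := by
  change Continuous fun x => Matrix.fromBlocks (W x) 0 0 (ρ x)
  exact hW.matrix_fromBlocks continuous_const continuous_const hρ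

theorem mz_closed [T2Space G] (W : Γ →* Matrix m m G) (ρ : Γ →* Matrix n n G) (hW : Continuous W)
    (hρ : Continuous ρ) (N k : ℕ) : IsClosed {x | MZ N (Polynomial.aeval (ρ x ^ k) (W x ^ k).charpoly)} := by
  have h1 : {x | MZ N (Polynomial.aeval (ρ x ^ k) (W x ^ k).charpoly)} =
      ⋂ j : Fin N, {x | (((Polynomial.aeval (ρm W ρ ^ k) (Wm W ρ ^ k).charpoly).charpoly.coeff j : RR W ρ) : Γ → G) x
        = 0} := by
    ext x
    rw [Set.mem_iInter]
    constructor
    · intro h j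
      exact (ev_coeff W ρ k j x).trans (h j j.2)
    · intro h j hj
      exact (ev_coeff W ρ k j x).symm.trans (h ⟨j, hj⟩)
  rw [h1]
  refine isClosed_iInter fun j => ?_
  exact isClosed_singleton.preimage (cont_coefAlg _ (cont_dsum W ρ hW hρ) _ (Subtype.prop _))

theorem cont_bigRep [T2Space G] (V : Γ →* Matrix m m G) (hV : Continuous V) (B : ℕ) : Continuous (bigRep V B) := by
  change Continuous fun x => Matrix.blockDiagonal' fun ab : Fin (B + 1) × Fin (B + 1) =>
    tens V (1 : Γ →* G) ab.1 ab.2 0 x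
  refine Continuous.matrix_blockDiagonal' ?_
  exact continuous_pi fun ab => continuous_tens V hV ab.1 ab.2

end Alg

section Conv

/-- the order of the elements of a finite set of matrices closed under powers -/
theorem order_le {F : Type*} [Field F] {Γ J : Type*} [Group Γ] [Fintype J] [DecidableEq J] (θ : Γ →* Matrix J J F)
    (hθ : (Set.range θ).Finite) (x : Γ) : ∃ d, 0 < d ∧ d ≤ (Set.range θ).ncard ∧ θ x ^ d = 1 := by
  have h1 : ¬ Set.InjOn (fun k : ℕ => θ (x ^ k)) (Set.Iic (Set.range θ).ncard) := by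
    intro hinj
    have h2 := Set.ncard_le_ncard (s := (fun k : ℕ => θ (x ^ k)) '' (Set.Iic (Set.range θ).ncard))
      (t := Set.range θ) (by rintro _ ⟨k, -, rfl⟩; exact ⟨_, rfl⟩) hθ
    rw [hinj.ncard_image] at h2
    have h3 : (Set.Iic (Set.range θ).ncard).ncard = (Set.range θ).ncard + 1 := by
      rw [← Finset.coe_Iic, Set.ncard_coe_finset, Nat.card_Iic]
    omega
  obtain ⟨k, l, hkl, hl, he⟩ : ∃ k l : ℕ, k < l ∧ l ≤ (Set.range θ).ncard ∧ θ (x ^ k) = θ (x ^ l) := by
    by_contra hcon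
    push Not at hcon
    apply h1
    intro a ha b hb hab
    by_contra hne
    rcases lt_or_gt_of_ne hne with h2 | h2
    · exact hcon a b h2 hb hab
    · exact hcon b a h2 ha hab.symm
  refine ⟨l - k, by omega, by omega, ?_⟩
  have h2 : θ (x ^ k)⁻¹ * θ (x ^ k) = 1 := by rw [← map_mul, inv_mul_cancel, map_one]
  calc θ x ^ (l - k) = θ ((x ^ k)⁻¹ * x ^ l) := by
        have h3 : x ^ l = x ^ k * x ^ (l - k) := by
          rw [← pow_add]
          congr 1
          omega
        rw [h3, inv_mul_cancel_left, map_pow]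
    _ = 1 := by rw [map_mul, ← he, h2]

theorem good_of_subQuot {F : Type*} [Field F] {G : Type*} [Field G] [Algebra F G] [IsAlgClosed G] {Γ I n : Type*} [Group Γ] [Fintype I] [DecidableEq I] [Fintype n] [DecidableEq n] 
    (V : Γ →* Matrix I I F) (ρ : Γ →* Matrix n n F) (a b d : ℕ) (θ : Γ →* Matrix (Fin d) (Fin d) F)
    (hθ : (Set.range θ).Finite) (h : SubQuot (tprod (tens V 1 a b 0) θ) ρ) :
    ∃ B, ∀ σ, ∀ z, (bc G ρ σ).charpoly.IsRoot z → Good (bc G V) B σ z := by
  refine ⟨max (max a b) (Set.range θ).ncard, fun σ z hz => ?_⟩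
  have h1 := h.aeval σ
  have h2 : Polynomial.aeval (bc G ρ σ) (Matrix.kroneckerMap (· * ·) (tens (bc G V) 1 a b 0 σ)
      (bc G θ σ)).charpoly = 0 := by
    have h3 := congrArg ((algebraMap F G).mapMatrix : Matrix n n F →+* Matrix n n G) h1
    rw [map_zero, mapMatrix_aeval, ← Matrix.charpoly_map] at h3
    have h4 : Matrix.kroneckerMap (· * ·) (tens (bc G V) 1 a b 0 σ) (bc G θ σ) =
        (tprod (tens V 1 a b 0) θ σ).map (algebraMap F G) := by
      ext p q
      change tens (bc G V) 1 a b 0 σ p.1 q.1 * algebraMap F G (θ σ p.2 q.2) =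
        algebraMap F G (tens V 1 a b 0 σ p.1 q.1 * θ σ p.2 q.2)
      rw [map_mul, tens_bc]
    rw [h4]
    exact h3
  have h3 := root_of_aeval _ _ 1 (by rw [pow_one]; exact h2) z hz
  have hA : tens (bc G V) 1 a b 0 σ⁻¹ * tens (bc G V) 1 a b 0 σ = 1 := by
    rw [← map_mul, inv_mul_cancel, map_one]
  rw [← Polynomial.IsRoot.def, eig_iff, eig_kron _ _ hA] at h3
  obtain ⟨al, be, hal, hbe, rfl⟩ := h3
  obtain ⟨e, he0, heN, he⟩ := order_le θ hθ σ
  refine ⟨be, al, ⟨e, he0, heN.trans (le_max_right _ _), ?_⟩, mul_comm _ _, ?_⟩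
  · obtain ⟨v, hv0, hv⟩ := hbe
    have h4 : bc G θ σ ^ e = 1 := by
      have h5 := congrArg (algebraMap F G).mapMatrix he
      rw [map_pow, map_one] at h5
      exact h5
    have h5 := eig_pow (bc G θ σ) be e ((isRoot_iff _ _).2 ⟨v, hv0, hv⟩)
    rw [h4] at h5
    obtain ⟨u, hu0, hu⟩ := (isRoot_iff _ _).1 h5
    rw [Matrix.one_mulVec] at hu
    obtain ⟨i, hi⟩ : ∃ i, u i ≠ 0 := by
      by_contra hcon
      push Not at hcon
      exact hu0 (funext hcon)
    have h6 := congrFun hu i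
    rw [Pi.smul_apply, smul_eq_mul] at h6
    have h7 : (be ^ e - 1) * u i = 0 := by rw [sub_mul, one_mul, ← h6, sub_self]
    rcases mul_eq_zero.mp h7 with h8 | h8
    · exact sub_eq_zero.mp h8
    · exact absurd h8 hi
  · rw [bigPoly_root]
    rw [eig_tens] at hal
    obtain ⟨p, q, hp, hq, hpq⟩ := hal
    exact ⟨a, (le_max_left _ _).trans (le_max_left _ _), b, (le_max_right _ _).trans (le_max_left _ _), p, q,
      fun s => (eig_iff _ _).2 (hp s), fun t => (eig_iff _ _).2 (hq t), hpq⟩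

end Conv

section Gal

variable {K : Type} [Field K] [NumberField K] {F : Type*} [Field F] [CharZero F] [TopologicalSpace F]
  {G : Type*} [Field G] [Algebra F G] [TopologicalSpace G] [IsTopologicalRing G] [T2Space G] [IsAlgClosed G]

open scoped Classical in
/-- **Main theorem.** -/
theorem main_third (hFG : Continuous (algebraMap F G)) (N n : ℕ) (V : GK K →* Matrix (Fin N) (Fin N) F)
    (ρ : GK K →* Matrix (Fin n) (Fin n) F) (hV : Continuous V) (hρ : Continuous ρ) (hirr : Irr ρ)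
    (S : Set (HeightOneSpectrum (𝓞 K))) (hS : UpperOne S) (B : ℕ)
    (h : ∀ v ∈ S, ∀ σ, IsFrob v σ → n < 3 * Multiset.card ((bc G ρ σ).charpoly.roots.filter (Good (bc G V) B σ))) :
    ∃ (a b d : ℕ) (θ : GK K →* Matrix (Fin d) (Fin d) F), Continuous θ ∧ (Set.range θ).Finite ∧
      SubQuot (tprod (tens V 1 a b 0) θ) ρ := by
  have hchar : CharZero G := charZero_of_injective_algebraMap (algebraMap F G).injective
  have hVc := bc_continuous (G := G) hFG V hV
  have hρc := bc_continuous (G := G) hFG ρ hρ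
  obtain ⟨M, hM⟩ : ∃ M : ℕ, M = n / 3 + 1 := ⟨_, rfl⟩
  have hnM : n < 3 * M := by omega
  have hMle : ∀ c, n < 3 * c → M ≤ c := by intro c hc; omega
  have hmz : ∀ σ : GK K, MZ M (Polynomial.aeval (bc G ρ σ ^ B.factorial)
      (bigRep (bc G V) B σ ^ B.factorial).charpoly) := by
    refine all_of_density {σ | MZ M (Polynomial.aeval (bc G ρ σ ^ B.factorial)
      (bigRep (bc G V) B σ ^ B.factorial).charpoly)} ?_ ?_ S ∅ hS Set.finite_empty ?_
    · exact mz_closed (bigRep (bc G V) B) (bc G ρ) (cont_bigRep (bc G V) hVc B) hρc M _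
    · intro σ hσ τ
      exact mz_conj (bigRep (bc G V) B) (bc G ρ) M _ σ τ hσ
    · intro v hv _ σ hσ
      have h1 := good_mz (G := G) (bc G V) (bc G ρ) B M σ ?_
      · exact h1
      · have h2 := hMle _ (h v hv σ hσ)
        exact h2
  have hmzF : ∀ σ : GK K, MZ M (Polynomial.aeval (ρ σ ^ B.factorial) (bigRep V B σ ^ B.factorial).charpoly) := by
    intro σ
    apply MZ.of_map (algebraMap F G) (algebraMap F G).injective
    have h2 : (Polynomial.aeval (ρ σ ^ B.factorial) (bigRep V B σ ^ B.factorial).charpoly).map (algebraMap F G) =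
        Polynomial.aeval (bc G ρ σ ^ B.factorial) (bigRep (bc G V) B σ ^ B.factorial).charpoly := by
      have h3 := mapMatrix_aeval (algebraMap F G) (ρ σ ^ B.factorial) (bigRep V B σ ^ B.factorial).charpoly
      rw [← Matrix.charpoly_map, map_pow] at h3
      have h4 : (bigRep V B σ ^ B.factorial).map (algebraMap F G) = bigRep (bc G V) B σ ^ B.factorial := by
        have h5 : (bigRep V B σ ^ B.factorial).map (algebraMap F G) =
          (algebraMap F G).mapMatrix (bigRep V B σ ^ B.factorial) := rfl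
        rw [h5, map_pow, ← bigRep_bc]
        rfl
      rw [h4] at h3
      exact h3
    rw [h2]
    exact hmz σ
  obtain ⟨Δ, hΔ1, hΔ2, hΔ3, hΔ4⟩ := third_alg (G := G) V ρ hirr B M B.factorial (Nat.factorial_ne_zero B)
    (by rwa [Fintype.card_fin]) hmzF
  have hopen : IsOpen (Δ : Set (GK K)) := by
    apply hΔ4
    intro s hs
    have h1 : Continuous s := by
      rw [dsum_bc, bigRep_bc] at hs
      exact cont_coefAlg _ (cont_dsum _ _ (cont_bigRep (bc G V) hVc B) hρc) s hs
    exact isOpen_ne_fun h1 continuous_const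
  haveI : Fintype (GK K ⧸ Δ) := Fintype.ofFinite _
  obtain ⟨a, b, hab⟩ := subQuot_of_res (G := G) V ρ hirr Δ (Fintype.equivFin (GK K ⧸ Δ)) hΔ3
  exact ⟨a, b, _, permRep F Δ (Fintype.equivFin (GK K ⧸ Δ)), permRep_continuous Δ hopen _, permRep_finite Δ _, hab⟩

end Gal

end Pool.Agent.H40LT
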