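import Mathlib
import Pool.Agent.H40LT.Third

/-!
# Representations with several composition factors
-/

set_option autoImplicit false
set_option linter.unusedSectionVars false
set_option linter.style.haveILetI false

namespace Pool.Agent.H40LT

open Module Matrix Pool.Agent.H40GO Topology

section Blk

variable {F : Type*} [Field F] {Γ : Type*} [Group Γ] {J : Type*} [Fintype J] [DecidableEq J] {nn : J → Type*}
  [∀ j, Fintype (nn j)] [∀ j, DecidableEq (nn j)]

/-- the direct sum of a family of representations -/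
def blk (ρ : ∀ j, Γ →* Matrix (nn j) (nn j) F) : Γ →* Matrix (Σ j, nn j) (Σ j, nn j) F where
  toFun x := Matrix.blockDiagonal' fun j => ρ j x
  map_one' := by
    have h : (fun j => ρ j 1) = 1 := by
      funext j
      exact map_one (ρ j)
    rw [h, Matrix.blockDiagonal'_one]
  map_mul' x y := by
    have h : (fun j => ρ j (x * y)) = fun j => ρ j x * ρ j y := by
      funext j
      exact map_mul (ρ j) x y
    rw [h, Matrix.blockDiagonal'_mul]

theorem blk_apply (ρ : ∀ j, Γ →* Matrix (nn j) (nn j) F) (x : Γ) (j : J) (i i' : nn j) :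
    blk ρ x ⟨j, i⟩ ⟨j, i'⟩ = ρ j x i i' := by
  change Matrix.blockDiagonal' (fun j => ρ j x) ⟨j, i⟩ ⟨j, i'⟩ = _
  rw [Matrix.blockDiagonal'_apply_eq]

variable {m : Type*} [Fintype m] [DecidableEq m] {G : Type*} [Field G] [Algebra F G]

theorem coefAlg_blk (W : Γ →* Matrix m m F) (ρ : ∀ j, Γ →* Matrix (nn j) (nn j) F) (j : J) :
    coefAlg (bc G (dsum W (ρ j))) 1 ≤ coefAlg (bc G (dsum W (blk ρ))) 1 := by
  refine Algebra.adjoin_le ?_
  rintro s ((⟨⟨i, i'⟩, rfl⟩ | ⟨⟨i, i'⟩, rfl⟩) | (rfl | rfl))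
  · rcases i with i | i <;> rcases i' with i' | i'
    · exact mem1 (bc G (dsum W (blk ρ))) 1 (Sum.inl i) (Sum.inl i')
    · have h : (fun x => bc G (dsum W (ρ j)) x (Sum.inl i) (Sum.inr i')) = 0 := by
        funext x
        exact map_zero (algebraMap F G)
      exact (congrArg (· ∈ coefAlg (bc G (dsum W (blk ρ))) 1) h).mpr (Subalgebra.zero_mem _)
    · have h : (fun x => bc G (dsum W (ρ j)) x (Sum.inr i) (Sum.inl i')) = 0 := by
        funext x
        exact map_zero (algebraMap F G)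
      exact (congrArg (· ∈ coefAlg (bc G (dsum W (blk ρ))) 1) h).mpr (Subalgebra.zero_mem _)
    · have h : (fun x => bc G (dsum W (ρ j)) x (Sum.inr i) (Sum.inr i')) =
          fun x => bc G (dsum W (blk ρ)) x (Sum.inr ⟨j, i⟩) (Sum.inr ⟨j, i'⟩) := by
        funext x
        exact congrArg (algebraMap F G) (blk_apply ρ x j i i').symm
      exact (congrArg (· ∈ coefAlg (bc G (dsum W (blk ρ))) 1) h).mpr
        (mem1 (bc G (dsum W (blk ρ))) 1 (Sum.inr ⟨j, i⟩) (Sum.inr ⟨j, i'⟩))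
  · rcases i with i | i <;> rcases i' with i' | i'
    · exact mem2 (bc G (dsum W (blk ρ))) 1 (Sum.inl i) (Sum.inl i')
    · have h : (fun x => bc G (dsum W (ρ j)) x⁻¹ (Sum.inl i) (Sum.inr i')) = 0 := by
        funext x
        exact map_zero (algebraMap F G)
      exact (congrArg (· ∈ coefAlg (bc G (dsum W (blk ρ))) 1) h).mpr (Subalgebra.zero_mem _)
    · have h : (fun x => bc G (dsum W (ρ j)) x⁻¹ (Sum.inr i) (Sum.inl i')) = 0 := by
        funext x
        exact map_zero (algebraMap F G)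
      exact (congrArg (· ∈ coefAlg (bc G (dsum W (blk ρ))) 1) h).mpr (Subalgebra.zero_mem _)
    · have h : (fun x => bc G (dsum W (ρ j)) x⁻¹ (Sum.inr i) (Sum.inr i')) =
          fun x => bc G (dsum W (blk ρ)) x⁻¹ (Sum.inr ⟨j, i⟩) (Sum.inr ⟨j, i'⟩) := by
        funext x
        exact congrArg (algebraMap F G) (blk_apply ρ x⁻¹ j i i').symm
      exact (congrArg (· ∈ coefAlg (bc G (dsum W (blk ρ))) 1) h).mpr
        (mem2 (bc G (dsum W (blk ρ))) 1 (Sum.inr ⟨j, i⟩) (Sum.inr ⟨j, i'⟩))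
  · exact (coefAlg _ 1).one_mem
  · exact (coefAlg _ 1).one_mem

end Blk

section

variable {F : Type*} [Field F] [CharZero F] {G : Type*} [Field G] [Algebra F G] [IsAlgClosed G]
  {Γ : Type*} [Group Γ] {m n : Type*} [Fintype m] [DecidableEq m] [Fintype n] [DecidableEq n]

/-- the main algebraic theorem on a given subgroup -/
theorem core_on (Δ : Subgroup Γ) [hΔ1 : Δ.Normal] (W : Γ →* Matrix m m F) (ρ : Γ →* Matrix n n F)
    (hirr : Irr ρ) (hdom : IsDomain (RR (bc G (W.comp Δ.subtype)) (bc G (ρ.comp Δ.subtype))))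
    (N k : ℕ) (hk : k ≠ 0) (hN : Fintype.card n < 3 * N)
    (h : ∀ x ∈ Δ, MZ N (Polynomial.aeval (ρ x ^ k) (W x ^ k).charpoly)) :
    ∀ i j, (fun x => bc G (ρ.comp Δ.subtype) x i j) ∈ coefAlg (bc G (W.comp Δ.subtype)) 1 := by
  haveI : CharZero G := charZero_of_injective_algebraMap (algebraMap F G).injective
  have hN0 : 0 < N := by omega
  have hdomF : IsDomain (RR (W.comp Δ.subtype) (ρ.comp Δ.subtype)) := domain_of_bc (G := G) _ _
  have htan := tan_eq_zero Δ W ρ hirr N k hk hN h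
  have halg := algebraic_of_tan (W.comp Δ.subtype) (ρ.comp Δ.subtype) htan
  have hint := integral_of_algebraic (G := G) (W.comp Δ.subtype) (ρ.comp Δ.subtype) halg
  have hone := pm_eq_one (G := G) Δ W ρ hirr hint k hk (by
    intro x hx
    have h1 := (h x hx).map (algebraMap F G)
    have h2 : (Polynomial.aeval (ρ x ^ k) (W x ^ k).charpoly).map (algebraMap F G) =
        Polynomial.aeval (bc G ρ x ^ k) (bc G W x ^ k).charpoly := by
      have h3 := mapMatrix_aeval (algebraMap F G) (ρ x ^ k) (W x ^ k).charpoly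
      rw [← Matrix.charpoly_map, map_pow] at h3
      have h4 : (W x ^ k).map (algebraMap F G) = bc G W x ^ k := by
        have h5 : (W x ^ k).map (algebraMap F G) = (algebraMap F G).mapMatrix (W x ^ k) := rfl
        rw [h5, map_pow]
        rfl
      rw [h4] at h3
      exact h3
    rw [h2] at h1
    exact mz_det _ hN0 h1)
  refine coeff_mem (coefAlg_hopf _ 1) (bc G (ρ.comp Δ.subtype)) hint ?_
  intro B hAB hρB y hy
  have hle := RR_le (bc G (W.comp Δ.subtype)) (bc G (ρ.comp Δ.subtype)) hint B hAB hρB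
  have h1 := hone (y.comp (Subalgebra.inclusion hle)) (fun a ha => hy a ha)
  have h2 : (Matrix.of fun i j => y ⟨fun x => bc G (ρ.comp Δ.subtype) x i j, hρB i j⟩) =
      pm (bc G (W.comp Δ.subtype)) (bc G (ρ.comp Δ.subtype)) (y.comp (Subalgebra.inclusion hle)) := rfl
  rw [h2, h1, sub_self]
  exact IsNilpotent.zero

/-- the map to `G` of the characteristic polynomial -/
theorem aeval_bc (W : Γ →* Matrix m m F) (ρ : Γ →* Matrix n n F) (k : ℕ) (x : Γ) :
    (Polynomial.aeval (bc G ρ x ^ k) (bc G W x ^ k).charpoly).charpoly =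
      (Polynomial.aeval (ρ x ^ k) (W x ^ k).charpoly).charpoly.map (algebraMap F G) := by
  rw [← Matrix.charpoly_map]
  congr 1
  have h3 := mapMatrix_aeval (algebraMap F G) (ρ x ^ k) (W x ^ k).charpoly
  rw [← Matrix.charpoly_map, map_pow] at h3
  have h4 : (W x ^ k).map (algebraMap F G) = bc G W x ^ k := by
    have h5 : (W x ^ k).map (algebraMap F G) = (algebraMap F G).mapMatrix (W x ^ k) := rfl
    rw [h5, map_pow]
    rfl
  rw [h4] at h3
  exact h3.symm

theorem coeff_mem_RR (W : Γ →* Matrix m m F) (ρ : Γ →* Matrix n n F) (k i : ℕ) :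
    (fun x => (Polynomial.aeval (bc G ρ x ^ k) (bc G W x ^ k).charpoly).charpoly.coeff i) ∈
      coefAlg (bc G (dsum W ρ)) 1 := by
  have h1 : (fun x => (Polynomial.aeval (bc G ρ x ^ k) (bc G W x ^ k).charpoly).charpoly.coeff i) =
      (((Polynomial.aeval (ρm (bc G W) (bc G ρ) ^ k) (Wm (bc G W) (bc G ρ) ^ k).charpoly).charpoly.coeff i :
        RR (bc G W) (bc G ρ)) : Γ → G) := by
    funext x
    exact (ev_coeff (bc G W) (bc G ρ) k i x).symm
  rw [h1, dsum_bc]
  exact Subtype.prop _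

/-- finitely many functions which do not vanish identically have a common point where they do not vanish -/
theorem exists_ne {R : Subalgebra G (Γ → G)} (Δ : Subgroup Γ)
    (hΔ : ∀ r ∈ R, ∀ s ∈ R, (∀ x ∈ Δ, r x * s x = 0) → (∀ x ∈ Δ, r x = 0) ∨ (∀ x ∈ Δ, s x = 0))
    {J : Type*} (A : Finset J) (f : J → Γ → G) (hf : ∀ j ∈ A, f j ∈ R) (hne : ∀ j ∈ A, ∃ x ∈ Δ, f j x ≠ 0) :
    ∃ x ∈ Δ, ∀ j ∈ A, f j x ≠ 0 := by
  classical
  have key : ∀ A : Finset J, (∀ j ∈ A, f j ∈ R) → (∀ j ∈ A, ∃ x ∈ Δ, f j x ≠ 0) →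
      ∃ x ∈ Δ, (∏ j ∈ A, f j) x ≠ 0 := by
    intro A
    induction A using Finset.induction_on with
    | empty =>
      intro _ _
      exact ⟨1, Δ.one_mem, by simp⟩
    | insert j A hj ih =>
      intro h1 h2
      by_contra hcon
      push Not at hcon
      rcases hΔ (f j) (h1 j (Finset.mem_insert_self _ _)) (∏ j ∈ A, f j)
        (Subalgebra.prod_mem _ fun i hi => h1 i (Finset.mem_insert_of_mem hi)) (fun x hx => by
          have h3 := hcon x hx
          rw [Finset.prod_insert hj] at h3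
          exact h3) with h3 | h3
      · obtain ⟨x, hx, h4⟩ := h2 j (Finset.mem_insert_self _ _)
        exact h4 (h3 x hx)
      · obtain ⟨x, hx, h4⟩ := ih (fun i hi => h1 i (Finset.mem_insert_of_mem hi))
          (fun i hi => h2 i (Finset.mem_insert_of_mem hi))
        exact h4 (h3 x hx)
  obtain ⟨x, hx, h⟩ := key A hf hne
  refine ⟨x, hx, fun j hj h0 => h ?_⟩
  rw [Finset.prod_apply]
  exact Finset.prod_eq_zero hj h0

open scoped Classical in
/-- **Main algebraic theorem for several factors.** -/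
theorem multi_core [TopologicalSpace Γ] [IsTopologicalGroup Γ] {J : Type*} [Fintype J] [DecidableEq J]
    {nn : J → Type*} [∀ j, Fintype (nn j)] [∀ j, DecidableEq (nn j)] (W : Γ →* Matrix m m F)
    (ρ : ∀ j, Γ →* Matrix (nn j) (nn j) F) (hirr : ∀ j, Irr (ρ j)) (N k : ℕ) (hk : k ≠ 0)
    (h : ∀ x, N ≤ ∑ j, (Polynomial.aeval (ρ j x ^ k) (W x ^ k).charpoly).charpoly.rootMultiplicity 0) :
    ∃ (Δ : Subgroup Γ) (A : Finset J), Δ.Normal ∧ Δ.FiniteIndex ∧
      (∀ j ∈ A, ∀ i i', (fun x => bc G ((ρ j).comp Δ.subtype) x i i') ∈ coefAlg (bc G (W.comp Δ.subtype)) 1) ∧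
      ((∀ s ∈ coefAlg (bc G (dsum W (blk ρ))) 1, IsOpen {x | s x ≠ 0}) → IsOpen (Δ : Set Γ)) ∧
      N ≤ ∑ j, if j ∈ A then Fintype.card (nn j) else Fintype.card (nn j) / 3 := by
  have hopf := coefAlg_hopf (bc G (dsum W (blk ρ))) 1
  obtain ⟨Δ, hΔ1, hΔ2, hΔ3, hΔ4⟩ := exists_conn hopf.comul hopf.fg
  obtain ⟨A, hA⟩ : ∃ A : Finset J, ∀ j, j ∈ A ↔ ∀ i i', (fun x => bc G ((ρ j).comp Δ.subtype) x i i') ∈
      coefAlg (bc G (W.comp Δ.subtype)) 1 := ⟨Finset.univ.filter fun j => ∀ i i',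
        (fun x => bc G ((ρ j).comp Δ.subtype) x i i') ∈ coefAlg (bc G (W.comp Δ.subtype)) 1, fun j => by simp⟩
  refine ⟨Δ, A, hΔ1, hΔ2, fun j hj => (hA j).1 hj, hΔ4, ?_⟩
  have hle := fun j => coefAlg_blk (G := G) W ρ j
  have hdom : ∀ j, IsDomain (RR (bc G (W.comp Δ.subtype)) (bc G ((ρ j).comp Δ.subtype))) := by
    intro j
    have h1 := res_domain (bc G (dsum W (ρ j))) Δ (fun r hr s hs => hΔ3 r (hle j hr) s (hle j hs))
    have h2 : (bc G (dsum W (ρ j))).comp Δ.subtype =
        dsum (bc G (W.comp Δ.subtype)) (bc G ((ρ j).comp Δ.subtype)) := by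
      rw [← dsum_bc]
      rfl
    rw [h2] at h1
    exact h1
  have hbad : ∀ j, j ∉ A → ∃ i ≤ Fintype.card (nn j) / 3, ∃ x ∈ Δ,
      (Polynomial.aeval (bc G (ρ j) x ^ k) (bc G W x ^ k).charpoly).charpoly.coeff i ≠ 0 := by
    intro j hj
    by_contra hcon
    push Not at hcon
    apply hj
    rw [hA]
    refine core_on (G := G) Δ W (ρ j) (hirr j) (hdom j) (Fintype.card (nn j) / 3 + 1) k hk (by omega) ?_
    intro x hx i hi
    have h1 := hcon i (by omega) x hx
    rw [aeval_bc, Polynomial.coeff_map] at h1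
    exact (map_eq_zero (algebraMap F G)).mp h1
  choose! ii hii1 hii2 using hbad
  obtain ⟨x, hx, hx2⟩ := exists_ne Δ hΔ3 (Finset.univ.filter fun j => j ∉ A)
    (fun j x => (Polynomial.aeval (bc G (ρ j) x ^ k) (bc G W x ^ k).charpoly).charpoly.coeff (ii j))
    (fun j _ => hle j (coeff_mem_RR W (ρ j) k (ii j)))
    (fun j hj => hii2 j (Finset.mem_filter.mp hj).2)
  refine (h x).trans (Finset.sum_le_sum fun j _ => ?_)
  obtain ⟨P, hP⟩ : ∃ P, P = (Polynomial.aeval (ρ j x ^ k) (W x ^ k).charpoly).charpoly := ⟨_, rfl⟩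
  have hPm : P.Monic := hP ▸ Matrix.charpoly_monic _
  have hPd : P.natDegree = Fintype.card (nn j) := hP ▸ Matrix.charpoly_natDegree_eq_dim _
  rw [← hP]
  split_ifs with hj
  · rw [← hPd, ← Polynomial.count_roots]
    exact (Multiset.count_le_card _ _).trans (Polynomial.card_roots' P)
  · have h1 := hx2 j (Finset.mem_filter.mpr ⟨Finset.mem_univ _, hj⟩)
    change (Polynomial.aeval (bc G (ρ j) x ^ k) (bc G W x ^ k).charpoly).charpoly.coeff (ii j) ≠ 0 at h1
    rw [aeval_bc, Polynomial.coeff_map, ← hP] at h1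
    have h2 : P.coeff (ii j) ≠ 0 := fun h0 => h1 (by rw [h0, map_zero])
    refine le_trans ?_ (hii1 j hj)
    by_contra hcon
    push Not at hcon
    have h3 : Polynomial.X ^ (ii j + 1) ∣ P := by
      have h4 := (Polynomial.le_rootMultiplicity_iff hPm.ne_zero (a := 0) (n := ii j + 1)).1 hcon
      rwa [map_zero, sub_zero] at h4
    rw [Polynomial.X_pow_dvd_iff] at h3
    exact h2 (h3 _ (Nat.lt_succ_self _))

end

section Closed

variable {G : Type*} [Field G] [TopologicalSpace G] [IsTopologicalRing G] [T2Space G] {Γ : Type*} [Group Γ]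
  [TopologicalSpace Γ] [IsTopologicalGroup Γ] {m : Type*} [Fintype m] [DecidableEq m]
  {J : Type*} [Fintype J] {nn : J → Type*} [∀ j, Fintype (nn j)] [∀ j, DecidableEq (nn j)]

theorem rootMult_prod {J : Type*} (S : Finset J) (p : J → Polynomial G) (hp : ∀ j, (p j).Monic) :
    (∏ j ∈ S, p j).rootMultiplicity 0 = ∑ j ∈ S, (p j).rootMultiplicity 0 := by
  classical
  induction S using Finset.induction_on with
  | empty => simp [← Polynomial.count_roots]
  | insert j S hj ih =>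
    rw [Finset.prod_insert hj, Finset.sum_insert hj, Polynomial.rootMultiplicity_mul, ih]
    exact ((hp j).mul (Polynomial.monic_prod_of_monic _ _ fun i _ => hp i)).ne_zero

theorem sum_closed (W : Γ →* Matrix m m G) (ρ : ∀ j, Γ →* Matrix (nn j) (nn j) G) (hW : Continuous W)
    (hρ : ∀ j, Continuous (ρ j)) (N k : ℕ) :
    IsClosed {x | N ≤ ∑ j, (Polynomial.aeval (ρ j x ^ k) (W x ^ k).charpoly).charpoly.rootMultiplicity 0} := by
  have h1 : {x | N ≤ ∑ j, (Polynomial.aeval (ρ j x ^ k) (W x ^ k).charpoly).charpoly.rootMultiplicity 0} =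
      ⋂ i : Fin N, {x | (∏ j, (Polynomial.aeval (ρ j x ^ k) (W x ^ k).charpoly).charpoly).coeff i = 0} := by
    ext x
    rw [Set.mem_iInter, Set.mem_ofPred_eq, ← rootMult_prod _ _ fun j => Matrix.charpoly_monic _,
      Polynomial.le_rootMultiplicity_iff
        (Polynomial.monic_prod_of_monic _ _ fun j _ => Matrix.charpoly_monic _).ne_zero,
      map_zero, sub_zero, Polynomial.X_pow_dvd_iff]
    exact ⟨fun h i => h i i.2, fun h i hi => h ⟨i, hi⟩⟩
  rw [h1]
  refine isClosed_iInter fun i => ?_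
  have h2 : ContPoly fun x => ∏ j, (Polynomial.aeval (ρ j x ^ k) (W x ^ k).charpoly).charpoly := by
    refine ContPoly.prod _ (fun j x => (Polynomial.aeval (ρ j x ^ k) (W x ^ k).charpoly).charpoly) fun j => ?_
    refine contPoly_charpoly _ ?_
    exact ContPoly.aeval _ ((hρ j).pow k) (contPoly_charpoly _ (hW.pow k))
  exact isClosed_singleton.preimage (h2.1 i)

end Closed

end Pool.Agent.H40LT
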