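import Mathlib
import Pool.Agent.H40LT.Multi

/-!
# The number of the eigenvalues which are roots of unity
-/

set_option autoImplicit false
set_option linter.unusedSectionVars false
set_option linter.style.haveILetI false

namespace Pool.Agent.H40LT

open Module Matrix Pool.Agent.H40GO Topology

section NT

/-- an exponent for all roots of unity of degree at most `b` -/
def expo (b : ℕ) : ℕ := (b + 1).factorial ^ (b + 1)

theorem expo_ne_zero (b : ℕ) : expo b ≠ 0 := pow_ne_zero _ (Nat.factorial_ne_zero _)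

theorem dvd_expo (b d : ℕ) (hd : 0 < d) (h : d.totient ≤ b) : d ∣ expo b := by
  rw [Nat.dvd_iff_prime_pow_dvd_dvd]
  intro p k hp hpk
  rcases Nat.eq_zero_or_pos k with rfl | hk
  · simp
  have h1 : (p ^ k).totient ≤ b :=
    (Nat.le_of_dvd (Nat.totient_pos.mpr hd) (Nat.totient_dvd_of_dvd hpk)).trans h
  rw [Nat.totient_prime_pow hp hk] at h1
  have h2 : p ^ (k - 1) ≤ b := (Nat.le_mul_of_pos_right _ (Nat.sub_pos_of_lt hp.one_lt)).trans h1
  have h3 : p - 1 ≤ b := (Nat.le_mul_of_pos_left _ (pow_pos hp.pos _)).trans h1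
  have h4 : k - 1 < p ^ (k - 1) := Nat.lt_pow_self hp.one_lt
  have h5 : p ∣ (b + 1).factorial := (hp.dvd_factorial).mpr (by omega)
  exact (pow_dvd_pow_of_dvd h5 k).trans (pow_dvd_pow _ (by omega))

theorem pow_expo {G : Type*} [Field G] [CharZero G] (P : Polynomial ℚ) (hP : P ≠ 0) (b : ℕ) (hb : P.natDegree ≤ b)
    (z : G) (hz : Polynomial.aeval z P = 0) (d : ℕ) (hd : 0 < d) (hzd : z ^ d = 1) : z ^ expo b = 1 := by
  have h1 : 0 < orderOf z := orderOf_pos_iff.mpr (isOfFinOrder_iff_pow_eq_one.mpr ⟨d, hd, hzd⟩)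
  have h2 : IsPrimitiveRoot z (orderOf z) := IsPrimitiveRoot.orderOf z
  have h3 := Polynomial.cyclotomic_eq_minpoly_rat h2 h1
  have h4 : (orderOf z).totient ≤ b := by
    rw [← Polynomial.natDegree_cyclotomic (orderOf z) ℚ, h3]
    exact (Polynomial.natDegree_le_of_dvd (minpoly.dvd ℚ z hz) hP).trans hb
  exact orderOf_dvd_iff_pow_eq_one.mp (dvd_expo b _ h1 h4)

end NT

section

variable {F : Type*} [Field F] {G : Type*} [Field G] [Algebra F G] {Γ : Type*} [Group Γ]

theorem const_of_mem {k : Type*} [Fintype k] [DecidableEq k] (W : Γ →* Matrix k k G) (hW : ∀ x, W x = 1) (f : Γ → G)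
    (hf : f ∈ coefAlg W 1) (x : Γ) : f x = f 1 := by
  induction hf using Algebra.adjoin_induction with
  | mem f hf =>
    rcases hf with (⟨⟨i, j⟩, rfl⟩ | ⟨⟨i, j⟩, rfl⟩) | (rfl | rfl)
    · change W x i j = W 1 i j
      rw [hW, hW]
    · change W x⁻¹ i j = W 1⁻¹ i j
      rw [hW, hW]
    · rfl
    · rfl
  | algebraMap c => rfl
  | add f g _ _ hf hg => rw [Pi.add_apply, Pi.add_apply, hf, hg]
  | mul f g _ _ hf hg => rw [Pi.mul_apply, Pi.mul_apply, hf, hg]

theorem finite_of_trivial {n : Type*} [Fintype n] [DecidableEq n] (ρ : Γ →* Matrix n n F) (Δ : Subgroup Γ)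
    [Δ.FiniteIndex] (h : ∀ x ∈ Δ, ρ x = 1) : (Set.range ρ).Finite := by
  have h1 : Set.range ρ = Set.range fun q : Γ ⧸ Δ => ρ q.out := by
    ext M
    constructor
    · rintro ⟨x, rfl⟩
      refine ⟨(x : Γ ⧸ Δ), ?_⟩
      have h2 : ((x : Γ ⧸ Δ).out)⁻¹ * x ∈ Δ := QuotientGroup.eq.mp (QuotientGroup.out_eq' _)
      have h3 : x = (x : Γ ⧸ Δ).out * (((x : Γ ⧸ Δ).out)⁻¹ * x) := by group
      change ρ ((x : Γ ⧸ Δ).out) = ρ x
      conv_rhs => rw [h3]
      rw [map_mul, h _ h2, mul_one]
    · rintro ⟨q, rfl⟩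
      exact ⟨_, rfl⟩
  rw [h1]
  exact Set.finite_range _

variable [CharZero F] [IsAlgClosed G]

/-- being a root of unity -/
def IsUnity (z : G) : Prop := ∃ d : ℕ, 0 < d ∧ z ^ d = 1

theorem trivial_factor {n : Type*} [Fintype n] [DecidableEq n] (ρ : Γ →* Matrix n n F) (Δ : Subgroup Γ)
    (h : ∀ i i', (fun x => bc G (ρ.comp Δ.subtype) x i i') ∈
      coefAlg (bc G ((1 : Γ →* Matrix (Fin 1) (Fin 1) F).comp Δ.subtype)) 1) : ∀ x ∈ Δ, ρ x = 1 := by
  intro x hx
  ext i j
  have h1 := const_of_mem _ (by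
    intro y
    change (1 : Matrix (Fin 1) (Fin 1) F).map (algebraMap F G) = 1
    rw [Matrix.map_one _ (map_zero _) (map_one _)]) _ (h i j) ⟨x, hx⟩
  have h2 : algebraMap F G (ρ x i j) = algebraMap F G (ρ 1 i j) := h1
  rw [map_one] at h2
  exact (algebraMap F G).injective h2

open scoped Classical in
theorem unity_count {n : Type*} [Fintype n] [DecidableEq n] (ρ : Γ →* Matrix n n F) (σ : Γ) (k : ℕ)
    (h : ∀ z : G, (bc G ρ σ).charpoly.IsRoot z → IsUnity z → z ^ k = 1) :
    Multiset.card ((bc G ρ σ).charpoly.roots.filter IsUnity) ≤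
      (Polynomial.aeval (ρ σ ^ k) (((1 : Γ →* Matrix (Fin 1) (Fin 1) F) σ) ^ k).charpoly).charpoly.rootMultiplicity
        0 := by
  have h1 : MZ (Multiset.card ((bc G ρ σ).charpoly.roots.filter IsUnity))
      (Polynomial.aeval (bc G ρ σ) (Polynomial.X ^ k - 1 : Polynomial G)) := by
    apply count_mz
    refine Multiset.card_le_card ?_
    rw [Multiset.le_filter]
    refine ⟨Multiset.filter_le _ _, fun z hz => ?_⟩
    rw [Multiset.mem_filter, Polynomial.mem_roots (Matrix.charpoly_monic _).ne_zero] at hz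
    rw [Polynomial.eval_sub, Polynomial.eval_pow, Polynomial.eval_X, Polynomial.eval_one, h z hz.1 hz.2, sub_self]
  have h2 : Polynomial.aeval (bc G ρ σ) (Polynomial.X ^ k - 1 : Polynomial G) =
      (Polynomial.aeval (ρ σ ^ k) (((1 : Γ →* Matrix (Fin 1) (Fin 1) F) σ) ^ k).charpoly).map (algebraMap F G) := by
    rw [MonoidHom.one_apply, one_pow, Matrix.charpoly_one, Fintype.card_fin, pow_one, map_sub, map_sub,
      Polynomial.aeval_X, map_one, map_one, map_pow, Polynomial.aeval_X]
    have h3 : (ρ σ ^ k - 1).map (algebraMap F G) = (algebraMap F G).mapMatrix (ρ σ ^ k - 1) := rfl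
    rw [h3, map_sub, map_pow, map_one]
    rfl
  rw [h2] at h1
  have h3 := h1.of_map _ (algebraMap F G).injective
  exact (mz_iff _).1 h3

open scoped Classical in
theorem unity_finite {n : Type*} [Fintype n] [DecidableEq n] (ρ : Γ →* Matrix n n F)
    (h : (Set.range ρ).Finite) (σ : Γ) :
    Multiset.card ((bc G ρ σ).charpoly.roots.filter IsUnity) = Fintype.card n := by
  have h1 : (bc G ρ σ).charpoly.roots.filter IsUnity = (bc G ρ σ).charpoly.roots := by
    rw [Multiset.filter_eq_self]
    intro z hz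
    rw [Polynomial.mem_roots (Matrix.charpoly_monic _).ne_zero] at hz
    obtain ⟨d, hd0, -, hd⟩ := order_le ρ h σ
    refine ⟨d, hd0, ?_⟩
    have h4 : bc G ρ σ ^ d = 1 := by
      have h5 := congrArg (algebraMap F G).mapMatrix hd
      rw [map_pow, map_one] at h5
      exact h5
    have h5 := eig_pow (bc G ρ σ) z d hz
    rw [h4] at h5
    rw [Matrix.charpoly_one, Polynomial.IsRoot.def, Polynomial.eval_pow, Polynomial.eval_sub, Polynomial.eval_X,
      Polynomial.eval_one] at h5
    exact sub_eq_zero.mp (eq_zero_of_pow_eq_zero h5)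
  rw [h1, IsAlgClosed.card_roots_eq_natDegree, Matrix.charpoly_natDegree_eq_dim]

end

section Main

variable {F : Type*} [Field F] [CharZero F] [TopologicalSpace F] {G : Type*} [Field G] [Algebra F G]
  [TopologicalSpace G] [IsTopologicalRing G] [T2Space G] [IsAlgClosed G] {Γ : Type*} [Group Γ] [TopologicalSpace Γ]
  [IsTopologicalGroup Γ]

open scoped Classical in
theorem unity_sum {b s : ℕ} (H : Γ →* Matrix (Fin b) (Fin b) F) (n : Fin s → ℕ)
    (ρ : ∀ j, Γ →* Matrix (Fin (n j)) (Fin (n j)) F) (σ : Γ) (hfac : (H σ).charpoly = ∏ j, (ρ j σ).charpoly)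
    (p : G → Prop) :
    Multiset.card ((bc G H σ).charpoly.roots.filter p) =
      ∑ j, Multiset.card ((bc G (ρ j) σ).charpoly.roots.filter p) := by
  have h1 : (bc G H σ).charpoly = ∏ j, (bc G (ρ j) σ).charpoly := by
    rw [bc_charpoly, hfac, Polynomial.map_prod]
    exact Finset.prod_congr rfl fun j _ => (bc_charpoly _ _).symm
  rw [h1, Polynomial.roots_prod _ _ (Polynomial.monic_prod_of_monic _ _ fun j _ => Matrix.charpoly_monic _).ne_zero,
    Multiset.filter_bind]
  rw [Multiset.bind, Multiset.card_join, Multiset.map_map]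
  rfl

open scoped Classical in
/-- **The number of eigenvalues which are roots of unity.** -/
theorem main_unity (hFG : Continuous (algebraMap F G)) (S : Set Γ) (hS : Dense S) {b s : ℕ}
    (H : Γ →* Matrix (Fin b) (Fin b) F) (n : Fin s → ℕ) (ρ : ∀ j, Γ →* Matrix (Fin (n j)) (Fin (n j)) F)
    (hρ : ∀ j, Continuous (ρ j)) (hirr : ∀ j, Irr (ρ j)) (hfac : ∀ σ, (H σ).charpoly = ∏ j, (ρ j σ).charpoly)
    (hrat : ∀ σ ∈ S, ∃ P : Polynomial ℚ, (H σ).charpoly = P.map (algebraMap ℚ F)) :
    (∀ σ, (∑ j, if (Set.range (ρ j)).Finite then n j else 0) ≤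
      Multiset.card ((bc G H σ).charpoly.roots.filter IsUnity)) ∧
    ∃ σ ∈ S, Multiset.card ((bc G H σ).charpoly.roots.filter IsUnity) ≤
      ∑ j, if (Set.range (ρ j)).Finite then n j else n j / 3 := by
  haveI : CharZero G := charZero_of_injective_algebraMap (algebraMap F G).injective
  constructor
  · intro σ
    rw [unity_sum H n ρ σ (hfac σ)]
    refine Finset.sum_le_sum fun j _ => ?_
    split_ifs with h
    · rw [unity_finite (ρ j) h σ, Fintype.card_fin]
    · exact Nat.zero_le _
  · by_contra hcon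
    push Not at hcon
    obtain ⟨N, hN⟩ : ∃ N, N = (∑ j, if (Set.range (ρ j)).Finite then n j else n j / 3) + 1 := ⟨_, rfl⟩
    have hk := expo_ne_zero b
    have h1 : ∀ x ∈ S, N ≤ ∑ j, (Polynomial.aeval (bc G (ρ j) x ^ expo b)
        (bc G (1 : Γ →* Matrix (Fin 1) (Fin 1) F) x ^ expo b).charpoly).charpoly.rootMultiplicity 0 := by
      intro x hx
      have h2 := hcon x hx
      rw [unity_sum H n ρ x (hfac x)] at h2
      have h3 : N ≤ ∑ j, Multiset.card ((bc G (ρ j) x).charpoly.roots.filter IsUnity) := by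
        rw [hN]
        exact h2
      refine h3.trans (Finset.sum_le_sum fun j _ => ?_)
      rw [aeval_bc]
      have h4 : ∀ P : Polynomial F, (P.map (algebraMap F G)).rootMultiplicity 0 = P.rootMultiplicity 0 := by
        intro P
        have h5 := Polynomial.eq_rootMultiplicity_map (p := P) (algebraMap F G).injective 0
        rw [map_zero] at h5
        exact h5.symm
      rw [h4]
      refine unity_count (ρ j) x (expo b) ?_
      intro z hz ⟨d, hd, hzd⟩
      obtain ⟨P, hP⟩ := hrat x hx
      have hPm : P.Monic := by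
        have h5 : (P.map (algebraMap ℚ F)).Monic := hP ▸ Matrix.charpoly_monic (H x)
        exact Polynomial.monic_of_injective (algebraMap ℚ F).injective h5
      have hPd : P.natDegree ≤ b := by
        have h5 := congrArg Polynomial.natDegree hP
        rw [Matrix.charpoly_natDegree_eq_dim, Fintype.card_fin,
          Polynomial.natDegree_map_eq_of_injective (algebraMap ℚ F).injective] at h5
        exact h5.symm.le
      refine pow_expo P hPm.ne_zero b hPd z ?_ d hd hzd
      have h5 : (bc G H x).charpoly = P.map (algebraMap ℚ G) := by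
        rw [bc_charpoly, hP, Polynomial.map_map]
        congr 1
        exact RingHom.ext_rat _ _
      have h6 : (bc G H x).charpoly = ∏ j, (bc G (ρ j) x).charpoly := by
        rw [bc_charpoly, hfac, Polynomial.map_prod]
        exact Finset.prod_congr rfl fun j _ => (bc_charpoly _ _).symm
      rw [Polynomial.aeval_def, ← Polynomial.eval_map, ← h5, h6, Polynomial.eval_prod]
      exact Finset.prod_eq_zero (Finset.mem_univ j) hz
    have h2 : ∀ x, N ≤ ∑ j, (Polynomial.aeval (bc G (ρ j) x ^ expo b)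
        (bc G (1 : Γ →* Matrix (Fin 1) (Fin 1) F) x ^ expo b).charpoly).charpoly.rootMultiplicity 0 := by
      have h3 := sum_closed (bc G (1 : Γ →* Matrix (Fin 1) (Fin 1) F)) (fun j => bc G (ρ j)) (by
        have h4 : (bc G (1 : Γ →* Matrix (Fin 1) (Fin 1) F) : Γ → Matrix (Fin 1) (Fin 1) G) = fun _ => 1 := by
          funext x
          change (1 : Matrix (Fin 1) (Fin 1) F).map (algebraMap F G) = 1
          rw [Matrix.map_one _ (map_zero _) (map_one _)]
        rw [h4]
        exact continuous_const) (fun j => by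
          have h4 : (bc G (ρ j) : Γ → Matrix (Fin (n j)) (Fin (n j)) G) = fun x => (ρ j x).map (algebraMap F G) := rfl
          rw [h4]
          exact (hρ j).matrix_map hFG) N (expo b)
      have h4 := h3.closure_eq
      intro x
      have h5 : x ∈ closure S := hS x
      have h6 := closure_mono (show S ⊆ {x | N ≤ ∑ j, (Polynomial.aeval (bc G (ρ j) x ^ expo b)
        (bc G (1 : Γ →* Matrix (Fin 1) (Fin 1) F) x ^ expo b).charpoly).charpoly.rootMultiplicity 0} from h1) h5
      rw [h4] at h6
      exact h6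
    have h3 : ∀ x, N ≤ ∑ j, (Polynomial.aeval (ρ j x ^ expo b)
        ((1 : Γ →* Matrix (Fin 1) (Fin 1) F) x ^ expo b).charpoly).charpoly.rootMultiplicity 0 := by
      intro x
      refine (h2 x).trans (le_of_eq (Finset.sum_congr rfl fun j _ => ?_))
      rw [aeval_bc]
      have h5 := Polynomial.eq_rootMultiplicity_map (p := (Polynomial.aeval (ρ j x ^ expo b)
        ((1 : Γ →* Matrix (Fin 1) (Fin 1) F) x ^ expo b).charpoly).charpoly) (algebraMap F G).injective 0
      rw [map_zero] at h5
      exact h5.symm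
    obtain ⟨Δ, A, hΔ1, hΔ2, hA, -, hle⟩ := multi_core (G := G) (1 : Γ →* Matrix (Fin 1) (Fin 1) F) ρ hirr N
      (expo b) hk h3
    have h4 : (∑ j, if j ∈ A then Fintype.card (Fin (n j)) else Fintype.card (Fin (n j)) / 3) ≤
        ∑ j, if (Set.range (ρ j)).Finite then n j else n j / 3 := by
      refine Finset.sum_le_sum fun j _ => ?_
      rw [Fintype.card_fin]
      by_cases hj : j ∈ A
      · have h5 : (Set.range (ρ j)).Finite := finite_of_trivial (ρ j) Δ (trivial_factor (G := G) (ρ j) Δ (hA j hj))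
        rw [if_pos hj, if_pos h5]
      · rw [if_neg hj]
        split_ifs
        · exact Nat.div_le_self _ _
        · exact le_refl _
    omega

end Main

end Pool.Agent.H40LT
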