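import Mathlib
import Pool.Agent.H40LT.Count

/-!
# Positivity: a finite group of matrices all of whose elements fix at least half of the space has invariants
-/

set_option autoImplicit false
set_option linter.unusedSectionVars false
set_option linter.style.haveILetI false

namespace Pool.Agent.H40LT

open Module Matrix Pool.Agent.H40GO

/-- the real part on the field of algebraic numbers, extended -/
theorem exists_real (G : Type*) [Field G] [CharZero G] : ∃ l : G →+ ℝ, l 1 = 1 ∧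
    ∀ r : G, ∀ e : ℕ, e ≠ 0 → r ^ e = 1 → -1 ≤ l r := by
  obtain ⟨E₀, hE₀⟩ : ∃ E₀ : IntermediateField ℚ G, E₀ = algebraicClosure ℚ G := ⟨_, rfl⟩
  have halg : Algebra.IsAlgebraic ℚ E₀ := by
    rw [hE₀]
    exact algebraicClosure.isAlgebraic ℚ G
  let ι : E₀ →ₐ[ℚ] ℂ := IsAlgClosed.lift
  let f₀ : (E₀.toSubalgebra.toSubmodule : Submodule ℚ G) →+ ℝ :=
    { toFun := fun x => (ι ⟨x.1, x.2⟩).re
      map_zero' := by
        have h1 : (⟨((0 : (E₀.toSubalgebra.toSubmodule : Submodule ℚ G)) : G), (0 : (E₀.toSubalgebra.toSubmodule :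
          Submodule ℚ G)).2⟩ : E₀) = 0 := rfl
        rw [h1, map_zero, Complex.zero_re]
      map_add' := fun x y => by
        have h1 : (⟨(x + y).1, (x + y).2⟩ : E₀) = ⟨x.1, x.2⟩ + ⟨y.1, y.2⟩ := rfl
        rw [h1, map_add, Complex.add_re] }
  let f : (E₀.toSubalgebra.toSubmodule : Submodule ℚ G) →ₗ[ℚ] ℝ := f₀.toRatLinearMap
  obtain ⟨l, hl⟩ := LinearMap.exists_extend f
  have hl' : ∀ x (hx : x ∈ E₀), l x = (ι ⟨x, hx⟩).re := by
    intro x hx
    exact congrArg (fun g : (E₀.toSubalgebra.toSubmodule : Submodule ℚ G) →ₗ[ℚ] ℝ => g ⟨x, hx⟩) hl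
  refine ⟨l.toAddMonoidHom, ?_, ?_⟩
  · change l 1 = 1
    rw [hl' 1 E₀.one_mem]
    have h1 : (⟨1, E₀.one_mem⟩ : E₀) = 1 := rfl
    rw [h1, map_one, Complex.one_re]
  · intro r e he hr
    have hrE : r ∈ E₀ := by
      rw [hE₀, mem_algebraicClosure_iff]
      refine IsIntegral.isAlgebraic ⟨Polynomial.X ^ e - 1, Polynomial.monic_X_pow_sub_C 1 he, ?_⟩
      simp [hr]
    change -1 ≤ l r
    rw [hl' r hrE]
    have h1 : (ι ⟨r, hrE⟩) ^ e = 1 := by
      rw [← map_pow]
      have h2 : (⟨r, hrE⟩ : E₀) ^ e = 1 := Subtype.ext hr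
      rw [h2, map_one]
    have h2 : ‖ι ⟨r, hrE⟩‖ = 1 := Complex.norm_eq_one_of_pow_eq_one h1 he
    have h3 := Complex.abs_re_le_norm (ι ⟨r, hrE⟩)
    rw [h2] at h3
    exact (abs_le.mp h3).1

theorem sum_ge {G : Type*} [Field G] [DecidableEq G] (l : G →+ ℝ) (hl1 : l 1 = 1) (R : Multiset G)
    (hR : ∀ r ∈ R, -1 ≤ l r) : 2 * (R.count 1 : ℝ) - Multiset.card R ≤ (R.map l).sum := by
  induction R using Multiset.induction_on with
  | empty => simp
  | cons a R ih =>
    have h1 := ih fun r hr => hR r (Multiset.mem_cons_of_mem hr)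
    rw [Multiset.map_cons, Multiset.sum_cons, Multiset.card_cons, Multiset.count_cons]
    by_cases ha : a = 1
    · subst ha
      rw [if_pos rfl, hl1]
      push_cast
      linarith
    · have h2 := hR a (Multiset.mem_cons_self a R)
      rw [if_neg (fun h => ha h.symm)]
      push_cast
      linarith

theorem trace_ge {G : Type*} [Field G] [IsAlgClosed G] {n : Type*} [Fintype n] [DecidableEq n] (l : G →+ ℝ)
    (hl1 : l 1 = 1) (hl : ∀ r : G, ∀ e : ℕ, e ≠ 0 → r ^ e = 1 → -1 ≤ l r) (h : Matrix n n G) (e : ℕ) (he : e ≠ 0)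
    (hh : h ^ e = 1) (N : ℕ) (hN : Fintype.card n ≤ 2 * N) (hmz : MZ N (h - 1)) : 0 ≤ l h.trace := by
  classical
  have h1 : ∀ r ∈ h.charpoly.roots, -1 ≤ l r := by
    intro r hr
    apply hl r e he
    have h2 : h.charpoly.IsRoot r := (Polynomial.mem_roots (Matrix.charpoly_monic _).ne_zero).mp hr
    obtain ⟨v, hv0, hv⟩ := (isRoot_iff _ _).1 h2
    have h3 : ∀ k : ℕ, (h ^ k) *ᵥ v = r ^ k • v := by
      intro k
      induction k with
      | zero => rw [pow_zero, pow_zero, Matrix.one_mulVec, one_smul]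
      | succ k ih => rw [pow_succ, ← Matrix.mulVec_mulVec, hv, Matrix.mulVec_smul, ih, smul_smul, pow_succ, mul_comm]
    have h4 := h3 e
    rw [hh, Matrix.one_mulVec] at h4
    obtain ⟨i, hi⟩ : ∃ i, v i ≠ 0 := by
      by_contra hcon
      push Not at hcon
      exact hv0 (funext hcon)
    have h6 := congrFun h4 i
    rw [Pi.smul_apply, smul_eq_mul] at h6
    have h7 : (r ^ e - 1) * v i = 0 := by rw [sub_mul, one_mul, ← h6, sub_self]
    rcases mul_eq_zero.mp h7 with h8 | h8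
    · exact sub_eq_zero.mp h8
    · exact absurd h8 hi
  have h2 := sum_ge l hl1 _ h1
  rw [Matrix.trace_eq_sum_roots_charpoly, map_multiset_sum]
  refine le_trans ?_ h2
  have h3 : Multiset.card h.charpoly.roots = Fintype.card n := by
    rw [IsAlgClosed.card_roots_eq_natDegree, Matrix.charpoly_natDegree_eq_dim]
  have h4 : N ≤ h.charpoly.roots.count 1 := by
    rw [Polynomial.count_roots, ← Matrix.charpoly_toLin', ← LinearMap.finrank_maxGenEigenspace_eq]
    rw [mz_iff_finrank] at hmz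
    refine hmz.trans (Submodule.finrank_mono ?_)
    intro v hv
    rw [mem_max] at hv
    rw [Module.End.mem_maxGenEigenspace]
    obtain ⟨k, hk⟩ := hv
    refine ⟨k, ?_⟩
    have h5 : Matrix.toLin' (h - 1) = Matrix.toLin' h - (1 : G) • 1 := by
      rw [map_sub, Matrix.toLin'_one, one_smul]
      rfl
    rwa [h5] at hk
  rw [h3]
  have h5 : (N : ℝ) ≤ (h.charpoly.roots.count 1 : ℝ) := by exact_mod_cast h4
  have h6 : (Fintype.card n : ℝ) ≤ 2 * (N : ℝ) := by exact_mod_cast hN
  linarith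

end Pool.Agent.H40LT
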