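import Mathlib
import Pool.Agent.H40LT.Pos
import Pool.Agent.H40LT.Third

/-!
# The main algebraic theorem: at least half of the eigenvalues
-/

set_option autoImplicit false
set_option linter.unusedSectionVars false
set_option linter.style.haveILetI false

namespace Pool.Agent.H40LT

open Module Matrix Pool.Agent.H40GO

section Int

variable {G : Type*} [Field G] {Γ : Type*} [Group Γ] {m n : Type*} [Fintype m] [DecidableEq m] [Fintype n]
  [DecidableEq n]

/-- integrality on the group from a subgroup of finite index -/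
theorem integral_of_res (W : Γ →* Matrix m m G) (ρ : Γ →* Matrix n n G) (Δ : Subgroup Γ) [Δ.FiniteIndex]
    (h : ∀ i j, ∃ f ∈ coefAlg W 1, ∀ x ∈ Δ, ρ x i j = f x) (i j : n) :
    IsIntegral (coefAlg W 1) (fun x => ρ x i j) := by
  classical
  haveI : Fintype (Γ ⧸ Δ) := Fintype.ofFinite _
  choose a ha ha' using h
  have h3 : (fun x => ρ x i j) =
      ∑ s : Γ ⧸ Δ, ∑ k, (algebraMap G (Γ → G) (ρ s.out i k) * lt (s.out)⁻¹ (a k j)) *
        (fun x => if (QuotientGroup.mk x : Γ ⧸ Δ) = s then (1 : G) else 0) := by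
    funext x
    rw [Finset.sum_apply, Finset.sum_eq_single (QuotientGroup.mk x)]
    · rw [Finset.sum_apply]
      have h4 : (QuotientGroup.mk x : Γ ⧸ Δ).out⁻¹ * x ∈ Δ := by
        rw [← QuotientGroup.eq]
        exact QuotientGroup.out_eq' _
      have h5 : ρ x i j = ∑ k, ρ (QuotientGroup.mk x : Γ ⧸ Δ).out i k *
          ρ ((QuotientGroup.mk x : Γ ⧸ Δ).out⁻¹ * x) k j := by
        rw [← Matrix.mul_apply, ← map_mul, mul_inv_cancel_left]
      refine h5.trans (Finset.sum_congr rfl fun k _ => ?_)
      rw [Pi.mul_apply, Pi.mul_apply, if_pos rfl, mul_one, lt_apply, ← ha' _ _ _ h4]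
      rfl
    · intro s _ hs
      rw [Finset.sum_apply]
      refine Finset.sum_eq_zero fun k _ => ?_
      rw [Pi.mul_apply, if_neg hs.symm, mul_zero]
    · intro h
      exact absurd (Finset.mem_univ _) h
  have hc : ∀ c : G, IsIntegral (coefAlg W 1) (algebraMap G (Γ → G) c) := fun c =>
    isIntegral_algebraMap (A := Γ → G) (x := (algebraMap G (coefAlg W 1) c))
  have hm : ∀ f : Γ → G, f ∈ coefAlg W 1 → IsIntegral (coefAlg W 1) f := fun f hf =>
    isIntegral_algebraMap (A := Γ → G) (x := (⟨f, hf⟩ : coefAlg W 1))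
  rw [h3]
  refine IsIntegral.sum _ fun s _ => IsIntegral.sum _ fun k _ => IsIntegral.mul (IsIntegral.mul ?_ ?_) ?_
  · exact hc _
  · exact hm _ (((coefAlg_hopf W 1).comul _ (ha k j)).lt_mem _)
  · refine ⟨Polynomial.X * (Polynomial.X - Polynomial.C 1), Polynomial.monic_X.mul (Polynomial.monic_X_sub_C 1), ?_⟩
    rw [Polynomial.eval₂_mul, Polynomial.eval₂_sub, Polynomial.eval₂_X, Polynomial.eval₂_C, map_one]
    funext x
    rw [Pi.mul_apply, Pi.sub_apply, Pi.one_apply]
    split_ifs <;> simp

end Int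

section Sum

variable {G : Type*} [Field G] [IsAlgClosed G] [CharZero G] {Γ : Type*} [Group Γ] {m n : Type*} [Fintype m]
  [DecidableEq m] [Fintype n] [DecidableEq n]

/-- the sum of the matrices of the points -/
theorem exists_sum (W : Γ →* Matrix m m G) (ρ : Γ →* Matrix n n G) [Nonempty n]
    (hint : ∀ i j, IsIntegral (coefAlg W 1) (fun x => ρ x i j)) (N : ℕ) (hN : Fintype.card n ≤ 2 * N)
    (h : ∀ x, MZ N (Polynomial.aeval (ρ x) (W x).charpoly)) :
    ∃ S : Finset (Matrix n n G), (∀ M, M ∈ S ↔ ∃ y, Pt W ρ y ∧ pm W ρ y = M) ∧ ∑ M ∈ S, M ≠ 0 ∧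
      ∀ M ∈ S, M * ∑ M ∈ S, M = ∑ M ∈ S, M := by
  classical
  obtain ⟨T, hT⟩ := pts_finite W ρ hint
  have hfin : {M | ∃ y, Pt W ρ y ∧ pm W ρ y = M}.Finite := by
    refine (Set.Finite.subset (s := {M : Matrix n n G | ∀ i j, M i j ∈ T i j}) ?_ ?_)
    · exact Set.Finite.pi' (t := fun i => {g : n → G | ∀ j, g j ∈ T i j})
        fun i => Set.Finite.pi' (t := fun j => (T i j : Set G)) fun j => (T i j).finite_toSet
    · rintro _ ⟨y, hy, rfl⟩
      exact hT y hy
  have hmem : ∀ M, M ∈ hfin.toFinset ↔ ∃ y, Pt W ρ y ∧ pm W ρ y = M := fun M => hfin.mem_toFinset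
  have hcard : 0 < Fintype.card n := Fintype.card_pos
  have hN0 : 0 < N := by omega
  refine ⟨hfin.toFinset, hmem, ?_, ?_⟩
  · obtain ⟨l, hl1, hl⟩ := exists_real G
    have hpos : 0 < l (∑ M ∈ hfin.toFinset, M).trace := by
      rw [Matrix.trace_sum, map_sum]
      refine Finset.sum_pos' ?_ ⟨1, (hmem 1).2 ⟨_, pt_one W ρ, pm_one W ρ⟩, ?_⟩
      · intro M hM
        obtain ⟨y, hy, rfl⟩ := (hmem M).1 hM
        obtain ⟨e, he, hye⟩ := pm_order W ρ hint y hy
        refine trace_ge l hl1 hl _ e he hye N hN ?_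
        -- the point applied to the polynomial
        have h1 : MZ N (Polynomial.aeval (ρm W ρ) (Wm W ρ).charpoly) := by
          intro j hj
          apply Subtype.ext
          funext x
          have h2 := ev_coeff W ρ 1 j x
          simp only [pow_one] at h2
          exact h2.trans (h x j hj)
        have h2 := h1.map (y : RR W ρ →+* G)
        have h3 : (Polynomial.aeval (ρm W ρ) (Wm W ρ).charpoly).map (y : RR W ρ →+* G) =
            (pm W ρ y - 1) ^ Fintype.card m := by
          have h4 := mapMatrix_aeval (y : RR W ρ →+* G) (ρm W ρ) (Wm W ρ).charpoly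
          rw [← Matrix.charpoly_map] at h4
          have h5 : (Wm W ρ).map (y : RR W ρ →+* G) = 1 := pt_W W ρ y hy
          rw [h5, Matrix.charpoly_one, map_pow, map_sub, Polynomial.aeval_X, map_one] at h4
          exact h4
        rw [h3] at h2
        by_cases hm0 : Fintype.card m = 0
        · rw [hm0, pow_zero] at h2
          have h4 := mz_one h2
          omega
        · exact (mz_pow _ _ hm0).mp h2
      · have h1 : (1 : Matrix n n G).trace = ((Fintype.card n : ℕ) : G) := Matrix.trace_one
        rw [h1]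
        have h2 : l ((Fintype.card n : ℕ) : G) = (Fintype.card n : ℝ) := by
          have h3 : ((Fintype.card n : ℕ) : G) = (Fintype.card n) • (1 : G) := by rw [nsmul_one]
          rw [h3, map_nsmul, hl1, nsmul_one]
        rw [h2]
        exact_mod_cast hcard
    intro h0
    rw [h0, Matrix.trace_zero, map_zero] at hpos
    exact lt_irrefl _ hpos
  · intro M hM
    obtain ⟨y, hy, rfl⟩ := (hmem M).1 hM
    have hunit := pm_isUnit W ρ y
    have himg : (hfin.toFinset).image (fun X => pm W ρ y * X) = hfin.toFinset := by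
      apply Finset.eq_of_subset_of_card_le
      · intro X hX
        obtain ⟨Y, hY, rfl⟩ := Finset.mem_image.mp hX
        obtain ⟨z, hz, rfl⟩ := (hmem Y).1 hY
        obtain ⟨w, hw, hw'⟩ := pm_mul W ρ y z hy hz
        exact (hmem _).2 ⟨w, hw, hw'⟩
      · rw [Finset.card_image_of_injective _ (fun a b hab => hunit.mul_left_cancel hab)]
    rw [Finset.mul_sum]
    nth_rw 2 [← himg]
    rw [Finset.sum_image fun a _ b _ hab => hunit.mul_left_cancel hab]

end Sum

section Main

variable {F : Type*} [Field F] {G : Type*} [Field G] [Algebra F G] {Γ : Type*} [Group Γ]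
  {k m n : Type*} [Fintype k] [DecidableEq k] [Fintype m] [DecidableEq m] [Fintype n] [DecidableEq n]

/-- composition with an automorphism of the field of values -/
def post (s : G ≃ₐ[F] G) (Γ : Type*) : (Γ → G) →+* (Γ → G) where
  toFun f x := s (f x)
  map_one' := by funext x; exact map_one _
  map_mul' f g := by funext x; exact map_mul _ _ _
  map_zero' := by funext x; exact map_zero _
  map_add' f g := by funext x; exact map_add _ _ _

theorem post_mem (s : G ≃ₐ[F] G) (U : Γ →* Matrix k k F) (f : Γ → G) (hf : f ∈ coefAlg (bc G U) 1) :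
    post s Γ f ∈ coefAlg (bc G U) 1 := by
  induction hf using Algebra.adjoin_induction with
  | mem f hf =>
    rcases hf with (⟨⟨i, j⟩, rfl⟩ | ⟨⟨i, j⟩, rfl⟩) | (rfl | rfl)
    · have h1 : post s Γ (fun x => bc G U x i j) = fun x => bc G U x i j := by
        funext x
        exact s.commutes _
      exact h1 ▸ mem1 (bc G U) 1 i j
    · have h1 : post s Γ (fun x => bc G U x⁻¹ i j) = fun x => bc G U x⁻¹ i j := by
        funext x
        exact s.commutes _
      exact h1 ▸ mem2 (bc G U) 1 i j
    · have h1 : post s Γ (fun x => (1 : Γ →* G) x) = 1 := by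
        funext x
        exact map_one s
      rw [h1]
      exact (coefAlg (bc G U) 1).one_mem
    · have h1 : post s Γ (fun x => (1 : Γ →* G) x⁻¹) = 1 := by
        funext x
        exact map_one s
      rw [h1]
      exact (coefAlg (bc G U) 1).one_mem
  | algebraMap c => exact (coefAlg (bc G U) 1).algebraMap_mem (s c)
  | add f g _ _ hf hg =>
    rw [map_add]
    exact (coefAlg (bc G U) 1).add_mem hf hg
  | mul f g _ _ hf hg =>
    rw [map_mul]
    exact (coefAlg (bc G U) 1).mul_mem hf hg

/-- conjugates of points under the automorphisms of the field -/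
theorem pm_gal (W : Γ →* Matrix m m F) (ρ : Γ →* Matrix n n F) (s : G ≃ₐ[F] G)
    (y : RR (bc G W) (bc G ρ) →ₐ[G] G) (hy : Pt (bc G W) (bc G ρ) y) :
    ∃ z, Pt (bc G W) (bc G ρ) z ∧ pm (bc G W) (bc G ρ) z = (pm (bc G W) (bc G ρ) y).map s := by
  have hmem : ∀ f ∈ RR (bc G W) (bc G ρ), post s.symm Γ f ∈ RR (bc G W) (bc G ρ) := by
    intro f hf
    have hf' : f ∈ coefAlg (bc G (dsum W ρ)) 1 := by
      rw [dsum_bc]
      exact hf
    have h1 := post_mem s.symm (dsum W ρ) f hf'
    rw [dsum_bc] at h1
    exact h1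
  let z : RR (bc G W) (bc G ρ) →ₐ[G] G :=
    { toFun := fun r => s (y ⟨post s.symm Γ (r : Γ → G), hmem r r.2⟩)
      map_one' := by
        have h1 : (⟨post s.symm Γ ((1 : RR (bc G W) (bc G ρ)) : Γ → G), hmem _ (1 : RR (bc G W) (bc G ρ)).2⟩ :
            RR (bc G W) (bc G ρ)) = 1 := Subtype.ext (map_one (post s.symm Γ))
        rw [h1, map_one, map_one]
      map_mul' := fun a b => by
        have h1 : (⟨post s.symm Γ ((a * b : RR (bc G W) (bc G ρ)) : Γ → G), hmem _ (a * b).2⟩ :
            RR (bc G W) (bc G ρ)) = ⟨_, hmem a a.2⟩ * ⟨_, hmem b b.2⟩ := Subtype.ext (map_mul (post s.symm Γ) _ _)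
        rw [h1, map_mul, map_mul]
      map_zero' := by
        have h1 : (⟨post s.symm Γ ((0 : RR (bc G W) (bc G ρ)) : Γ → G), hmem _ (0 : RR (bc G W) (bc G ρ)).2⟩ :
            RR (bc G W) (bc G ρ)) = 0 := Subtype.ext (map_zero (post s.symm Γ))
        rw [h1, map_zero, map_zero]
      map_add' := fun a b => by
        have h1 : (⟨post s.symm Γ ((a + b : RR (bc G W) (bc G ρ)) : Γ → G), hmem _ (a + b).2⟩ :
            RR (bc G W) (bc G ρ)) = ⟨_, hmem a a.2⟩ + ⟨_, hmem b b.2⟩ := Subtype.ext (map_add (post s.symm Γ) _ _)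
        rw [h1, map_add, map_add]
      commutes' := fun c => by
        have h1 : (⟨post s.symm Γ ((algebraMap G (RR (bc G W) (bc G ρ)) c : RR (bc G W) (bc G ρ)) : Γ → G),
            hmem _ (algebraMap G (RR (bc G W) (bc G ρ)) c).2⟩ : RR (bc G W) (bc G ρ)) =
            algebraMap G (RR (bc G W) (bc G ρ)) (s.symm c) := rfl
        rw [h1, y.commutes]
        exact s.apply_symm_apply c }
  have hz : ∀ r, z r = s (y ⟨post s.symm Γ (r : Γ → G), hmem r r.2⟩) := fun r => rfl
  refine ⟨z, ?_, ?_⟩
  · intro a ha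
    rw [hz]
    have h1 := hy _ (post_mem s.symm W a ha)
    have h2 : s ((post s.symm Γ a) 1) = a 1 := s.apply_symm_apply _
    rw [← h2, ← h1]
  · ext i j
    change z (ρm (bc G W) (bc G ρ) i j) = s (y (ρm (bc G W) (bc G ρ) i j))
    rw [hz]
    congr 2
    apply Subtype.ext
    funext x
    exact s.symm.commutes _

/-- **Main algebraic theorem, at least half of the eigenvalues.** -/
theorem half_core [CharZero F] [IsAlgClosed G] [IsGalois F G] (W : Γ →* Matrix m m F) (ρ : Γ →* Matrix n n F)
    (hirr : Irr ρ) (N : ℕ) (hN : Fintype.card n ≤ 2 * N)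
    (h : ∀ x, MZ N (Polynomial.aeval (ρ x) (W x).charpoly)) (i j : n) :
    (fun x => bc G ρ x i j) ∈ coefAlg (bc G W) 1 := by
  classical
  haveI : CharZero G := charZero_of_injective_algebraMap (algebraMap F G).injective
  haveI : Nonempty n := hirr.1
  have hcard : 0 < Fintype.card n := Fintype.card_pos
  letI : TopologicalSpace Γ := ⊥
  haveI : DiscreteTopology Γ := ⟨rfl⟩
  haveI : IsTopologicalGroup Γ := inferInstance
  obtain ⟨Δ, -, hΔ2, hΔ3, -⟩ := core (G := G) W ρ hirr N 1 one_ne_zero (by omega) (by simpa only [pow_one] using h)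
  have hint : ∀ i j, IsIntegral (coefAlg (bc G W) 1) (fun x => bc G ρ x i j) := by
    refine integral_of_res (bc G W) (bc G ρ) Δ fun i j => ?_
    obtain ⟨f, hf, hf'⟩ := res_surj (bc G W) Δ _ (hΔ3 i j)
    exact ⟨f, hf, fun x hx => hf' ⟨x, hx⟩⟩
  have hG : ∀ x, MZ N (Polynomial.aeval (bc G ρ x) (bc G W x).charpoly) := by
    intro x
    have h1 := (h x).map (algebraMap F G)
    have h2 : (Polynomial.aeval (ρ x) (W x).charpoly).map (algebraMap F G) =
        Polynomial.aeval (bc G ρ x) (bc G W x).charpoly := by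
      have h3 := mapMatrix_aeval (algebraMap F G) (ρ x) (W x).charpoly
      rw [← Matrix.charpoly_map] at h3
      exact h3
    rwa [h2] at h1
  obtain ⟨S, hS1, hS2, hS3⟩ := exists_sum (bc G W) (bc G ρ) hint N hN hG
  obtain ⟨E, hE⟩ : ∃ E : Matrix n n G, E = ∑ M ∈ S, M := ⟨_, rfl⟩
  rw [← hE] at hS2 hS3
  -- the sum is defined over `F`
  have hgal : ∀ s : G ≃ₐ[F] G, E.map s = E := by
    intro s
    have himg : S.image (fun X => X.map s) = S := by
      apply Finset.eq_of_subset_of_card_le
      · intro X hX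
        obtain ⟨Y, hY, rfl⟩ := Finset.mem_image.mp hX
        obtain ⟨y, hy, rfl⟩ := (hS1 Y).1 hY
        obtain ⟨z, hz, hz'⟩ := pm_gal W ρ s y hy
        exact (hS1 _).2 ⟨z, hz, hz'⟩
      · rw [Finset.card_image_of_injective]
        intro a b hab
        ext i j
        exact s.injective (congrFun (congrFun hab i) j)
    have h1 : E.map s = ∑ M ∈ S, M.map s := by
      rw [hE]
      exact map_sum ((s : G →+* G).mapMatrix) _ _
    rw [h1, hE]
    nth_rw 2 [← himg]
    rw [Finset.sum_image]
    intro a _ b _ hab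
    ext i j
    exact s.injective (congrFun (congrFun hab i) j)
  have hEF : ∃ E' : Matrix n n F, E'.map (algebraMap F G) = E := by
    have h1 : ∀ i j, ∃ c : F, algebraMap F G c = E i j := by
      intro i j
      have h2 := (InfiniteGalois.mem_range_algebraMap_iff_fixed (k := F) (K := G) (E i j)).mpr (fun s =>
        congrFun (congrFun (hgal s) i) j)
      exact h2
    choose c hc using h1
    exact ⟨Matrix.of c, by ext i j; exact hc i j⟩
  obtain ⟨E', hE'⟩ := hEF
  -- the subspace of invariants
  let U : Submodule F (n → F) :=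
    { carrier := {u | ∀ y, Pt (bc G W) (bc G ρ) y →
        pm (bc G W) (bc G ρ) y *ᵥ (fun i => algebraMap F G (u i)) = fun i => algebraMap F G (u i)}
      add_mem' := by
        intro a b ha hb y hy
        have h1 : (fun i => algebraMap F G ((a + b) i)) = (fun i => algebraMap F G (a i)) +
            fun i => algebraMap F G (b i) := by
          funext i
          exact map_add _ _ _
        rw [h1, Matrix.mulVec_add, ha y hy, hb y hy]
      zero_mem' := by
        intro y hy
        have h1 : (fun i : n => algebraMap F G ((0 : n → F) i)) = 0 := by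
          funext i
          exact map_zero _
        rw [h1, Matrix.mulVec_zero]
      smul_mem' := by
        intro c a ha y hy
        have h1 : (fun i => algebraMap F G ((c • a) i)) = algebraMap F G c • fun i => algebraMap F G (a i) := by
          funext i
          exact map_mul _ _ _
        rw [h1, Matrix.mulVec_smul, ha y hy] }
  have hmv : ∀ (M : Matrix n n F) (u : n → F), (fun i => algebraMap F G ((M *ᵥ u) i)) =
      M.map (algebraMap F G) *ᵥ fun i => algebraMap F G (u i) := by
    intro M u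
    funext i
    rw [Matrix.mulVec, Matrix.mulVec, dotProduct, dotProduct, map_sum]
    exact Finset.sum_congr rfl fun j _ => map_mul _ _ _
  have hU : U = ⊤ := by
    rcases hirr.2 U (by
      intro g u hu y hy
      obtain ⟨z, hz, hz'⟩ := pm_conj (bc G W) (bc G ρ)
        (MulAut.conj g⁻¹ : Γ ≃* Γ).toMonoidHom (bc G ρ g⁻¹) (bc G ρ g) (by
          intro x
          change bc G ρ (g⁻¹ * x * g⁻¹⁻¹) = _
          rw [inv_inv, map_mul, map_mul]) (bc G W g⁻¹) (bc G W g) (by
          intro x
          change bc G W (g⁻¹ * x * g⁻¹⁻¹) = _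
          rw [inv_inv, map_mul, map_mul]) y hy
      have h1 := hu z hz
      rw [hz'] at h1
      have h2 : (fun i => algebraMap F G ((ρ g *ᵥ u) i)) = bc G ρ g *ᵥ fun i => algebraMap F G (u i) := hmv _ _
      rw [h2]
      have h3 : bc G ρ g * bc G ρ g⁻¹ = 1 := by rw [← map_mul, mul_inv_cancel, map_one]
      have h4 := congrArg (fun z => bc G ρ g *ᵥ z) h1
      simp only [Matrix.mulVec_mulVec] at h4
      rw [← mul_assoc, ← mul_assoc, h3, one_mul] at h4
      rw [Matrix.mulVec_mulVec]
      exact h4) with h1 | h1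
    · exfalso
      apply hS2
      have h2 : ∀ u : n → F, E' *ᵥ u = 0 := by
        intro u
        have h3 : E' *ᵥ u ∈ U := by
          intro y hy
          rw [hmv, hE', Matrix.mulVec_mulVec, hS3 _ ((hS1 _).2 ⟨y, hy, rfl⟩)]
        rw [h1] at h3
        exact h3
      have h3 : E' = 0 := by
        ext i j
        have h4 := congrFun (h2 (Pi.single j 1)) i
        rw [Matrix.mulVec_single_one] at h4
        exact h4
      rw [← hE', h3]
      ext i j
      exact map_zero (algebraMap F G)
    · exact h1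
  have hone : ∀ y, Pt (bc G W) (bc G ρ) y → pm (bc G W) (bc G ρ) y = 1 := by
    intro y hy
    ext i j
    have h1 : (Pi.single j 1 : n → F) ∈ U := by rw [hU]; trivial
    have h2 := congrFun (h1 y hy) i
    have h3 : (fun i => algebraMap F G ((Pi.single j 1 : n → F) i)) = Pi.single j 1 := by
      funext l
      by_cases hl : l = j
      · subst hl
        simp
      · simp [Pi.single_eq_of_ne hl]
    have h5 : (pm (bc G W) (bc G ρ) y *ᵥ (Pi.single j 1)) i = (Pi.single j 1 : n → G) i := by
      rw [← h3]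
      exact h2
    rw [Matrix.mulVec_single_one] at h5
    rw [Matrix.one_apply, ← Pi.single_apply]
    exact h5
  refine coeff_mem (coefAlg_hopf _ 1) (bc G ρ) hint ?_ i j
  intro B hAB hρB y hy
  have hle := RR_le (bc G W) (bc G ρ) hint B hAB hρB
  have h1 := hone (y.comp (Subalgebra.inclusion hle)) (fun a ha => hy a ha)
  have h2 : (Matrix.of fun i j => y ⟨fun x => bc G ρ x i j, hρB i j⟩) =
      pm (bc G W) (bc G ρ) (y.comp (Subalgebra.inclusion hle)) := rfl
  rw [h2, h1, sub_self]
  exact IsNilpotent.zero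

end Main

end Pool.Agent.H40LT
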