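import Mathlib
import Pool.Agent.H40LT.Half

/-!
# Galois representations with at least half of the Frobenius eigenvalues monomial
-/

set_option autoImplicit false
set_option linter.unusedSectionVars false
set_option linter.style.haveILetI false

namespace Pool.Agent.H40LT

open Module Matrix Pool.Agent.H40GO NumberField IsDedekindDomain Filter Topology Pool.Agent.W401.Cheb

section Gal

variable {K : Type} [Field K] [NumberField K] {F : Type*} [Field F] [CharZero F] [TopologicalSpace F]
  {G : Type*} [Field G] [Algebra F G] [TopologicalSpace G] [IsTopologicalRing G] [T2Space G] [IsAlgClosed G]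

theorem bigRep_root {Γ m : Type*} [Group Γ] [Fintype m] [DecidableEq m] (V : Γ →* Matrix m m G) (B : ℕ) (x : Γ)
    (z : G) (h : (bigPoly V B x).IsRoot z) : (bigRep V B x).charpoly.IsRoot z := by
  unfold bigPoly at h
  rw [Polynomial.IsRoot.def, Polynomial.eval_prod, Finset.prod_eq_zero_iff] at h
  obtain ⟨⟨a, b⟩, hab, h2⟩ := h
  rw [Finset.mem_product, Finset.mem_range, Finset.mem_range] at hab
  rw [← Polynomial.IsRoot.def, eig_iff] at h2
  rw [eig_iff]
  exact eig_bigRep V B x (⟨a, hab.1⟩, ⟨b, hab.2⟩) z h2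

open scoped Classical in
/-- **Main theorem, at least half.** -/
theorem main_half [IsGalois F G] (hFG : Continuous (algebraMap F G)) (N n : ℕ) (V : GK K →* Matrix (Fin N) (Fin N) F)
    (ρ : GK K →* Matrix (Fin n) (Fin n) F) (hV : Continuous V) (hρ : Continuous ρ) (hirr : Irr ρ)
    (S : Set (HeightOneSpectrum (𝓞 K))) (hS : UpperOne S) (B : ℕ)
    (h : ∀ v ∈ S, ∀ σ, IsFrob v σ →
      n ≤ 2 * Multiset.card ((bc G ρ σ).charpoly.roots.filter fun z => (bigPoly (bc G V) B σ).IsRoot z)) :
    ∃ a b : ℕ, SubQuot (tens V 1 a b 0) ρ := by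
  have hchar : CharZero G := charZero_of_injective_algebraMap (algebraMap F G).injective
  have hVc := bc_continuous (G := G) hFG V hV
  have hρc := bc_continuous (G := G) hFG ρ hρ
  obtain ⟨M, hM⟩ : ∃ M : ℕ, M = (n + 1) / 2 := ⟨_, rfl⟩
  have hnM : n ≤ 2 * M := by omega
  have hMle : ∀ c, n ≤ 2 * c → M ≤ c := by intro c hc; omega
  have hmz : ∀ σ : GK K, MZ M (Polynomial.aeval (bc G ρ σ ^ 1) (bigRep (bc G V) B σ ^ 1).charpoly) := by
    refine all_of_density {σ | MZ M (Polynomial.aeval (bc G ρ σ ^ 1)
      (bigRep (bc G V) B σ ^ 1).charpoly)} ?_ ?_ S ∅ hS Set.finite_empty ?_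
    · exact mz_closed (bigRep (bc G V) B) (bc G ρ) (cont_bigRep (bc G V) hVc B) hρc M _
    · intro σ hσ τ
      exact mz_conj (bigRep (bc G V) B) (bc G ρ) M _ σ τ hσ
    · intro v hv _ σ hσ
      rw [Set.mem_ofPred_eq, pow_one, pow_one]
      apply count_mz
      refine (hMle _ (h v hv σ hσ)).trans (Multiset.card_le_card (Multiset.monotone_filter_right _ ?_))
      intro z hz
      exact bigRep_root (bc G V) B σ z hz
  have hmzF : ∀ σ : GK K, MZ M (Polynomial.aeval (ρ σ) (bigRep V B σ).charpoly) := by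
    intro σ
    apply MZ.of_map (algebraMap F G) (algebraMap F G).injective
    have h2 : (Polynomial.aeval (ρ σ) (bigRep V B σ).charpoly).map (algebraMap F G) =
        Polynomial.aeval (bc G ρ σ) (bigRep (bc G V) B σ).charpoly := by
      have h3 := mapMatrix_aeval (algebraMap F G) (ρ σ) (bigRep V B σ).charpoly
      rw [← Matrix.charpoly_map] at h3
      have h4 : (bigRep V B σ).map (algebraMap F G) = bigRep (bc G V) B σ := by
        rw [← bigRep_bc]
        rfl
      rw [h4] at h3
      exact h3
    rw [h2]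
    have h3 := hmz σ
    rwa [pow_one, pow_one] at h3
  have hmem : ∀ i j, (fun x => bc G ρ x i j) ∈ coefAlg (bc G V) 1 := by
    intro i j
    have h1 := half_core (G := G) (bigRep V B) ρ hirr M (by rwa [Fintype.card_fin]) hmzF i j
    rw [bigRep_bc] at h1
    exact coefAlg_bigRep_le _ B h1
  exact subQuot_of_bc (G := G) V ρ hirr hmem

end Gal

end Pool.Agent.H40LT
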