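import Mathlib
import Pool.Agent.H40LT.HalfGal
import Pool.Agent.H40LT.Unity

/-!
# The theorems for topological groups with a dense set of elements
-/

set_option autoImplicit false
set_option linter.unusedSectionVars false
set_option linter.style.haveILetI false

namespace Pool.Agent.H40LT

open Module Matrix Pool.Agent.H40GO Topology

section

variable {F : Type*} [Field F] [CharZero F] [TopologicalSpace F] {G : Type*} [Field G] [Algebra F G]
  [TopologicalSpace G] [IsTopologicalRing G] [T2Space G] [IsAlgClosed G] {Γ : Type*} [Group Γ] [TopologicalSpace Γ]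
  [IsTopologicalGroup Γ]

theorem bc_cont (hFG : Continuous (algebraMap F G)) {n : Type*} [Fintype n] [DecidableEq n] (ρ : Γ →* Matrix n n F)
    (hρ : Continuous ρ) : Continuous (bc G ρ) := by
  have h4 : (bc G ρ : Γ → Matrix n n G) = fun x => (ρ x).map (algebraMap F G) := rfl
  rw [h4]
  exact hρ.matrix_map hFG

theorem cont_blk (hFG : Continuous (algebraMap F G)) {J : Type*} [Fintype J] [DecidableEq J] {nn : J → Type*}
    [∀ j, Fintype (nn j)] [∀ j, DecidableEq (nn j)] (ρ : ∀ j, Γ →* Matrix (nn j) (nn j) F)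
    (hρ : ∀ j, Continuous (ρ j)) : Continuous (bc G (blk ρ)) := by
  have h : (bc G (blk ρ) : Γ → Matrix (Σ j, nn j) (Σ j, nn j) G) =
      fun x => Matrix.blockDiagonal' fun j => bc G (ρ j) x := by
    funext x
    exact Matrix.blockDiagonal'_map (fun j => ρ j x) (algebraMap F G) (map_zero _)
  rw [h]
  refine Continuous.matrix_blockDiagonal' ?_
  exact continuous_pi fun j => bc_cont (G := G) hFG (ρ j) (hρ j)

open scoped Classical in
/-- **At least half of the eigenvalues, dense version.** -/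
theorem main_half_dense [IsGalois F G] (hFG : Continuous (algebraMap F G)) (N n : ℕ)
    (V : Γ →* Matrix (Fin N) (Fin N) F) (ρ : Γ →* Matrix (Fin n) (Fin n) F) (hV : Continuous V) (hρ : Continuous ρ)
    (hirr : Irr ρ) (S : Set Γ) (hS : Dense S) (B : ℕ)
    (h : ∀ σ ∈ S, n ≤ 2 * Multiset.card
      ((bc G ρ σ).charpoly.roots.filter fun z => (bigPoly (bc G V) B σ).IsRoot z)) :
    ∃ a b : ℕ, SubQuot (tens V 1 a b 0) ρ := by
  have hchar : CharZero G := charZero_of_injective_algebraMap (algebraMap F G).injective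
  have hVc := bc_cont (G := G) hFG V hV
  have hρc := bc_cont (G := G) hFG ρ hρ
  obtain ⟨M, hM⟩ : ∃ M : ℕ, M = (n + 1) / 2 := ⟨_, rfl⟩
  have hnM : n ≤ 2 * M := by omega
  have hMle : ∀ c, n ≤ 2 * c → M ≤ c := by intro c hc; omega
  have hmz : ∀ σ : Γ, MZ M (Polynomial.aeval (bc G ρ σ ^ 1) (bigRep (bc G V) B σ ^ 1).charpoly) := by
    have h1 := mz_closed (bigRep (bc G V) B) (bc G ρ) (cont_bigRep (bc G V) hVc B) hρc M 1
    intro σ
    have h2 : S ⊆ {x | MZ M (Polynomial.aeval (bc G ρ x ^ 1) (bigRep (bc G V) B x ^ 1).charpoly)} := by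
      intro σ hσ
      rw [Set.mem_ofPred_eq, pow_one, pow_one]
      apply count_mz
      refine (hMle _ (h σ hσ)).trans (Multiset.card_le_card (Multiset.monotone_filter_right _ ?_))
      intro z hz
      exact bigRep_root (bc G V) B σ z hz
    have h3 := closure_mono h2 (hS σ)
    rw [h1.closure_eq] at h3
    exact h3
  have hmzF : ∀ σ : Γ, MZ M (Polynomial.aeval (ρ σ) (bigRep V B σ).charpoly) := by
    intro σ
    apply MZ.of_map (algebraMap F G) (algebraMap F G).injective
    have h2 : (Polynomial.aeval (ρ σ) (bigRep V B σ).charpoly).map (algebraMap F G) =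
        Polynomial.aeval (bc G ρ σ) (bigRep (bc G V) B σ).charpoly := by
      have h3 := mapMatrix_aeval (algebraMap F G) (ρ σ) (bigRep V B σ).charpoly
      rw [← Matrix.charpoly_map] at h3
      have h4 : (bigRep V B σ).map (algebraMap F G) = bigRep (bc G V) B σ := by
        rw [← bigRep_bc]
        rfl
      rw [h4] at h3
      exact h3
    rw [h2]
    have h3 := hmz σ
    rwa [pow_one, pow_one] at h3
  have hmem : ∀ i j, (fun x => bc G ρ x i j) ∈ coefAlg (bc G V) 1 := by
    intro i j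
    have h1 := half_core (G := G) (bigRep V B) ρ hirr M (by rwa [Fintype.card_fin]) hmzF i j
    rw [bigRep_bc] at h1
    exact coefAlg_bigRep_le _ B h1
  exact subQuot_of_bc (G := G) V ρ hirr hmem

/-- `ρ` comes from `V`, up to a twist with finite image -/
def Geo {n N : ℕ} (V : Γ →* Matrix (Fin N) (Fin N) F) (ρ : Γ →* Matrix (Fin n) (Fin n) F) : Prop :=
  ∃ (a b d : ℕ) (θ : Γ →* Matrix (Fin d) (Fin d) F), Continuous θ ∧ (Set.range θ).Finite ∧
    SubQuot (tprod (tens V 1 a b 0) θ) ρ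

open scoped Classical in
theorem main_multi (hFG : Continuous (algebraMap F G)) {N b s : ℕ} (V : Γ →* Matrix (Fin N) (Fin N) F)
    (hV : Continuous V) (H : Γ →* Matrix (Fin b) (Fin b) F) (n : Fin s → ℕ)
    (ρ : ∀ j, Γ →* Matrix (Fin (n j)) (Fin (n j)) F) (hρ : ∀ j, Continuous (ρ j)) (hirr : ∀ j, Irr (ρ j))
    (hfac : ∀ σ, (H σ).charpoly = ∏ j, (ρ j σ).charpoly) (S : Set Γ) (hS : Dense S) (B M : ℕ)
    (h : ∀ σ ∈ S, M ≤ Multiset.card ((bc G H σ).charpoly.roots.filter (Good (bc G V) B σ))) :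
    M ≤ ∑ j, if Geo V (ρ j) then n j else n j / 3 := by
  have hchar : CharZero G := charZero_of_injective_algebraMap (algebraMap F G).injective
  have hVc := bc_cont (G := G) hFG V hV
  have hk : B.factorial ≠ 0 := Nat.factorial_ne_zero B
  have h1 : ∀ x ∈ S, M ≤ ∑ j, (Polynomial.aeval (bc G (ρ j) x ^ B.factorial)
      (bc G (bigRep V B) x ^ B.factorial).charpoly).charpoly.rootMultiplicity 0 := by
    intro x hx
    have h2 := h x hx
    rw [unity_sum H n ρ x (hfac x)] at h2
    refine h2.trans (Finset.sum_le_sum fun j _ => ?_)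
    rw [aeval_bc]
    have h4 := Polynomial.eq_rootMultiplicity_map (p := (Polynomial.aeval (ρ j x ^ B.factorial)
      (bigRep V B x ^ B.factorial).charpoly).charpoly) (algebraMap F G).injective 0
    rw [map_zero] at h4
    rw [← h4]
    exact (mz_iff _).1 (good_mz (G := G) V (ρ j) B _ x le_rfl)
  have h2 : ∀ x, M ≤ ∑ j, (Polynomial.aeval (bc G (ρ j) x ^ B.factorial)
      (bc G (bigRep V B) x ^ B.factorial).charpoly).charpoly.rootMultiplicity 0 := by
    have h3 := sum_closed (bc G (bigRep V B)) (fun j => bc G (ρ j)) (by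
      rw [bigRep_bc]
      exact cont_bigRep (bc G V) hVc B) (fun j => bc_cont (G := G) hFG (ρ j) (hρ j)) M B.factorial
    intro x
    have h6 := closure_mono (show S ⊆ {x | M ≤ ∑ j, (Polynomial.aeval (bc G (ρ j) x ^ B.factorial)
      (bc G (bigRep V B) x ^ B.factorial).charpoly).charpoly.rootMultiplicity 0} from h1) (hS x)
    rw [h3.closure_eq] at h6
    exact h6
  have h3 : ∀ x, M ≤ ∑ j, (Polynomial.aeval (ρ j x ^ B.factorial)
      (bigRep V B x ^ B.factorial).charpoly).charpoly.rootMultiplicity 0 := by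
    intro x
    refine (h2 x).trans (le_of_eq (Finset.sum_congr rfl fun j _ => ?_))
    rw [aeval_bc]
    have h5 := Polynomial.eq_rootMultiplicity_map (p := (Polynomial.aeval (ρ j x ^ B.factorial)
      (bigRep V B x ^ B.factorial).charpoly).charpoly) (algebraMap F G).injective 0
    rw [map_zero] at h5
    exact h5.symm
  obtain ⟨Δ, A, hΔ1, hΔ2, hA, hopen, hle⟩ := multi_core (G := G) (bigRep V B) ρ hirr M B.factorial hk h3
  have hop : IsOpen (Δ : Set Γ) := by
    apply hopen
    intro s hs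
    have h4 : Continuous s := by
      refine cont_coefAlg _ ?_ s hs
      rw [dsum_bc, bigRep_bc]
      exact cont_dsum _ _ (cont_bigRep (bc G V) hVc B) (cont_blk hFG ρ hρ)
    exact isOpen_ne_fun h4 continuous_const
  haveI : Fintype (Γ ⧸ Δ) := Fintype.ofFinite _
  refine hle.trans (Finset.sum_le_sum fun j _ => ?_)
  rw [Fintype.card_fin]
  by_cases hj : j ∈ A
  · have h5 : Geo V (ρ j) := by
      obtain ⟨a, b, hab⟩ := subQuot_of_res (G := G) V (ρ j) (hirr j) Δ (Fintype.equivFin (Γ ⧸ Δ)) (by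
        intro i i'
        have h6 := hA j hj i i'
        rw [bigRep_comp, bigRep_bc] at h6
        exact coefAlg_bigRep_le _ B h6)
      exact ⟨a, b, _, permRep F Δ (Fintype.equivFin (Γ ⧸ Δ)), permRep_continuous Δ hop _, permRep_finite Δ _, hab⟩
    rw [if_pos hj, if_pos h5]
  · rw [if_neg hj]
    split_ifs
    · exact Nat.div_le_self _ _
    · exact le_refl _

omit [CharZero F] [TopologicalSpace F] [TopologicalSpace G] [IsTopologicalRing G] [T2Space G] [TopologicalSpace Γ]
  [IsTopologicalGroup Γ] in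
/-- the converse -/
theorem geo_conv {N n : ℕ} (V : Γ →* Matrix (Fin N) (Fin N) F)
    (ρ : Γ →* Matrix (Fin n) (Fin n) F) (a b : ℕ) (h : SubQuot (tens V 1 a b 0) ρ) (σ : Γ) (z : G)
    (hz : (bc G ρ σ).charpoly.IsRoot z) : ∃ (al : Fin a → G) (be : Fin b → G),
      (∀ s, (bc G V σ).charpoly.IsRoot (al s)) ∧ (∀ t, (bc G V σ).charpoly.IsRoot (be t)) ∧
      z * ∏ t, be t = ∏ s, al s := by
  have h1 := h.aeval σ
  have h2 : Polynomial.aeval (bc G ρ σ) (tens (bc G V) 1 a b 0 σ).charpoly = 0 := by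
    have h3 := congrArg ((algebraMap F G).mapMatrix : Matrix (Fin n) (Fin n) F →+* Matrix (Fin n) (Fin n) G) h1
    rw [map_zero, mapMatrix_aeval, ← Matrix.charpoly_map] at h3
    have h4 : tens (bc G V) 1 a b 0 σ = (tens V 1 a b 0 σ).map (algebraMap F G) := by
      ext p q
      exact tens_bc V a b 0 σ p q
    rw [h4]
    exact h3
  have h3 := root_of_aeval _ _ 1 (by rw [pow_one]; exact h2) z hz
  rw [← Polynomial.IsRoot.def, eig_iff, eig_tens] at h3
  obtain ⟨al, be, h4, h5, h6⟩ := h3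
  exact ⟨al, be, fun s => (eig_iff _ _).2 (h4 s), fun t => (eig_iff _ _).2 (h5 t), h6⟩

omit [CharZero F] [TopologicalSpace F] [TopologicalSpace G] [IsTopologicalRing G] [T2Space G] [IsAlgClosed G]
  [TopologicalSpace Γ] [IsTopologicalGroup Γ] in
theorem good_mono {N : ℕ} (V : Γ →* Matrix (Fin N) (Fin N) G) {B B' : ℕ} (hB : B ≤ B') (x : Γ) (z : G)
    (h : Good V B x z) : Good V B' x z := by
  obtain ⟨ζ, w, ⟨d, hd0, hdB, hζ⟩, hz, hw⟩ := h
  refine ⟨ζ, w, ⟨d, hd0, hdB.trans hB, hζ⟩, hz, ?_⟩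
  unfold bigPoly at hw ⊢
  rw [Polynomial.IsRoot.def, Polynomial.eval_prod, Finset.prod_eq_zero_iff] at hw ⊢
  obtain ⟨ab, hab, h2⟩ := hw
  rw [Finset.mem_product, Finset.mem_range, Finset.mem_range] at hab
  exact ⟨ab, Finset.mem_product.mpr ⟨Finset.mem_range.mpr (by omega), Finset.mem_range.mpr (by omega)⟩, h2⟩

open scoped Classical in
theorem multi_conv {N b s : ℕ} (V : Γ →* Matrix (Fin N) (Fin N) F) (H : Γ →* Matrix (Fin b) (Fin b) F)
    (n : Fin s → ℕ) (ρ : ∀ j, Γ →* Matrix (Fin (n j)) (Fin (n j)) F)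
    (hfac : ∀ σ, (H σ).charpoly = ∏ j, (ρ j σ).charpoly) :
    ∃ B, ∀ σ, (∑ j, if Geo V (ρ j) then n j else 0) ≤
      Multiset.card ((bc G H σ).charpoly.roots.filter (Good (bc G V) B σ)) := by
  have h1 : ∀ j, ∃ B, Geo V (ρ j) → ∀ σ, ∀ z, (bc G (ρ j) σ).charpoly.IsRoot z → Good (bc G V) B σ z := by
    intro j
    by_cases hj : Geo V (ρ j)
    · obtain ⟨a, b, d, θ, -, hθ, h⟩ := hj
      obtain ⟨B, hB⟩ := good_of_subQuot (G := G) V (ρ j) a b d θ hθ h
      exact ⟨B, fun _ => hB⟩
    · exact ⟨0, fun h => absurd h hj⟩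
  choose B hB using h1
  refine ⟨∑ j, B j, fun σ => ?_⟩
  rw [unity_sum H n ρ σ (hfac σ)]
  refine Finset.sum_le_sum fun j _ => ?_
  split_ifs with hj
  · have h2 : (bc G (ρ j) σ).charpoly.roots.filter (Good (bc G V) (∑ j, B j) σ) =
        (bc G (ρ j) σ).charpoly.roots := by
      rw [Multiset.filter_eq_self]
      intro z hz
      rw [Polynomial.mem_roots (Matrix.charpoly_monic _).ne_zero] at hz
      exact good_mono _ (Finset.single_le_sum (fun _ _ => Nat.zero_le _) (Finset.mem_univ j)) σ z (hB j hj σ z hz)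
    rw [h2, IsAlgClosed.card_roots_eq_natDegree, Matrix.charpoly_natDegree_eq_dim, Fintype.card_fin]
  · exact Nat.zero_le _

end

end Pool.Agent.H40LT
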