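import Mathlib
import Pool.Agent.H40LT.Conn

/-!
# The zero set of a representative function which is not zero on a connected open subgroup of a compact group has
# measure zero there
-/

set_option autoImplicit false
set_option linter.unusedSectionVars false
set_option linter.style.haveILetI false

namespace Pool.Agent.H40LT

open MeasureTheory Topology Pool.Agent.H40GO
open scoped Pointwise

section

variable {G : Type*} [Field G] [TopologicalSpace G] [T1Space G] {Γ : Type*} [Group Γ] [TopologicalSpace Γ]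
  [IsTopologicalGroup Γ] [CompactSpace Γ] [MeasurableSpace Γ] [BorelSpace Γ]

/-- the zero set of an ideal -/
def zs (R : Subalgebra G (Γ → G)) (I : Ideal R) : Set Γ := {x | ∀ r ∈ I, (r : Γ → G) x = 0}

omit [CompactSpace Γ] [MeasurableSpace Γ] [BorelSpace Γ] [IsTopologicalGroup Γ] in
theorem zs_closed (R : Subalgebra G (Γ → G)) (hcont : ∀ r ∈ R, Continuous r) (I : Ideal R) : IsClosed (zs R I) := by
  have h1 : zs R I = ⋂ r ∈ I, (r : Γ → G) ⁻¹' {0} := by
    ext x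
    simp [zs]
  rw [h1]
  exact isClosed_biInter fun r _ => isClosed_singleton.preimage (hcont _ r.2)

/-- the algebra has no zero divisors on `Δ` -/
def ConnOn (R : Subalgebra G (Γ → G)) (Δ : Subgroup Γ) : Prop :=
  ∀ r ∈ R, ∀ s ∈ R, (∀ x ∈ Δ, r x * s x = 0) → (∀ x ∈ Δ, r x = 0) ∨ (∀ x ∈ Δ, s x = 0)

omit [TopologicalSpace G] [T1Space G] [TopologicalSpace Γ] [IsTopologicalGroup Γ] [CompactSpace Γ] [MeasurableSpace Γ]
  [BorelSpace Γ] in
theorem ConnOn.prod {R : Subalgebra G (Γ → G)} {Δ : Subgroup Γ} (h : ConnOn R Δ) {J : Type*} (A : Finset J)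
    (f : J → Γ → G) (hf : ∀ j ∈ A, f j ∈ R) (h0 : ∀ x ∈ Δ, (∏ j ∈ A, f j) x = 0) : ∃ j ∈ A, ∀ x ∈ Δ, f j x = 0 := by
  classical
  induction A using Finset.induction_on with
  | empty =>
    have h1 := h0 1 Δ.one_mem
    simp at h1
  | insert j A hj ih =>
    rcases h (f j) (hf j (Finset.mem_insert_self _ _)) (∏ j ∈ A, f j)
      (Subalgebra.prod_mem _ fun i hi => hf i (Finset.mem_insert_of_mem hi)) (fun x hx => by
        have h3 := h0 x hx
        rw [Finset.prod_insert hj] at h3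
        exact h3) with h3 | h3
    · exact ⟨j, Finset.mem_insert_self _ _, h3⟩
    · obtain ⟨i, hi, h4⟩ := ih (fun i hi => hf i (Finset.mem_insert_of_mem hi)) h3
      exact ⟨i, Finset.mem_insert_of_mem hi, h4⟩

/-- **Zero sets have measure zero.** -/
theorem null_zero_on (μ : Measure Γ) [IsFiniteMeasure μ] [μ.IsMulLeftInvariant] [μ.InnerRegularCompactLTTop]
    (R : Subalgebra G (Γ → G)) [IsNoetherianRing R] (hR : ∀ r ∈ R, Comul R r)
    (hcont : ∀ r ∈ R, Continuous r) (Δ : Subgroup Γ) (hΔo : IsOpen (Δ : Set Γ)) (hΔ : ConnOn R Δ) (f : Γ → G)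
    (hf : f ∈ R) (h0 : μ ({x | f x = 0} ∩ Δ) ≠ 0) : ∀ x ∈ Δ, f x = 0 := by
  classical
  have hΔc : IsClosed (Δ : Set Γ) := Δ.isClosed_of_isOpen hΔo
  -- a maximal ideal
  obtain ⟨I, ⟨hfI, hI0⟩, hmax⟩ := WellFounded.has_min (wellFounded_gt (α := Ideal R))
    {J | (⟨f, hf⟩ : R) ∈ J ∧ μ (zs R J ∩ Δ) ≠ 0} ⟨Ideal.span {⟨f, hf⟩}, Ideal.subset_span rfl, by
      have h1 : zs R (Ideal.span {(⟨f, hf⟩ : R)}) = {x | f x = 0} := by
        ext x
        constructor
        · exact fun h => h ⟨f, hf⟩ (Ideal.subset_span rfl)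
        · intro h r hr
          obtain ⟨c, rfl⟩ := Ideal.mem_span_singleton'.mp hr
          change (c : Γ → G) x * f x = 0
          rw [h, mul_zero]
      rw [h1]
      exact h0⟩
  have hcl : IsClosed (zs R I ∩ Δ) := (zs_closed R hcont I).inter hΔc
  have hnhds := (eventually_nhds_one_measure_smul_sdiff_lt (μ := μ) hcl.isCompact hcl hI0).and
    (hΔo.mem_nhds Δ.one_mem)
  -- the translates
  have hkey : ∀ g : Γ, μ (g⁻¹ • (zs R I ∩ Δ) \ (zs R I ∩ Δ)) < μ (zs R I ∩ Δ) → g⁻¹ ∈ Δ →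
      ∀ r ∈ I, ltR hR g r ∈ I := by
    intro g hg hgΔ r hr
    have h1 : zs R (I ⊔ I.map (ltR hR g : R →+* R)) ∩ Δ = g⁻¹ • (zs R I ∩ Δ) ∩ (zs R I ∩ Δ) := by
      ext x
      rw [Set.mem_inter_iff, Set.mem_inter_iff, Set.mem_smul_set_iff_inv_smul_mem, inv_inv, smul_eq_mul,
        Set.mem_inter_iff, Set.mem_inter_iff]
      constructor
      · rintro ⟨h, hx⟩
        refine ⟨⟨fun s hs => ?_, Δ.mul_mem (by simpa using Δ.inv_mem hgΔ) hx⟩,
          fun s hs => h s (Ideal.mem_sup_left hs), hx⟩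
        have h2 := h (ltR hR g s) (Ideal.mem_sup_right (Ideal.mem_map_of_mem _ hs))
        rwa [ltR_apply] at h2
      · rintro ⟨⟨h2, -⟩, h3, hx⟩
        refine ⟨fun s hs => ?_, hx⟩
        have h4 : I ⊔ I.map (ltR hR g : R →+* R) ≤ RingHom.ker (ev R x : R →+* G) := by
          refine sup_le (fun s hs => h3 s hs) (Ideal.map_le_iff_le_comap.mpr fun s hs => ?_)
          exact h2 s hs
        exact h4 hs
    have h2 : μ (zs R (I ⊔ I.map (ltR hR g : R →+* R)) ∩ Δ) ≠ 0 := by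
      rw [h1]
      intro h3
      have h4 : μ (g⁻¹ • (zs R I ∩ Δ)) = μ (zs R I ∩ Δ) := measure_smul μ g⁻¹ _
      have h5 := measure_inter_add_sdiff (μ := μ) (g⁻¹ • (zs R I ∩ Δ)) hcl.measurableSet
      rw [h3, zero_add, h4] at h5
      exact (ne_of_lt hg) h5
    have h3 : ¬ I < I ⊔ I.map (ltR hR g : R →+* R) := hmax _ ⟨Ideal.mem_sup_left hfI, h2⟩
    have h4 : I ⊔ I.map (ltR hR g : R →+* R) = I := by
      by_contra h5
      exact h3 (lt_of_le_of_ne le_sup_left (Ne.symm h5))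
    rw [← h4]
    exact Ideal.mem_sup_right (Ideal.mem_map_of_mem _ hr)
  -- a point
  obtain ⟨z, hz, hzΔ⟩ : (zs R I ∩ Δ).Nonempty := by
    by_contra hcon
    rw [Set.not_nonempty_iff_eq_empty] at hcon
    rw [hcon, measure_empty] at hI0
    exact hI0 rfl
  have hvan : {x | f x = 0} ∈ 𝓝 z := by
    have h1 : Filter.Tendsto (fun x : Γ => (x * z⁻¹)⁻¹) (𝓝 z) (𝓝 1) := by
      have h2 : Continuous fun x : Γ => (x * z⁻¹)⁻¹ := by fun_prop
      have h3 := h2.tendsto z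
      rwa [mul_inv_cancel, inv_one] at h3
    filter_upwards [h1.eventually hnhds] with x hx
    have h2 := hkey (x * z⁻¹) hx.1 hx.2 ⟨f, hf⟩ hfI
    have h3 := hz _ h2
    rw [ltR_apply, inv_mul_cancel_right] at h3
    exact h3
  obtain ⟨t, ht⟩ := compact_covered_by_mul_left_translates (K := (Δ : Set Γ)) hΔc.isCompact
    (V := {x | f x = 0} ∩ Δ) ⟨z, mem_interior_iff_mem_nhds.mpr (Filter.inter_mem hvan (hΔo.mem_nhds hzΔ))⟩
  obtain ⟨g, hg, hg'⟩ := hΔ.prod (t.filter fun g => g ∈ Δ) (fun g => lt g f) (fun g _ => (hR f hf).lt_mem g) (by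
    intro x hx
    rw [Finset.prod_apply]
    have h1 := ht hx
    rw [Set.mem_iUnion₂] at h1
    obtain ⟨g, hg, h2, h3⟩ := h1
    refine Finset.prod_eq_zero (Finset.mem_filter.mpr ⟨hg, ?_⟩) (i := g) ?_
    · have h4 := Δ.mul_mem h3 (Δ.inv_mem hx)
      rwa [mul_inv_cancel_right] at h4
    · exact h2)
  intro x hx
  have h1 := hg' (g⁻¹ * x) (Δ.mul_mem (Δ.inv_mem (Finset.mem_filter.mp hg).2) hx)
  rwa [lt_apply, mul_inv_cancel_left] at h1

end

end Pool.Agent.H40LT
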