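import Mathlib
import Pool.Agent.H40GO.Gal
import Pool.Agent.H40LT.Null

/-!
# Upper density and Haar measure
-/

set_option autoImplicit false
set_option linter.unusedSectionVars false
set_option linter.style.haveILetI false

namespace Pool.Agent.H40LT

open NumberField IsDedekindDomain Filter Topology MeasureTheory Pool.Agent.W401.Cheb Pool.Agent.H40GO
open scoped Pointwise

section

/-- the measure of a union of cosets -/
theorem measure_cosets {Γ : Type*} [Group Γ] [TopologicalSpace Γ] [IsTopologicalGroup Γ] [MeasurableSpace Γ]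
    [BorelSpace Γ] (μ : Measure Γ) [μ.IsMulLeftInvariant] (U : Subgroup Γ) (hU : IsOpen (U : Set Γ))
    [Finite (Γ ⧸ U)] (C : Set Γ) (hC : ∀ x ∈ C, ∀ u ∈ U, x * u ∈ C) :
    μ C = ((((QuotientGroup.mk : Γ → Γ ⧸ U) '' C).ncard : ℕ) : ENNReal) * μ U := by
  classical
  haveI : Fintype (Γ ⧸ U) := Fintype.ofFinite _
  have hfib : ∀ q : Γ ⧸ U, (QuotientGroup.mk : Γ → Γ ⧸ U) ⁻¹' {q} = q.out • (U : Set Γ) := by
    intro q
    ext x
    rw [Set.mem_preimage, Set.mem_singleton_iff, Set.mem_smul_set_iff_inv_smul_mem, smul_eq_mul]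
    constructor
    · intro h
      have h1 : (QuotientGroup.mk q.out : Γ ⧸ U) = QuotientGroup.mk x := by rw [QuotientGroup.out_eq', h]
      exact QuotientGroup.eq.mp h1
    · intro h
      have h1 : (QuotientGroup.mk q.out : Γ ⧸ U) = QuotientGroup.mk x := QuotientGroup.eq.mpr h
      rw [← h1, QuotientGroup.out_eq']
  have hCu : C = ⋃ q ∈ ((QuotientGroup.mk : Γ → Γ ⧸ U) '' C).toFinset, (QuotientGroup.mk : Γ → Γ ⧸ U) ⁻¹' {q} := by
    ext x
    rw [Set.mem_iUnion₂]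
    constructor
    · intro hx
      exact ⟨QuotientGroup.mk x, by rw [Set.mem_toFinset]; exact ⟨x, hx, rfl⟩, rfl⟩
    · rintro ⟨q, hq, hxq⟩
      rw [Set.mem_toFinset] at hq
      obtain ⟨y, hy, rfl⟩ := hq
      have h1 : (QuotientGroup.mk y : Γ ⧸ U) = QuotientGroup.mk x := hxq.symm
      have h2 := hC y hy _ (QuotientGroup.eq.mp h1)
      rwa [mul_inv_cancel_left] at h2
  have hmeas : ∀ q : Γ ⧸ U, MeasurableSet ((QuotientGroup.mk : Γ → Γ ⧸ U) ⁻¹' {q}) := by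
    intro q
    rw [hfib]
    exact (hU.smul q.out).measurableSet
  conv_lhs => rw [hCu]
  rw [measure_biUnion_finset (fun q _ q' _ hne => ?_) (fun q _ => hmeas q)]
  · have h1 : ∀ q ∈ ((QuotientGroup.mk : Γ → Γ ⧸ U) '' C).toFinset,
        μ ((QuotientGroup.mk : Γ → Γ ⧸ U) ⁻¹' {q}) = μ U := by
      intro q _
      rw [hfib]
      exact measure_smul μ _ _
    rw [Finset.sum_congr rfl h1, Finset.sum_const, nsmul_eq_mul, Set.ncard_eq_toFinset_card']
  · rw [Function.onFun, Set.disjoint_left]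
    intro x hx hx'
    exact hne (hx.symm.trans hx')

end

section

variable {K : Type} [Field K] [NumberField K]

/-- **Chebotarev's theorem** for closed sets: the upper density is at most the measure. -/
theorem measure_ne_zero [MeasurableSpace (GK K)] [BorelSpace (GK K)] (μ : Measure (GK K)) [IsFiniteMeasure μ]
    [μ.IsMulLeftInvariant] [μ.OuterRegular] (hμ : μ Set.univ ≠ 0) (Z : Set (GK K)) (hZ : IsClosed Z)
    (hconj : ∀ σ ∈ Z, ∀ τ : GK K, τ * σ * τ⁻¹ ∈ Z) (S T : Set (HeightOneSpectrum (𝓞 K))) (ε : ℝ) (hε : 0 < ε)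
    (hS : ∃ᶠ N : ℕ in atTop,
      ε * (Nat.card {v : HeightOneSpectrum (𝓞 K) // Ideal.absNorm v.asIdeal ≤ N} : ℝ) ≤
        (Nat.card {v : HeightOneSpectrum (𝓞 K) // Ideal.absNorm v.asIdeal ≤ N ∧ v ∈ S} : ℝ)) (hT : T.Finite)
    (h : ∀ v ∈ S, v ∉ T → ∃ σ ∈ Z, IsFrob v σ) : μ Z ≠ 0 := by
  classical
  intro hZ0
  -- an open set
  obtain ⟨η, hη, hη0⟩ : ∃ η : ENNReal, η = ENNReal.ofReal (ε / 4) * μ Set.univ ∧ 0 < η := by
    refine ⟨_, rfl, ENNReal.mul_pos ?_ hμ⟩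
    exact (ENNReal.ofReal_pos.mpr (by positivity)).ne'
  obtain ⟨O, hZO, hO, hμO⟩ := Z.exists_isOpen_lt_of_lt η (by rw [hZ0]; exact hη0)
  obtain ⟨V, hV, hZV⟩ := compact_open_separated_mul_right hZ.isCompact hO hZO
  rw [krullTopology_mem_nhds_one_iff_of_normal] at hV
  obtain ⟨L, hL1, hL2, hL⟩ := hV
  obtain ⟨U, hUdef⟩ : ∃ U : Subgroup (GK K), U = L.fixingSubgroup := ⟨_, rfl⟩
  have hUo : IsOpen (U : Set (GK K)) := by
    rw [hUdef]
    exact IntermediateField.fixingSubgroup_isOpen L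
  have hgal : IsGalois K L := ⟨⟩
  have hUn : U.Normal := by
    rw [hUdef]
    exact IsGalois.fixingSubgroup_normal_of_isGalois L
  rw [← hUdef] at hL
  let C : Set (GK K) := {x | ∃ z ∈ Z, ∃ u ∈ U, x = z * u}
  have hC1 : ∀ x ∈ C, ∀ τ : GK K, τ * x * τ⁻¹ ∈ C := by
    rintro x ⟨z, hz, u, hu, rfl⟩ τ
    refine ⟨τ * z * τ⁻¹, hconj z hz τ, τ * u * τ⁻¹, hUn.conj_mem u hu τ, ?_⟩
    group
  have hC2 : ∀ x ∈ C, ∀ u ∈ U, x * u ∈ C := by
    rintro x ⟨z, hz, u, hu, rfl⟩ u' hu'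
    exact ⟨z, hz, u * u', U.mul_mem hu hu', by group⟩
  have hCO : C ⊆ O := by
    rintro x ⟨z, hz, u, hu, rfl⟩
    exact hZV (Set.mul_mem_mul hz (hL hu))
  have hfin : Finite (GK K ⧸ U) := Subgroup.quotient_finite_of_isOpen U hUo
  obtain ⟨c, hc⟩ : ∃ c : ℝ, c = ((((QuotientGroup.mk : GK K → GK K ⧸ U) '' C).ncard : ℝ) /
      (Nat.card (GK K ⧸ U) : ℝ)) := ⟨_, rfl⟩
  have hcard0 : (0 : ℝ) < (Nat.card (GK K ⧸ U) : ℝ) := by
    rw [Nat.cast_pos]
    exact Nat.card_pos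
  have hcle : c < ε / 4 := by
    have h1 := measure_cosets μ U hUo C hC2
    have h2 := measure_cosets μ U hUo Set.univ (fun _ _ _ _ => trivial)
    rw [Set.image_univ, Set.range_eq_univ.mpr (QuotientGroup.mk_surjective), Set.ncard_univ] at h2
    have h3 : μ C < ENNReal.ofReal (ε / 4) * μ Set.univ := by
      rw [← hη]
      exact (measure_mono hCO).trans_lt hμO
    rw [h1, h2] at h3
    have hU0 : μ (U : Set (GK K)) ≠ 0 := by
      intro h0
      rw [h0, mul_zero] at h2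
      exact hμ h2
    have hUt : μ (U : Set (GK K)) ≠ ⊤ := measure_ne_top μ _
    rw [← mul_assoc, ENNReal.mul_lt_mul_iff_left hU0 hUt] at h3
    have h4 := (ENNReal.toReal_lt_toReal (by exact ENNReal.natCast_ne_top _) (by
      exact ENNReal.mul_ne_top ENNReal.ofReal_ne_top (ENNReal.natCast_ne_top _))).mpr h3
    rw [ENNReal.toReal_mul, ENNReal.toReal_ofReal (by positivity), ENNReal.toReal_natCast, ENNReal.toReal_natCast] at h4
    rw [hc, div_lt_iff₀ hcard0]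
    exact h4
  have hch := Pool.Agent.Y773.AB.chebK K U hUo C hC1 hC2
  rw [← hc] at hch
  -- all primes
  have hall := all_dens (K := K)
  have hconst := Pool.Agent.W352.ChAbs.const_div_pi (T.ncard : ℝ)
  have hev : ∀ᶠ N : ℕ in atTop, dens (fun v : HeightOneSpectrum (𝓞 K) => ∃ x ∈ C, IsFrob v x) N < ε / 4 :=
    hch.eventually (gt_mem_nhds hcle)
  have hev2 : ∀ᶠ N : ℕ in atTop, 1 / 2 < (Nat.card {v : HeightOneSpectrum (𝓞 K) // Ideal.absNorm v.asIdeal ≤ N} : ℝ) /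
      (Nat.primeCounting N : ℝ) := hall.eventually (lt_mem_nhds (by norm_num))
  have hev3 : ∀ᶠ N : ℕ in atTop, (T.ncard : ℝ) / (Nat.primeCounting N : ℝ) < ε / 8 :=
    hconst.eventually (gt_mem_nhds (by positivity))
  have hev4 : ∀ᶠ N : ℕ in atTop, (0 : ℝ) < Nat.primeCounting N := by
    have h1 : Tendsto (fun N : ℕ => (Nat.primeCounting N : ℝ)) atTop atTop :=
      tendsto_natCast_atTop_atTop.comp Nat.tendsto_primeCounting
    exact h1.eventually (eventually_gt_atTop 0)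
  obtain ⟨N, hN1, hN2, hN3, hN4, hN5⟩ := (hS.and_eventually
    (hev.and (hev2.and (hev3.and hev4)))).exists
  have hcount : {v : HeightOneSpectrum (𝓞 K) | Ideal.absNorm v.asIdeal ≤ N ∧ v ∈ S}.ncard ≤
      {v : HeightOneSpectrum (𝓞 K) | Ideal.absNorm v.asIdeal ≤ N ∧ ∃ x ∈ C, IsFrob v x}.ncard + T.ncard := by
    refine (Set.ncard_le_ncard (t := {v : HeightOneSpectrum (𝓞 K) | Ideal.absNorm v.asIdeal ≤ N ∧
      ∃ x ∈ C, IsFrob v x} ∪ T) ?_ ((fin_le _ N).union hT)).trans (Set.ncard_union_le _ _)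
    rintro v ⟨h1, h2⟩
    by_cases hvT : v ∈ T
    · exact Or.inr hvT
    · obtain ⟨σ, hσ, hσ'⟩ := h v h2 hvT
      exact Or.inl ⟨h1, σ, ⟨σ, hσ, 1, U.one_mem, (mul_one σ).symm⟩, hσ'⟩
  have hcount' : (Nat.card {v : HeightOneSpectrum (𝓞 K) // Ideal.absNorm v.asIdeal ≤ N ∧ v ∈ S} : ℝ) ≤
      (Nat.card {v : HeightOneSpectrum (𝓞 K) // Ideal.absNorm v.asIdeal ≤ N ∧ ∃ x ∈ C, IsFrob v x} : ℝ) +
      (T.ncard : ℝ) := by
    exact_mod_cast hcount
  unfold dens at hN2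
  rw [div_lt_iff₀ hN5] at hN2 hN4
  rw [lt_div_iff₀ hN5] at hN3
  nlinarith

end

end Pool.Agent.H40LT
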