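import Mathlib
import Pool.Agent.H40LT.Dense
import Pool.Agent.H40LT.Meas

/-!
# Connected monodromy in terms of polynomial identities
-/

set_option autoImplicit false
set_option linter.unusedSectionVars false
set_option linter.style.haveILetI false

namespace Pool.Agent.H40LT

open Module Matrix Pool.Agent.H40GO Topology MeasureTheory

section

variable {G : Type*} [Field G] {Γ : Type*} [Group Γ] {k : Type*} [Fintype k] [DecidableEq k]

/-- a matrix coefficient of `U` or of its dual is, up to a power of the determinant, a polynomial in the entries -/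
theorem poly_of_mem (U : Γ →* Matrix k k G) (f : Γ → G) (hf : f ∈ coefAlg U 1) :
    ∃ (M : ℕ) (P : MvPolynomial (k × k) G), ∀ x, f x * (U x).det ^ M =
      MvPolynomial.eval (fun q => U x q.1 q.2) P := by
  obtain ⟨E, hE⟩ : ∃ E : Matrix k k (MvPolynomial (k × k) G), E = Matrix.of fun i j => MvPolynomial.X (i, j) :=
    ⟨_, rfl⟩
  have hEx : ∀ x, (MvPolynomial.eval fun q => U x q.1 q.2).mapMatrix E = U x := by
    intro x
    ext i j
    rw [hE]
    exact MvPolynomial.eval_X _
  have hdet : ∀ x, MvPolynomial.eval (fun q => U x q.1 q.2) E.det = (U x).det := by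
    intro x
    rw [RingHom.map_det, hEx]
  induction hf using Algebra.adjoin_induction with
  | mem f hf =>
    rcases hf with (⟨⟨i, j⟩, rfl⟩ | ⟨⟨i, j⟩, rfl⟩) | (rfl | rfl)
    · refine ⟨0, MvPolynomial.X (i, j), fun x => ?_⟩
      rw [pow_zero, mul_one, MvPolynomial.eval_X]
    · refine ⟨1, E.adjugate i j, fun x => ?_⟩
      have h1 : MvPolynomial.eval (fun q => U x q.1 q.2) (E.adjugate i j) = (U x).adjugate i j := by
        have h2 := RingHom.map_adjugate (MvPolynomial.eval fun q => U x q.1 q.2) E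
        rw [hEx] at h2
        exact congrFun (congrFun h2 i) j
      have h3 : (U x).adjugate = (U x).det • U x⁻¹ := by
        have h4 : U x⁻¹ * U x = 1 := by rw [← map_mul, inv_mul_cancel, map_one]
        calc (U x).adjugate = U x⁻¹ * U x * (U x).adjugate := by rw [h4, one_mul]
          _ = _ := by rw [mul_assoc, Matrix.mul_adjugate, Matrix.mul_smul, mul_one]
      rw [h1, h3, pow_one, Matrix.smul_apply, smul_eq_mul, mul_comm]
    · refine ⟨0, 1, fun x => ?_⟩
      rw [pow_zero, mul_one, map_one]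
      rfl
    · refine ⟨0, 1, fun x => ?_⟩
      rw [pow_zero, mul_one, map_one]
      rfl
  | algebraMap c =>
    refine ⟨0, MvPolynomial.C c, fun x => ?_⟩
    rw [pow_zero, mul_one, MvPolynomial.eval_C]
    rfl
  | add f g _ _ hf hg =>
    obtain ⟨M, P, hP⟩ := hf
    obtain ⟨M', P', hP'⟩ := hg
    refine ⟨M + M', P * E.det ^ M' + P' * E.det ^ M, fun x => ?_⟩
    rw [map_add, map_mul, map_mul, map_pow, map_pow, hdet, ← hP, ← hP', Pi.add_apply]
    ring
  | mul f g _ _ hf hg =>
    obtain ⟨M, P, hP⟩ := hf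
    obtain ⟨M', P', hP'⟩ := hg
    refine ⟨M + M', P * P', fun x => ?_⟩
    rw [map_mul, ← hP, ← hP', Pi.mul_apply]
    ring

theorem mem_of_poly (U : Γ →* Matrix k k G) (P : MvPolynomial (k × k) G) :
    (fun x => MvPolynomial.eval (fun q => U x q.1 q.2) P) ∈ coefAlg U 1 := by
  induction P using MvPolynomial.induction_on with
  | C a =>
    have h1 : (fun x => MvPolynomial.eval (fun q : k × k => U x q.1 q.2) (MvPolynomial.C a)) = algebraMap G (Γ → G) a := by
      funext x
      exact MvPolynomial.eval_C _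
    rw [h1]
    exact Subalgebra.algebraMap_mem _ a
  | add p p' hp hp' =>
    have h1 : (fun x => MvPolynomial.eval (fun q : k × k => U x q.1 q.2) (p + p')) =
        (fun x => MvPolynomial.eval (fun q : k × k => U x q.1 q.2) p) +
          fun x => MvPolynomial.eval (fun q : k × k => U x q.1 q.2) p' := by
      funext x
      exact map_add _ _ _
    rw [h1]
    exact Subalgebra.add_mem _ hp hp'
  | mul_X p i hp =>
    have h1 : (fun x => MvPolynomial.eval (fun q => U x q.1 q.2) (p * MvPolynomial.X i)) =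
        (fun x => MvPolynomial.eval (fun q => U x q.1 q.2) p) * fun x => U x i.1 i.2 := by
      funext x
      rw [map_mul, MvPolynomial.eval_X]
      rfl
    rw [h1]
    exact Subalgebra.mul_mem _ hp (mem1 U 1 i.1 i.2)

variable [TopologicalSpace Γ] [IsTopologicalGroup Γ]

/-- **Connected monodromy:** every polynomial in the matrix coefficients which vanishes on an open subgroup of `Δ`
vanishes on `Δ` -/
def Rigid (U : Γ →* Matrix k k G) (Δ : Subgroup Γ) : Prop :=
  ∀ D : Subgroup Γ, IsOpen (D : Set Γ) → D ≤ Δ → ∀ P : MvPolynomial (k × k) G,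
    (∀ x ∈ D, MvPolynomial.eval (fun q => U x q.1 q.2) P = 0) →
    ∀ x ∈ Δ, MvPolynomial.eval (fun q => U x q.1 q.2) P = 0

theorem Rigid.mem {U : Γ →* Matrix k k G} {Δ : Subgroup Γ} (h : Rigid U Δ) (D : Subgroup Γ)
    (hD : IsOpen (D : Set Γ)) (hDΔ : D ≤ Δ) (f : Γ → G) (hf : f ∈ coefAlg U 1) (h0 : ∀ x ∈ D, f x = 0) :
    ∀ x ∈ Δ, f x = 0 := by
  obtain ⟨M, P, hP⟩ := poly_of_mem U f hf
  intro x hx
  have h1 := h D hD hDΔ P (fun x hx => by rw [← hP, h0 x hx, zero_mul]) x hx
  rw [← hP] at h1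
  rcases mul_eq_zero.mp h1 with h2 | h2
  · exact h2
  · exfalso
    have h3 : (U x).det * (U x⁻¹).det = 1 := by
      rw [← Matrix.det_mul, ← map_mul, mul_inv_cancel, map_one, Matrix.det_one]
    have h4 : (U x).det ≠ 0 := left_ne_zero_of_mul_eq_one h3
    exact pow_ne_zero M h4 h2

theorem connOn_of_rigid [TopologicalSpace G] [T1Space G] (U : Γ →* Matrix k k G) (Δ : Subgroup Γ)
    (hΔo : IsOpen (Δ : Set Γ)) (hcont : ∀ f ∈ coefAlg U 1, Continuous f) (h : Rigid U Δ) :
    ConnOn (coefAlg U 1) Δ := by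
  have hopf := coefAlg_hopf (U.comp Δ.subtype) 1
  obtain ⟨Δ', -, -, h1, h2⟩ := exists_conn hopf.comul hopf.fg
  have ho : IsOpen (Δ' : Set Δ) := by
    apply h2
    intro s hs
    obtain ⟨s', hs', h3⟩ := res_surj U Δ s hs
    have h4 : s = fun x : Δ => s' x := funext h3
    rw [h4]
    exact isOpen_compl_singleton.preimage ((hcont s' hs').comp continuous_subtype_val)
  have ho' : IsOpen ((Δ'.map Δ.subtype : Subgroup Γ) : Set Γ) := by
    rw [Subgroup.coe_map]
    exact hΔo.isOpenMap_subtype_val _ ho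
  have hle : Δ'.map Δ.subtype ≤ Δ := by
    rintro _ ⟨x, -, rfl⟩
    exact x.2
  intro r hr s hs hrs
  rcases h1 _ (res_mem U Δ r hr) _ (res_mem U Δ s hs) (fun x _ => hrs x x.2) with h3 | h3
  · left
    refine h.mem _ ho' hle r hr ?_
    rintro _ ⟨x, hx, rfl⟩
    exact h3 x hx
  · right
    refine h.mem _ ho' hle s hs ?_
    rintro _ ⟨x, hx, rfl⟩
    exact h3 x hx

theorem rigid_of_connOn [CompactSpace Γ] (U : Γ →* Matrix k k G) (Δ : Subgroup Γ)
    (hΔo : IsOpen (Δ : Set Γ)) (h : ConnOn (coefAlg U 1) Δ) : Rigid U Δ := by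
  classical
  intro D hD hDΔ P hP x hx
  have hΔc : IsClosed (Δ : Set Γ) := Δ.isClosed_of_isOpen hΔo
  have hopf := coefAlg_hopf U 1
  obtain ⟨f, hf⟩ : ∃ f : Γ → G, f = fun x => MvPolynomial.eval (fun q => U x q.1 q.2) P := ⟨_, rfl⟩
  have hfm : f ∈ coefAlg U 1 := hf ▸ mem_of_poly U P
  have hfD : ∀ x ∈ D, f x = 0 := by
    intro x hx
    rw [hf]
    exact hP x hx
  obtain ⟨t, ht⟩ := compact_covered_by_mul_left_translates (K := (Δ : Set Γ)) hΔc.isCompact
    (V := (D : Set Γ)) ⟨1, mem_interior_iff_mem_nhds.mpr (hD.mem_nhds D.one_mem)⟩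
  obtain ⟨g, hg, hg'⟩ := h.prod (t.filter fun g => g ∈ Δ) (fun g => lt g f)
    (fun g _ => (hopf.comul f hfm).lt_mem g) (by
    intro x hx
    rw [Finset.prod_apply]
    have h1 := ht hx
    rw [Set.mem_iUnion₂] at h1
    obtain ⟨g, hg, h2⟩ := h1
    refine Finset.prod_eq_zero (Finset.mem_filter.mpr ⟨hg, ?_⟩) (i := g) ?_
    · have h4 := Δ.mul_mem (hDΔ h2) (Δ.inv_mem hx)
      rwa [mul_inv_cancel_right] at h4
    · exact hfD _ h2)
  have h1 := hg' (g⁻¹ * x) (Δ.mul_mem (Δ.inv_mem (Finset.mem_filter.mp hg).2) hx)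
  rw [lt_apply, mul_inv_cancel_left, hf] at h1
  exact h1

end

end Pool.Agent.H40LT
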