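import Mathlib
import Pool.Agent.H40LT.Rigid

/-!
# Almost all elements of a connected group
-/

set_option autoImplicit false
set_option linter.unusedSectionVars false
set_option linter.style.haveILetI false

namespace Pool.Agent.H40LT

open Module Matrix Pool.Agent.H40GO Topology MeasureTheory

section

variable {G : Type*} [Field G] {Γ : Type*} [Group Γ] {m n : Type*} [Fintype m] [DecidableEq m] [Fintype n]
  [DecidableEq n]

theorem cp_conj (W : Γ →* Matrix m m G) (ρ : Γ →* Matrix n n G) (k : ℕ) (σ τ : Γ) :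
    (Polynomial.aeval (ρ (τ * σ * τ⁻¹) ^ k) (W (τ * σ * τ⁻¹) ^ k).charpoly).charpoly =
      (Polynomial.aeval (ρ σ ^ k) (W σ ^ k).charpoly).charpoly := by
  have h1 : (τ * σ * τ⁻¹) ^ k = τ * σ ^ k * τ⁻¹ := by
    rw [conj_pow]
  have h2 : (W (τ * σ * τ⁻¹) ^ k).charpoly = (W σ ^ k).charpoly := by
    rw [← map_pow, h1, charpoly_conj, map_pow]
  have h3 : ρ (τ * σ * τ⁻¹) ^ k = ρ τ * ρ σ ^ k * ρ τ⁻¹ := by
    rw [← map_pow, h1, map_mul, map_mul, map_pow]
  have h4 : ρ τ⁻¹ * ρ τ = 1 := by rw [← map_mul, inv_mul_cancel, map_one]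
  have h5 : ρ τ * ρ τ⁻¹ = 1 := by rw [← map_mul, mul_inv_cancel, map_one]
  rw [h2, h3, aeval_conj _ _ _ h4]
  have h6 := Matrix.charpoly_units_conj (⟨ρ τ, ρ τ⁻¹, h5, h4⟩ : (Matrix n n G)ˣ)
    (Polynomial.aeval (ρ σ ^ k) (W σ ^ k).charpoly)
  rw [← Matrix.coe_units_inv] at h6
  exact h6

end

section

variable {F : Type*} [Field F] {G : Type*} [Field G] [Algebra F G] {Γ : Type*} [Group Γ] {m n : Type*} [Fintype m]
  [DecidableEq m] [Fintype n] [DecidableEq n]

theorem coefAlg_big_le (V : Γ →* Matrix m m F) (Q : Γ →* Matrix n n F) (B : ℕ) :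
    coefAlg (bc G (dsum (bigRep V B) Q)) 1 ≤ coefAlg (bc G (dsum V Q)) 1 := by
  rw [dsum_bc, dsum_bc, bigRep_bc]
  have hle : coefAlg (bigRep (bc G V) B) 1 ≤ coefAlg (dsum (bc G V) (bc G Q)) 1 :=
    (coefAlg_bigRep_le (bc G V) B).trans (coefAlg_le_RR (bc G V) (bc G Q))
  refine Algebra.adjoin_le ?_
  rintro s ((⟨⟨i, i'⟩, rfl⟩ | ⟨⟨i, i'⟩, rfl⟩) | (rfl | rfl))
  · rcases i with i | i <;> rcases i' with i' | i'
    · exact hle (mem1 (bigRep (bc G V) B) 1 i i')
    · exact Subalgebra.zero_mem _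
    · exact Subalgebra.zero_mem _
    · exact memρ (bc G V) (bc G Q) i i'
  · rcases i with i | i <;> rcases i' with i' | i'
    · exact hle (mem2 (bigRep (bc G V) B) 1 i i')
    · exact Subalgebra.zero_mem _
    · exact Subalgebra.zero_mem _
    · exact memρ' (bc G V) (bc G Q) i i'
  · exact (coefAlg _ 1).one_mem
  · exact (coefAlg _ 1).one_mem

end

section

variable {F : Type*} [Field F] [CharZero F] {G : Type*} [Field G] [Algebra F G] [IsAlgClosed G] [TopologicalSpace G]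
  [T1Space G] {Γ : Type*} [Group Γ] [TopologicalSpace Γ] [IsTopologicalGroup Γ] [CompactSpace Γ] [MeasurableSpace Γ]
  [BorelSpace Γ] {m : Type*} [Fintype m] [DecidableEq m] {J : Type*} [Fintype J] [DecidableEq J] {nn : J → Type*}
  [∀ j, Fintype (nn j)] [∀ j, DecidableEq (nn j)]

open scoped Classical in
/-- **Almost all elements of a connected group.** -/
theorem multi_null (μ : Measure Γ) [IsFiniteMeasure μ] [μ.IsMulLeftInvariant] [μ.InnerRegularCompactLTTop]
    (V : Γ →* Matrix m m F) (ρ : ∀ j, Γ →* Matrix (nn j) (nn j) F) (hirr : ∀ j, Irr (ρ j))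
    (hcont : ∀ s ∈ coefAlg (bc G (dsum V (blk ρ))) 1, Continuous s) (Δ : Subgroup Γ) [hΔn : Δ.Normal]
    (hΔo : IsOpen (Δ : Set Γ)) (hΔ : ConnOn (coefAlg (bc G (dsum V (blk ρ))) 1) Δ) :
    ∃ A : Finset J,
      (∀ j ∈ A, ∀ i i', (fun x => bc G ((ρ j).comp Δ.subtype) x i i') ∈ coefAlg (bc G (V.comp Δ.subtype)) 1) ∧
      ∀ B k : ℕ, k ≠ 0 → ∃ Z : Set Γ, IsClosed Z ∧ μ Z = 0 ∧ (∀ x ∈ Z, ∀ τ, τ * x * τ⁻¹ ∈ Z) ∧
        ∀ x ∈ Δ, x ∉ Z → ∑ j, (Polynomial.aeval (ρ j x ^ k) (bigRep V B x ^ k).charpoly).charpoly.rootMultiplicity 0 ≤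
          ∑ j, if j ∈ A then Fintype.card (nn j) else Fintype.card (nn j) / 3 := by
  have hopf := coefAlg_hopf (bc G (dsum V (blk ρ))) 1
  haveI : Algebra.FiniteType G (coefAlg (bc G (dsum V (blk ρ))) 1) := (coefAlg _ 1).fg_iff_finiteType.mp hopf.fg
  haveI : IsNoetherianRing (coefAlg (bc G (dsum V (blk ρ))) 1) :=
    Algebra.FiniteType.isNoetherianRing G (coefAlg (bc G (dsum V (blk ρ))) 1)
  obtain ⟨A, hA⟩ : ∃ A : Finset J, ∀ j, j ∈ A ↔ ∀ i i', (fun x => bc G ((ρ j).comp Δ.subtype) x i i') ∈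
      coefAlg (bc G (V.comp Δ.subtype)) 1 := ⟨Finset.univ.filter fun j => ∀ i i',
        (fun x => bc G ((ρ j).comp Δ.subtype) x i i') ∈ coefAlg (bc G (V.comp Δ.subtype)) 1, fun j => by simp⟩
  refine ⟨A, fun j hj => (hA j).1 hj, fun B k hk => ?_⟩
  have hle : ∀ j, coefAlg (bc G (dsum (bigRep V B) (ρ j))) 1 ≤ coefAlg (bc G (dsum V (blk ρ))) 1 := fun j =>
    (coefAlg_blk (G := G) (bigRep V B) ρ j).trans (coefAlg_big_le V (blk ρ) B)
  have hdom : ∀ j, IsDomain (RR (bc G ((bigRep V B).comp Δ.subtype)) (bc G ((ρ j).comp Δ.subtype))) := by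
    intro j
    have h1 := res_domain (bc G (dsum (bigRep V B) (ρ j))) Δ (fun r hr s hs => hΔ r (hle j hr) s (hle j hs))
    have h2 : (bc G (dsum (bigRep V B) (ρ j))).comp Δ.subtype =
        dsum (bc G ((bigRep V B).comp Δ.subtype)) (bc G ((ρ j).comp Δ.subtype)) := by
      rw [← dsum_bc]
      rfl
    rw [h2] at h1
    exact h1
  have hbad : ∀ j, j ∉ A → ∃ i ≤ Fintype.card (nn j) / 3, ∃ x ∈ Δ,
      (Polynomial.aeval (bc G (ρ j) x ^ k) (bc G (bigRep V B) x ^ k).charpoly).charpoly.coeff i ≠ 0 := by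
    intro j hj
    by_contra hcon
    push Not at hcon
    apply hj
    rw [hA]
    intro i i'
    have h6 := core_on (G := G) Δ (bigRep V B) (ρ j) (hirr j) (hdom j) (Fintype.card (nn j) / 3 + 1) k hk (by omega) (by
      intro x hx i hi
      have h1 := hcon i (by omega) x hx
      rw [aeval_bc, Polynomial.coeff_map] at h1
      exact (map_eq_zero (algebraMap F G)).mp h1) i i'
    rw [bigRep_comp, bigRep_bc] at h6
    exact coefAlg_bigRep_le _ B h6
  choose! ii hii1 hii2 using hbad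
  obtain ⟨f, hf⟩ : ∃ f : J → Γ → G, f = fun j x => (Polynomial.aeval (bc G (ρ j) x ^ k)
    (bc G (bigRep V B) x ^ k).charpoly).charpoly.coeff (ii j) := ⟨_, rfl⟩
  have hfx : ∀ j x, f j x = (Polynomial.aeval (bc G (ρ j) x ^ k)
    (bc G (bigRep V B) x ^ k).charpoly).charpoly.coeff (ii j) := fun j x => by rw [hf]
  have hfm : ∀ j, f j ∈ coefAlg (bc G (dsum V (blk ρ))) 1 := by
    intro j
    rw [hf]
    exact hle j (coeff_mem_RR (bigRep V B) (ρ j) k (ii j))
  have hΔc : IsClosed (Δ : Set Γ) := Δ.isClosed_of_isOpen hΔo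
  refine ⟨⋃ j ∈ Finset.univ.filter fun j => j ∉ A, ({x | f j x = 0} ∩ Δ), ?_, ?_, ?_, ?_⟩
  · exact isClosed_biUnion_finset fun j _ => (isClosed_singleton.preimage (hcont _ (hfm j))).inter hΔc
  · refine le_antisymm ((measure_biUnion_finset_le _ _).trans (le_of_eq (Finset.sum_eq_zero ?_))) bot_le
    intro j hj
    by_contra h0
    have h1 := null_zero_on μ (coefAlg (bc G (dsum V (blk ρ))) 1) hopf.comul hcont Δ hΔo hΔ (f j) (hfm j) h0
    obtain ⟨x, hx, h2⟩ := hii2 j (Finset.mem_filter.mp hj).2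
    rw [← hfx] at h2
    exact h2 (h1 x hx)
  · intro x hx τ
    rw [Set.mem_iUnion₂] at hx ⊢
    obtain ⟨j, hj, h1, h2⟩ := hx
    refine ⟨j, hj, ?_, hΔn.conj_mem x h2 τ⟩
    change f j _ = 0
    rw [hfx, cp_conj, ← hfx]
    exact h1
  · intro x hx hxZ
    refine Finset.sum_le_sum fun j _ => ?_
    obtain ⟨P, hP⟩ : ∃ P, P = (Polynomial.aeval (ρ j x ^ k) (bigRep V B x ^ k).charpoly).charpoly := ⟨_, rfl⟩
    have hPm : P.Monic := hP ▸ Matrix.charpoly_monic _
    have hPd : P.natDegree = Fintype.card (nn j) := hP ▸ Matrix.charpoly_natDegree_eq_dim _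
    rw [← hP]
    split_ifs with hj
    · rw [← hPd, ← Polynomial.count_roots]
      exact (Multiset.count_le_card _ _).trans (Polynomial.card_roots' P)
    · have h1 : f j x ≠ 0 := by
        intro h0
        apply hxZ
        rw [Set.mem_iUnion₂]
        exact ⟨j, Finset.mem_filter.mpr ⟨Finset.mem_univ _, hj⟩, h0, hx⟩
      rw [hfx, aeval_bc, Polynomial.coeff_map, ← hP] at h1
      have h2 : P.coeff (ii j) ≠ 0 := fun h0 => h1 (by rw [h0, map_zero])
      refine le_trans ?_ (hii1 j hj)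
      by_contra hcon
      push Not at hcon
      have h3 : Polynomial.X ^ (ii j + 1) ∣ P := by
        have h4 := (Polynomial.le_rootMultiplicity_iff hPm.ne_zero (a := 0) (n := ii j + 1)).1 hcon
        rwa [map_zero, sub_zero] at h4
      rw [Polynomial.X_pow_dvd_iff] at h3
      exact h2 (h3 _ (Nat.lt_succ_self _))

end

end Pool.Agent.H40LT
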