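import Mathlib
import Pool.Agent.H40LT.Full

/-!
# Eigenvalues of almost all elements
-/

set_option autoImplicit false
set_option linter.unusedSectionVars false
set_option linter.style.haveILetI false

namespace Pool.Agent.H40LT

open Module Matrix Pool.Agent.H40GO Topology MeasureTheory

section

variable {F : Type*} [Field F] [CharZero F] [TopologicalSpace F] {G : Type*} [Field G] [Algebra F G]
  [TopologicalSpace G] [IsTopologicalRing G] [T2Space G] [IsAlgClosed G] {Γ : Type*} [Group Γ] [TopologicalSpace Γ]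
  [IsTopologicalGroup Γ] [CompactSpace Γ] [MeasurableSpace Γ] [BorelSpace Γ]

omit [IsAlgClosed G] [CompactSpace Γ] [MeasurableSpace Γ] [BorelSpace Γ] in
theorem exists_delta {k : Type*} [Fintype k] [DecidableEq k] (U : Γ →* Matrix k k G) (hU : Continuous U) :
    ∃ Δ : Subgroup Γ, Δ.Normal ∧ IsOpen (Δ : Set Γ) ∧ ConnOn (coefAlg U 1) Δ ∧ (Rigid U ⊤ → Δ = ⊤) := by
  by_cases h : Rigid U ⊤
  · exact ⟨⊤, inferInstance, isOpen_univ, connOn_of_rigid U ⊤ isOpen_univ (cont_coefAlg U hU) h, fun _ => rfl⟩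
  · have hopf := coefAlg_hopf U 1
    obtain ⟨Δ, hΔ1, -, hΔ3, hΔ4⟩ := exists_conn hopf.comul hopf.fg
    exact ⟨Δ, hΔ1, hΔ4 fun s hs => isOpen_ne_fun (cont_coefAlg U hU s hs) continuous_const, hΔ3,
      fun h' => absurd h' h⟩

theorem geo_of_mem {N n : ℕ} (V : Γ →* Matrix (Fin N) (Fin N) F) (ρ : Γ →* Matrix (Fin n) (Fin n) F) (hirr : Irr ρ)
    (Δ : Subgroup Γ) [Δ.Normal] (hΔo : IsOpen (Δ : Set Γ))
    (h : ∀ i i', (fun x => bc G (ρ.comp Δ.subtype) x i i') ∈ coefAlg (bc G (V.comp Δ.subtype)) 1) : Geo V ρ := by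
  haveI : Finite (Γ ⧸ Δ) := Subgroup.quotient_finite_of_isOpen Δ hΔo
  haveI : Fintype (Γ ⧸ Δ) := Fintype.ofFinite _
  haveI : Δ.FiniteIndex := Subgroup.finiteIndex_of_finite_quotient
  obtain ⟨a, b, hab⟩ := subQuot_of_res (G := G) V ρ hirr Δ (Fintype.equivFin (Γ ⧸ Δ)) h
  exact ⟨a, b, _, permRep F Δ (Fintype.equivFin (Γ ⧸ Δ)), permRep_continuous Δ hΔo _, permRep_finite Δ _, hab⟩

open scoped Classical in
/-- **The eigenvalues which are monomials, for almost all elements.** -/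
theorem geo_null (hFG : Continuous (algebraMap F G)) (μ : Measure Γ) [IsFiniteMeasure μ] [μ.IsMulLeftInvariant]
    [μ.InnerRegularCompactLTTop] {N b s : ℕ} (V : Γ →* Matrix (Fin N) (Fin N) F)
    (hV : Continuous V) (H : Γ →* Matrix (Fin b) (Fin b) F) (n : Fin s → ℕ)
    (ρ : ∀ j, Γ →* Matrix (Fin (n j)) (Fin (n j)) F) (hρ : ∀ j, Continuous (ρ j)) (hirr : ∀ j, Irr (ρ j))
    (hfac : ∀ σ, (H σ).charpoly = ∏ j, (ρ j σ).charpoly) :
    ∃ Δ : Subgroup Γ, Δ.Normal ∧ IsOpen (Δ : Set Γ) ∧ (Rigid (bc G (dsum V (blk ρ))) ⊤ → Δ = ⊤) ∧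
      ∀ B, ∃ Z : Set Γ, IsClosed Z ∧ μ Z = 0 ∧ (∀ x ∈ Z, ∀ τ, τ * x * τ⁻¹ ∈ Z) ∧ ∀ x ∈ Δ, x ∉ Z →
        Multiset.card ((bc G H x).charpoly.roots.filter (Good (bc G V) B x)) ≤
          ∑ j, if Geo V (ρ j) then n j else n j / 3 := by
  have hchar : CharZero G := charZero_of_injective_algebraMap (algebraMap F G).injective
  have hVc := bc_cont (G := G) hFG V hV
  have hU : Continuous (bc G (dsum V (blk ρ))) := by
    rw [dsum_bc]
    exact cont_dsum _ _ hVc (cont_blk hFG ρ hρ)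
  obtain ⟨Δ, hΔn, hΔo, hΔ, hΔt⟩ := exists_delta (bc G (dsum V (blk ρ))) hU
  obtain ⟨A, hA, hAZ⟩ := multi_null μ V ρ hirr (cont_coefAlg _ hU) Δ hΔo hΔ
  refine ⟨Δ, hΔn, hΔo, hΔt, fun B => ?_⟩
  obtain ⟨Z, hZ1, hZ2, hZ3, hZ4⟩ := hAZ B B.factorial (Nat.factorial_ne_zero B)
  refine ⟨Z, hZ1, hZ2, hZ3, fun x hx hxZ => ?_⟩
  rw [unity_sum H n ρ x (hfac x)]
  have h1 : ∑ j, Multiset.card ((bc G (ρ j) x).charpoly.roots.filter (Good (bc G V) B x)) ≤
      ∑ j, (Polynomial.aeval (ρ j x ^ B.factorial)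
        (bigRep V B x ^ B.factorial).charpoly).charpoly.rootMultiplicity 0 :=
    Finset.sum_le_sum fun j _ => (mz_iff _).1 (good_mz (G := G) V (ρ j) B _ x le_rfl)
  refine h1.trans ((hZ4 x hx hxZ).trans (Finset.sum_le_sum fun j _ => ?_))
  rw [Fintype.card_fin]
  by_cases hj : j ∈ A
  · rw [if_pos hj, if_pos (geo_of_mem (G := G) V (ρ j) (hirr j) Δ hΔo (hA j hj))]
  · rw [if_neg hj]
    split_ifs
    · exact Nat.div_le_self _ _
    · exact le_refl _

omit [TopologicalSpace F] [TopologicalSpace G] [IsTopologicalRing G] [T2Space G] [TopologicalSpace Γ]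
  [IsTopologicalGroup Γ] [CompactSpace Γ] [MeasurableSpace Γ] [BorelSpace Γ] in
open scoped Classical in
theorem unity_count' {n m : Type*} [Fintype n] [DecidableEq n] [Fintype m] [DecidableEq m] [Nonempty m]
    (ρ : Γ →* Matrix n n F) (W : Γ →* Matrix m m F) (σ : Γ) (hW : W σ = 1) (k : ℕ)
    (h : ∀ z : G, (bc G ρ σ).charpoly.IsRoot z → IsUnity z → z ^ k = 1) :
    Multiset.card ((bc G ρ σ).charpoly.roots.filter IsUnity) ≤
      (Polynomial.aeval (ρ σ ^ k) (W σ ^ k).charpoly).charpoly.rootMultiplicity 0 := by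
  have h1 : MZ (Multiset.card ((bc G ρ σ).charpoly.roots.filter IsUnity))
      (Polynomial.aeval (bc G ρ σ) ((Polynomial.X ^ k - 1) ^ Fintype.card m : Polynomial G)) := by
    apply count_mz
    refine Multiset.card_le_card ?_
    rw [Multiset.le_filter]
    refine ⟨Multiset.filter_le _ _, fun z hz => ?_⟩
    rw [Multiset.mem_filter, Polynomial.mem_roots (Matrix.charpoly_monic _).ne_zero] at hz
    rw [Polynomial.eval_pow, Polynomial.eval_sub, Polynomial.eval_pow, Polynomial.eval_X, Polynomial.eval_one,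
      h z hz.1 hz.2, sub_self, zero_pow Fintype.card_ne_zero]
  have h2 : Polynomial.aeval (bc G ρ σ) ((Polynomial.X ^ k - 1) ^ Fintype.card m : Polynomial G) =
      (Polynomial.aeval (ρ σ ^ k) (W σ ^ k).charpoly).map (algebraMap F G) := by
    rw [hW, one_pow, Matrix.charpoly_one, map_pow, map_pow, map_sub, map_sub, map_pow,
      Polynomial.aeval_X, map_one, map_one, Polynomial.aeval_X]
    have h3 : ((ρ σ ^ k - 1) ^ Fintype.card m).map (algebraMap F G) =
      (algebraMap F G).mapMatrix ((ρ σ ^ k - 1) ^ Fintype.card m) := rfl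
    rw [h3, map_pow, map_sub, map_pow, map_one]
    rfl
  rw [h2] at h1
  have h3 := h1.of_map _ (algebraMap F G).injective
  exact (mz_iff _).1 h3

omit [CharZero F] [TopologicalSpace F] [TopologicalSpace G] [IsTopologicalRing G] [T2Space G] [IsAlgClosed G]
  [TopologicalSpace Γ] [IsTopologicalGroup Γ] [CompactSpace Γ] [MeasurableSpace Γ] [BorelSpace Γ] in
theorem bigRep_one {m : Type*} [Fintype m] [DecidableEq m] (B : ℕ) (x : Γ) :
    bigRep (1 : Γ →* Matrix m m F) B x = 1 := by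
  have h1 : bigRep (1 : Γ →* Matrix m m F) B x = bigRep (1 : Γ →* Matrix m m F) B 1 := rfl
  rw [h1, map_one]

omit [CharZero F] [TopologicalSpace F] [TopologicalSpace G] [IsTopologicalRing G] [T2Space G] [IsAlgClosed G]
  [TopologicalSpace Γ] [IsTopologicalGroup Γ] [CompactSpace Γ] [MeasurableSpace Γ] [BorelSpace Γ] in
theorem coefAlg_one_le {n : Type*} [Fintype n] [DecidableEq n] (Q : Γ →* Matrix n n F) :
    coefAlg (bc G (dsum (1 : Γ →* Matrix (Fin 1) (Fin 1) F) Q)) 1 ≤ coefAlg (bc G Q) 1 := by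
  refine Algebra.adjoin_le ?_
  have h0 : ∀ i i' : Fin 1, (fun _ : Γ => algebraMap F G ((1 : Matrix (Fin 1) (Fin 1) F) i i')) ∈
      coefAlg (bc G Q) 1 := fun i i' => Subalgebra.algebraMap_mem _ (algebraMap F G ((1 : Matrix _ _ F) i i'))
  have hz : (fun _ : Γ => algebraMap F G 0) ∈ coefAlg (bc G Q) 1 :=
    Subalgebra.algebraMap_mem _ (algebraMap F G 0)
  rintro s ((⟨⟨i, i'⟩, rfl⟩ | ⟨⟨i, i'⟩, rfl⟩) | (rfl | rfl))
  · rcases i with i | i <;> rcases i' with i' | i'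
    · exact h0 i i'
    · exact hz
    · exact hz
    · exact mem1 (bc G Q) 1 i i'
  · rcases i with i | i <;> rcases i' with i' | i'
    · exact h0 i i'
    · exact hz
    · exact hz
    · exact mem2 (bc G Q) 1 i i'
  · exact (coefAlg _ 1).one_mem
  · exact (coefAlg _ 1).one_mem

open scoped Classical in
/-- **The eigenvalues which are roots of unity, for almost all elements.** -/
theorem unity_null (hFG : Continuous (algebraMap F G)) (μ : Measure Γ) [IsFiniteMeasure μ] [μ.IsMulLeftInvariant]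
    [μ.InnerRegularCompactLTTop] (S : Set Γ) {b s : ℕ} (H : Γ →* Matrix (Fin b) (Fin b) F) (n : Fin s → ℕ)
    (ρ : ∀ j, Γ →* Matrix (Fin (n j)) (Fin (n j)) F) (hρ : ∀ j, Continuous (ρ j)) (hirr : ∀ j, Irr (ρ j))
    (hfac : ∀ σ, (H σ).charpoly = ∏ j, (ρ j σ).charpoly)
    (hrat : ∀ σ ∈ S, ∃ P : Polynomial ℚ, (H σ).charpoly = P.map (algebraMap ℚ F)) :
    ∃ Δ : Subgroup Γ, Δ.Normal ∧ IsOpen (Δ : Set Γ) ∧ (Rigid (bc G (blk ρ)) ⊤ → Δ = ⊤) ∧
      ∃ Z : Set Γ, IsClosed Z ∧ μ Z = 0 ∧ (∀ x ∈ Z, ∀ τ, τ * x * τ⁻¹ ∈ Z) ∧ ∀ x ∈ S, x ∈ Δ → x ∉ Z →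
        Multiset.card ((bc G H x).charpoly.roots.filter IsUnity) ≤
          ∑ j, if (Set.range (ρ j)).Finite then n j else n j / 3 := by
  have hchar : CharZero G := charZero_of_injective_algebraMap (algebraMap F G).injective
  have hQ : Continuous (bc G (blk ρ)) := cont_blk hFG ρ hρ
  obtain ⟨Δ, hΔn, hΔo, hΔ, hΔt⟩ := exists_delta (bc G (blk ρ)) hQ
  have hle := coefAlg_one_le (G := G) (blk ρ)
  obtain ⟨A, hA, hAZ⟩ := multi_null (G := G) μ (1 : Γ →* Matrix (Fin 1) (Fin 1) F) ρ hirr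
    (fun s hs => cont_coefAlg _ hQ s (hle hs)) Δ hΔo
    (fun r hr s hs h => hΔ r (hle hr) s (hle hs) h)
  refine ⟨Δ, hΔn, hΔo, hΔt, ?_⟩
  obtain ⟨Z, hZ1, hZ2, hZ3, hZ4⟩ := hAZ 0 (expo b) (expo_ne_zero b)
  refine ⟨Z, hZ1, hZ2, hZ3, fun x hxS hx hxZ => ?_⟩
  rw [unity_sum H n ρ x (hfac x)]
  haveI : Finite (Γ ⧸ Δ) := Subgroup.quotient_finite_of_isOpen Δ hΔo
  haveI : Δ.FiniteIndex := Subgroup.finiteIndex_of_finite_quotient
  have h1 : ∑ j, Multiset.card ((bc G (ρ j) x).charpoly.roots.filter IsUnity) ≤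
      ∑ j, (Polynomial.aeval (ρ j x ^ expo b)
        (bigRep (1 : Γ →* Matrix (Fin 1) (Fin 1) F) 0 x ^ expo b).charpoly).charpoly.rootMultiplicity 0 := by
    refine Finset.sum_le_sum fun j _ => ?_
    haveI : Nonempty (Σ ab : Fin (0 + 1) × Fin (0 + 1), (Fin ab.1 → Fin 1) × (Fin ab.2 → Fin 1)) :=
      ⟨⟨(0, 0), (fun _ => 0, fun _ => 0)⟩⟩
    refine unity_count' (ρ j) (bigRep (1 : Γ →* Matrix (Fin 1) (Fin 1) F) 0) x (bigRep_one 0 x) (expo b) ?_
    intro z hz ⟨d, hd, hzd⟩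
    obtain ⟨P, hP⟩ := hrat x hxS
    have hPm : P.Monic := by
      have h5 : (P.map (algebraMap ℚ F)).Monic := hP ▸ Matrix.charpoly_monic (H x)
      exact Polynomial.monic_of_injective (algebraMap ℚ F).injective h5
    have hPd : P.natDegree ≤ b := by
      have h5 := congrArg Polynomial.natDegree hP
      rw [Matrix.charpoly_natDegree_eq_dim, Fintype.card_fin,
        Polynomial.natDegree_map_eq_of_injective (algebraMap ℚ F).injective] at h5
      exact h5.symm.le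
    refine pow_expo P hPm.ne_zero b hPd z ?_ d hd hzd
    have h5 : (bc G H x).charpoly = P.map (algebraMap ℚ G) := by
      rw [bc_charpoly, hP, Polynomial.map_map]
      congr 1
      exact RingHom.ext_rat _ _
    have h6 : (bc G H x).charpoly = ∏ j, (bc G (ρ j) x).charpoly := by
      rw [bc_charpoly, hfac, Polynomial.map_prod]
      exact Finset.prod_congr rfl fun j _ => (bc_charpoly _ _).symm
    rw [Polynomial.aeval_def, ← Polynomial.eval_map, ← h5, h6, Polynomial.eval_prod]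
    exact Finset.prod_eq_zero (Finset.mem_univ j) hz
  refine h1.trans ((hZ4 x hx hxZ).trans (Finset.sum_le_sum fun j _ => ?_))
  rw [Fintype.card_fin]
  by_cases hj : j ∈ A
  · rw [if_pos hj, if_pos (finite_of_trivial (ρ j) Δ (trivial_factor (G := G) (ρ j) Δ (hA j hj)))]
  · rw [if_neg hj]
    split_ifs
    · exact Nat.div_le_self _ _
    · exact le_refl _

end

end Pool.Agent.H40LT
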