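import Mathlib
import Pool.Agent.H40LT.Null2

/-!
# Positive density
-/

set_option autoImplicit false
set_option linter.unusedSectionVars false
set_option linter.style.haveILetI false

namespace Pool.Agent.H40LT

open NumberField IsDedekindDomain Filter Module Matrix Pool.Agent.H40GO Topology MeasureTheory Pool.Agent.W401.Cheb

section

variable {G : Type*} [Field G] {Γ : Type*} [Group Γ] {k k' : Type*} [Fintype k] [DecidableEq k] [Fintype k']
  [DecidableEq k'] [TopologicalSpace Γ] [IsTopologicalGroup Γ]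

theorem Rigid.mono {U : Γ →* Matrix k k G} {U' : Γ →* Matrix k' k' G} {Δ : Subgroup Γ} (h : Rigid U Δ)
    (hle : coefAlg U' 1 ≤ coefAlg U 1) : Rigid U' Δ := by
  intro D hD hDΔ P hP
  exact h.mem D hD hDΔ _ (hle (mem_of_poly U' P)) hP

theorem coefAlg_blk_le {F : Type*} [Field F] [Algebra F G] {J : Type*} [Fintype J] [DecidableEq J] {m n : Type*}
    [Fintype m] [DecidableEq m] [Fintype n] [DecidableEq n] (V : Γ →* Matrix m m F) (ρ : Γ →* Matrix n n F) :
    coefAlg (bc G (dsum V (blk fun _ : J => ρ))) 1 ≤ coefAlg (bc G (dsum V ρ)) 1 := by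
  refine Algebra.adjoin_le ?_
  have hz : (fun _ : Γ => algebraMap F G 0) ∈ coefAlg (bc G (dsum V ρ)) 1 :=
    Subalgebra.algebraMap_mem _ (algebraMap F G 0)
  rintro s ((⟨⟨i, i'⟩, rfl⟩ | ⟨⟨i, i'⟩, rfl⟩) | (rfl | rfl))
  · rcases i with i | ⟨j, i⟩ <;> rcases i' with i' | ⟨j', i'⟩
    · exact mem1 (bc G (dsum V ρ)) 1 (Sum.inl i) (Sum.inl i')
    · exact hz
    · exact hz
    · by_cases hj : j = j'
      · subst hj
        have h : (fun x => bc G (dsum V (blk fun _ : J => ρ)) x (Sum.inr ⟨j, i⟩) (Sum.inr ⟨j, i'⟩)) =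
            fun x => bc G (dsum V ρ) x (Sum.inr i) (Sum.inr i') := by
          funext x
          exact congrArg (algebraMap F G) (blk_apply (fun _ : J => ρ) x j i i')
        exact (congrArg (· ∈ coefAlg (bc G (dsum V ρ)) 1) h).mpr
          (mem1 (bc G (dsum V ρ)) 1 (Sum.inr i) (Sum.inr i'))
      · have h : (fun x => bc G (dsum V (blk fun _ : J => ρ)) x (Sum.inr ⟨j, i⟩) (Sum.inr ⟨j', i'⟩)) =
            fun _ => algebraMap F G 0 := by
          funext x
          exact congrArg (algebraMap F G) (Matrix.blockDiagonal'_apply_ne (fun _ : J => ρ x) i i' hj)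
        exact (congrArg (· ∈ coefAlg (bc G (dsum V ρ)) 1) h).mpr hz
  · rcases i with i | ⟨j, i⟩ <;> rcases i' with i' | ⟨j', i'⟩
    · exact mem2 (bc G (dsum V ρ)) 1 (Sum.inl i) (Sum.inl i')
    · exact hz
    · exact hz
    · by_cases hj : j = j'
      · subst hj
        have h : (fun x => bc G (dsum V (blk fun _ : J => ρ)) x⁻¹ (Sum.inr ⟨j, i⟩) (Sum.inr ⟨j, i'⟩)) =
            fun x => bc G (dsum V ρ) x⁻¹ (Sum.inr i) (Sum.inr i') := by
          funext x
          exact congrArg (algebraMap F G) (blk_apply (fun _ : J => ρ) x⁻¹ j i i')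
        exact (congrArg (· ∈ coefAlg (bc G (dsum V ρ)) 1) h).mpr
          (mem2 (bc G (dsum V ρ)) 1 (Sum.inr i) (Sum.inr i'))
      · have h : (fun x => bc G (dsum V (blk fun _ : J => ρ)) x⁻¹ (Sum.inr ⟨j, i⟩) (Sum.inr ⟨j', i'⟩)) =
            fun _ => algebraMap F G 0 := by
          funext x
          exact congrArg (algebraMap F G) (Matrix.blockDiagonal'_apply_ne (fun _ : J => ρ x⁻¹) i i' hj)
        exact (congrArg (· ∈ coefAlg (bc G (dsum V ρ)) 1) h).mpr hz
  · exact (coefAlg _ 1).one_mem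
  · exact (coefAlg _ 1).one_mem

end

section

variable {K : Type} [Field K] [NumberField K]

/-- the set `S` of primes has natural density zero -/
def DensZero (S : Set (HeightOneSpectrum (𝓞 K))) : Prop :=
  Tendsto (fun N : ℕ => (Nat.card {v : HeightOneSpectrum (𝓞 K) // Ideal.absNorm v.asIdeal ≤ N ∧ v ∈ S} : ℝ) /
    (Nat.card {v : HeightOneSpectrum (𝓞 K) // Ideal.absNorm v.asIdeal ≤ N} : ℝ)) atTop (𝓝 0)

theorem DensZero.mono {S S' : Set (HeightOneSpectrum (𝓞 K))} (h : DensZero S') (hS : S ⊆ S') : DensZero S := by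
  refine squeeze_zero (fun N => by positivity) (fun N => ?_) h
  refine div_le_div_of_nonneg_right ?_ (Nat.cast_nonneg _)
  have h1 := Set.ncard_le_ncard (s := {v : HeightOneSpectrum (𝓞 K) | Ideal.absNorm v.asIdeal ≤ N ∧ v ∈ S})
    (t := {v : HeightOneSpectrum (𝓞 K) | Ideal.absNorm v.asIdeal ≤ N ∧ v ∈ S'})
    (fun v hv => ⟨hv.1, hS hv.2⟩) (fin_le _ N)
  exact_mod_cast h1

theorem frequently_of_not {S : Set (HeightOneSpectrum (𝓞 K))} (h : ¬ DensZero S) :
    ∃ ε : ℝ, 0 < ε ∧ ∃ᶠ N : ℕ in atTop,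
      ε * (Nat.card {v : HeightOneSpectrum (𝓞 K) // Ideal.absNorm v.asIdeal ≤ N} : ℝ) ≤
        (Nat.card {v : HeightOneSpectrum (𝓞 K) // Ideal.absNorm v.asIdeal ≤ N ∧ v ∈ S} : ℝ) := by
  unfold DensZero at h
  rw [Metric.tendsto_atTop] at h
  push Not at h
  obtain ⟨ε, hε, h⟩ := h
  refine ⟨ε, hε, ?_⟩
  rw [Filter.frequently_atTop]
  intro a
  obtain ⟨N, hN, h1⟩ := h a
  refine ⟨N, hN, ?_⟩
  rw [Real.dist_eq, sub_zero, abs_of_nonneg (by positivity)] at h1
  rcases Nat.eq_zero_or_pos (Nat.card {v : HeightOneSpectrum (𝓞 K) // Ideal.absNorm v.asIdeal ≤ N}) with h2 | h2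
  · rw [h2, Nat.cast_zero, mul_zero]
    exact Nat.cast_nonneg _
  · rwa [le_div_iff₀ (by exact_mod_cast h2)] at h1

/-- a closed set of measure zero has density zero -/
theorem densZero_of_null [MeasurableSpace (GK K)] [BorelSpace (GK K)] (μ : Measure (GK K)) [IsFiniteMeasure μ]
    [μ.IsMulLeftInvariant] [μ.OuterRegular] (hμ : μ Set.univ ≠ 0) (Z : Set (GK K)) (hZ : IsClosed Z) (h0 : μ Z = 0)
    (hconj : ∀ σ ∈ Z, ∀ τ : GK K, τ * σ * τ⁻¹ ∈ Z) :
    DensZero {v : HeightOneSpectrum (𝓞 K) | ∃ σ ∈ Z, IsFrob v σ} := by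
  by_contra hcon
  obtain ⟨ε, hε, h⟩ := frequently_of_not hcon
  exact measure_ne_zero μ hμ Z hZ hconj _ ∅ ε hε h Set.finite_empty (fun v hv _ => hv) h0

/-- an open normal subgroup has positive density -/
theorem not_densZero (U : Subgroup (GK K)) [U.Normal] (hU : IsOpen (U : Set (GK K))) :
    ¬ DensZero {v : HeightOneSpectrum (𝓞 K) | ∃ σ ∈ U, IsFrob v σ} := by
  intro h
  have hch := Pool.Agent.Y773.AB.chebK K U hU (U : Set (GK K))
    (fun σ hσ τ => Subgroup.Normal.conj_mem inferInstance σ hσ τ) (fun σ hσ u hu => U.mul_mem hσ hu)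
  have hall := all_dens (K := K)
  have hfin : Finite (GK K ⧸ U) := Subgroup.quotient_finite_of_isOpen U hU
  have hpos : (0 : ℝ) < ((((QuotientGroup.mk : GK K → GK K ⧸ U) '' (U : Set (GK K))).ncard : ℝ) /
      (Nat.card (GK K ⧸ U) : ℝ)) := by
    apply div_pos
    · rw [Nat.cast_pos, Set.ncard_pos (Set.toFinite _)]
      exact ⟨_, 1, U.one_mem, rfl⟩
    · rw [Nat.cast_pos]
      exact Nat.card_pos
  have h1 : Tendsto (fun N : ℕ => dens (fun v : HeightOneSpectrum (𝓞 K) => ∃ σ ∈ (U : Set (GK K)), IsFrob v σ) N)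
      atTop (𝓝 0) := by
    have h2 := h.mul hall
    rw [zero_mul] at h2
    refine h2.congr' ?_
    have hev : ∀ᶠ N : ℕ in atTop, 1 / 2 < (Nat.card {v : HeightOneSpectrum (𝓞 K) //
        Ideal.absNorm v.asIdeal ≤ N} : ℝ) / (Nat.primeCounting N : ℝ) := hall.eventually (lt_mem_nhds (by norm_num))
    filter_upwards [hev] with N hN
    have h3 : (Nat.card {v : HeightOneSpectrum (𝓞 K) // Ideal.absNorm v.asIdeal ≤ N} : ℝ) ≠ 0 := by
      intro h4
      rw [h4, zero_div] at hN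
      norm_num at hN
    unfold dens
    rw [div_mul_div_cancel₀ h3]
    rfl
  exact hpos.ne (tendsto_nhds_unique h1 hch)

end

section

variable {K : Type} [Field K] [NumberField K] {F : Type*} [Field F] [CharZero F] [TopologicalSpace F]
  {G : Type*} [Field G] [Algebra F G] [TopologicalSpace G] [IsTopologicalRing G] [T2Space G] [IsAlgClosed G]

open scoped Classical in
/-- **Positive density suffices.** -/
theorem third_iff (hFG : Continuous (algebraMap F G)) (N n : ℕ) (V : GK K →* Matrix (Fin N) (Fin N) F)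
    (ρ : GK K →* Matrix (Fin n) (Fin n) F) (hV : Continuous V) (hρ : Continuous ρ) (hirr : Irr ρ) :
    ∃ U : Subgroup (GK K), U.Normal ∧ IsOpen (U : Set (GK K)) ∧ (Rigid (bc G (dsum V ρ)) ⊤ → U = ⊤) ∧
      (Geo V ρ ↔ ∃ B : ℕ, ¬ DensZero {v : HeightOneSpectrum (𝓞 K) | ∃ σ ∈ U, IsFrob v σ ∧
        n < 3 * Multiset.card ((bc G ρ σ).charpoly.roots.filter (Good (bc G V) B σ))}) := by
  letI : MeasurableSpace (GK K) := borel _
  haveI : BorelSpace (GK K) := ⟨rfl⟩
  obtain ⟨U, hU1, hU2, hU3, hU4⟩ := geo_null (G := G) hFG (Measure.haar : Measure (GK K)) V hV ρ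
    (fun _ : Fin 1 => n) (fun _ => ρ) (fun _ => hρ) (fun _ => hirr) (fun σ => by
      rw [Finset.prod_const, Finset.card_univ, Fintype.card_fin, pow_one])
  refine ⟨U, hU1, hU2, fun h => hU3 (h.mono (coefAlg_blk_le V ρ)), ?_⟩
  have hn : 0 < n := by
    obtain ⟨i⟩ := hirr.1
    exact Fin.pos i
  constructor
  · rintro ⟨a, b, d, θ, -, hθ, h⟩
    obtain ⟨B, hB⟩ := good_of_subQuot (G := G) V ρ a b d θ hθ h
    refine ⟨B, fun hcon => not_densZero U hU2 (hcon.mono ?_)⟩
    rintro v ⟨σ, hσ, hv⟩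
    refine ⟨σ, hσ, hv, ?_⟩
    have h2 : (bc G ρ σ).charpoly.roots.filter (Good (bc G V) B σ) = (bc G ρ σ).charpoly.roots := by
      rw [Multiset.filter_eq_self]
      intro z hz
      rw [Polynomial.mem_roots (Matrix.charpoly_monic _).ne_zero] at hz
      exact hB σ z hz
    rw [h2, IsAlgClosed.card_roots_eq_natDegree, Matrix.charpoly_natDegree_eq_dim, Fintype.card_fin]
    omega
  · rintro ⟨B, hB⟩
    by_contra hgeo
    obtain ⟨Z, hZ1, hZ2, hZ3, hZ4⟩ := hU4 B
    apply hB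
    refine (densZero_of_null (Measure.haar : Measure (GK K)) (by
      exact (isOpen_univ.measure_pos _ ⟨1, trivial⟩).ne') Z hZ1 hZ2 hZ3).mono ?_
    rintro v ⟨σ, hσ, hv, hlt⟩
    refine ⟨σ, ?_, hv⟩
    by_contra hσZ
    have h1 := hZ4 σ hσ hσZ
    simp only [Finset.univ_unique, Finset.sum_const, Finset.card_singleton, if_neg hgeo, one_smul] at h1
    omega

end

end Pool.Agent.H40LT
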