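import Mathlib
import Pool.Agent.H40LT.PosK

/-!
# Positive density in the classes of a Galois group
-/

set_option autoImplicit false
set_option linter.unusedSectionVars false
set_option linter.style.haveILetI false

namespace Pool.Agent.H40LT

open NumberField IsDedekindDomain Filter Module Matrix Pool.Agent.H40GO Topology MeasureTheory Pool.Agent.W401.Cheb
open scoped Pointwise

section

variable {K : Type} [Field K] [NumberField K] {G : Type*} [Field G] [TopologicalSpace G] [IsTopologicalRing G]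
  [T2Space G]

/-- the union of the classes of `g U` -/
def cls (U : Subgroup (GK K)) (g : GK K) : Set (GK K) := {x | ∃ τ : GK K, g⁻¹ * (τ * x * τ⁻¹) ∈ U}

theorem cls_mul (U : Subgroup (GK K)) [hU : U.Normal] (g x u : GK K) (hx : x ∈ cls U g) (hu : u ∈ U) :
    x * u ∈ cls U g := by
  obtain ⟨τ, hτ⟩ := hx
  refine ⟨τ, ?_⟩
  have h1 := U.mul_mem hτ (hU.conj_mem u hu τ)
  have h2 : g⁻¹ * (τ * (x * u) * τ⁻¹) = g⁻¹ * (τ * x * τ⁻¹) * (τ * u * τ⁻¹) := by group
  rw [h2]
  exact h1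

theorem cls_conj (U : Subgroup (GK K)) (g x : GK K) (hx : x ∈ cls U g) (τ : GK K) : τ * x * τ⁻¹ ∈ cls U g := by
  obtain ⟨ν, hν⟩ := hx
  refine ⟨ν * τ⁻¹, ?_⟩
  have h2 : g⁻¹ * (ν * τ⁻¹ * (τ * x * τ⁻¹) * (ν * τ⁻¹)⁻¹) = g⁻¹ * (ν * x * ν⁻¹) := by group
  rw [h2]
  exact hν

theorem cls_closed (U : Subgroup (GK K)) [hU : U.Normal] (hUo : IsOpen (U : Set (GK K))) (g : GK K) :
    IsClosed (cls U g) := by
  rw [← isOpen_compl_iff, isOpen_iff_mem_nhds]
  intro x hx
  have h1 : x • (U : Set (GK K)) ∈ 𝓝 x := (hUo.smul x).mem_nhds (Set.mem_smul_set_iff_inv_smul_mem.mpr (by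
    rw [smul_eq_mul, inv_mul_cancel]
    exact U.one_mem))
  filter_upwards [h1] with y hy
  rw [Set.mem_smul_set_iff_inv_smul_mem, smul_eq_mul] at hy
  intro hy'
  apply hx
  have h2 := cls_mul U g y _ hy' (U.inv_mem hy)
  rwa [_root_.mul_inv_rev, inv_inv, mul_inv_cancel_left] at h2

/-- **From a positive proportion of the primes in a class to a coset.** -/
theorem spread {k ι : Type*} [Fintype k] [DecidableEq k] (T : GK K →* Matrix k k G) (hT : Continuous T)
    (U : Subgroup (GK K)) [hU : U.Normal] (hUo : IsOpen (U : Set (GK K))) (hconn : ConnOn (coefAlg T 1) U)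
    (f : ι → GK K → G) (hf : ∀ i, f i ∈ coefAlg T 1) (hc : ∀ i x τ, f i (τ * x * τ⁻¹) = f i x) (g : GK K)
    (h : ¬ DensZero {v : HeightOneSpectrum (𝓞 K) | ∃ σ, g⁻¹ * σ ∈ U ∧ IsFrob v σ ∧ ∀ i, f i σ = 0}) (i : ι)
    (x : GK K) (hx : g⁻¹ * x ∈ U) : f i x = 0 := by
  classical
  letI : MeasurableSpace (GK K) := borel _
  haveI : BorelSpace (GK K) := ⟨rfl⟩
  have hcont := cont_coefAlg T hT
  have hopf := coefAlg_hopf T 1
  haveI : Algebra.FiniteType G (coefAlg T 1) := (coefAlg _ 1).fg_iff_finiteType.mp hopf.fg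
  haveI : IsNoetherianRing (coefAlg T 1) := Algebra.FiniteType.isNoetherianRing G (coefAlg T 1)
  obtain ⟨μ, hμ⟩ : ∃ μ : Measure (GK K), μ = Measure.haar := ⟨_, rfl⟩
  haveI : μ.IsHaarMeasure := hμ ▸ inferInstance
  haveI : μ.Regular := hμ ▸ inferInstance
  obtain ⟨Z, hZ⟩ : ∃ Z : Set (GK K), Z = {x | ∀ i, f i x = 0} ∩ cls U g := ⟨_, rfl⟩
  have hZcl : IsClosed Z := by
    rw [hZ]
    refine IsClosed.inter ?_ (cls_closed U hUo g)
    have h1 : {x | ∀ i, f i x = 0} = ⋂ i, f i ⁻¹' {0} := by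
      ext x
      simp
    rw [h1]
    exact isClosed_iInter fun i => isClosed_singleton.preimage (hcont _ (hf i))
  have hZ0 : μ Z ≠ 0 := by
    obtain ⟨ε, hε, h1⟩ := frequently_of_not h
    refine measure_ne_zero μ (isOpen_univ.measure_pos _ ⟨1, trivial⟩).ne' Z hZcl ?_ _ ∅ ε hε h1 Set.finite_empty ?_
    · intro σ hσ τ
      rw [hZ] at hσ ⊢
      exact ⟨fun i => by rw [hc]; exact hσ.1 i, cls_conj U g σ hσ.2 τ⟩
    · rintro v ⟨σ, h2, h3, h4⟩ -
      refine ⟨σ, ?_, h3⟩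
      rw [hZ]
      exact ⟨h4, 1, by simpa using h2⟩
  -- a coset
  haveI : Finite (GK K ⧸ U) := Subgroup.quotient_finite_of_isOpen U hUo
  haveI : Countable (GK K ⧸ U) := Finite.to_countable
  obtain ⟨q, hq⟩ : ∃ q : GK K ⧸ U, μ (Z ∩ (QuotientGroup.mk : GK K → GK K ⧸ U) ⁻¹' {q}) ≠ 0 := by
    by_contra hcon
    push Not at hcon
    apply hZ0
    have h1 : Z = ⋃ q : GK K ⧸ U, (Z ∩ (QuotientGroup.mk : GK K → GK K ⧸ U) ⁻¹' {q}) := by
      ext y
      rw [Set.mem_iUnion]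
      exact ⟨fun hy => ⟨QuotientGroup.mk y, hy, rfl⟩, fun ⟨_, hy, _⟩ => hy⟩
    rw [h1]
    exact measure_iUnion_null hcon
  obtain ⟨c, hcZ, hcq⟩ : (Z ∩ (QuotientGroup.mk : GK K → GK K ⧸ U) ⁻¹' {q}).Nonempty := by
    by_contra hcon
    rw [Set.not_nonempty_iff_eq_empty] at hcon
    rw [hcon, measure_empty] at hq
    exact hq rfl
  have hcU : ∀ y ∈ U, f i (c * y) = 0 := by
    have h1 := null_zero_on μ (coefAlg T 1) hopf.comul hcont U hUo hconn (lt c (f i))
      ((hopf.comul _ (hf i)).lt_mem c) (by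
        intro h0
        apply hq
        refine measure_mono_null (t := c • ({x | lt c (f i) x = 0} ∩ U)) ?_ ?_
        · rintro y ⟨hyZ, hyq⟩
          rw [Set.mem_smul_set_iff_inv_smul_mem, smul_eq_mul]
          have h2 : (QuotientGroup.mk c : GK K ⧸ U) = QuotientGroup.mk y := by
            rw [Set.mem_preimage, Set.mem_singleton_iff] at hcq hyq
            rw [hcq, hyq]
          refine ⟨?_, QuotientGroup.eq.mp h2⟩
          change f i (c * (c⁻¹ * y)) = 0
          rw [mul_inv_cancel_left]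
          rw [hZ] at hyZ
          exact hyZ.1 i
        · rw [measure_smul]
          exact h0)
    exact h1
  have h1 : c ∈ cls U g := by
    rw [hZ] at hcZ
    exact hcZ.2
  obtain ⟨τ, hτ⟩ := h1
  have h2 : c⁻¹ * (τ⁻¹ * x * τ) ∈ U := by
    have h3 := U.mul_mem (U.inv_mem hτ) hx
    have h4 := hU.conj_mem _ h3 τ⁻¹
    have h5 : τ⁻¹ * ((g⁻¹ * (τ * c * τ⁻¹))⁻¹ * (g⁻¹ * x)) * τ⁻¹⁻¹ = c⁻¹ * (τ⁻¹ * x * τ) := by group
    rwa [h5] at h4
  have h3 := hcU _ h2
  rw [mul_inv_cancel_left] at h3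
  have h4 := hc i (τ⁻¹ * x * τ) τ
  have h5 : τ * (τ⁻¹ * x * τ) * τ⁻¹ = x := by group
  rw [h5, h3] at h4
  exact h4

/-- every class has positive density -/
theorem not_densZero_cls (U : Subgroup (GK K)) [U.Normal] (hU : IsOpen (U : Set (GK K))) (g : GK K) :
    ¬ DensZero {v : HeightOneSpectrum (𝓞 K) | ∃ σ, g⁻¹ * σ ∈ U ∧ IsFrob v σ} := by
  intro h
  have hch := Pool.Agent.Y773.AB.chebK K U hU (cls U g) (fun σ hσ τ => cls_conj U g σ hσ τ)
    (fun σ hσ u hu => cls_mul U g σ u hσ hu)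
  have hall := all_dens (K := K)
  have hfin : Finite (GK K ⧸ U) := Subgroup.quotient_finite_of_isOpen U hU
  have hpos : (0 : ℝ) < ((((QuotientGroup.mk : GK K → GK K ⧸ U) '' (cls U g)).ncard : ℝ) /
      (Nat.card (GK K ⧸ U) : ℝ)) := by
    apply div_pos
    · rw [Nat.cast_pos, Set.ncard_pos (Set.toFinite _)]
      exact ⟨_, g, ⟨1, by simp⟩, rfl⟩
    · rw [Nat.cast_pos]
      exact Nat.card_pos
  have h0 : DensZero {v : HeightOneSpectrum (𝓞 K) | ∃ σ ∈ cls U g, IsFrob v σ} := by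
    refine h.mono ?_
    rintro v ⟨σ, ⟨τ, hτ⟩, hσ⟩
    exact ⟨τ * σ * τ⁻¹, hτ, (Pool.Agent.W401.Frob.main K).2.2 v σ τ hσ⟩
  have h1 : Tendsto (fun N : ℕ => dens (fun v : HeightOneSpectrum (𝓞 K) => ∃ σ ∈ cls U g, IsFrob v σ) N)
      atTop (𝓝 0) := by
    have h2 := h0.mul hall
    rw [zero_mul] at h2
    refine h2.congr' ?_
    have hev : ∀ᶠ N : ℕ in atTop, 1 / 2 < (Nat.card {v : HeightOneSpectrum (𝓞 K) //
        Ideal.absNorm v.asIdeal ≤ N} : ℝ) / (Nat.primeCounting N : ℝ) := hall.eventually (lt_mem_nhds (by norm_num))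
    filter_upwards [hev] with N hN
    have h3 : (Nat.card {v : HeightOneSpectrum (𝓞 K) // Ideal.absNorm v.asIdeal ≤ N} : ℝ) ≠ 0 := by
      intro h4
      rw [h4, zero_div] at hN
      norm_num at hN
    unfold dens
    rw [div_mul_div_cancel₀ h3]
  exact hpos.ne (tendsto_nhds_unique h1 hch)

end

section

variable {K : Type} [Field K] [NumberField K] {F : Type*} [Field F] [CharZero F] [TopologicalSpace F]
  {G : Type*} [Field G] [Algebra F G] [TopologicalSpace G] [IsTopologicalRing G] [T2Space G] [IsAlgClosed G]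

open scoped Classical in
/-- **Positive density suffices, at least half.** -/
theorem half_iff [IsGalois F G] (hFG : Continuous (algebraMap F G)) (N n : ℕ) (V : GK K →* Matrix (Fin N) (Fin N) F)
    (ρ : GK K →* Matrix (Fin n) (Fin n) F) (hV : Continuous V) (hρ : Continuous ρ) (hirr : Irr ρ) :
    ∃ U : Subgroup (GK K), U.Normal ∧ IsOpen (U : Set (GK K)) ∧ (Rigid (bc G (dsum V ρ)) ⊤ → U = ⊤) ∧
      ((∃ a b : ℕ, SubQuot (tens V 1 a b 0) ρ) ↔ ∃ B : ℕ, ∀ g : GK K,
        ¬ DensZero {v : HeightOneSpectrum (𝓞 K) | ∃ σ, g⁻¹ * σ ∈ U ∧ IsFrob v σ ∧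
        n ≤ 2 * Multiset.card ((bc G ρ σ).charpoly.roots.filter fun z => (bigPoly (bc G V) B σ).IsRoot z)}) := by
  have hchar : CharZero G := charZero_of_injective_algebraMap (algebraMap F G).injective
  have hVc := bc_cont (G := G) hFG V hV
  have hρc := bc_cont (G := G) hFG ρ hρ
  have hT : Continuous (bc G (dsum V ρ)) := by
    rw [dsum_bc]
    exact cont_dsum _ _ hVc hρc
  obtain ⟨U, hUn, hUo, hU, hUt⟩ := exists_delta (bc G (dsum V ρ)) hT
  refine ⟨U, hUn, hUo, hUt, ?_⟩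
  constructor
  · rintro ⟨a, b, h⟩
    refine ⟨max a b, fun g hcon => not_densZero_cls U hUo g (hcon.mono ?_)⟩
    rintro v ⟨σ, hσ, hv⟩
    refine ⟨σ, hσ, hv, ?_⟩
    have h2 : (bc G ρ σ).charpoly.roots.filter (fun z => (bigPoly (bc G V) (max a b) σ).IsRoot z) =
        (bc G ρ σ).charpoly.roots := by
      rw [Multiset.filter_eq_self]
      intro z hz
      rw [Polynomial.mem_roots (Matrix.charpoly_monic _).ne_zero] at hz
      obtain ⟨al, be, h2, h3, h4⟩ := geo_conv (G := G) V ρ a b h σ z hz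
      rw [bigPoly_root]
      exact ⟨a, le_max_left _ _, b, le_max_right _ _, al, be, h2, h3, h4⟩
    rw [h2, IsAlgClosed.card_roots_eq_natDegree, Matrix.charpoly_natDegree_eq_dim, Fintype.card_fin]
    omega
  · rintro ⟨B, hB⟩
    obtain ⟨M, hM⟩ : ∃ M : ℕ, M = (n + 1) / 2 := ⟨_, rfl⟩
    have hnM : n ≤ 2 * M := by omega
    have hMle : ∀ c, n ≤ 2 * c → M ≤ c := by intro c hc; omega
    have hmz : ∀ σ : GK K, MZ M (Polynomial.aeval (bc G ρ σ ^ 1) (bc G (bigRep V B) σ ^ 1).charpoly) := by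
      intro σ i hi
      refine spread (bc G (dsum V ρ)) hT U hUo hU (fun (i : Fin M) x =>
        (Polynomial.aeval (bc G ρ x ^ 1) (bc G (bigRep V B) x ^ 1).charpoly).charpoly.coeff i)
        (fun i => coefAlg_big_le V ρ B (coeff_mem_RR (bigRep V B) ρ 1 i)) (fun i x τ => by
          rw [cp_conj]) σ ?_ ⟨i, hi⟩ σ (by
          rw [inv_mul_cancel]
          exact U.one_mem)
      intro hcon
      apply hB σ
      refine hcon.mono ?_
      rintro v ⟨x, hx, hv, hle⟩
      refine ⟨x, hx, hv, ?_⟩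
      have h1 : MZ M (Polynomial.aeval (bc G ρ x ^ 1) (bc G (bigRep V B) x ^ 1).charpoly) := by
        rw [pow_one, pow_one, bigRep_bc]
        apply count_mz
        refine (hMle _ hle).trans (Multiset.card_le_card (Multiset.monotone_filter_right _ ?_))
        intro z hz
        exact bigRep_root (bc G V) B x z hz
      exact fun i => h1 i i.2
    have hmzF : ∀ σ : GK K, MZ M (Polynomial.aeval (ρ σ) (bigRep V B σ).charpoly) := by
      intro σ i hi
      have h1 := hmz σ i hi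
      rw [aeval_bc, Polynomial.coeff_map, pow_one, pow_one] at h1
      exact (map_eq_zero (algebraMap F G)).mp h1
    have hmem : ∀ i j, (fun x => bc G ρ x i j) ∈ coefAlg (bc G V) 1 := by
      intro i j
      have h1 := half_core (G := G) (bigRep V B) ρ hirr M (by rwa [Fintype.card_fin]) hmzF i j
      rw [bigRep_bc] at h1
      exact coefAlg_bigRep_le _ B h1
    exact subQuot_of_bc (G := G) V ρ hirr hmem

end

end Pool.Agent.H40LT
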