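import Mathlib
import Pool.Agent.H40LT.Null2
import Pool.Agent.H40LT.PosK
import Pool.Agent.H40LT.HalfPos
import Pool.Agent.H40LT.Dense

/-!
# At least half of the eigenvalues, for more than a null set of elements in every coset
-/

set_option autoImplicit false
set_option linter.unusedSectionVars false
set_option linter.style.haveILetI false

namespace Pool.Agent.H40LT

open Module Matrix Pool.Agent.H40GO Topology MeasureTheory
open scoped Pointwise

section

variable {G : Type*} [Field G] [TopologicalSpace G] [IsTopologicalRing G] [T2Space G] {Γ : Type*} [Group Γ]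
  [TopologicalSpace Γ] [IsTopologicalGroup Γ] [CompactSpace Γ] [MeasurableSpace Γ] [BorelSpace Γ]

/-- the union of the classes of `g U` -/
def clsG (U : Subgroup Γ) (g : Γ) : Set Γ := {x | ∃ τ : Γ, g⁻¹ * (τ * x * τ⁻¹) ∈ U}

omit [CompactSpace Γ] [MeasurableSpace Γ] [BorelSpace Γ] in
theorem clsG_closed (U : Subgroup Γ) [hU : U.Normal] (hUo : IsOpen (U : Set Γ)) (g : Γ) :
    IsClosed (clsG U g) := by
  rw [← isOpen_compl_iff, isOpen_iff_mem_nhds]
  intro x hx
  have h1 : x • (U : Set Γ) ∈ 𝓝 x := (hUo.smul x).mem_nhds (Set.mem_smul_set_iff_inv_smul_mem.mpr (by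
    rw [smul_eq_mul, inv_mul_cancel]
    exact U.one_mem))
  filter_upwards [h1] with y hy
  rw [Set.mem_smul_set_iff_inv_smul_mem, smul_eq_mul] at hy
  rintro ⟨τ, hτ⟩
  apply hx
  refine ⟨τ, ?_⟩
  have h2 := U.mul_mem hτ (hU.conj_mem _ (U.inv_mem hy) τ)
  have h3 : g⁻¹ * (τ * y * τ⁻¹) * (τ * (x⁻¹ * y)⁻¹ * τ⁻¹) = g⁻¹ * (τ * x * τ⁻¹) := by group
  rwa [h3] at h2

/-- A set is small if it is contained in a closed set of measure zero which is stable under conjugation. -/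
def Small (μ : Measure Γ) (A : Set Γ) : Prop :=
  ∃ Z : Set Γ, IsClosed Z ∧ μ Z = 0 ∧ (∀ x ∈ Z, ∀ τ, τ * x * τ⁻¹ ∈ Z) ∧ A ⊆ Z

theorem spread_null (μ : Measure Γ) [IsFiniteMeasure μ] [μ.IsMulLeftInvariant] [μ.InnerRegularCompactLTTop]
    {k ι : Type*} [Fintype k] [DecidableEq k] (T : Γ →* Matrix k k G) (hT : Continuous T)
    (U : Subgroup Γ) [hU : U.Normal] (hUo : IsOpen (U : Set Γ)) (hconn : ConnOn (coefAlg T 1) U)
    (f : ι → Γ → G) (hf : ∀ i, f i ∈ coefAlg T 1) (hc : ∀ i x τ, f i (τ * x * τ⁻¹) = f i x) (g : Γ)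
    (h : ¬ Small μ {σ | g⁻¹ * σ ∈ U ∧ ∀ i, f i σ = 0}) (i : ι) (x : Γ) (hx : g⁻¹ * x ∈ U) : f i x = 0 := by
  classical
  have hcont := cont_coefAlg T hT
  have hopf := coefAlg_hopf T 1
  haveI : Algebra.FiniteType G (coefAlg T 1) := (coefAlg _ 1).fg_iff_finiteType.mp hopf.fg
  haveI : IsNoetherianRing (coefAlg T 1) := Algebra.FiniteType.isNoetherianRing G (coefAlg T 1)
  obtain ⟨Z, hZ⟩ : ∃ Z : Set Γ, Z = {x | ∀ i, f i x = 0} ∩ clsG U g := ⟨_, rfl⟩
  have hZcl : IsClosed Z := by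
    rw [hZ]
    refine IsClosed.inter ?_ (clsG_closed U hUo g)
    have h1 : {x | ∀ i, f i x = 0} = ⋂ i, f i ⁻¹' {0} := by
      ext x
      simp
    rw [h1]
    exact isClosed_iInter fun i => isClosed_singleton.preimage (hcont _ (hf i))
  have hZ0 : μ Z ≠ 0 := by
    intro h0
    apply h
    refine ⟨Z, hZcl, h0, ?_, ?_⟩
    · intro σ hσ τ
      rw [hZ] at hσ ⊢
      refine ⟨fun i => by rw [hc]; exact hσ.1 i, ?_⟩
      obtain ⟨ν, hν⟩ := hσ.2
      refine ⟨ν * τ⁻¹, ?_⟩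
      have h2 : g⁻¹ * (ν * τ⁻¹ * (τ * σ * τ⁻¹) * (ν * τ⁻¹)⁻¹) = g⁻¹ * (ν * σ * ν⁻¹) := by group
      rw [h2]
      exact hν
    · rintro σ ⟨h2, h4⟩
      rw [hZ]
      exact ⟨h4, 1, by simpa using h2⟩
  -- a coset
  haveI : Finite (Γ ⧸ U) := Subgroup.quotient_finite_of_isOpen U hUo
  haveI : Countable (Γ ⧸ U) := Finite.to_countable
  obtain ⟨q, hq⟩ : ∃ q : Γ ⧸ U, μ (Z ∩ (QuotientGroup.mk : Γ → Γ ⧸ U) ⁻¹' {q}) ≠ 0 := by
    by_contra hcon
    push Not at hcon
    apply hZ0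
    have h1 : Z = ⋃ q : Γ ⧸ U, (Z ∩ (QuotientGroup.mk : Γ → Γ ⧸ U) ⁻¹' {q}) := by
      ext y
      rw [Set.mem_iUnion]
      exact ⟨fun hy => ⟨QuotientGroup.mk y, hy, rfl⟩, fun ⟨_, hy, _⟩ => hy⟩
    rw [h1]
    exact measure_iUnion_null hcon
  obtain ⟨c, hcZ, hcq⟩ : (Z ∩ (QuotientGroup.mk : Γ → Γ ⧸ U) ⁻¹' {q}).Nonempty := by
    by_contra hcon
    rw [Set.not_nonempty_iff_eq_empty] at hcon
    rw [hcon, measure_empty] at hq
    exact hq rfl
  have hcU : ∀ y ∈ U, f i (c * y) = 0 := by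
    have h1 := null_zero_on μ (coefAlg T 1) hopf.comul hcont U hUo hconn (lt c (f i))
      ((hopf.comul _ (hf i)).lt_mem c) (by
        intro h0
        apply hq
        refine measure_mono_null (t := c • ({x | lt c (f i) x = 0} ∩ U)) ?_ ?_
        · rintro y ⟨hyZ, hyq⟩
          rw [Set.mem_smul_set_iff_inv_smul_mem, smul_eq_mul]
          have h2 : (QuotientGroup.mk c : Γ ⧸ U) = QuotientGroup.mk y := by
            rw [Set.mem_preimage, Set.mem_singleton_iff] at hcq hyq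
            rw [hcq, hyq]
          refine ⟨?_, QuotientGroup.eq.mp h2⟩
          change f i (c * (c⁻¹ * y)) = 0
          rw [mul_inv_cancel_left]
          rw [hZ] at hyZ
          exact hyZ.1 i
        · rw [measure_smul]
          exact h0)
    exact h1
  have h1 : c ∈ clsG U g := by
    rw [hZ] at hcZ
    exact hcZ.2
  obtain ⟨τ, hτ⟩ := h1
  have h2 : c⁻¹ * (τ⁻¹ * x * τ) ∈ U := by
    have h3 := U.mul_mem (U.inv_mem hτ) hx
    have h4 := hU.conj_mem _ h3 τ⁻¹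
    have h5 : τ⁻¹ * ((g⁻¹ * (τ * c * τ⁻¹))⁻¹ * (g⁻¹ * x)) * τ⁻¹⁻¹ = c⁻¹ * (τ⁻¹ * x * τ) := by group
    rwa [h5] at h4
  have h3 := hcU _ h2
  rw [mul_inv_cancel_left] at h3
  have h4 := hc i (τ⁻¹ * x * τ) τ
  have h5 : τ * (τ⁻¹ * x * τ) * τ⁻¹ = x := by group
  rw [h5, h3] at h4
  exact h4

end

section

variable {F : Type*} [Field F] [CharZero F] [TopologicalSpace F]
  {G : Type*} [Field G] [Algebra F G] [TopologicalSpace G] [IsTopologicalRing G] [T2Space G] [IsAlgClosed G]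
  {Γ : Type*} [Group Γ]
  [TopologicalSpace Γ] [IsTopologicalGroup Γ] [CompactSpace Γ] [MeasurableSpace Γ] [BorelSpace Γ]

open scoped Classical in
/-- **More than a null set in every coset suffices, at least half.** -/
theorem half_iff_null [IsGalois F G] (hFG : Continuous (algebraMap F G)) (μ : Measure Γ) [IsFiniteMeasure μ]
    [μ.IsMulLeftInvariant] [μ.InnerRegularCompactLTTop] [μ.IsOpenPosMeasure] (S : Set Γ) (hS : Dense S)
    (N n : ℕ) (V : Γ →* Matrix (Fin N) (Fin N) F)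
    (ρ : Γ →* Matrix (Fin n) (Fin n) F) (hV : Continuous V) (hρ : Continuous ρ) (hirr : Irr ρ) :
    ∃ U : Subgroup Γ, U.Normal ∧ IsOpen (U : Set Γ) ∧ (Rigid (bc G (dsum V ρ)) ⊤ → U = ⊤) ∧
      ((∃ a b : ℕ, SubQuot (tens V 1 a b 0) ρ) ↔ ∃ B : ℕ, ∀ g : Γ,
        ¬ Small μ {σ | σ ∈ S ∧ g⁻¹ * σ ∈ U ∧
        n ≤ 2 * Multiset.card ((bc G ρ σ).charpoly.roots.filter fun z => (bigPoly (bc G V) B σ).IsRoot z)}) := by
  have hchar : CharZero G := charZero_of_injective_algebraMap (algebraMap F G).injective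
  have hVc := bc_cont (G := G) hFG V hV
  have hρc := bc_cont (G := G) hFG ρ hρ
  have hT : Continuous (bc G (dsum V ρ)) := by
    rw [dsum_bc]
    exact cont_dsum _ _ hVc hρc
  obtain ⟨U, hUn, hUo, hU, hUt⟩ := exists_delta (bc G (dsum V ρ)) hT
  refine ⟨U, hUn, hUo, hUt, ?_⟩
  constructor
  · rintro ⟨a, b, h⟩
    refine ⟨max a b, fun g hsm => ?_⟩
    obtain ⟨Z, hZc, hZ0, -, hZ⟩ := hsm
    have hsub : g • (U : Set Γ) ⊆ Z := by
      have hgo : IsOpen (g • (U : Set Γ)) := hUo.smul g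
      refine (hS.open_subset_closure_inter hgo).trans (closure_minimal ?_ hZc)
      rintro σ ⟨hσ, hσS⟩
      rw [Set.mem_smul_set_iff_inv_smul_mem, smul_eq_mul] at hσ
      refine hZ ⟨hσS, hσ, ?_⟩
      have h2 : (bc G ρ σ).charpoly.roots.filter (fun z => (bigPoly (bc G V) (max a b) σ).IsRoot z) =
          (bc G ρ σ).charpoly.roots := by
        rw [Multiset.filter_eq_self]
        intro z hz
        rw [Polynomial.mem_roots (Matrix.charpoly_monic _).ne_zero] at hz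
        obtain ⟨al, be, h2, h3, h4⟩ := geo_conv (G := G) V ρ a b h σ z hz
        rw [bigPoly_root]
        exact ⟨a, le_max_left _ _, b, le_max_right _ _, al, be, h2, h3, h4⟩
      rw [h2, IsAlgClosed.card_roots_eq_natDegree, Matrix.charpoly_natDegree_eq_dim, Fintype.card_fin]
      omega
    have hgo : IsOpen (g • (U : Set Γ)) := hUo.smul g
    exact (hgo.measure_pos μ ⟨g, Set.mem_smul_set_iff_inv_smul_mem.mpr (by
      rw [smul_eq_mul, inv_mul_cancel]
      exact U.one_mem)⟩).ne' (measure_mono_null hsub hZ0)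
  · rintro ⟨B, hB⟩
    obtain ⟨M, hM⟩ : ∃ M : ℕ, M = (n + 1) / 2 := ⟨_, rfl⟩
    have hnM : n ≤ 2 * M := by omega
    have hMle : ∀ c, n ≤ 2 * c → M ≤ c := by intro c hc; omega
    have hmz : ∀ σ : Γ, MZ M (Polynomial.aeval (bc G ρ σ ^ 1) (bc G (bigRep V B) σ ^ 1).charpoly) := by
      intro σ i hi
      refine spread_null μ (bc G (dsum V ρ)) hT U hUo hU (fun (i : Fin M) x =>
        (Polynomial.aeval (bc G ρ x ^ 1) (bc G (bigRep V B) x ^ 1).charpoly).charpoly.coeff i)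
        (fun i => coefAlg_big_le V ρ B (coeff_mem_RR (bigRep V B) ρ 1 i)) (fun i x τ => by
          rw [cp_conj]) σ ?_ ⟨i, hi⟩ σ (by
          rw [inv_mul_cancel]
          exact U.one_mem)
      rintro ⟨Z, hZ1, hZ2, hZ3, hZ4⟩
      apply hB σ
      refine ⟨Z, hZ1, hZ2, hZ3, ?_⟩
      rintro x ⟨-, hx, hle⟩
      refine hZ4 ⟨hx, ?_⟩
      have h1 : MZ M (Polynomial.aeval (bc G ρ x ^ 1) (bc G (bigRep V B) x ^ 1).charpoly) := by
        rw [pow_one, pow_one, bigRep_bc]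
        apply count_mz
        refine (hMle _ hle).trans (Multiset.card_le_card (Multiset.monotone_filter_right _ ?_))
        intro z hz
        exact bigRep_root (bc G V) B x z hz
      exact fun i => h1 i i.2
    have hmzF : ∀ σ : Γ, MZ M (Polynomial.aeval (ρ σ) (bigRep V B σ).charpoly) := by
      intro σ i hi
      have h1 := hmz σ i hi
      rw [aeval_bc, Polynomial.coeff_map, pow_one, pow_one] at h1
      exact (map_eq_zero (algebraMap F G)).mp h1
    have hmem : ∀ i j, (fun x => bc G ρ x i j) ∈ coefAlg (bc G V) 1 := by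
      intro i j
      have h1 := half_core (G := G) (bigRep V B) ρ hirr M (by rwa [Fintype.card_fin]) hmzF i j
      rw [bigRep_bc] at h1
      exact coefAlg_bigRep_le _ B h1
    exact subQuot_of_bc (G := G) V ρ hirr hmem

end

end Pool.Agent.H40LT
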